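import Pool.Agent.Lib.MP_d787f3_al.BaseD

set_option autoImplicit false
set_option linter.unusedSectionVars false
set_option linter.unusedVariables false

namespace Pool.Agent.Lib.MP_d787f3_al
open Module Bs

variable {F K W : Type*} [Field F] [Finite F] [Field K] [Algebra F K] [FiniteDimensional F K]
  [AddCommGroup W] [Module F W] [FiniteDimensional F W]

theorem base_sp (bar : K ≃ₐ[F] K) (h1 : bar ≠ 1) (h2 : ∀ u, bar (bar u) = u)
    (BW : W →ₗ[F] W →ₗ[F] F) (aW : BW.IsAlt) (nW : BW.Nondegenerate)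
    (hd : (finrank F W = 0 ∧ 4 ≤ finrank F K ∧ ¬ ((2 : F) = 0 ∧ finrank F K = 6)) ∨
      ((2 : F) = 0 ∧ finrank F K = 4 ∧ finrank F W = 2)) :
    ∃ β : K, β ≠ 0 ∧ bar β = -β ∧ ∀ B : K × W →ₗ[F] K × W →ₗ[F] F,
      (∀ u w u' w', B (u, w) (u', w') = Algebra.trace F K (β * (bar u * u')) + BW w w') →
      ∃ g ∈ isom B, ∀ z ∈ isom B, NT z → NT (g⁻¹ * z * g) → ∃ c : F, ∀ v, z v = c • v := by
  classical
  obtain ⟨δ, co, hδ, hco⟩ := exists_normal (F := F) (K := K)
  have co1 : ∀ θ, co θ δ = if 1 = θ then 1 else 0 := fun θ => hco θ 1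
  have co2 : ∀ θ a b : K ≃ₐ[F] K, co θ (a (b δ)) = if a * b = θ then 1 else 0 :=
    fun θ a b => hco θ (a * b)
  have hb2 : bar ^ 2 = 1 := AlgEquiv.ext h2
  by_cases c2 : (2 : F) = 0
  swap
  · obtain ⟨hW, hd, -⟩ := hd.resolve_right fun h => c2 h.1
    have : Subsingleton W := finrank_zero_iff.1 hW
    have hβ' : bar (δ - bar δ) = -(δ - bar δ) := by rw [map_sub, h2, neg_sub]
    have hst : ∀ θ : K ≃ₐ[F] K, θ (δ - bar δ) = δ - bar δ → θ = 1 := by
      intro θ hθ
      by_contra h3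
      have h4 := congrArg (co θ) hθ
      simp only [map_sub, co1, co2, hco, mul_eq_left, h1, Ne.symm h3, if_true, if_false] at h4
      split_ifs at h4
      · exact c2 (by linear_combination h4)
      · simp at h4
    have hβ : δ - bar δ ≠ 0 := fun h => h1 (hst _ (by rw [h, map_zero]))
    refine ⟨_, hβ, hβ', fun B hB => ?_⟩
    generalize δ - bar δ = β at *
    have hB' : ∀ u w u', B (u, w) (u', 0) = Algebra.trace F K (β * (bar u * u')) := by simp [hB]
    have hs : ∀ u, B u (1, 0) = -1 * RingHom.id F (B (1, 0) u) := fun ⟨u, w⟩ => by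
      rw [hB', hB, ← tr_alg bar]
      simp [hβ', h2]
    obtain ⟨g, hgi, hg⟩ := exists_g1 B (1, 0) (ε := -1) (c := 1) (by simp) one_ne_zero hs (by
      have := hs (1, 0)
      rw [RingHom.id_apply] at this
      simpa using mul_left_cancel₀ c2 (show 2 * B (1, 0) (1, 0) = 2 * 0 by linear_combination this))
    refine ⟨g, hgi, main1 (σ := RingHom.id F) (bar := (bar : K →+* K)) h2 bar.commutes hβ hst hB'
      (fun w => ⟨0, Subsingleton.elim _ _⟩) one_ne_zero hg hgi (by omega) fun a θ h3 h4 => ?_⟩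
    have h5 := fix_dim a θ
    have h6 : 0 < orderOf θ := by
      have := finK F K
      exact orderOf_pos θ
    by_contra h7
    have h8 : orderOf θ = 2 := by
      by_contra h8
      have := (Nat.mul_le_mul_left _ (show 3 ≤ orderOf θ by
        have := mt orderOf_eq_one_iff.1 h7
        omega)).trans h5
      omega
    obtain rfl : θ = bar :=
      (invol_eq h1 hb2 (by rw [← h8, pow_orderOf_eq_one])).resolve_left h7
    obtain ⟨u, h9, h10⟩ := Submodule.exists_mem_ne_zero_of_ne_bot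
      (p := LinearMap.ker (Dm a θ)) (fun hh => by rw [hh, finrank_bot] at h4; omega)
    rw [LinearMap.mem_ker, Dm_apply, sub_eq_zero] at h9
    have h11 := congrArg θ h9
    rw [map_mul, h2] at h11
    have h12 : a * θ a = -1 := mul_left_cancel₀ hβ (by rw [mul_neg_one]; exact h3.trans hβ')
    have c3 : (2 : K) ≠ 0 := by
      rw [← map_ofNat (algebraMap F K) 2]
      exact (map_ne_zero _).2 c2
    exact h10 (mul_left_cancel₀ c3 (by linear_combination -(a * h11) - h9 + u * h12))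
  have c3 : (2 : K) = 0 := by rw [← map_ofNat (algebraMap F K) 2, c2, map_zero]
  obtain ⟨s, hs⟩ := exists_gen (F := F) (K := K)
  obtain ⟨s1, -, s2, -⟩ := gen_facts (s := s) h2 (by omega)
  have hβ' : bar (δ + bar δ) = δ + bar δ := by rw [map_add, h2, add_comm]
  have hst : ∀ θ : K ≃ₐ[F] K, θ (δ + bar δ) = δ + bar δ → θ = 1 ∨ θ = bar := by
    intro θ hθ
    by_contra h3
    push Not at h3
    have h4 := congrArg (co θ) hθ
    simp [co1, co2, hco, h1, h3.1.symm, h3.2.symm] at h4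
  have hβ : δ + bar δ ≠ 0 := fun h => by simpa [s1, s2] using hst s (by rw [h, map_zero])
  have hη : δ / (δ + bar δ) + bar (δ / (δ + bar δ)) = 1 := by
    rw [map_div₀, hβ', ← add_div, div_self hβ]
  have hc : co s (δ + bar δ) = 0 := by simp [co1, hco, s1.symm, s2.symm]
  refine ⟨_, hβ, by linear_combination hβ' + (δ + bar δ) * c3, fun B hB => ?_⟩
  generalize δ + bar δ = β at *
  obtain ⟨eW, fW, hsp⟩ : ∃ eW fW : W, ∀ w, ∃ t t' : F, w = t • eW + t' • fW := by
    rcases hd with hd | hd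
    · have : Subsingleton W := finrank_zero_iff.1 hd.1
      exact ⟨0, 0, fun w => ⟨0, 0, Subsingleton.elim _ _⟩⟩
    · obtain ⟨eW, fW, -, h⟩ := span_two hd.2.2
      exact ⟨eW, fW, h⟩
  have hsy : ∀ u v, B u v = B v u := fun ⟨u, w⟩ ⟨u', w'⟩ => by
    rw [hB, hB, ← tr_alg bar, map_mul bar, map_mul bar, hβ', h2, mul_comm u, ← aW.neg w w']
    linear_combination BW w w' * c2
  have hal : ∀ u, B u u = 0 := fun ⟨u, w⟩ => by
    rw [hB, aW, tr_fix h2 hη (by rw [map_mul, map_mul, h2, hβ', mul_comm u]), c2]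
    simp
  set y := s δ - δ + (-BW eW fW / Algebra.trace F K δ) • δ with hy
  have hφ := not_alg (y := y) hβ hβ' (co s) hc (by
    simp [hy, co1, co2, hco, h1, s1.symm, s2.symm])
  have ef : B (1, eW) (y / β, fW) = 0 := by
    rw [hB, map_one, one_mul, mul_div_cancel₀ _ hβ, hy, map_add, map_sub, tr_alg, map_smul,
      smul_eq_mul, div_mul_cancel₀ _ hδ]
    ring
  have ff : B (y / β, fW) (y / β, fW) = 2 * 1 := by rw [hal, c2, zero_mul]
  obtain ⟨g, hgi, hg⟩ := exists_g2 B hsy (hal _) ef ff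
  refine ⟨g, hgi, main2 h1 h2 hβ hβ' hst (by simp [hB]) hφ hsp one_ne_zero (hal _) ef
    (by rw [hsy, ef]) ff hg hgi (.inr ⟨c2, ?_⟩)⟩
  have h3 : 2 ∣ finrank F K := by
    have := orderOf_dvd_natCard bar
    rwa [card_gal, orderOf_eq_prime hb2 h1] at this
  simp only [c2, true_and] at hd
  omega

theorem base_o (bar : K ≃ₐ[F] K) (h1 : bar ≠ 1) (h2 : ∀ u, bar (bar u) = u) (η : K)
    (hη : η + bar η = 1) (N : QuadraticForm F W) (aN : N.Anisotropic)
    (nN : N.polarBilin.Nondegenerate) (hW : finrank F W ≤ 2) (hd : 6 ≤ finrank F K)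
    (h7 : 7 ≤ finrank F K + finrank F W) (hx : ¬ (Nat.card F = 2 ∧ finrank F K = 6)) :
    ∃ (β : K) (c : F), β ≠ 0 ∧ bar β = β ∧ c ≠ 0 ∧ ∀ Q : QuadraticForm F (K × W),
      (∀ u w, Q (u, w) = Algebra.trace F K (η * β * (bar u * u)) + c * N w) →
      ∃ g ∈ orth Q, ∀ z ∈ orth Q, NT z → NT (g⁻¹ * z * g) → ∃ c : F, ∀ v, z v = c • v := by
  classical
  obtain ⟨δ, co, hδ, hco⟩ := exists_normal (F := F) (K := K)
  have co1 : ∀ θ, co θ δ = if 1 = θ then 1 else 0 := fun θ => hco θ 1
  have co2 : ∀ θ a b : K ≃ₐ[F] K, co θ (a (b δ)) = if a * b = θ then 1 else 0 :=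
    fun θ a b => hco θ (a * b)
  have co3 : ∀ θ a b c : K ≃ₐ[F] K, co θ (a (b (c δ))) = if a * b * c = θ then 1 else 0 :=
    fun θ a b c => hco θ (a * b * c)
  have hbb : bar * bar = 1 := AlgEquiv.ext h2
  obtain ⟨s, hs⟩ := exists_gen (F := F) (K := K)
  obtain ⟨s1, s2, s3, s4⟩ := gen_facts (s := s) h2 (by omega)
  have s5 : s * s ≠ bar := fun h => pow_ne_one_of_lt_orderOf (x := s) (n := 4) (by omega) (by omega)
    (by rw [← hbb, ← h]; rfl)
  have s6 : bar * s ≠ 1 := by rwa [gal_comm]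
  have s7 : bar * s ≠ s * s := fun h => s3 (mul_right_cancel h).symm
  obtain ⟨β, c, eW, fW, hβ', hc, hst, hss, ee, hsp, hp, hW'⟩ : ∃ (β : K) (c : F) (eW fW : W),
      bar β = β ∧ c ≠ 0 ∧ (∀ θ : K ≃ₐ[F] K, θ β = β → θ = 1 ∨ θ = bar) ∧ co (s * s) β = 0 ∧
      Algebra.trace F K (η * β) + c * N eW = 0 ∧ (∀ w, ∃ t t' : F, w = t • eW + t' • fW) ∧
      ((2 : F) ≠ 0 → N.polarBilin eW fW = 0) ∧ (finrank F W = 2 ∨ (eW = 0 ∧ finrank F W ≤ 1)) := by
    by_cases h3 : finrank F W = 2
    · obtain ⟨eW, fW, h4, hsp⟩ := span_two h3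
      have h5 : N eW ≠ 0 := mt (aN eW) h4
      refine ⟨δ + bar δ, -Algebra.trace F K δ / N eW, eW, fW - (N.polarBilin eW fW / (2 * N eW)) • eW,
        by rw [map_add, h2, add_comm], by simp [hδ, h5], fun θ hθ => ?_,
        by simp [co1, hco, s2.symm, s5.symm], by rw [tr_eta h2 hη, div_mul_cancel₀ _ h5]; ring,
        fun w => ?_, fun c2 => ?_, .inl h3⟩
      · by_contra h3
        push Not at h3
        have h4 := congrArg (co θ) hθ
        simp [co1, co2, hco, h1, h3.1.symm, h3.2.symm] at h4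
      · obtain ⟨t, t', rfl⟩ := hsp w
        exact ⟨t + t' * (N.polarBilin eW fW / (2 * N eW)), t', by module⟩
      · rw [map_sub, map_smul, QuadraticMap.polarBilin_apply_apply N eW eW, QuadraticMap.polar_self,
          smul_eq_mul, two_nsmul, ← two_mul, div_mul_cancel₀ _ (mul_ne_zero c2 h5), sub_self]
    · obtain ⟨fW, hf⟩ := finrank_le_one_iff.1 (show finrank F W ≤ 1 by omega)
      have h4 : bar (s δ) = s (bar δ) := alg_comm (s : K →+* K) bar δ
      refine ⟨s δ - δ + bar (s δ - δ), 1, 0, fW, by rw [map_add, h2, add_comm], one_ne_zero,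
        fun θ hθ => ?_, by simp [co1, co2, hco, s1, s2.symm, s5.symm, s7],
        by rw [tr_eta h2 hη, map_sub, tr_alg]; simp, fun w => ?_, fun _ => by simp,
        .inr ⟨rfl, by omega⟩⟩
      · by_contra h3
        push Not at h3
        have h5 := congrArg (co θ) hθ
        have h6 := congrArg (co (θ * s)) hθ
        have h8 : bar * s ≠ θ * s := fun h => h3.2 (mul_right_cancel h).symm
        by_cases h9 : s = θ
        · subst h9
          simp [co1, co2, co3, hco, h1, s1, s2.symm, s5.symm, s7, s3.symm] at h6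
        by_cases h10 : bar * s = θ
        · have h11 : 1 ≠ θ * s := fun h => s5 (by
            rw [← mul_one bar, h, ← h10, mul_assoc bar, ← mul_assoc bar, hbb, one_mul])
          have h12 : bar ≠ θ * s := fun h => s2 (by
            rw [← h10, mul_assoc] at h
            exact (mul_eq_left.1 h.symm))
          simp [co1, co2, co3, hco, h1, s1, s3.symm, h11, h12, h8, h3.1, mul_assoc] at h6
        simp [co1, co2, co3, hco, h1, s1, h3.1.symm, h3.2.symm, h9, h10, mul_assoc, s6] at h5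
      · obtain ⟨t, rfl⟩ := hf w
        exact ⟨0, t, by simp⟩
  have hsβ : s β ≠ β := fun h => by simpa [s1, s3] using hst s h
  have hβ : β ≠ 0 := fun h => hsβ (by rw [h, map_zero])
  obtain ⟨φ, hφ, ef, ff⟩ : ∃ φ : K, (∀ t, bar φ - φ ≠ algebraMap F K t) ∧
      Algebra.trace F K (β * φ) + c * N.polarBilin eW fW = 0 ∧
      Algebra.trace F K (η * β * (bar φ * φ)) + c * N fW ≠ 0 := by
    by_cases c2 : (2 : F) = 0
    · set y := s (s δ) + (-(c * N.polarBilin eW fW) / Algebra.trace F K δ - 1) • δ with hy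
      have h3 : Algebra.trace F K y = -(c * N.polarBilin eW fW) := by
        rw [hy, map_add, tr_alg, tr_alg, map_smul, smul_eq_mul, sub_mul, div_mul_cancel₀ _ hδ]
        ring
      obtain ⟨φ, κ, h4, h5, h6⟩ := exists_phi h2 c2 hη hβ hβ' (a := (y + (s δ - δ)) / β)
        (b := y / β) (fun h => by
          rw [← sub_div, map_div₀, hβ', div_left_inj' hβ, add_sub_cancel_left] at h
          have := congrArg (co 1) h
          simp [co1, co2, hco, h1, s1, s6] at this) (c * N fW)
      have h8 : Algebra.trace F K (β * κ) = 0 := by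
        rw [tr_fix h2 hη (by rw [map_mul, hβ', h5]), c2, zero_mul]
      refine ⟨φ + κ, fun t => ?_, ?_, h6⟩
      · rw [map_add, h5, add_sub_add_right_eq_sub]
        rcases h4 with rfl | rfl
        · exact not_alg hβ hβ' _ hss (by
            simp [hy, co1, co2, co3, hco, h1, s1, s2.symm, s5.symm, s7, mul_assoc]) t
        · exact not_alg hβ hβ' _ hss (by
            simp [hy, co1, co2, co3, hco, h1, s1, s2.symm, s5.symm, s7, mul_assoc]) t
      · rw [mul_add, map_add, h8]
        rcases h4 with rfl | rfl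
        · rw [mul_div_cancel₀ _ hβ, map_add, h3, map_sub, tr_alg]
          ring
        · rw [mul_div_cancel₀ _ hβ, h3]
          ring
    · obtain ⟨φ, h3, h4, h5⟩ := exists_iota h2 c2 hη hβ hβ'
        (fun h => hsβ (by rw [← sub_eq_zero.1 h, map_one]))
        (fun h => hsβ (by rw [← neg_eq_of_add_eq_zero_right h, map_neg, map_one]))
        (ι := δ - bar δ) (fun h => by simpa [co1, hco, h1] using congrArg (co 1) h)
        (by rw [map_sub, h2, neg_sub]) (c * N fW)
      have c3 : (2 : K) ≠ 0 := by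
        rw [← map_ofNat (algebraMap F K) 2]
        exact (map_ne_zero _).2 c2
      refine ⟨φ, fun t ht => h3 ?_, ?_, h5⟩
      · have h6 := congrArg bar ht
        rw [map_sub, h2, AlgEquiv.commutes, h4] at h6
        rw [h4] at ht
        exact mul_left_cancel₀ (mul_ne_zero c3 c3) (by linear_combination h6 - ht)
      · have h6 := tr_alg bar (β * φ)
        rw [map_mul bar, hβ', h4, mul_neg, map_neg] at h6
        rw [hp c2]
        exact mul_left_cancel₀ c2 (by linear_combination -h6)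
  refine ⟨β, c, hβ, hβ', hc, fun Q hQ => ?_⟩
  have hB : ∀ u w u' w', Q.polarBilin (u, w) (u', w') =
      Algebra.trace F K (β * (bar u * u')) + c * N.polarBilin w w' := by
    intro u w u' w'
    have h3 : Algebra.trace F K (η * β * (bar (u + u') * (u + u'))) =
        Algebra.trace F K (η * β * (bar u * u)) + Algebra.trace F K (η * β * (bar u' * u')) +
          Algebra.trace F K (β * (bar u * u')) := by
      rw [← tr_eta h2 hη (β * (bar u * u')), ← map_add, ← map_add]
      simp only [map_add bar, map_mul bar, h2, hβ']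
      congr 1
      ring
    simp only [QuadraticMap.polarBilin_apply_apply, QuadraticMap.polar, Prod.mk_add_mk, hQ, h3]
    ring
  have hsy : ∀ u v, Q.polarBilin u v = Q.polarBilin v u := QuadraticMap.polar_comm Q
  have hdi : ∀ u, Q.polarBilin u u = 2 * Q u := fun u => by
    rw [QuadraticMap.polarBilin_apply_apply, QuadraticMap.polar_self, two_nsmul, two_mul]
  have qe : Q (1, eW) = 0 := by rwa [hQ, map_one, mul_one, mul_one]
  have ee' : Q.polarBilin (1, eW) (1, eW) = 0 := by rw [hdi, qe, mul_zero]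
  have ef' : Q.polarBilin (1, eW) (φ, fW) = 0 := by rwa [hB, map_one, one_mul]
  obtain ⟨g, hgi, hg⟩ := exists_g2 Q.polarBilin hsy ee' ef' (hdi _)
  refine ⟨g, fun v => by rw [hg]; exact eichler Q qe ef' v, fun z hz => ?_⟩
  refine main2 h1 h2 hβ hβ' hst (by simp only [hB]; simp) hφ hsp (by rwa [hQ]) ee' ef'
    (by rw [hsy, ef']) (hdi _) hg hgi ?_ z fun u v => ?_
  · by_cases c2 : (2 : F) = 0
    · exact .inr ⟨c2, by omega⟩
    · exact .inl ⟨c2, hW'.imp (fun h => ⟨h, by omega⟩) fun h => ⟨h.1, h.2, by omega⟩⟩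
  · have hz' : ∀ v, Q (z v) = Q v := hz
    simp only [QuadraticMap.polarBilin_apply_apply, QuadraticMap.polar, ← map_add z, hz']

theorem base_u {σ : F →+* F} (hσ : σ ≠ RingHom.id F) (bar : K →+* K) (h2 : ∀ u, bar (bar u) = u)
    (hb : ∀ c, bar (algebraMap F K c) = algebraMap F K (σ c)) (hd : 3 ≤ finrank F K)
    (ho : Odd (finrank F K)) :
    ∃ β : K, β ≠ 0 ∧ bar β = β ∧ ∀ B : K × F →ₛₗ[σ] K × F →ₗ[F] F,
      (∀ u w u' w', B (u, w) (u', w') = Algebra.trace F K (β * (bar u * u')) + σ w * w') →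
      ∃ g ∈ isom B, ∀ z ∈ isom B, NT z → NT (g⁻¹ * z * g) → ∃ c : F, ∀ v, z v = c • v := by
  have := finK F K
  obtain ⟨c, hc⟩ : ∃ c, c - σ c ≠ 0 := by
    by_contra h
    push Not at h
    exact hσ (RingHom.ext fun c => (sub_eq_zero.1 (h c)).symm)
  have σ2 : ∀ x, σ (σ x) = x := fun x => (algebraMap F K).injective (by rw [← hb, ← hb, h2])
  obtain ⟨⟨γ, hγ⟩, hγ'⟩ := IsCyclic.exists_monoid_generator
    (α := (Units.map (bar : K →* K)).eqLocus (MonoidHom.id _))
  have hβ' : bar γ = γ := congrArg Units.val hγ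
  have hst : ∀ θ : K ≃ₐ[F] K, θ γ = γ → θ = 1 := by
    intro θ hθ
    have h3 : ∀ x, bar x = x → θ x = x := by
      intro x hx
      by_cases h0 : x = 0
      · rw [h0, map_zero]
      obtain ⟨n, hn⟩ := hγ' ⟨Units.mk0 x h0, Units.ext hx⟩
      have h4 : (γ : K) ^ n = x := by simpa using congrArg (fun y => ((y.1 : Kˣ) : K)) hn
      rw [← h4, map_pow, hθ]
    refine AlgEquiv.ext fun u => ?_
    have h4 : algebraMap F K c - algebraMap F K (σ c) ≠ 0 := by
      rw [← map_sub]
      exact (map_ne_zero _).2 hc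
    set y := (u - bar u) / (algebraMap F K c - algebraMap F K (σ c)) with hy
    have h5 : bar y = y := by
      rw [hy, map_div₀, map_sub, map_sub, hb, hb, σ2, h2, ← neg_div_neg_eq, neg_sub, neg_sub]
    have h6 := h3 (u - algebraMap F K c * y) (by
      rw [map_sub, map_mul, hb, h5]
      linear_combination (div_mul_cancel₀ (u - bar u) h4))
    rw [map_sub, map_mul, AlgEquiv.commutes, h3 y h5] at h6
    exact sub_left_injective h6
  refine ⟨γ, γ.ne_zero, hβ', fun B hB => ?_⟩
  have hs : ∀ u, B u (1, 1) = 1 * σ (B (1, 1) u) := fun ⟨u, w⟩ => by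
    rw [hB, hB, map_add, ← tr_bar bar hb]
    simp [hβ']
  obtain ⟨s, s0, hs'⟩ : ∃ s, s ≠ 0 ∧ s + σ s + B (1, 1) (1, 1) = 0 := by
    by_cases h : B (1, 1) (1, 1) = 0
    · exact ⟨c - σ c, hc, by simp [h, σ2]⟩
    have h3 : -B (1, 1) (1, 1) * (c / (c - σ c)) + σ (-B (1, 1) (1, 1) * (c / (c - σ c))) +
        B (1, 1) (1, 1) = 0 := by
      rw [map_mul, map_neg, ← one_mul (σ (B _ _)), ← hs, map_div₀, map_sub, σ2, ← neg_sub c]
      field_simp
      ring
    exact ⟨_, fun hh => h (by simpa [hh] using h3), h3⟩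
  obtain ⟨g, hgi, hg⟩ := exists_g1 B (1, 1) one_ne_zero (inv_ne_zero s0) hs (by
    have : σ s ≠ 0 := (map_ne_zero _).2 s0
    rw [map_inv₀]
    field_simp
    linear_combination hs')
  refine ⟨g, hgi, main1 h2 hb γ.ne_zero hst (by simp [hB]) (fun w => ⟨w, by simp⟩) (inv_ne_zero s0)
    hg hgi (by omega) fun a θ _ h4 => ?_⟩
  have h5 := fix_dim a θ
  have h6 := orderOf_pos θ
  rw [finrank_self] at h4
  by_contra h7
  have := (Nat.mul_le_mul_left _ (show 2 ≤ orderOf θ by
    have := mt orderOf_eq_one_iff.1 h7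
    omega)).trans h5
  omega

end Pool.Agent.Lib.MP_d787f3_al
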