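import Pool.Agent.Lib.MP_d787f3_al.NT

set_option autoImplicit false
set_option linter.unusedSectionVars false

namespace Pool.Agent.Lib.MP_d787f3_al.Bs
open Module

theorem finK (F K : Type*) [Field F] [Finite F] [Field K] [Algebra F K] [FiniteDimensional F K] :
    Finite K := Module.finite_of_finite F

variable {F K : Type*} [Field F] [Finite F] [Field K] [Algebra F K] [FiniteDimensional F K]

theorem hom_comm {K : Type*} [Field K] [Finite K] (f g : K →+* K) (u : K) : f (g u) = g (f u) := by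
  obtain ⟨x, hx⟩ := IsCyclic.exists_monoid_generator (α := Kˣ)
  have key : ∀ y : K, y ≠ 0 → ∃ n : ℕ, y = (x : K) ^ n := by
    intro y hy
    obtain ⟨n, hn⟩ := hx (Units.mk0 y hy)
    exact ⟨n, by simpa using (congrArg Units.val hn).symm⟩
  by_cases hu : u = 0
  · simp [hu]
  obtain ⟨n, rfl⟩ := key u hu
  obtain ⟨a, ha⟩ := key (f x) (by simp)
  obtain ⟨b, hb⟩ := key (g x) (by simp)
  simp only [map_pow, ha, hb]
  ring

theorem alg_comm (bar : K →+* K) (θ : K ≃ₐ[F] K) (u : K) : θ (bar u) = bar (θ u) := by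
  have := finK F K
  exact hom_comm (θ : K →+* K) bar u

theorem tr_alg (θ : K ≃ₐ[F] K) (x : K) : Algebra.trace F K (θ x) = Algebra.trace F K x :=
  Algebra.trace_eq_of_algEquiv θ x

theorem tr_bar {σ : F →+* F} (bar : K →+* K)
    (hb : ∀ c, bar (algebraMap F K c) = algebraMap F K (σ c)) (x : K) :
    Algebra.trace F K (bar x) = σ (Algebra.trace F K x) := by
  have := finK F K
  apply (algebraMap F K).injective
  rw [← hb, trace_eq_sum_automorphisms, trace_eq_sum_automorphisms, map_sum]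
  exact Finset.sum_congr rfl fun θ _ => alg_comm bar θ x

theorem tr_nondeg {x : K} (h : ∀ u, Algebra.trace F K (x * u) = 0) : x = 0 := by
  have := finK F K
  exact (traceForm_nondegenerate F K).1 x h

theorem card_gal : Nat.card (K ≃ₐ[F] K) = finrank F K := by
  have := finK F K
  exact IsGalois.card_aut_eq_finrank F K

theorem invol_eq {bar θ : K ≃ₐ[F] K} (h1 : bar ≠ 1) (h2 : bar ^ 2 = 1) (h3 : θ ^ 2 = 1) :
    θ = 1 ∨ θ = bar := by
  classical
  have := finK F K
  by_contra hc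
  push Not at hc
  have h4 := IsCyclic.card_pow_eq_one_le (α := K ≃ₐ[F] K) (n := 2) (by omega)
  have h5 : ({1, bar, θ} : Finset (K ≃ₐ[F] K)) ⊆ Finset.univ.filter (fun a => a ^ 2 = 1) := by
    intro x hx
    simp only [Finset.mem_insert, Finset.mem_singleton] at hx
    rcases hx with rfl | rfl | rfl <;> simp [*]
  have h6 := (Finset.card_le_card h5).trans h4
  rw [Finset.card_eq_three.2 ⟨_, _, _, h1.symm, hc.1.symm, hc.2.symm, rfl⟩] at h6
  omega

theorem exists_gen : ∃ s : K ≃ₐ[F] K, orderOf s = finrank F K := by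
  have := finK F K
  obtain ⟨s, hs⟩ := IsCyclic.exists_generator (α := K ≃ₐ[F] K)
  exact ⟨s, by rw [orderOf_eq_card_of_forall_mem_zpowers hs, card_gal]⟩

/-- the map `u ↦ a θ(u) - u` -/
noncomputable def Dm (a : K) (θ : K ≃ₐ[F] K) : K →ₗ[F] K :=
  (LinearMap.mulLeft F a) ∘ₗ θ.toLinearMap - LinearMap.id

theorem Dm_apply (a : K) (θ : K ≃ₐ[F] K) (u : K) : Dm a θ u = a * θ u - u := rfl

theorem fix_dim (a : K) (θ : K ≃ₐ[F] K) :
    finrank F (LinearMap.ker (Dm a θ)) * orderOf θ ≤ finrank F K := by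
  by_cases h : LinearMap.ker (Dm a θ) = ⊥
  · rw [h]
    simp
  obtain ⟨u0, h0, h1⟩ := Submodule.exists_mem_ne_zero_of_ne_bot h
  have h2 := finrank_mul_finrank F (IntermediateField.fixedField (Subgroup.zpowers θ)) K
  rw [IntermediateField.finrank_fixedField_eq_card, Nat.card_zpowers] at h2
  rw [← h2]
  refine Nat.mul_le_mul_right _ ?_
  rw [LinearMap.mem_ker, Dm_apply, sub_eq_zero] at h0
  have hm : ∀ u : LinearMap.ker (Dm a θ), u0⁻¹ * u.1 ∈
      (IntermediateField.fixedField (Subgroup.zpowers θ)).toSubalgebra.toSubmodule := by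
    rintro ⟨u, hu⟩
    rw [LinearMap.mem_ker, Dm_apply, sub_eq_zero] at hu
    have h3 : θ (u0⁻¹ * u) = u0⁻¹ * u := by
      have h4 : θ u0 ≠ 0 := by simpa using h1
      have h5 : a ≠ 0 := fun hh => h1 (by rw [← h0, hh, zero_mul])
      rw [map_mul, map_inv₀]
      conv_rhs => rw [← h0, ← hu]
      field_simp
    change u0⁻¹ * u ∈ IntermediateField.fixedField (Subgroup.zpowers θ)
    rw [IntermediateField.mem_fixedField_iff]
    intro f hf
    exact MulAction.mem_stabilizer_iff.1 ((Subgroup.zpowers_le (H := MulAction.stabilizer _ _)).2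
      (MulAction.mem_stabilizer_iff.2 h3) hf)
  refine LinearMap.finrank_le_finrank_of_injective (f := LinearMap.codRestrict _
    ((LinearMap.mulLeft F u0⁻¹) ∘ₗ (LinearMap.ker (Dm a θ)).subtype) hm) ?_
  intro u v huv
  have := congrArg Subtype.val huv
  exact Subtype.ext (mul_left_cancel₀ (inv_ne_zero h1) this)

open Classical in
/-- a normal basis generator with its coordinate functionals -/
theorem exists_normal : ∃ (δ : K) (co : (K ≃ₐ[F] K) → K →ₗ[F] F), Algebra.trace F K δ ≠ 0 ∧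
    ∀ θ τ : K ≃ₐ[F] K, co θ (τ δ) = if τ = θ then 1 else 0 := by
  have := finK F K
  have key : ∀ θ τ : K ≃ₐ[F] K, (IsGalois.normalBasis F K).coord θ
      (τ (IsGalois.normalBasis F K 1)) = if τ = θ then 1 else 0 := by
    intro θ τ
    rw [← IsGalois.normalBasis_apply, Basis.coord_apply, Basis.repr_self, Finsupp.single_apply]
  refine ⟨IsGalois.normalBasis F K 1, (IsGalois.normalBasis F K).coord, fun h => ?_, key⟩
  have h1 := trace_eq_sum_automorphisms (K := F) (IsGalois.normalBasis F K 1)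
  have h2 := congrArg ((IsGalois.normalBasis F K).coord 1) h1
  rw [h, map_zero, map_zero, map_sum] at h2
  simp only [key] at h2
  simp at h2

variable {W : Type*} [AddCommGroup W] [Module F W] [FiniteDimensional F W]

def NTd (z : (K × W) ≃ₗ[F] (K × W)) (a : K) (θ : K ≃ₐ[F] K) : Prop :=
  (∀ u, z (u, 0) = (a * θ u, 0)) ∧ ∀ w, (z (0, w)).1 = 0

theorem NTd.ne {z : (K × W) ≃ₗ[F] (K × W)} {a : K} {θ : K ≃ₐ[F] K} (h : NTd z a θ) : a ≠ 0 := by
  rintro rfl
  have := h.1 1
  rw [zero_mul] at this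
  exact one_ne_zero (Prod.mk.inj (z.map_eq_zero_iff.1 this)).1

theorem NTd.fst {z : (K × W) ≃ₗ[F] (K × W)} {a : K} {θ : K ≃ₐ[F] K} (h : NTd z a θ) (u : K)
    (w : W) : (z (u, w)).1 = a * θ u := by
  rw [show (u, w) = (u, 0) + (0, w) by simp, map_add, Prod.fst_add, h.1, h.2, add_zero]

theorem NTd.mul {z z' : (K × W) ≃ₗ[F] (K × W)} {a a' : K} {θ θ' : K ≃ₐ[F] K} (h : NTd z a θ)
    (h' : NTd z' a' θ') : NTd (z * z') (a * θ a') (θ * θ') := by
  refine ⟨fun u => ?_, fun w => ?_⟩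
  · rw [LinearEquiv.mul_apply, h'.1, h.1, map_mul, mul_assoc]
    rfl
  · rw [LinearEquiv.mul_apply, ← Prod.mk.eta (p := z' (0, w)), h.fst, h'.2, map_zero, mul_zero]

theorem NTd.inv {z : (K × W) ≃ₗ[F] (K × W)} {a : K} {θ : K ≃ₐ[F] K} (h : NTd z a θ) :
    NTd z⁻¹ (θ.symm a⁻¹) θ.symm := by
  refine ⟨fun u => ?_, fun w => ?_⟩
  · apply z.injective
    rw [h.1, ← map_mul, θ.apply_symm_apply, mul_inv_cancel_left₀ h.ne]
    exact z.apply_symm_apply _
  · have h1 := h.fst (z⁻¹ (0, w)).1 (z⁻¹ (0, w)).2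
    rw [Prod.mk.eta, show z (z⁻¹ (0, w)) = (0, w) from z.apply_symm_apply _] at h1
    simpa [h.ne] using h1.symm

theorem NTd.pow {z : (K × W) ≃ₗ[F] (K × W)} {a : K} {θ : K ≃ₐ[F] K} (h : NTd z a θ) (n : ℕ) :
    ∃ b, NTd (z ^ n) b (θ ^ n) := by
  induction n with
  | zero => exact ⟨1, fun u => by simp, fun w => by simp⟩
  | succ n ih =>
    obtain ⟨b, hb⟩ := ih
    exact ⟨_, by rw [pow_succ, pow_succ]; exact hb.mul h⟩

theorem NTd.surj {z : (K × W) ≃ₗ[F] (K × W)} {a : K} {θ : K ≃ₐ[F] K} (h : NTd z a θ) (u' : K) :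
    ∃ u, z (u, 0) = (u', 0) :=
  ⟨θ.symm (a⁻¹ * u'), by rw [h.1, θ.apply_symm_apply, mul_inv_cancel_left₀ h.ne]⟩

theorem NTd.beta {σ : F →+* F} {bar : K →+* K} (h2 : ∀ u, bar (bar u) = u) {β : K}
    {B : K × W →ₛₗ[σ] K × W →ₗ[F] F}
    (hB : ∀ u u', B (u, 0) (u', 0) = Algebra.trace F K (β * (bar u * u')))
    {z : (K × W) ≃ₗ[F] (K × W)} {a : K} {θ : K ≃ₐ[F] K} (h : NTd z a θ) (hz : z ∈ isom B) :
    β * (a * bar a) = θ β := by
  refine sub_eq_zero.1 (tr_nondeg (F := F) fun u => ?_)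
  have h1 := hz (1, 0) (θ.symm u, 0)
  rw [h.1, h.1, hB, hB, ← tr_alg θ (β * (bar 1 * θ.symm u))] at h1
  simp only [map_one, map_mul, AlgEquiv.apply_symm_apply, mul_one, one_mul] at h1
  rw [sub_mul, map_sub, ← h1, sub_eq_zero]
  congr 1
  ring

theorem rank_step (g z : (K × W) ≃ₗ[F] (K × W)) (I : Submodule F (K × W))
    (hI : ∀ v, g v - v ∈ I) (hW : ∀ w, ∃ u, (u, w) ∈ I) {a : K} {θ : K ≃ₐ[F] K}
    (h : NTd (z⁻¹ * (g⁻¹ * z * g)) a θ) :
    ∃ J : Submodule F K, LinearMap.range (Dm a θ) ≤ J ∧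
      finrank F J + finrank F W ≤ 2 * finrank F I ∧ ∀ u, (u, 0) ∈ I → u ∈ J := by
  set P : Submodule F (K × W) := I ⊔ I.map (z⁻¹ : (K × W) ≃ₗ[F] (K × W)).toLinearMap with hP
  refine ⟨P.comap (LinearMap.inl F K W), ?_, ?_, fun u hu => Submodule.mem_sup_left hu⟩
  · rintro _ ⟨u, rfl⟩
    have h1 : ((Dm a θ u, 0) : K × W) = (g (u, 0) - (u, 0)) +
        z⁻¹ (-(g (g⁻¹ (z (g (u, 0)))) - g⁻¹ (z (g (u, 0))))) := by
      have h2 := h.1 u
      simp only [LinearEquiv.mul_apply] at h2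
      rw [show g (g⁻¹ (z (g (u, 0)))) = z (g (u, 0)) from g.apply_symm_apply _, neg_sub, map_sub,
        h2, show z⁻¹ (z (g (u, 0))) = g (u, 0) from z.symm_apply_apply _, Dm_apply]
      ext <;> simp
    change ((Dm a θ u, 0) : K × W) ∈ P
    rw [h1]
    exact Submodule.add_mem_sup (hI _) (Submodule.mem_map_of_mem (I.neg_mem (hI _)))
  · set U : Submodule F (K × W) := LinearMap.range (LinearMap.inl F K W) with hU
    have c1 := Submodule.finrank_sup_add_finrank_inf_eq P U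
    have c2 : P ⊔ U = ⊤ := by
      rw [eq_top_iff]
      rintro ⟨u, w⟩ -
      obtain ⟨u', hu'⟩ := hW w
      rw [show (u, w) = (u', w) + (u - u', 0) by simp]
      exact Submodule.add_mem_sup (Submodule.mem_sup_left hu') ⟨u - u', rfl⟩
    have c3 : finrank F U = finrank F K := LinearMap.finrank_range_of_inj LinearMap.inl_injective
    have c4 : finrank F P ≤ 2 * finrank F I := by
      have := Submodule.finrank_add_le_finrank_add_finrank I
        (I.map (z⁻¹ : (K × W) ≃ₗ[F] (K × W)).toLinearMap)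
      have := Submodule.finrank_map_le (z⁻¹ : (K × W) ≃ₗ[F] (K × W)).toLinearMap I
      rw [hP]
      omega
    have c5 : finrank F (P.comap (LinearMap.inl F K W)) = finrank F (P ⊓ U : Submodule F _) := by
      rw [inf_comm, hU, ← Submodule.map_comap_eq]
      exact LinearEquiv.finrank_eq (Submodule.equivMapOfInjective _ LinearMap.inl_injective _)
    rw [c2, finrank_top, finrank_prod] at c1
    omega

end Pool.Agent.Lib.MP_d787f3_al.Bs
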