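import Pool.Agent.Lib.MP_d787f3_al.BaseA

set_option autoImplicit false
set_option linter.unusedSectionVars false

namespace Pool.Agent.Lib.MP_d787f3_al.Bs
open Module

section gen
variable {F V : Type*} [Field F] [AddCommGroup V] [Module F V] [FiniteDimensional F V]

theorem exists_g1 {σ : F →+* F} (B : V →ₛₗ[σ] V →ₗ[F] F) (e : V) {ε c : F} (hε : ε ≠ 0)
    (hc : c ≠ 0) (hs : ∀ u, B u e = ε * σ (B e u)) (hcc : ε * c + σ c + σ c * c * B e e = 0) :
    ∃ g ∈ isom B, ∀ v, g v = v + (c * B e v) • e := by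
  let f : V →ₗ[F] V := LinearMap.id + (c • B e).smulRight e
  have hf : ∀ v, f v = v + (c * B e v) • e := fun v => rfl
  have hi : Function.Injective f := by
    rw [injective_iff_map_eq_zero]
    intro v hv
    have h1 := congrArg (B e) hv
    rw [hf, map_add, map_smul, map_zero, smul_eq_mul] at h1
    have h2 : ε * c * B e v = 0 := by linear_combination (B e v) * hcc - σ c * h1
    have h3 : B e v = 0 := by simpa [hε, hc] using h2
    simpa [hf, h3] using hv
  refine ⟨LinearEquiv.ofInjectiveEndo f hi, fun u v => ?_, hf⟩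
  change B (f u) (f v) = _
  rw [hf, hf]
  simp only [map_add, map_smul, LinearMap.map_smulₛₗ, LinearMap.add_apply, LinearMap.smul_apply,
    smul_eq_mul, map_mul, hs u]
  linear_combination (σ (B e u) * B e v) * hcc

theorem exists_g2 (B : V →ₗ[F] V →ₗ[F] F) (hs : ∀ u v, B u v = B v u) {e f : V} {c : F}
    (ee : B e e = 0) (ef : B e f = 0) (ff : B f f = 2 * c) :
    ∃ g ∈ isom B, ∀ v, g v = v + B e v • f - (B f v + c * B e v) • e := by
  let m : V →ₗ[F] V := LinearMap.id + (B e).smulRight f - (B f + c • B e).smulRight e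
  have hm : ∀ v, m v = v + B e v • f - (B f v + c * B e v) • e := fun v => rfl
  have fe : B f e = 0 := by rw [hs, ef]
  have hi : Function.Injective m := by
    rw [injective_iff_map_eq_zero]
    intro v hv
    have h1 := congrArg (B e) hv
    have h2 := congrArg (B f) hv
    rw [hm] at h1 h2
    simp only [map_add, map_sub, map_smul, smul_eq_mul, ee, ef, fe, mul_zero, add_zero, sub_zero,
      map_zero] at h1 h2
    rw [h1, zero_mul, add_zero] at h2
    simpa [hm, h1, h2] using hv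
  refine ⟨LinearEquiv.ofInjectiveEndo m hi, fun u v => ?_, hm⟩
  change B (m u) (m v) = _
  rw [hm, hm]
  simp only [map_add, map_sub, map_smul, LinearMap.add_apply, LinearMap.sub_apply,
    LinearMap.smul_apply, smul_eq_mul, ee, ef, fe, ff, hs u e, hs u f]
  ring

end gen

variable {F K : Type*} [Field F] [Finite F] [Field K] [Algebra F K] [FiniteDimensional F K]
  {W : Type*} [AddCommGroup W] [Module F W] [FiniteDimensional F W]

theorem ker_dim {a : K} {θ : K ≃ₐ[F] K} {J : Submodule F K} (hJ : LinearMap.range (Dm a θ) ≤ J) :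
    finrank F K ≤ finrank F J + finrank F (LinearMap.ker (Dm a θ)) := by
  have := LinearMap.finrank_range_add_finrank_ker (Dm a θ)
  have := Submodule.finrank_mono hJ
  omega

theorem one_case {a : K} (h : 0 < finrank F (LinearMap.ker (Dm a (1 : K ≃ₐ[F] K)))) : a = 1 := by
  obtain ⟨u, h0, h1⟩ := Submodule.exists_mem_ne_zero_of_ne_bot
    (p := LinearMap.ker (Dm a (1 : K ≃ₐ[F] K))) (fun hh => by rw [hh] at h; simp at h)
  rw [LinearMap.mem_ker, Dm_apply, sub_eq_zero] at h0
  exact mul_right_cancel₀ h1 (by simpa using h0)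

theorem comm_U {g z : (K × W) ≃ₗ[F] (K × W)} (h : NTd (z⁻¹ * (g⁻¹ * z * g)) 1 (1 : K ≃ₐ[F] K))
    (u : K) : z (g (u, 0)) = g (z (u, 0)) := by
  have h1 := congrArg (fun v => g (z v)) (h.1 u)
  simp only [LinearEquiv.mul_apply, one_mul, AlgEquiv.one_apply] at h1
  rw [← h1, show ∀ v, z (z⁻¹ v) = v from z.apply_symm_apply,
    show ∀ v, g (g⁻¹ v) = v from g.apply_symm_apply]

theorem exists_tr {β : K} (hβ : β ≠ 0) : ∃ u, Algebra.trace F K (β * u) ≠ 0 := by
  by_contra h
  push Not at h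
  exact hβ (tr_nondeg h)

theorem cent1 {σ : F →+* F} {bar : K →+* K} (h2 : ∀ u, bar (bar u) = u)
    (hb : ∀ c, bar (algebraMap F K c) = algebraMap F K (σ c)) {β : K} (hβ : β ≠ 0)
    (hst : ∀ θ : K ≃ₐ[F] K, θ β = β → θ = 1) {B : K × W →ₛₗ[σ] K × W →ₗ[F] F}
    (hB : ∀ u w u', B (u, w) (u', 0) = Algebra.trace F K (β * (bar u * u'))) {eW : W}
    (hsp : ∀ w, ∃ t : F, w = t • eW) {c : F} (hc : c ≠ 0) {g z : (K × W) ≃ₗ[F] (K × W)}
    (hg : ∀ v, g v = v + (c * B (1, eW) v) • ((1 : K), eW)) (hz : z ∈ isom B) {a : K}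
    {θ : K ≃ₐ[F] K} (h : NTd z a θ) (hc' : ∀ u, z (g (u, 0)) = g (z (u, 0))) :
    ∃ c : F, ∀ v, z v = c • v := by
  obtain ⟨u, hu⟩ := exists_tr (F := F) hβ
  have hx : B (1, eW) (u, 0) ≠ 0 := by rwa [hB, map_one, one_mul]
  have h1 := hc' u
  rw [hg, hg, map_add, map_smul, add_right_inj] at h1
  set x := B (1, eW) (u, 0)
  set y := B (1, eW) (z (u, 0)) with hy
  have h3 : z (1, eW) = (y / x) • ((1 : K), eW) := by
    rw [← one_smul F (z (1, eW)), ← inv_mul_cancel₀ (mul_ne_zero hc hx), mul_smul, h1, smul_smul]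
    congr 1
    field_simp
  have h4 : a = algebraMap F K (y / x) := by
    have := h.fst 1 eW
    rw [h3] at this
    simpa [Algebra.smul_def] using this.symm
  have h5 : σ (y / x) * y = x := by
    have := hz (1, eW) (u, 0)
    rwa [h3, LinearMap.map_smulₛₗ, LinearMap.smul_apply, smul_eq_mul] at this
  have h6 : θ = 1 := by
    apply hst
    rw [← h.beta h2 (fun u u' => hB u 0 u') hz, h4, hb, ← map_mul,
      show y / x * σ (y / x) = 1 by field_simp; linear_combination h5, map_one, mul_one]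
  have h7 : ∀ u, z (u, 0) = (y / x) • ((u, 0) : K × W) := fun u => by
    rw [h.1, h6, h4]
    simp [Algebra.smul_def]
  refine ⟨y / x, fun ⟨u, w⟩ => ?_⟩
  obtain ⟨t, rfl⟩ := hsp w
  rw [show ((u, t • eW) : K × W) = (u - t • 1, 0) + t • ((1 : K), eW) by simp, map_add, map_smul,
    h7, h3, smul_add, smul_comm t]

theorem cent2 {bar : K ≃ₐ[F] K} (h2 : ∀ u, bar (bar u) = u) {β : K} (hβ : β ≠ 0)
    (hst : ∀ θ : K ≃ₐ[F] K, θ β = β → θ = 1 ∨ θ = bar) {B : K × W →ₗ[F] K × W →ₗ[F] F}
    (hB : ∀ u w u', B (u, w) (u', 0) = Algebra.trace F K (β * (bar u * u'))) {eW fW : W} {φ : K}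
    (hφ : ∀ t, bar φ - φ ≠ algebraMap F K t)
    (hsp : ∀ w, ∃ t t' : F, w = t • eW + t' • fW) {c : F} (hc : c ≠ 0)
    {g z : (K × W) ≃ₗ[F] (K × W)}
    (hg : ∀ v, g v = v + B (1, eW) v • (φ, fW) - (B (φ, fW) v + c * B (1, eW) v) • ((1 : K), eW))
    (hz : z ∈ isom B) {a : K} {θ : K ≃ₐ[F] K} (h : NTd z a θ)
    (hc' : ∀ u, z (g (u, 0)) = g (z (u, 0))) : ∃ c : F, c * c = 1 ∧ ∀ v, z v = c • v := by
  set e : K × W := (1, eW) with he
  set f : K × W := (φ, fW) with hf
  have ind : ∀ x y : F, x • e + y • f = 0 → x = 0 ∧ y = 0 := by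
    intro x y hxy
    have h1 : x • (1 : K) + y • φ = 0 := congrArg Prod.fst hxy
    have hy : y = 0 := by
      by_contra hy
      have h3 := congrArg bar h1
      simp only [map_add, map_smul, map_one, map_zero] at h3
      have h4 : y • (bar φ - φ) = 0 := by rw [smul_sub]; linear_combination h3 - h1
      exact hφ 0 (by simpa [hy] using h4)
    exact ⟨by simpa [hy] using h1, hy⟩
  obtain ⟨u2, hu2⟩ : ∃ u, B e (u, 0) = 1 := by
    obtain ⟨u, hu⟩ := exists_tr (F := F) hβ
    refine ⟨(Algebra.trace F K (β * u))⁻¹ • u, ?_⟩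
    rw [hB, map_one, one_mul, mul_smul_comm, map_smul, smul_eq_mul, inv_mul_cancel₀ hu]
  obtain ⟨u1, hu1, hu1'⟩ : ∃ u, B e (u, 0) = 0 ∧ B f (u, 0) ≠ 0 := by
    by_contra hh
    push Not at hh
    have h3 : β * (bar φ - algebraMap F K (B f (u2, 0))) = 0 := by
      refine tr_nondeg (F := F) fun u => ?_
      have h4 := hh (u - B e (u, 0) • u2) (by
        rw [show ((u - B e (u, 0) • u2, 0) : K × W) = (u, 0) - B e (u, 0) • (u2, 0) by simp,
          map_sub, map_smul, hu2]
        simp)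
      rw [show ((u - B e (u, 0) • u2, 0) : K × W) = (u, 0) - B e (u, 0) • (u2, 0) by simp,
          map_sub, map_smul, hB, hB 1, map_one, one_mul, smul_eq_mul] at h4
      rw [← h4, mul_comm (Algebra.trace F K _), ← smul_eq_mul (B f (u2, 0)), ← map_smul, ← map_sub,
        Algebra.smul_def]
      congr 1
      ring
    have h4 : bar φ = algebraMap F K (B f (u2, 0)) := by simpa [hβ, sub_eq_zero] using h3
    have h5 := congrArg bar h4
    rw [h2, AlgEquiv.commutes] at h5
    exact hφ 0 (by rw [h4, map_zero, sub_eq_zero]; exact h5.symm)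
  have key : ∀ u, B e (u, 0) • z f - (B f (u, 0) + c * B e (u, 0)) • z e =
      B e (z (u, 0)) • f - (B f (z (u, 0)) + c * B e (z (u, 0))) • e := by
    intro u
    have h1 := hc' u
    rw [hg, hg, map_sub, map_add, map_smul, map_smul] at h1
    linear_combination (norm := module) h1
  obtain ⟨al, al', hal⟩ : ∃ x y : F, z e = x • e + y • f := by
    have h1 := key u1
    rw [hu1, zero_smul, mul_zero, add_zero, zero_sub] at h1
    refine ⟨(B f (u1, 0))⁻¹ * (B f (z (u1, 0)) + c * B e (z (u1, 0))),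
      -((B f (u1, 0))⁻¹ * B e (z (u1, 0))), ?_⟩
    rw [← one_smul F (z e), ← inv_mul_cancel₀ hu1', mul_smul, ← neg_neg (B f (u1, 0) • z e), h1]
    module
  obtain ⟨mu, mu', hmu⟩ : ∃ x y : F, z f = x • e + y • f := by
    have h1 := key u2
    rw [hu2, one_smul, hal, sub_eq_iff_eq_add] at h1
    exact ⟨(B f (u2, 0) + c * 1) * al - (B f (z (u2, 0)) + c * B e (z (u2, 0))),
      B e (z (u2, 0)) + (B f (u2, 0) + c * 1) * al', by rw [h1]; module⟩
  have key2 : ∀ u', ∃ x y : F, x = al * B e (u', 0) + al' * B f (u', 0) ∧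
      y = mu * B e (u', 0) + mu' * B f (u', 0) ∧
      x * mu - (y + c * x) * al + (B f (u', 0) + c * B e (u', 0)) = 0 ∧
      x * mu' - (y + c * x) * al' - B e (u', 0) = 0 := by
    intro u'
    obtain ⟨u, hu⟩ := h.surj u'
    have h1 := key u
    rw [hu, hal, hmu] at h1
    refine ⟨B e (u, 0), B f (u, 0), ?_, ?_, ind _ _ ?_⟩
    · rw [← hz e, hu, hal]
      simp
    · rw [← hz f, hu, hmu]
      simp
    · rw [← sub_eq_zero.2 h1]
      module
  have a1 : al' = 0 := by
    obtain ⟨x, y, hx, hy, -, h4⟩ := key2 u1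
    rw [hu1] at hx hy h4
    have : c * B f (u1, 0) * (al' * al') = 0 := by
      subst hx hy
      linear_combination -h4
    simpa [hc, hu1'] using this
  obtain ⟨a2, a3⟩ : al * mu' = 1 ∧ al * al = 1 := by
    obtain ⟨x, y, hx, hy, h3, h4⟩ := key2 u2
    rw [hu2, a1] at hx h4
    rw [hu2] at hy h3
    have h5 : al * mu' = 1 := by
      subst hx
      linear_combination h4
    refine ⟨h5, mul_left_cancel₀ hc ?_⟩
    subst hx hy
    linear_combination -h3 - B f (u2, 0) * h5
  have a4 : mu' = al := by linear_combination al * a2 - mu' * a3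
  rw [a1, zero_smul, add_zero] at hal
  have a5 : a = algebraMap F K al := by
    have := h.fst 1 eW
    rw [hal] at this
    simpa [he, Algebra.smul_def] using this.symm
  have a6 : θ φ - φ = algebraMap F K (al * mu) := by
    have h3 := h.fst φ fW
    rw [hmu, a4, a5] at h3
    have h4 := congrArg (algebraMap F K) a3
    simp only [he, hf, Prod.fst_add, Prod.smul_fst, Algebra.smul_def, map_mul, map_one] at h3 h4 ⊢
    linear_combination -(algebraMap F K al) * h3 - (θ φ - φ) * h4
  have a7 : θ = 1 := by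
    refine (hst θ ?_).resolve_right fun hh => hφ _ (hh ▸ a6)
    have := h.beta (σ := RingHom.id F) (bar := (bar : K →+* K)) h2 (fun u u' => hB u 0 u') hz
    rw [← this, a5]
    simp [← map_mul, a3]
  have a8 : mu = 0 := by
    rw [a7, AlgEquiv.one_apply, sub_self, eq_comm, map_eq_zero] at a6
    linear_combination al * a6 - mu * a3
  rw [a8, zero_smul, zero_add, a4] at hmu
  have h7 : ∀ u, z (u, 0) = al • ((u, 0) : K × W) := fun u => by
    rw [h.1, a7, a5]
    simp [Algebra.smul_def]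
  refine ⟨al, a3, fun ⟨u, w⟩ => ?_⟩
  obtain ⟨t, t', rfl⟩ := hsp w
  rw [show ((u, t • eW + t' • fW) : K × W) = (u - t' • φ - t • 1, 0) + t • e + t' • f by
    ext <;> simp [he, hf], map_add, map_add, map_smul, map_smul, h7, hal, hmu]
  module

end Pool.Agent.Lib.MP_d787f3_al.Bs
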