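import Pool.Agent.Lib.MP_d787f3_al.BaseB

set_option autoImplicit false
set_option linter.unusedSectionVars false

namespace Pool.Agent.Lib.MP_d787f3_al.Bs
open Module

variable {F K : Type*} [Field F] [Finite F] [Field K] [Algebra F K] [FiniteDimensional F K]
  {W : Type*} [AddCommGroup W] [Module F W] [FiniteDimensional F W]

theorem main1 {σ : F →+* F} {bar : K →+* K} (h2 : ∀ u, bar (bar u) = u)
    (hb : ∀ c, bar (algebraMap F K c) = algebraMap F K (σ c)) {β : K} (hβ : β ≠ 0)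
    (hst : ∀ θ : K ≃ₐ[F] K, θ β = β → θ = 1) {B : K × W →ₛₗ[σ] K × W →ₗ[F] F}
    (hB : ∀ u w u', B (u, w) (u', 0) = Algebra.trace F K (β * (bar u * u'))) {eW : W}
    (hsp : ∀ w, ∃ t : F, w = t • eW) {c : F} (hc : c ≠ 0) {g : (K × W) ≃ₗ[F] (K × W)}
    (hg : ∀ v, g v = v + (c * B (1, eW) v) • ((1 : K), eW)) (hgi : g ∈ isom B)
    (hd : 3 ≤ finrank F K + finrank F W)
    (hd' : ∀ (a : K) (θ : K ≃ₐ[F] K), β * (a * bar a) = θ β →
      finrank F K + finrank F W ≤ 2 + finrank F (LinearMap.ker (Dm a θ)) → θ = 1)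
    (z : (K × W) ≃ₗ[F] (K × W)) (hz : z ∈ isom B) (n1 : NT z) (n2 : NT (g⁻¹ * z * g)) :
    ∃ c : F, ∀ v, z v = c • v := by
  obtain ⟨a1, θ1, n1⟩ := n1
  obtain ⟨a2, θ2, n2⟩ := n2
  obtain ⟨a, θ, h⟩ : ∃ a θ, NTd (z⁻¹ * (g⁻¹ * z * g)) a θ := ⟨_, _, (NTd.inv n1).mul n2⟩
  have hi : z⁻¹ * (g⁻¹ * z * g) ∈ isom B := by
    refine mul_mem (inv_mem hz) (mul_mem (mul_mem (inv_mem hgi) hz) hgi)
  obtain ⟨J, hJ, hJ', -⟩ := rank_step g z (F ∙ ((1 : K), eW)) (fun v => by
    rw [hg, add_sub_cancel_left]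
    exact Submodule.smul_mem _ _ (Submodule.mem_span_singleton_self _)) (fun w => by
    obtain ⟨t, rfl⟩ := hsp w
    exact ⟨t • 1, Submodule.smul_mem _ t (Submodule.mem_span_singleton_self _)⟩) h
  rw [finrank_span_singleton (fun hh => one_ne_zero (Prod.mk.inj hh).1)] at hJ'
  have h3 := ker_dim hJ
  obtain rfl := hd' a θ (h.beta h2 (fun u u' => hB u 0 u') hi) (by omega)
  obtain rfl := one_case (F := F) (a := a) (by omega)
  exact cent1 h2 hb hβ hst hB hsp hc hg hz n1 (comm_U h)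

theorem no_neg {V : Type*} [AddCommGroup V] [Module F V] {B : V →ₗ[F] V →ₗ[F] F} {e f : V} {c : F}
    (ee : B e e = 0) (ef : B e f = 0) (fe : B f e = 0) (ff : B f f = 2 * c) (c2 : (2 : F) ≠ 0)
    {v : V} (h : v + B e v • f - (B f v + c * B e v) • e = -v) : v = 0 := by
  have h13 := congrArg (B e) h
  have h14 := congrArg (B f) h
  simp only [map_add, map_sub, map_smul, map_neg, smul_eq_mul, ee, ef, fe, ff] at h13 h14
  have h15 : B e v = 0 := mul_left_cancel₀ c2 (by linear_combination h13)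
  rw [h15] at h14
  have h16 : B f v = 0 := mul_left_cancel₀ c2 (by linear_combination h14)
  rw [h15, h16] at h
  have h17 : (2 : F) • v = 0 := by linear_combination (norm := module) h
  simpa [c2] using h17

theorem odd_ord {G : Type*} [Group G] [Finite G] {g x : G} (gx : g * x * g⁻¹ = x⁻¹)
    (h : ∀ m : ℕ, x ^ m * g = g * x ^ m → x ^ m = 1) : Odd (orderOf x) := by
  rw [← Nat.not_even_iff_odd]
  rintro ⟨m, hm⟩
  have h7 := orderOf_pos x
  have h8 : x ^ m * x ^ m = 1 := by rw [← pow_add, ← hm, pow_orderOf_eq_one]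
  have h9 := congrArg (· ^ m) gx
  simp only [conj_pow, inv_pow, inv_eq_of_mul_eq_one_right h8] at h9
  exact pow_ne_one_of_lt_orderOf (x := x) (n := m) (by omega) (by omega)
    (h m (mul_inv_eq_iff_eq_mul.1 h9).symm)

theorem sp4 {bar : K ≃ₐ[F] K} (h1 : bar ≠ 1) (h2 : ∀ u, bar (bar u) = u) (c2 : (2 : F) = 0)
    (hd : finrank F K = 4) {φ a : K} (hφ : bar φ - φ ≠ 0) (h7 : a * bar a = 1) {s1 s2 : F}
    (h9 : a + algebraMap F K s1 * φ - algebraMap F K s2 = bar a) : a = 1 := by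
  have c3 : (2 : K) = 0 := by rw [← map_ofNat (algebraMap F K) 2, c2, map_zero]
  have h10 := congrArg bar h9
  simp only [map_add, map_sub, map_mul, AlgEquiv.commutes, h2] at h10
  have h11 : algebraMap F K s1 = 0 := by
    refine (mul_eq_zero.1 ?_).resolve_right hφ
    linear_combination h10 - h9 + (a - bar a) * c3
  obtain ⟨s, hs⟩ := exists_gen (F := F) (K := K)
  have h12 : s ^ 2 = bar := (invol_eq h1 (AlgEquiv.ext h2) (by
    rw [← pow_mul, show 2 * 2 = orderOf s by omega, pow_orderOf_eq_one])).resolve_left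
      (pow_ne_one_of_lt_orderOf (by omega) (by omega))
  have h13 : ∀ u, s (s u) = bar u := fun u => by rw [← h12]; rfl
  have h14 : a + bar a = algebraMap F K s2 := by
    linear_combination -h9 + φ * h11 + (a - algebraMap F K s2) * c3
  have h15 : (s a - a) * (s a - bar a) = 0 := by
    have h16 := congrArg s h14
    have h17 := congrArg s h7
    rw [map_add, AlgEquiv.commutes] at h16
    rw [map_mul, map_one] at h17
    linear_combination s a * (h16 - h14) + h7 - h17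
  have h16 : bar a = a := by
    rcases mul_eq_zero.1 h15 with h17 | h17
    · rw [← h13, sub_eq_zero.1 h17, sub_eq_zero.1 h17]
    · rw [← h13, sub_eq_zero.1 h17, ← h13, h13 (s a), sub_eq_zero.1 h17, h2]
  rw [h16] at h7
  have : (a - 1) ^ 2 = 0 := by linear_combination h7 + (1 - a) * c3
  exact sub_eq_zero.1 (pow_eq_zero_iff (two_ne_zero) |>.1 this)

theorem main2 {bar : K ≃ₐ[F] K} (h1 : bar ≠ 1) (h2 : ∀ u, bar (bar u) = u) {β : K} (hβ : β ≠ 0)
    (hβ' : bar β = β) (hst : ∀ θ : K ≃ₐ[F] K, θ β = β → θ = 1 ∨ θ = bar)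
    {B : K × W →ₗ[F] K × W →ₗ[F] F}
    (hB : ∀ u w u', B (u, w) (u', 0) = Algebra.trace F K (β * (bar u * u'))) {eW fW : W} {φ : K}
    (hφ : ∀ t, bar φ - φ ≠ algebraMap F K t)
    (hsp : ∀ w, ∃ t t' : F, w = t • eW + t' • fW) {c : F} (hc : c ≠ 0)
    (ee : B (1, eW) (1, eW) = 0) (ef : B (1, eW) (φ, fW) = 0) (fe : B (φ, fW) (1, eW) = 0)
    (ff : B (φ, fW) (φ, fW) = 2 * c) {g : (K × W) ≃ₗ[F] (K × W)}
    (hg : ∀ v, g v = v + B (1, eW) v • (φ, fW) - (B (φ, fW) v + c * B (1, eW) v) • ((1 : K), eW))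
    (hgi : g ∈ isom B)
    (hd : ((2 : F) ≠ 0 ∧ ((finrank F W = 2 ∧ 5 ≤ finrank F K) ∨
        (eW = 0 ∧ finrank F W ≤ 1 ∧ 7 ≤ finrank F K + 2 * finrank F W))) ∨
      ((2 : F) = 0 ∧ (13 ≤ 2 * finrank F K + 3 * finrank F W ∨
        (finrank F K = 4 ∧ finrank F W = 0))))
    (z : (K × W) ≃ₗ[F] (K × W)) (hz : z ∈ isom B) (n1 : NT z) (n2 : NT (g⁻¹ * z * g)) :
    ∃ c : F, ∀ v, z v = c • v := by
  classical
  obtain ⟨a1, θ1, n1⟩ := n1
  obtain ⟨a2, θ2, n2⟩ := n2
  obtain ⟨a, θ, h⟩ : ∃ a θ, NTd (z⁻¹ * (g⁻¹ * z * g)) a θ := ⟨_, _, (NTd.inv n1).mul n2⟩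
  have hi : z⁻¹ * (g⁻¹ * z * g) ∈ isom B := by
    refine mul_mem (inv_mem hz) (mul_mem (mul_mem (inv_mem hgi) hz) hgi)
  suffices hh : θ = 1 ∧ a = 1 by
    obtain ⟨rfl, rfl⟩ := hh
    obtain ⟨c, -, hc⟩ := cent2 h2 hβ hst hB hφ hsp hc hg hz n1 (comm_U h)
    exact ⟨c, hc⟩
  obtain ⟨I, he', hf', h0⟩ : ∃ I : Submodule F (K × W), (1, eW) ∈ I ∧ (φ, fW) ∈ I ∧
      finrank F I ≤ 2 := ⟨Submodule.span F ({(1, eW), (φ, fW)} : Finset (K × W)),
    Submodule.subset_span (by simp), Submodule.subset_span (by simp),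
    (finrank_span_finset_le_card _).trans Finset.card_le_two⟩
  obtain ⟨J, hJ, hJ', hJ1⟩ := rank_step g z I (fun v => by
    rw [hg, add_sub_assoc, add_sub_cancel_left]
    exact sub_mem (Submodule.smul_mem _ _ hf') (Submodule.smul_mem _ _ he')) (fun w => by
    obtain ⟨t, t', rfl⟩ := hsp w
    exact ⟨t • 1 + t' • φ, add_mem (Submodule.smul_mem _ t he') (Submodule.smul_mem _ t' hf')⟩) h
  have h3 := ker_dim hJ
  have h4 := fix_dim a θ
  have h5 := h.beta (σ := RingHom.id F) (bar := (bar : K →+* K)) h2 (fun u u' => hB u 0 u') hi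
  have h6 : 0 < orderOf θ := by
    have := finK F K
    exact orderOf_pos θ
  have ge : g (1, eW) = (1, eW) := by rw [hg, ee, fe]; simp
  have big : 3 ≤ orderOf θ → 13 ≤ 2 * finrank F K + 3 * finrank F W → False := fun h7 h8 => by
    have := (Nat.mul_le_mul_left _ h7).trans h4
    omega
  have small : orderOf θ = 1 → 5 ≤ finrank F K + finrank F W → θ = 1 ∧ a = 1 := fun h7 h8 => by
    obtain rfl := orderOf_eq_one_iff.1 h7
    exact ⟨rfl, one_case (F := F) (by omega)⟩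
  rcases hd with ⟨c2, hd⟩ | ⟨c2, hd⟩
  · refine small ?_ (by omega)
    by_contra h7
    by_cases h8 : orderOf θ = 2
    swap
    · exact big (by omega) (by omega)
    rw [h8] at h4
    obtain ⟨rfl, hd⟩ := hd.resolve_left (by omega)
    obtain rfl : θ = bar := (invol_eq h1 (AlgEquiv.ext h2)
      (by rw [← h8, pow_orderOf_eq_one])).resolve_left (fun hh => h7 (orderOf_eq_one_iff.2 hh))
    have h9 : LinearMap.range (Dm a θ) = J := Submodule.eq_of_le_of_finrank_le hJ (by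
      have := LinearMap.finrank_range_add_finrank_ker (Dm a θ)
      omega)
    obtain ⟨u, hu⟩ : (1 : K) ∈ LinearMap.range (Dm a θ) := by rw [h9]; exact hJ1 1 he'
    have h10 : a * θ a = 1 := mul_left_cancel₀ hβ (by rw [mul_one]; exact h5.trans hβ')
    have h11 : a = -1 := by
      have h12 := congrArg θ hu
      rw [Dm_apply] at hu
      rw [Dm_apply, map_sub, map_mul, h2, map_one] at h12
      linear_combination -a * h12 - hu + u * h10
    have h12 : g (z (1, 0)) = -z (1, 0) := by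
      have h13 := congrArg (fun v => g (z v)) (h.1 1)
      simp only [LinearEquiv.mul_apply] at h13
      rw [show ∀ v, z (z⁻¹ v) = v from z.apply_symm_apply,
        show ∀ v, g (g⁻¹ v) = v from g.apply_symm_apply, ge, h11,
        show ((-1 * θ 1, 0) : K × W) = -(1, 0) by simp, map_neg, map_neg] at h13
      exact (neg_eq_iff_eq_neg.1 h13.symm)
    rw [hg] at h12
    simpa using no_neg ee ef fe ff c2 h12
  have gg : g * g = 1 := by
    refine LinearEquiv.ext fun v => ?_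
    rw [LinearEquiv.mul_apply, hg (g v), hg v]
    simp only [map_add, map_sub, map_smul, smul_eq_mul, ee, ef, fe, ff, LinearEquiv.coe_one, id]
    linear_combination (norm := module) c2 • (B (1, eW) v • (φ, fW) -
      (B (φ, fW) v + c * B (1, eW) v) • ((1 : K), eW) - (c * B (1, eW) v) • ((1 : K), eW))
  have gi : g⁻¹ = g := inv_eq_of_mul_eq_one_right gg
  have gx : g * (z⁻¹ * (g⁻¹ * z * g)) * g⁻¹ = (z⁻¹ * (g⁻¹ * z * g))⁻¹ := by
    simp only [mul_inv_rev, inv_inv, gi, mul_assoc, gg, mul_one]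
  generalize z⁻¹ * (g⁻¹ * z * g) = x at h hi gx
  have hodd : Odd (orderOf x) := by
    have := finK F K
    have : Finite W := Module.finite_of_finite F
    have : Finite ((K × W) ≃ₗ[F] (K × W)) :=
      Finite.of_injective (fun z => (z : K × W → K × W)) DFunLike.coe_injective
    refine odd_ord gx fun m h9 => ?_
    obtain ⟨b, hb⟩ := h.pow m
    obtain ⟨t, ht, ht'⟩ := cent2 h2 hβ hst hB hφ hsp hc hg (pow_mem hi m) hb
      (fun u => LinearEquiv.congr_fun h9 (u, 0))
    have h10 : (t - 1) ^ 2 = 0 := by linear_combination ht + (1 - t) * c2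
    exact LinearEquiv.ext fun v => by
      rw [ht', sub_eq_zero.1 (pow_eq_zero_iff (two_ne_zero) |>.1 h10), one_smul]; rfl
  have hodd' : Odd (orderOf θ) := by
    obtain ⟨b, hb⟩ := h.pow (orderOf x)
    rw [pow_orderOf_eq_one] at hb
    have h7 : b = 1 := by simpa using (congrArg Prod.fst (hb.1 1)).symm
    refine hodd.of_dvd_nat (orderOf_dvd_of_pow_eq_one (AlgEquiv.ext fun u => ?_))
    simpa [h7] using (congrArg Prod.fst (hb.1 u)).symm
  rcases hd with hd | ⟨hd, hd'⟩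
  · refine small ?_ (by omega)
    by_contra h7
    exact big (by obtain ⟨k, hk⟩ := hodd'; omega) hd
  obtain rfl : θ = 1 := by
    have h7 : orderOf θ ∣ 2 ^ 2 := by
      have := orderOf_dvd_natCard θ
      rwa [card_gal, hd] at this
    exact orderOf_eq_one_iff.1 (Nat.Coprime.eq_one_of_dvd (hodd'.coprime_two_right.pow_right 2) h7)
  refine ⟨rfl, ?_⟩
  have : Subsingleton W := finrank_zero_iff.1 hd'
  obtain rfl : eW = 0 := Subsingleton.elim _ _
  have h7 : a * bar a = 1 := mul_left_cancel₀ hβ (by rw [mul_one]; exact h5)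
  have h8 : g (a, 0) = (bar a, 0) := by
    have h9 := LinearEquiv.congr_fun (mul_inv_eq_iff_eq_mul.1 gx) (1, 0)
    rw [LinearEquiv.mul_apply, LinearEquiv.mul_apply, ge, h.1, h.inv.1] at h9
    rw [map_one, mul_one, map_one, mul_one, ← eq_inv_of_mul_eq_one_right h7] at h9
    exact h9
  have h9 := congrArg Prod.fst h8
  rw [hg] at h9
  simp only [Prod.fst_add, Prod.fst_sub, Prod.smul_fst, Algebra.smul_def, mul_one] at h9
  exact sp4 h1 h2 c2 hd (by simpa using hφ 0) h7 h9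

end Pool.Agent.Lib.MP_d787f3_al.Bs
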