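import Pool.Agent.Lib.MP_d787f3_al.BaseC

set_option autoImplicit false
set_option linter.unusedSectionVars false

namespace Pool.Agent.Lib.MP_d787f3_al.Bs
open Module

variable {F K : Type*} [Field F] [Finite F] [Field K] [Algebra F K] [FiniteDimensional F K]

theorem gal_comm (a b : K ≃ₐ[F] K) : a * b = b * a :=
  AlgEquiv.ext fun u => alg_comm (b : K →+* K) a u

theorem tr_eta {bar : K ≃ₐ[F] K} (h2 : ∀ u, bar (bar u) = u) {η : K} (hη : η + bar η = 1) (x : K) :
    Algebra.trace F K (η * (x + bar x)) = Algebra.trace F K x := by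
  rw [mul_add, map_add, ← tr_alg bar (η * bar x), map_mul bar, h2, ← map_add, ← add_mul, hη, one_mul]

theorem tr_fix {bar : K ≃ₐ[F] K} (h2 : ∀ u, bar (bar u) = u) {η : K} (hη : η + bar η = 1) {x : K}
    (hx : bar x = x) : Algebra.trace F K x = 2 * Algebra.trace F K (η * x) := by
  rw [← tr_eta h2 hη x, hx, mul_add, map_add, two_mul]

theorem exists_iota {bar : K ≃ₐ[F] K} (h2 : ∀ u, bar (bar u) = u) (c2 : (2 : F) ≠ 0) {η β ι : K}
    (hη : η + bar η = 1) (hβ : β ≠ 0) (hβ' : bar β = β) (b1 : 1 - β ≠ 0) (b2 : 1 + β ≠ 0)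
    (h0 : ι ≠ 0) (h0' : bar ι = -ι) (n : F) :
    ∃ φ, φ ≠ 0 ∧ bar φ = -φ ∧ Algebra.trace F K (η * β * (bar φ * φ)) + n ≠ 0 := by
  by_contra hh
  push Not at hh
  have H : ∀ κ, κ ≠ 0 → bar κ = κ → Algebra.trace F K (η * (β * (ι * ι) * (κ * κ))) = n := by
    intro κ k0 k1
    have h3 := hh (ι * κ) (mul_ne_zero h0 k0) (by rw [map_mul, h0', k1, neg_mul])
    rw [map_mul bar, h0', k1, show η * β * (-ι * κ * (ι * κ)) = -(η * (β * (ι * ι) * (κ * κ))) by ring,
      map_neg] at h3
    linear_combination -h3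
  have P : ∀ κ, Algebra.trace F K (η * (β * (ι * ι) * ((1 + κ) * (1 + κ)))) =
      Algebra.trace F K (η * (β * (ι * ι) * (1 * 1))) + Algebra.trace F K (η * (β * (ι * ι) *
        (κ * κ))) + 2 * Algebra.trace F K (η * (β * (ι * ι) * κ)) := by
    intro κ
    rw [two_mul, ← map_add, ← map_add, ← map_add]
    congr 1
    ring
  have hn : n = 0 := by
    have h3 := P β
    have h4 := P (-β)
    rw [H _ b2 (by simp [hβ']), H _ one_ne_zero (map_one _), H _ hβ hβ'] at h3
    rw [← sub_eq_add_neg, H _ b1 (by simp [hβ']), H _ one_ne_zero (map_one _), neg_mul_neg,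
      H _ hβ hβ', mul_neg, mul_neg, map_neg] at h4
    exact mul_left_cancel₀ c2 (by linear_combination -h3 - h4)
  have H' : ∀ κ, bar κ = κ → Algebra.trace F K (η * (β * (ι * ι) * (κ * κ))) = 0 := by
    intro κ k1
    by_cases k0 : κ = 0
    · simp [k0]
    · rw [H κ k0 k1, hn]
  refine mul_ne_zero hβ (mul_ne_zero h0 h0) (tr_nondeg (F := F) fun u => ?_)
  have h3 := P (u + bar u)
  have h4 : bar (u + bar u) = u + bar u := by rw [map_add, h2, add_comm]
  rw [H' _ (by rw [map_add, h4, map_one]), H' _ (map_one _), H' _ h4] at h3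
  have h5 := tr_eta h2 hη (β * (ι * ι) * u)
  rw [map_mul bar, map_mul bar, map_mul bar, hβ', h0', neg_mul_neg, ← mul_add] at h5
  rw [← h5]
  exact mul_left_cancel₀ c2 (by linear_combination -h3)

theorem exists_phi {bar : K ≃ₐ[F] K} (h2 : ∀ u, bar (bar u) = u) (c2 : (2 : F) = 0) {η β a b : K}
    (hη : η + bar η = 1) (hβ : β ≠ 0) (hβ' : bar β = β) (hab : bar (a - b) ≠ a - b) (n : F) :
    ∃ φ κ, (φ = a ∨ φ = b) ∧ bar κ = κ ∧
      Algebra.trace F K (η * β * (bar (φ + κ) * (φ + κ))) + n ≠ 0 := by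
  by_contra hh
  push Not at hh
  have c3 : (2 : K) = 0 := by rw [← map_ofNat (algebraMap F K) 2, c2, map_zero]
  have P : ∀ φ κ, bar κ = κ → Algebra.trace F K (η * β * (bar (φ + κ) * (φ + κ))) =
      Algebra.trace F K (η * β * (bar (φ + 0) * (φ + 0))) + Algebra.trace F K (η * β * (κ * κ)) +
        Algebra.trace F K (β * φ * κ) := by
    intro φ κ hκ
    rw [← tr_eta h2 hη (β * φ * κ), ← map_add, ← map_add]
    simp only [map_add bar, map_mul bar, hκ, hβ', add_zero]
    congr 1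
    ring
  have h3 : β * (a - b) + bar (β * (a - b)) = 0 := tr_nondeg (F := F) fun u => by
    have h4 : bar (u + bar u) = u + bar u := by rw [map_add, h2, add_comm]
    have h5 := hh a _ (.inl rfl) h4
    have h6 := hh b _ (.inr rfl) h4
    rw [P _ _ h4] at h5 h6
    have h7 : Algebra.trace F K (β * a * (u + bar u)) - Algebra.trace F K (β * b * (u + bar u)) = 0 := by
      linear_combination h5 - h6 - hh a 0 (.inl rfl) (map_zero _) + hh b 0 (.inr rfl) (map_zero _)
    rw [add_mul, map_add, ← tr_alg bar (bar _ * u), map_mul bar, h2, ← map_add, ← h7, ← map_sub]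
    congr 1
    ring
  rw [map_mul, hβ'] at h3
  exact hab (mul_left_cancel₀ hβ (by linear_combination h3 - β * (a - b) * c3))

theorem not_alg {bar : K ≃ₐ[F] K} {β y : K} (hβ : β ≠ 0) (hβ' : bar β = β) (l : K →ₗ[F] F)
    (h1 : l β = 0) (h2 : l (bar y - y) ≠ 0) (t : F) :
    bar (y / β) - y / β ≠ algebraMap F K t := by
  intro h
  rw [map_div₀, hβ', ← sub_div, div_eq_iff hβ, ← Algebra.smul_def] at h
  exact h2 (by rw [h, map_smul, h1, smul_zero])

theorem gen_facts {bar s : K ≃ₐ[F] K} (h2 : ∀ u, bar (bar u) = u) (hs : 3 ≤ orderOf s) :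
    s ≠ 1 ∧ s * s ≠ 1 ∧ s ≠ bar ∧ s * bar ≠ 1 := by
  have h3 : s * s ≠ 1 := by
    rw [← pow_two]
    exact pow_ne_one_of_lt_orderOf (by omega) (by omega)
  have h4 : bar * bar = 1 := AlgEquiv.ext h2
  refine ⟨fun h => h3 (by rw [h, one_mul]), h3, fun h => h3 (by rw [h, h4]), fun h => h3 ?_⟩
  rw [mul_right_cancel (h.trans h4.symm), h4]

variable {W : Type*} [AddCommGroup W] [Module F W] [FiniteDimensional F W]

theorem span_two (h : finrank F W = 2) :
    ∃ eW fW : W, eW ≠ 0 ∧ ∀ w, ∃ t t' : F, w = t • eW + t' • fW := by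
  let b := Module.finBasisOfFinrankEq F W h
  exact ⟨b 0, b 1, b.ne_zero 0, fun w => ⟨b.repr w 0, b.repr w 1, by
    simpa only [Fin.sum_univ_two] using (b.sum_repr w).symm⟩⟩

theorem eichler {V : Type*} [AddCommGroup V] [Module F V] (Q : QuadraticForm F V) {e f : V}
    (he : Q e = 0) (ef : Q.polarBilin e f = 0) (v : V) :
    Q (v + Q.polarBilin e v • f - (Q.polarBilin f v + Q f * Q.polarBilin e v) • e) = Q v := by
  simp only [QuadraticMap.polarBilin_apply_apply] at ef ⊢
  rw [sub_eq_add_neg, ← neg_smul, add_assoc, QuadraticMap.map_add Q, QuadraticMap.map_add Q]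
  simp only [QuadraticMap.map_smul, QuadraticMap.polar_add_right, QuadraticMap.polar_smul_left,
    QuadraticMap.polar_smul_right, smul_eq_mul, he, QuadraticMap.polar_comm Q f e,
    QuadraticMap.polar_comm Q v e, QuadraticMap.polar_comm Q v f, ef]
  ring

end Pool.Agent.Lib.MP_d787f3_al.Bs
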