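import Mathlib

namespace Pool.Agent.Lib.MP_d787f3_al

/-- the soluble graph: vertices are the elements outside the soluble radical -/
def solGraph (G : Type*) [Group G] :
    SimpleGraph {g : G // ¬ ∃ N : Subgroup G, N.Normal ∧ Group.IsSolvable N ∧ g ∈ N} where
  Adj x y := x ≠ y ∧ Group.IsSolvable (Subgroup.closure {x.1, y.1})
  symm := ⟨fun _ _ h => ⟨h.1.symm, Set.pair_comm _ _ ▸ h.2⟩⟩
  loopless := ⟨fun _ h => h.1 rfl⟩

variable {F V : Type*} [Field F] [AddCommGroup V] [Module F V]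

/-- isometry group of a sesquilinear form -/
def isom {σ : F →+* F} (B : V →ₛₗ[σ] V →ₗ[F] F) : Subgroup (V ≃ₗ[F] V) where
  carrier := {g | ∀ u v, B (g u) (g v) = B u v}
  mul_mem' ha hb u v := (ha _ _).trans (hb u v)
  one_mem' _ _ := rfl
  inv_mem' {g} h u v := by simpa using (h (g⁻¹ u) (g⁻¹ v)).symm

/-- isometry group of a quadratic form -/
def orth (Q : QuadraticForm F V) : Subgroup (V ≃ₗ[F] V) where
  carrier := {g | ∀ v, Q (g v) = Q v}
  mul_mem' ha hb v := (ha _).trans (hb v)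
  one_mem' _ := rfl
  inv_mem' {g} h v := by simpa using (h (g⁻¹ v)).symm

end Pool.Agent.Lib.MP_d787f3_al
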