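import Pool.Agent.Lib.MP_d787f3_al.Defs

namespace Pool.Agent.Lib.MP_d787f3_al

/-- diameter of the soluble graph of the quotient of `G` by its centre -/
noncomputable def pdiam (G : Type*) [Group G] : ℕ∞ := (solGraph (G ⧸ Subgroup.center G)).ediam

variable {F V : Type*} [Field F] [AddCommGroup V] [Module F V]

/-- the derived subgroup of the orthogonal group -/
def omegaGrp (Q : QuadraticForm F V) : Subgroup (V ≃ₗ[F] V) := ⁅orth Q, orth Q⁆

/-- isometries of determinant one -/
noncomputable def specialIsom {σ : F →+* F} (B : V →ₛₗ[σ] V →ₗ[F] F) : Subgroup (V ≃ₗ[F] V) :=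
  isom B ⊓ LinearEquiv.det.ker

end Pool.Agent.Lib.MP_d787f3_al
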