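import Mathlib

/-! The Dickson invariant of isometries of a quadratic form in characteristic two. -/

namespace Pool.Agent.Lib.MP_d787f3_al

open Matrix QuadraticMap

namespace Dk

variable {F : Type*} [Field F] {m : ℕ} {E K : Matrix (Fin m) (Fin m) F}

theorem self_add (h2 : (2 : F) = 0) (A : Matrix (Fin m) (Fin m) F) : A + A = 0 := by
  rw [← two_smul F, h2, zero_smul]

theorem tr_sym (h2 : (2 : F) = 0) (hK : K * (E + Eᵀ) = 1) {S : Matrix (Fin m) (Fin m) F}
    (hS : Sᵀ = S) : trace (K * S) = 0 := by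
  have h1 : Kᵀ = K * E * Kᵀ + (K * E * Kᵀ)ᵀ := by
    rw [transpose_mul, transpose_mul, transpose_transpose, ← Matrix.mul_assoc, ← Matrix.add_mul,
      ← Matrix.mul_add, hK, Matrix.one_mul]
  generalize K * E * Kᵀ = N at h1
  have h3 : K = Nᵀ + N := by rw [← transpose_transpose K, h1, transpose_add, transpose_transpose]
  have h4 : trace (Nᵀ * S) = trace (N * S) := by
    rw [← trace_transpose, transpose_mul, transpose_transpose, hS, trace_mul_comm]
  rw [h3, Matrix.add_mul, trace_add, h4, ← two_mul, h2, zero_mul]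

theorem tr_eq (h2 : (2 : F) = 0) (hK : K * (E + Eᵀ) = 1) {M N : Matrix (Fin m) (Fin m) F}
    (h : M + Mᵀ = N + Nᵀ) : trace (K * M) = trace (K * N) := by
  have h1 : (M + N)ᵀ = M + N := by
    have a := self_add h2 M
    have b := self_add h2 Nᵀ
    rw [transpose_add]
    linear_combination (norm := abel1) h - a + b
  have h3 := tr_sym h2 hK h1
  rw [Matrix.mul_add, trace_add] at h3
  linear_combination h3 - trace (K * N) * h2

theorem exists_half (h2 : (2 : F) = 0) {A : Matrix (Fin m) (Fin m) F}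
    (hA : ∀ v, v ⬝ᵥ A *ᵥ v = 0) : ∃ M : Matrix (Fin m) (Fin m) F, A = M + Mᵀ := by
  have d : ∀ i, A i i = 0 := fun i => by simpa using hA (Pi.single i 1)
  have s : ∀ i j, A i j = A j i := fun i j => by
    have := hA (Pi.single i 1 + Pi.single j 1)
    simp only [mulVec_add, add_dotProduct, dotProduct_add, mulVec_single_one, single_one_dotProduct,
      col_apply, d] at this
    linear_combination this - A j i * h2
  refine ⟨of fun i j => if i < j then A i j else 0, ?_⟩
  ext i j
  simp only [Matrix.add_apply, of_apply, transpose_apply]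
  rcases lt_trichotomy i j with h | rfl | h
  · simp [h, h.not_gt]
  · simp [d]
  · simp [h, h.not_gt, s i j]

open Classical in
/-- the Dickson invariant of a matrix -/
noncomputable def dk (E K g : Matrix (Fin m) (Fin m) F) : F :=
  if h : ∃ M : Matrix (Fin m) (Fin m) F, gᵀ * E * g + E = M + Mᵀ then trace (K * h.choose) else 0

theorem dk_eq (h2 : (2 : F) = 0) (hK : K * (E + Eᵀ) = 1) {g M : Matrix (Fin m) (Fin m) F}
    (h : gᵀ * E * g + E = M + Mᵀ) : dk E K g = trace (K * M) := by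
  have h1 : ∃ M : Matrix (Fin m) (Fin m) F, gᵀ * E * g + E = M + Mᵀ := ⟨M, h⟩
  rw [dk, dif_pos h1]
  exact tr_eq h2 hK (h1.choose_spec.symm.trans h)

theorem dk_mul (h2 : (2 : F) = 0) (hK : K * (E + Eᵀ) = 1) {g h M N : Matrix (Fin m) (Fin m) F}
    (hg : gᵀ * E * g + E = M + Mᵀ) (hh : hᵀ * E * h + E = N + Nᵀ) :
    dk E K (g * h) = dk E K g + dk E K h := by
  have a1 : (g * h)ᵀ * E * (g * h) + E = (hᵀ * M * h + N) + (hᵀ * M * h + N)ᵀ := by
    have b1 := congrArg (fun X => hᵀ * X * h) hg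
    simp only [Matrix.mul_add, Matrix.add_mul, transpose_add, transpose_mul, transpose_transpose,
      Matrix.mul_assoc] at b1 hh ⊢
    linear_combination (norm := abel1) b1 + hh - self_add h2 (hᵀ * (E * h))
  have a2 : hᵀ * (E + Eᵀ) * h = E + Eᵀ := by
    have b1 := congrArg transpose hh
    simp only [Matrix.mul_add, Matrix.add_mul, transpose_add, transpose_mul, transpose_transpose,
      Matrix.mul_assoc] at b1 hh ⊢
    linear_combination (norm := abel1) b1 + hh + self_add h2 N + self_add h2 Nᵀ - self_add h2 E -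
      self_add h2 Eᵀ
  have a3 : h * K * hᵀ = K := by
    have b1 : K * hᵀ * (E + Eᵀ) * h = 1 := by
      rw [← hK, ← a2]; simp only [Matrix.mul_assoc, a2]
    have b2 := mul_eq_one_comm.1 b1
    have b3 := mul_eq_one_comm.1 hK
    calc h * K * hᵀ = h * K * hᵀ * ((E + Eᵀ) * K) := by rw [b3, Matrix.mul_one]
      _ = h * (K * hᵀ * (E + Eᵀ)) * K := by simp only [Matrix.mul_assoc]
      _ = K := by rw [b2, Matrix.one_mul]
  rw [dk_eq h2 hK a1, dk_eq h2 hK hg, dk_eq h2 hK hh, Matrix.mul_add, trace_add]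
  congr 1
  rw [← Matrix.mul_assoc, trace_mul_comm, ← Matrix.mul_assoc, ← Matrix.mul_assoc, a3]

theorem dk_refl (h2 : (2 : F) = 0) (hK : K * (E + Eᵀ) = 1) {w : Fin m → F} {c : F}
    (hc : c * (w ⬝ᵥ E *ᵥ w) = 1) : dk E K (1 + c • (vecMulVec w w * (E + Eᵀ))) = 1 := by
  have hW : (vecMulVec w w)ᵀ = vecMulVec w w := transpose_vecMulVec w w
  have h1 : vecMulVec w w * (E * vecMulVec w w) = (w ⬝ᵥ E *ᵥ w) • vecMulVec w w := by
    rw [mul_vecMulVec, vecMulVec_mul_vecMulVec, vecMulVec_smul]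
  have h3 : trace (vecMulVec w w * E) = w ⬝ᵥ E *ᵥ w := by
    rw [trace_mul_comm, mul_vecMulVec, trace_vecMulVec, dotProduct_comm]
  have hJ : (E + Eᵀ)ᵀ = E + Eᵀ := by rw [transpose_add, transpose_transpose, add_comm]
  generalize vecMulVec w w = W at *
  have h4 : c • c • ((E + Eᵀ) * (W * (E * (W * (E + Eᵀ))))) =
      c • (E * (W * (E + Eᵀ))) + c • (Eᵀ * (W * (E + Eᵀ))) := by
    rw [← Matrix.mul_assoc E W, ← Matrix.mul_assoc W, h1, Matrix.smul_mul, Matrix.mul_smul,
      smul_smul c (w ⬝ᵥ E *ᵥ w), hc, one_smul, Matrix.add_mul, smul_add, Matrix.mul_assoc]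
  rw [dk_eq h2 hK (M := c • ((E + Eᵀ) * (W * E))), Matrix.mul_smul, ← Matrix.mul_assoc, hK,
    Matrix.one_mul, trace_smul, h3, smul_eq_mul, hc]
  generalize hd : E + Eᵀ = J at *
  simp only [transpose_add, transpose_smul, transpose_mul, transpose_one, hW, hJ, Matrix.add_mul,
    Matrix.mul_add, Matrix.smul_mul, Matrix.mul_smul, Matrix.one_mul, Matrix.mul_one,
    Matrix.mul_assoc, smul_add]
  linear_combination (norm := abel1) h4 + self_add h2 E + self_add h2 (c • (E * (W * J)))

end Dk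

open Dk

/-- the Dickson invariant: additive on isometries and equal to one on reflections -/
theorem exists_dickson {F V : Type*} [Field F] [AddCommGroup V] [Module F V]
    [FiniteDimensional F V] (h2 : (2 : F) = 0) (Q : QuadraticForm F V)
    (hQ : ∀ v, (∀ w, polar Q v w = 0) → v = 0) :
    ∃ D : (V →ₗ[F] V) → F,
      (∀ g h : V →ₗ[F] V, (∀ v, Q (g v) = Q v) → (∀ v, Q (h v) = Q v) → D (g * h) = D g + D h) ∧
      ∀ (g : V →ₗ[F] V) (w : V), Q w ≠ 0 → (∀ v, g v = v - (polar Q v w / Q w) • w) → D g = 1 := by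
  let b := Module.finBasis F V
  let E := LinearMap.BilinForm.toMatrix b (Q.toBilin b)
  have e1 : ∀ v w, b.repr v ⬝ᵥ E *ᵥ b.repr w = Q.toBilin b v w := fun v w => by
    simp [E, LinearMap.BilinForm.dotProduct_toMatrix_mulVec]
  have e2 : ∀ v, Q.toBilin b v v = Q v := fun v => by
    rw [← LinearMap.BilinMap.toQuadraticMap_apply, toQuadraticMap_toBilin]
  have e3 : ∀ v w, b.repr v ⬝ᵥ (E + Eᵀ) *ᵥ b.repr w = polar Q v w := fun v w => by
    rw [add_mulVec, dotProduct_add, mulVec_transpose, dotProduct_comm _ (_ ᵥ* _),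
      ← dotProduct_mulVec, e1, e1, polar, ← e2, ← e2, ← e2]
    simp only [map_add, LinearMap.add_apply]
    abel
  have sj : ∀ x : Fin (Module.finrank F V) → F, ∃ v, ⇑(b.repr v) = x := fun x =>
    b.equivFun.surjective x
  obtain ⟨K, hK⟩ : ∃ K, K * (E + Eᵀ) = 1 := by
    have : IsUnit (E + Eᵀ) := by
      refine mulVec_injective_iff_isUnit.1 ((injective_iff_map_eq_zero (E + Eᵀ).mulVecLin).2 ?_)
      intro x hx
      obtain ⟨v, rfl⟩ := sj x
      have : v = 0 := hQ v fun w => by
        rw [polar_comm, ← e3, ← mulVecLin_apply, hx, dotProduct_zero]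
      simp [this]
    exact ⟨_, this.val_inv_mul⟩
  have half : ∀ g : V →ₗ[F] V, (∀ v, Q (g v) = Q v) → ∃ M : Matrix _ _ F,
      (LinearMap.toMatrix b b g)ᵀ * E * LinearMap.toMatrix b b g + E = M + Mᵀ := fun g hg => by
    refine exists_half h2 fun x => ?_
    obtain ⟨v, rfl⟩ := sj x
    rw [add_mulVec, dotProduct_add, ← mulVec_mulVec, ← mulVec_mulVec, dotProduct_mulVec,
      vecMul_transpose, LinearMap.toMatrix_mulVec_repr, e1, e1, e2, e2, hg, ← two_mul, h2, zero_mul]
  refine ⟨fun g => dk E K (LinearMap.toMatrix b b g), fun g h hg hh => ?_, fun g w hw hg => ?_⟩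
  · obtain ⟨M, hM⟩ := half g hg
    obtain ⟨N, hN⟩ := half h hh
    simp only [LinearMap.toMatrix_mul]
    exact dk_mul h2 hK hM hN
  · have : LinearMap.toMatrix b b g =
        1 + (Q w)⁻¹ • (vecMulVec (b.repr w) (b.repr w) * (E + Eᵀ)) := by
      refine ext_iff_mulVec.2 fun x => ?_
      obtain ⟨v, rfl⟩ := sj x
      rw [LinearMap.toMatrix_mulVec_repr, add_mulVec, one_mulVec, smul_mulVec, ← mulVec_mulVec,
        vecMulVec_mulVec, e3, hg, polar_comm]
      ext i
      simp only [map_sub, map_smul, Finsupp.coe_sub, Finsupp.coe_smul, Pi.sub_apply, Pi.add_apply,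
        Pi.smul_apply, smul_eq_mul, MulOpposite.smul_eq_mul_unop, MulOpposite.unop_op]
      linear_combination -(polar Q w v / Q w * b.repr w i) * h2
    simp only [this]
    exact dk_refl h2 hK (by rw [e1, e2, inv_mul_cancel₀ hw])

end Pool.Agent.Lib.MP_d787f3_al
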