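import Mathlib

/-! A dichotomy for an element of prime order in a finite soluble group. -/

namespace Pool.Agent.Lib.MP_d787f3_al.Ex

open Subgroup
open scoped commutatorElement

variable {G : Type*} [Group G]

/-- `A` is a nontrivial abelian normal subgroup of exponent `r` centralised by `y` -/
def Cen (r : ℕ) (y : G) (A : Subgroup G) : Prop :=
  A.Normal ∧ A ≠ ⊥ ∧ (∀ a ∈ A, a ^ r = 1 ∧ Commute a y) ∧ ∀ a ∈ A, ∀ b ∈ A, Commute a b

/-- the elements of exponent `r` in an abelian normal subgroup -/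
theorem cen_of {r : ℕ} {y : G} (Z : Subgroup G) [hZ : Z.Normal] (h1 : ∀ a ∈ Z, ∀ b ∈ Z, Commute a b)
    (h2 : ∀ a ∈ Z, Commute a y) {l : G} (hl : l ∈ Z) (hl1 : l ≠ 1) (hr : l ^ r = 1) :
    ∃ A, Cen r y A := by
  let A : Subgroup G :=
    { carrier := {a | a ∈ Z ∧ a ^ r = 1}
      one_mem' := ⟨Z.one_mem, one_pow _⟩
      mul_mem' := fun ha hb => ⟨Z.mul_mem ha.1 hb.1, by
        rw [(h1 _ ha.1 _ hb.1).mul_pow, ha.2, hb.2, one_mul]⟩
      inv_mem' := fun ha => ⟨Z.inv_mem ha.1, by rw [inv_pow, ha.2, inv_one]⟩ }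
  refine ⟨A, ⟨fun a ha g => ⟨hZ.conj_mem a ha.1 g, by rw [conj_pow, ha.2]; simp⟩⟩, fun h => hl1 ?_,
    fun a ha => ⟨ha.2, h2 a ha.1⟩, fun a ha b hb => h1 a ha.1 b hb.1⟩
  exact mem_bot.1 (h ▸ (⟨hl, hr⟩ : l ∈ A))

theorem comm_pow {r : ℕ} {y k : G} (hy : y ^ r = 1) (h : Commute ⁅k, y⁆ y) : ⁅k, y⁆ ^ r = 1 := by
  have h1 : (⁅k, y⁆ * y) ^ r = 1 := by
    rw [commutatorElement_def, inv_mul_cancel_right, conj_pow, hy]; simp
  rwa [h.mul_pow, hy, mul_one] at h1

theorem exists_pp [Finite G] {y : G} (m : ℕ) : ∀ k : G, orderOf k = m → ¬ Commute k y →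
    ∃ s j i : ℕ, s.Prime ∧ orderOf (k ^ i) = s ^ j ∧ ¬ Commute (k ^ i) y := by
  induction m using Nat.recOnPosPrimePosCoprime with
  | prime_pow s j hs _ => exact fun k h1 h2 => ⟨s, j, 1, hs, by simpa using h1, by simpa using h2⟩
  | zero => exact fun k h1 _ => absurd h1 (orderOf_pos k).ne'
  | one => exact fun k h1 h2 => absurd (by rw [orderOf_eq_one_iff.1 h1]; exact Commute.one_left y) h2
  | coprime a b ha hb hab iha ihb =>
    intro k h1 h2
    by_cases c1 : Commute (k ^ a) y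
    · by_cases c2 : Commute (k ^ b) y
      · refine absurd ?_ h2
        have e := Nat.gcd_eq_gcd_ab a b
        rw [hab, Nat.cast_one] at e
        rw [← zpow_one k, e, zpow_add, zpow_mul, zpow_mul, zpow_natCast, zpow_natCast]
        exact (c1.zpow_left _).mul_left (c2.zpow_left _)
      · obtain ⟨s, j, i, g1, g2, g3⟩ := iha (k ^ b) (by
          rw [orderOf_pow' _ (by omega), h1, Nat.gcd_mul_left_left, Nat.mul_div_cancel _ (by omega)])
          c2
        exact ⟨s, j, b * i, g1, pow_mul k b i ▸ g2, pow_mul k b i ▸ g3⟩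
    · obtain ⟨s, j, i, g1, g2, g3⟩ := ihb (k ^ a) (by
        rw [orderOf_pow' _ (by omega), h1, Nat.gcd_mul_right_left,
          Nat.mul_div_cancel_left _ (by omega)]) c1
      exact ⟨s, j, a * i, g1, pow_mul k a i ▸ g2, pow_mul k a i ▸ g3⟩

theorem dichotomy [Finite G] [Group.IsSolvable G] {y : G} {r : ℕ} (hy : y ^ r = 1) (hy1 : y ≠ 1) :
    (∃ A, Cen r y A) ∨ ∃ s : ℕ, s.Prime ∧ ∃ K : Subgroup G, K.Normal ∧ IsPGroup s K ∧
      (∃ k ∈ K, ¬ Commute k y) ∧ ((∀ a ∈ K, ∀ b ∈ K, Commute a b) ∨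
        (s ≠ r ∧ (∀ a ∈ K, ∀ b ∈ K, ∀ c ∈ K, Commute ⁅a, b⁆ c) ∧
          ∀ z ∈ K, (∀ c ∈ K, Commute z c) → Commute z y)) := by
  by_cases h0 : ∀ k, Commute k y
  · refine Or.inl (cen_of (center G) (fun a ha b _ => (mem_center_iff.1 ha b).symm)
      (fun a _ => h0 a) (mem_center_iff.2 fun g => h0 g) hy1 hy)
  push Not at h0
  obtain ⟨K, ⟨hK, k, hk, hky⟩, hmin⟩ := exists_minimal_of_wellFoundedLT
    (fun K : Subgroup G => K.Normal ∧ ∃ k ∈ K, ¬ Commute k y)
    ⟨⊤, inferInstance, h0.imp fun k h => ⟨mem_top k, h⟩⟩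
  have lt : ∀ L : Subgroup G, L.Normal → L < K → ∀ l ∈ L, Commute l y := fun L h1 h2 l hl => by
    by_contra h
    exact h2.not_ge (hmin ⟨h1, l, hl, h⟩ h2.le)
  have lt' : ∀ L : Subgroup G, L.Normal → L < K →
      normalClosure {y} ≤ centralizer (L : Set G) := fun L h1 h2 =>
    normalClosure_le_normal (Set.singleton_subset_iff.2
      (mem_centralizer_iff.2 fun l hl => lt L h1 h2 l hl))
  have K0 : K ≠ ⊥ := by
    rintro rfl
    exact hky (mem_bot.1 hk ▸ Commute.one_left y)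
  have K1 : ⁅K, K⁆ < K := Group.IsSolvable.commutator_lt_of_ne_bot K0
  have yY : y ∈ normalClosure {y} := subset_normalClosure rfl
  by_cases hC : K ≤ centralizer ((⁅K, K⁆ : Subgroup G) : Set G)
  · have c2 : ∀ a ∈ K, ∀ b ∈ K, ∀ c ∈ K, Commute ⁅a, b⁆ c := fun a ha b hb c hc =>
      mem_centralizer_iff.1 (hC hc) _ (commutator_mem_commutator ha hb)
    have nil : Group.IsNilpotent K := by
      refine (isNilpotent_iff_lowerCentralSeries K).2 ⟨2, ?_⟩
      show ⁅⁅K, K⁆, K⁆ = ⊥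
      rw [commutator_comm]
      exact commutator_eq_bot_iff_le_centralizer.2 hC
    obtain ⟨s, j, i, g1, g2, g3⟩ := exists_pp _ k rfl hky
    have := Fact.mk g1
    have hp : IsPGroup s (zpowers (⟨k ^ i, K.pow_mem hk i⟩ : K)) :=
      IsPGroup.of_card (n := j) (by rw [Nat.card_zpowers, ← g2, ← orderOf_coe])
    obtain ⟨P, hP⟩ := hp.exists_le_sylow
    have := P.characteristic_of_normal inferInstance
    have e : (P : Subgroup K).map K.subtype = K := by
      by_contra hne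
      exact g3 (lt _ inferInstance (lt_of_le_of_ne (map_subtype_le _) hne) _
        ⟨_, hP (mem_zpowers _), rfl⟩)
    have pK : IsPGroup s K := e ▸ P.2.map K.subtype
    by_cases ab : ∀ a ∈ K, ∀ b ∈ K, Commute a b
    · exact Or.inr ⟨s, g1, K, hK, pK, ⟨k, hk, hky⟩, Or.inl ab⟩
    have zl : K ⊓ centralizer (K : Set G) < K := lt_of_le_of_ne inf_le_left fun h =>
      ab fun a ha b hb => mem_centralizer_iff.1 (h.ge hb).2 a ha
    have zy := lt _ inferInstance zl
    by_cases hs : s = r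
    · subst hs
      push Not at ab
      obtain ⟨a, ha, b, hb, hab⟩ := ab
      have hc : ⁅a, b⁆ ∈ K ⊓ centralizer (K : Set G) := ⟨K1.le (commutator_mem_commutator ha hb),
        mem_centralizer_iff.2 fun c hc => (c2 a ha b hb c hc).symm⟩
      have o1 : ⁅a, b⁆ ≠ 1 := fun h => hab (commutatorElement_eq_one_iff_commute.1 h)
      obtain ⟨t, ht⟩ := IsPGroup.iff_orderOf.1 pK ⟨_, hc.1⟩
      rw [← orderOf_coe] at ht
      rcases t with _ | t
      · exact absurd (orderOf_eq_one_iff.1 ht) o1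
      refine Or.inl (cen_of (K ⊓ centralizer (K : Set G))
        (fun u hu v hv => mem_centralizer_iff.1 hv.2 u hu.1) zy (l := ⁅a, b⁆ ^ s ^ t)
        (pow_mem hc _) (pow_ne_one_of_lt_orderOf (pow_pos g1.pos t).ne' ?_) ?_)
      · rw [ht]; exact Nat.pow_lt_pow_right g1.one_lt t.lt_succ_self
      · rw [← pow_mul, ← pow_succ, ← ht]; exact pow_orderOf_eq_one _
    · exact Or.inr ⟨s, g1, K, hK, pK, ⟨k, hk, hky⟩, Or.inr ⟨hs, c2, fun z hz h =>
        zy z ⟨hz, mem_centralizer_iff.2 fun c hc => (h c hc).symm⟩⟩⟩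
  · have a1 : K ⊓ centralizer ((⁅K, K⁆ : Subgroup G) : Set G) < K :=
      lt_of_le_of_ne inf_le_left fun h => hC (h.ge.trans inf_le_right)
    have a2 := lt' _ inferInstance a1
    have lY : ⁅k, y⁆ ∈ normalClosure {y} :=
      commutator_le_right ⊤ _ (commutator_mem_commutator (mem_top k) yY)
    have lK : ⁅k, y⁆ ∈ K := commutator_le_left _ ⊤ (commutator_mem_commutator hk (mem_top y))
    have lC : ⁅k, y⁆ ∈ centralizer (normalClosure {y} : Set G) := mem_centralizer_iff.2 fun u hu =>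
      (mem_centralizer_iff.1 (a2 hu) _ ⟨lK, lt' _ inferInstance K1 lY⟩).symm
    exact Or.inl (cen_of (normalClosure {y} ⊓ centralizer (normalClosure {y} : Set G))
      (fun u hu v hv => mem_centralizer_iff.1 hv.2 u hu.1)
      (fun u hu => (mem_centralizer_iff.1 hu.2 y yY).symm) ⟨lY, lC⟩
      (fun h => hky (commutatorElement_eq_one_iff_commute.1 h))
      (comm_pow hy (mem_centralizer_iff.1 lC y yY).symm))

end Pool.Agent.Lib.MP_d787f3_al.Ex
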