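import Mathlib

/-! A verified solver for linear systems over the field with two elements.
A natural number `c` encodes the affine functional with constant term bit `0` and the
coefficient of the variable `t` in bit `t + 1`. -/

namespace Pool.Agent.Lib.MP_d787f3_al.Ex

open Finset Matrix

def red : List (ℕ × ℕ) → ℕ → ℕ
  | [], c => c
  | p :: P, c => (fun d => cond (d.testBit p.1) (d ^^^ p.2) d) (red P c)

def ins (P : List (ℕ × ℕ)) (c : ℕ) : List (ℕ × ℕ) :=
  (fun d => cond (d.beq 0) P ((d.log2, d) :: P)) (red P c)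

def elim (P : List (ℕ × ℕ)) : List ℕ → List (ℕ × ℕ)
  | [] => P
  | c :: C => elim (ins P c) C

/-- values of the first `N` variables, or the first undetermined variable -/
def sol (P : List (ℕ × ℕ)) : ℕ → ℕ ⊕ ℕ
  | 0 => .inl 0
  | t + 1 => match sol P t with
    | .inr s => .inr s
    | .inl m => (fun d => cond (d.beq 0) (.inl m) (cond (d.beq 1) (.inl (m ^^^ 2 ^ t)) (.inr t)))
        (red P (2 ^ (t + 1)))

def chk (N : ℕ) (cands : List ℕ) : ℕ → List (ℕ × ℕ) → Bool
  | 0, _ => false
  | f + 1, P => (red P 1).beq 0 || match sol P N with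
    | .inl m => cands.any (m.beq ·)
    | .inr t => chk N cands f (ins P (2 ^ (t + 1))) && chk N cands f (ins P (2 ^ (t + 1) ^^^ 1))

/-- a bit as an element of the field -/
def bt (m i : ℕ) : ZMod 2 := if m.testBit i then 1 else 0

theorem bt_xor (a b i : ℕ) : bt (a ^^^ b) i = bt a i + bt b i := by
  simp only [bt, Nat.testBit_xor]
  cases a.testBit i <;> cases b.testBit i <;> decide

theorem bt_pow (s t : ℕ) : bt (2 ^ s) t = if s = t then 1 else 0 := by
  simp [bt, Nat.testBit_two_pow]

section sound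

variable {φ : ℕ → ZMod 2} (hφ : ∀ a b, φ (a ^^^ b) = φ a + φ b)
include hφ

theorem phi_zero : φ 0 = 0 := by simpa using hφ 0 0

theorem red_sound {P : List (ℕ × ℕ)} (hP : ∀ p ∈ P, φ p.2 = 0) (c : ℕ) : φ (red P c) = φ c := by
  induction P with
  | nil => rfl
  | cons p P ih =>
    have h1 := ih fun q hq => hP q (List.mem_cons_of_mem _ hq)
    simp only [red]
    cases (red P c).testBit p.1
    · exact h1
    · simp [hφ, h1, hP p List.mem_cons_self]

theorem ins_sound {P : List (ℕ × ℕ)} (hP : ∀ p ∈ P, φ p.2 = 0) {c : ℕ} (hc : φ c = 0) :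
    ∀ p ∈ ins P c, φ p.2 = 0 := by
  simp only [ins]
  cases (red P c).beq 0
  · intro p hp
    rcases List.mem_cons.1 hp with rfl | hp
    · exact (red_sound hφ hP c).trans hc
    · exact hP p hp
  · exact hP

theorem elim_sound {C : List ℕ} : ∀ {P : List (ℕ × ℕ)}, (∀ p ∈ P, φ p.2 = 0) →
    (∀ c ∈ C, φ c = 0) → ∀ p ∈ elim P C, φ p.2 = 0 := by
  induction C with
  | nil => exact fun h _ => h
  | cons c C ih =>
    exact fun hP hC => ih (ins_sound hφ hP (hC c List.mem_cons_self))
      fun d hd => hC d (List.mem_cons_of_mem _ hd)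

theorem sol_sound (h1 : φ 1 = 1) {P : List (ℕ × ℕ)} (hP : ∀ p ∈ P, φ p.2 = 0) (N : ℕ) :
    ∀ m, sol P N = .inl m → (∀ t, N ≤ t → bt m t = 0) ∧ ∀ t < N, φ (2 ^ (t + 1)) = bt m t := by
  induction N with
  | zero =>
    intro m h
    obtain rfl : 0 = m := Sum.inl.inj h
    simp [bt]
  | succ N ih =>
    intro m h
    simp only [sol] at h
    rcases hs : sol P N with m' | s
    · rw [hs] at h
      obtain ⟨a1, a2⟩ := ih m' hs
      have a3 := red_sound hφ hP (2 ^ (N + 1))
      simp only at h
      generalize red P (2 ^ (N + 1)) = d at h a3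
      rcases hd : d.beq 0
      · rcases hd1 : d.beq 1
        · simp [hd, hd1] at h
        · obtain rfl := Nat.eq_of_beq_eq_true hd1
          obtain rfl : m' ^^^ 2 ^ N = m := Sum.inl.inj h
          refine ⟨fun t ht => ?_, fun t ht => ?_⟩
          · rw [bt_xor, bt_pow, a1 t (by omega), if_neg (by omega), add_zero]
          · rcases (Nat.le_of_lt_succ ht).lt_or_eq with ht | rfl
            · rw [bt_xor, bt_pow, a2 t ht, if_neg (by omega), add_zero]
            · rw [bt_xor, bt_pow, a1 t le_rfl, if_pos rfl, zero_add, ← a3, h1]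
      · obtain rfl := Nat.eq_of_beq_eq_true hd
        obtain rfl : m' = m := by simpa using h
        refine ⟨fun t ht => a1 t (by omega), fun t ht => ?_⟩
        rcases (Nat.le_of_lt_succ ht).lt_or_eq with ht | rfl
        · exact a2 t ht
        · rw [a1 t le_rfl, ← a3, phi_zero hφ]
    · rw [hs] at h
      simp at h

theorem chk_sound (h1 : φ 1 = 1) (N : ℕ) (cands : List ℕ) (f : ℕ) : ∀ P : List (ℕ × ℕ),
    (∀ p ∈ P, φ p.2 = 0) → chk N cands f P = true →
      ∃ m ∈ cands, ∀ t < N, φ (2 ^ (t + 1)) = bt m t := by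
  induction f with
  | zero => intro P _ h; simp [chk] at h
  | succ f ih =>
    intro P hP h
    simp only [chk, Bool.or_eq_true] at h
    rcases h with h | h
    · have := red_sound hφ hP 1
      rw [Nat.eq_of_beq_eq_true h, phi_zero hφ, h1] at this
      exact absurd this (by decide)
    · rcases hs : sol P N with m | t
      · rw [hs] at h
        obtain ⟨m', a1, a2⟩ := List.any_eq_true.1 h
        obtain rfl := Nat.eq_of_beq_eq_true a2
        exact ⟨m, a1, (sol_sound hφ h1 hP N m hs).2⟩
      · rw [hs] at h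
        obtain ⟨a1, a2⟩ := Bool.and_eq_true_iff.1 h
        have : ∀ x : ZMod 2, x = 0 ∨ x + 1 = 0 := by decide
        rcases this (φ (2 ^ (t + 1))) with g | g
        · exact ih _ (ins_sound hφ hP g) a1
        · exact ih _ (ins_sound hφ hP (by rw [hφ, h1, g])) a2

end sound

variable {n : ℕ}

/-- a vector given by the bits of a number -/
def bv (n m : ℕ) : Fin n → ZMod 2 := fun i => bt m i

/-- a matrix given by the bits of a number, row by row -/
def bm (n m : ℕ) : Matrix (Fin n) (Fin n) (ZMod 2) := of fun i j => bt m (n * i + j)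

/-- value of an encoded functional at a matrix -/
def ev (z : Matrix (Fin n) (Fin n) (ZMod 2)) (c : ℕ) : ZMod 2 :=
  bt c 0 + ∑ i : Fin n, ∑ j : Fin n, bt c (n * i + j + 1) * z i j

theorem ev_xor (z : Matrix (Fin n) (Fin n) (ZMod 2)) (a b : ℕ) :
    ev z (a ^^^ b) = ev z a + ev z b := by
  simp only [ev, bt_xor, add_mul, sum_add_distrib]
  abel

theorem ev_one (z : Matrix (Fin n) (Fin n) (ZMod 2)) : ev z 1 = 1 := by
  have := bt_pow 0
  simp only [pow_zero] at this
  simp [ev, this]

theorem idx_inj {i j k l : Fin n} (h : n * i + j = n * k + l) : i = k ∧ j = l := by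
  have h1 := congrArg (· % n) h
  simp only [Nat.mul_add_mod, Nat.mod_eq_of_lt j.2, Nat.mod_eq_of_lt l.2] at h1
  rw [h1, Nat.add_right_cancel_iff, Nat.mul_right_inj i.pos.ne'] at h
  exact ⟨Fin.ext h, Fin.ext h1⟩

theorem ev_pow (z : Matrix (Fin n) (Fin n) (ZMod 2)) (i j : Fin n) :
    ev z (2 ^ (n * i + j + 1)) = z i j := by
  simp only [ev, bt_pow, Nat.add_right_cancel_iff]
  rw [if_neg (by omega), zero_add, sum_eq_single i, sum_eq_single j]
  · simp
  · exact fun l _ hl => by rw [if_neg fun h => hl (idx_inj h).2.symm, zero_mul]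
  · simp
  · exact fun k _ hk => sum_eq_zero fun l _ => by
      rw [if_neg fun h => hk (idx_inj h).1.symm, zero_mul]
  · simp

/-- encoding of the functional `z ↦ a ⬝ᵥ z *ᵥ v` -/
def lin (a v : Fin n → ZMod 2) : ℕ :=
  ((List.finRange n).map fun i => ((List.finRange n).map fun j =>
    if a i * v j = 1 then 2 ^ (n * i + j + 1) else 0).foldr (· ^^^ ·) 0).foldr (· ^^^ ·) 0

theorem ev_fold (z : Matrix (Fin n) (Fin n) (ZMod 2)) (L : List ℕ) :
    ev z (L.foldr (· ^^^ ·) 0) = (L.map (ev z)).sum := by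
  induction L with
  | nil => exact phi_zero (ev_xor z)
  | cons c L ih => simp [ev_xor, ih]

theorem ev_lin (z : Matrix (Fin n) (Fin n) (ZMod 2)) (a v : Fin n → ZMod 2) :
    ev z (lin a v) = a ⬝ᵥ z *ᵥ v := by
  have : ∀ x y : ZMod 2, x ≠ 1 → 0 = x * y := by decide
  simp only [dotProduct, mulVec, mul_sum]
  simp only [lin, ev_fold, List.map_map, Fin.sum_univ_def]
  congr 1
  refine List.map_congr_left fun i _ => ?_
  simp only [Function.comp, ev_fold, List.map_map]
  congr 1
  refine List.map_congr_left fun j _ => ?_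
  simp only [Function.comp]
  split_ifs with h
  · rw [ev_pow, mul_comm (z i j), ← mul_assoc, h, one_mul]
  · rw [phi_zero (ev_xor z), mul_comm (z i j), ← mul_assoc]
    exact this _ _ h

theorem ev_val (z : Matrix (Fin n) (Fin n) (ZMod 2)) (c : ZMod 2) : ev z c.val = c := by
  have : ∀ c : ZMod 2, c = 0 ∨ c = 1 := by decide
  rcases this c with rfl | rfl
  · exact phi_zero (ev_xor z)
  · exact ev_one z

/-- soundness of the solver for matrices -/
theorem solve {z : Matrix (Fin n) (Fin n) (ZMod 2)} {C cands : List ℕ} {f : ℕ}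
    (hC : ∀ c ∈ C, ev z c = 0) (h : chk (n * n) cands f (elim [] C) = true) :
    ∃ m ∈ cands, z = bm n m := by
  obtain ⟨m, a1, a2⟩ := chk_sound (ev_xor z) (ev_one z) _ _ _ _
    (elim_sound (ev_xor z) (by simp) hC) h
  refine ⟨m, a1, Matrix.ext fun i j => ?_⟩
  rw [← ev_pow z i j, a2 _ (by nlinarith [i.2, j.2])]
  rfl

end Pool.Agent.Lib.MP_d787f3_al.Ex
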