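import Pool.Agent.Lib.MP_d787f3_al.ExcGrp

/-! Dimension bounds for an element of prime order acting on a normal subgroup of prime power
order and coprime characteristic. -/

namespace Pool.Agent.Lib.MP_d787f3_al.Ex

open Subgroup Module Function
open scoped commutatorElement

variable {F V : Type*} [Field F] [AddCommGroup V] [Module F V]

/-- joint eigenvectors with distinct weights are independent -/
theorem indep {ι X : Type*} (f : ι → V →ₗ[F] V) (χ : X → ι → F) (hχ : Injective χ) (v : X → V)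
    (h0 : ∀ x, v x ≠ 0) (hv : ∀ x i, f i (v x) = χ x i • v x) : LinearIndependent F v := by
  classical
  rw [linearIndependent_iff']
  intro s
  induction s using Finset.induction_on with
  | empty => simp
  | insert a s ha ih =>
    intro g hg
    rw [Finset.sum_insert ha] at hg
    have key : ∀ b ∈ s, g b = 0 := fun b hb => by
      obtain ⟨i, hi⟩ := Function.ne_iff.1 (hχ.ne (show b ≠ a from fun h => ha (h ▸ hb)))
      have h1 := congrArg (fun w => f i w - χ a i • w) hg
      simp only [map_add, map_sum, map_smul, hv, smul_add, Finset.smul_sum, map_zero, smul_zero,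
        sub_zero, smul_comm (g a), add_sub_add_left_eq_sub, ← Finset.sum_sub_distrib] at h1
      have h2 := ih (fun c => g c * (χ c i - χ a i)) (by
        rw [← h1]
        exact Finset.sum_congr rfl fun c _ => by module) b hb
      exact (mul_eq_zero.1 h2).resolve_right (sub_ne_zero.2 hi)
    intro b hb
    rcases Finset.mem_insert.1 hb with rfl | hb
    · rw [Finset.sum_eq_zero fun c hc => by rw [key c hc, zero_smul], add_zero] at hg
      exact (smul_eq_zero.1 hg).resolve_right (h0 b)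
    · exact key b hb

variable [IsAlgClosed F] [FiniteDimensional F V] {G : Type*} [Group G] (ρ : G →* End F V)

/-- weight vectors span -/
theorem exists_wt {s : ℕ} (hs : (s : F) ≠ 0) {Z : Subgroup G} (hp : IsPGroup s Z)
    (hZ : ∀ a ∈ Z, ∀ b ∈ Z, Commute a b) {W : Type*} [AddCommGroup W] [Module F W]
    {f : V →ₗ[F] W} (hf : f ≠ 0) :
    ∃ (χ : Z → F) (v : V), (∀ a : Z, ρ a v = χ a • v) ∧ f v ≠ 0 := by
  have h1 : ∀ a : Z, (ρ a).IsFinitelySemisimple := fun a => by
    obtain ⟨k, hk⟩ := hp a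
    refine (End.isSemisimple_of_squarefree_aeval_eq_zero
      (p := Polynomial.X ^ s ^ k - 1) (Polynomial.X_pow_sub_one_separable_iff.2 ?_).squarefree
      ?_).isFinitelySemisimple
    · simpa using fun h => absurd h hs
    · rw [map_sub, map_pow, Polynomial.aeval_X, map_one, ← map_pow, ← Subgroup.coe_pow, hk, coe_one,
        map_one, sub_self]
  have h2 := End.iSup_iInf_maxGenEigenspace_eq_top_of_iSup_maxGenEigenspace_eq_top_of_commute
    (fun a : Z => ρ a) (fun a b _ => (hZ a a.2 b b.2).map ρ)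
    fun a => End.iSup_maxGenEigenspace_eq_top _
  by_contra hn
  push Not at hn
  refine hf (LinearMap.ker_eq_top.1 (top_le_iff.1 (h2 ▸ iSup_le fun χ v hv => hn χ v fun a => ?_)))
  have := (Submodule.mem_iInf _).1 hv a
  rwa [(h1 a).maxGenEigenspace_eq_eigenspace, End.mem_eigenspace_iff] at this

omit [IsAlgClosed F] [FiniteDimensional F V] in
theorem wt_pow {g : G} {c : F} {v : V} (h0 : v ≠ 0) (hv : ρ g v = c • v) {m : ℕ} (hm : g ^ m = 1) :
    c ^ m = 1 := by
  have : ∀ i : ℕ, ρ (g ^ i) v = c ^ i • v := fun i => by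
    induction i with
    | zero => simp
    | succ i ih => rw [pow_succ', map_mul, End.mul_apply, ih, map_smul, hv, smul_smul, pow_succ]
  have h1 := this m
  rw [hm, map_one, End.one_apply] at h1
  exact smul_left_injective F h0 (h1.symm.trans (one_smul F v).symm)

/-- the abelian case -/
theorem ab_bound (hρ : Injective ρ) (B : V →ₗ[F] V →ₗ[F] F) (hB : ∀ v, B v = 0 → v = 0)
    (hi : ∀ g v w, B (ρ g v) (ρ g w) = B v w) {s r : ℕ} (hs : (s : F) ≠ 0) (so : Odd s)
    (hr : r.Prime) (ro : Odd r) {K : Subgroup G} [hK : K.Normal] (hp : IsPGroup s K)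
    (hab : ∀ a ∈ K, ∀ b ∈ K, Commute a b) {y : G} (hy : y ^ r = 1)
    (hk : ∃ k ∈ K, ¬ Commute k y) : 2 * r ≤ finrank F V := by
  have := Fact.mk hr
  obtain ⟨k, hk, hky⟩ := hk
  let c : K → K := fun a => ⟨y⁻¹ * a * y, hK.conj_mem' a a.2 y⟩
  let σ : (K → F) → K → F := fun χ a => χ (c a)
  let τ : (K → F) → K → F := fun χ a => (χ a)⁻¹
  have st : ∀ i χ, σ^[i] (τ χ) = τ (σ^[i] χ) := fun i χ =>
    (show Function.Commute σ τ from fun _ => rfl).iterate_left i χ
  have per : ∀ χ, σ^[r] χ = χ := fun χ => by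
    have : ∀ (i : ℕ) (a : K), σ^[i] χ a = χ ⟨(y ^ i)⁻¹ * a * y ^ i, hK.conj_mem' a a.2 _⟩ := fun i => by
      induction i with
      | zero => simp
      | succ i ih =>
        intro a
        rw [iterate_succ_apply']
        refine (ih _).trans (congrArg χ (Subtype.ext ?_))
        simp only [c, pow_succ']
        group
    funext a
    simp [this, hy]
  have nz : ∀ g v, v ≠ 0 → ρ g v ≠ 0 := fun g v h h1 => h (by
    have := congrArg (ρ g⁻¹) h1
    rwa [← End.mul_apply, ← map_mul, inv_mul_cancel, map_one, End.one_apply, map_zero] at this)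
  have mv : ∀ (i : ℕ) (χ : K → F) (v : V), (∀ a : K, ρ a v = χ a • v) →
      ∀ a : K, ρ a (ρ (y ^ i) v) = σ^[i] χ a • ρ (y ^ i) v := fun i χ v hv => by
    induction i with
    | zero => simpa using hv
    | succ i ih =>
      intro a
      rw [iterate_succ_apply', pow_succ', map_mul, End.mul_apply, ← map_smul, ← ih (c a),
        ← End.mul_apply, ← End.mul_apply (ρ y), ← map_mul, ← map_mul]
      simp [c, mul_assoc]
  obtain ⟨χ, v, h1, h2⟩ := exists_wt ρ hs hp hab (f := ρ (c ⟨k, hk⟩) - ρ k) (fun h => hky (by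
    have := hρ (sub_eq_zero.1 h)
    simp only [c] at this
    rw [Commute, SemiconjBy]
    conv_rhs => rw [← this]
    group))
  have v0 : v ≠ 0 := by rintro rfl; simp at h2
  have nf : σ χ ≠ χ := fun h => h2 (by
    rw [LinearMap.sub_apply, h1, h1 ⟨k, hk⟩, show χ (c ⟨k, hk⟩) = χ ⟨k, hk⟩ from congrFun h _, sub_self])
  obtain ⟨ψ, w, g1, g2⟩ := exists_wt ρ hs hp hab (f := B v) fun h => v0 (hB v h)
  have w0 : w ≠ 0 := by rintro rfl; simp at g2
  obtain rfl : ψ = τ χ := funext fun a => by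
    have := hi a v w
    rw [h1, g1, map_smul, map_smul, LinearMap.smul_apply, smul_smul, smul_eq_mul,
      mul_eq_right₀ g2] at this
    exact eq_inv_of_mul_eq_one_left this
  have mp : minimalPeriod σ χ = r := minimalPeriod_eq_prime (per χ) nf
  have tt : ∀ χ, τ (τ χ) = χ := fun χ => funext fun a => inv_inv _
  have ne : ∀ i, σ^[i] χ ≠ τ χ := fun i h => by
    have a1 : IsPeriodicPt σ (2 * i) χ := by
      rw [IsPeriodicPt, IsFixedPt, two_mul, iterate_add_apply, h, st, h, tt]
    rw [isPeriodicPt_iff_minimalPeriod_dvd, mp] at a1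
    have a2 : IsPeriodicPt σ i χ := by
      rw [isPeriodicPt_iff_minimalPeriod_dvd, mp]
      exact (Nat.coprime_two_right.2 ro).dvd_of_dvd_mul_left a1
    have a3 : ∀ a, χ a = 1 := fun a => by
      obtain ⟨j, hj⟩ := hp a
      have b1 := wt_pow ρ v0 (h1 a) (m := s ^ j) (by rw [← Subgroup.coe_pow, hj, coe_one])
      have b2 : χ a = (χ a)⁻¹ := congrFun (a2.symm.trans h) a
      obtain ⟨t, ht⟩ : Odd (s ^ j) := so.pow
      have b0 : χ a ≠ 0 := fun h0 => by simp [h0, ht] at b1
      have b3 : χ a ^ 2 = 1 := by rw [sq]; nth_rw 1 [b2]; exact inv_mul_cancel₀ b0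
      rwa [ht, pow_succ, pow_mul, b3, one_pow, one_mul] at b1
    exact nf (funext fun a => (a3 _).trans (a3 a).symm)
  have ne' : ∀ i j : Fin r, σ^[i] χ ≠ σ^[j] (τ χ) := fun i j h => ne (r - j + i) (by
    rw [iterate_add_apply, h, ← iterate_add_apply, Nat.sub_add_cancel j.2.le, per])
  have inj : Injective fun i : Fin r => σ^[i] χ := fun i j h =>
    Fin.ext (iterate_injOn_Iio_minimalPeriod (mp ▸ i.2) (mp ▸ j.2) h)
  have := (indep (fun a : K => ρ a) (Sum.elim (fun i : Fin r => σ^[i] χ) fun i : Fin r => σ^[i] (τ χ))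
    (inj.sumElim (fun i j h => inj (by
      have := congrArg τ h
      simpa only [st, tt] using this)) ne')
    (Sum.elim (fun i => ρ (y ^ i.1) v) fun i => ρ (y ^ i.1) w)
    (by rintro (i | i); exacts [nz _ _ v0, nz _ _ w0])
    (by rintro (i | i); exacts [mv i χ v h1, mv i _ w g1])).fintype_card_le_finrank
  simpa [two_mul] using this

/-- the class two case -/
theorem nab_bound [Finite G] (hρ : Injective ρ) {s r : ℕ} (hs : (s : F) ≠ 0) (sp : s.Prime)
    (hr : r.Prime) (sr : s ≠ r) {K : Subgroup G} [hK : K.Normal] (hp : IsPGroup s K)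
    (c2 : ∀ a ∈ K, ∀ b ∈ K, ∀ c ∈ K, Commute ⁅a, b⁆ c) {y : G} (hy : y ^ r = 1)
    (zy : ∀ z ∈ K, (∀ c ∈ K, Commute z c) → Commute z y) (hk : ∃ k ∈ K, ¬ Commute k y) :
    ∃ i j, i < j ∧ 2 ≤ j ∧ s ^ j ≤ finrank F V ^ 2 ∧ s ^ j ≡ s ^ i [MOD r] := by
  classical
  have := Fact.mk hr
  have := Fact.mk sp
  obtain ⟨k, hk, hky⟩ := hk
  let Z : Subgroup G := K ⊓ centralizer (K : Set G)
  have zc : ∀ z ∈ Z, ∀ c ∈ K, Commute z c := fun z hz c hc => (mem_centralizer_iff.1 hz.2 c hc).symm
  have cK : ∀ a ∈ K, ∀ g, ⁅a, g⁆ ∈ K := fun a ha g =>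
    commutator_le_left _ ⊤ (commutator_mem_commutator ha (mem_top g))
  have cZ : ∀ a b : K, ⁅(a : G), (b : G)⁆ ∈ Z := fun a b =>
    ⟨cK a a.2 b, mem_centralizer_iff.2 fun c hc => (c2 a a.2 b b.2 c hc).symm⟩
  obtain ⟨k', hk', hc⟩ : ∃ k' ∈ K, ¬ Commute ⁅k, y⁆ k' := by
    by_contra hn
    push Not at hn
    obtain ⟨j, hj⟩ := hp ⟨_, cK k hk y⟩
    refine hky (commutatorElement_eq_one_iff_commute.1 ?_)
    have := pow_gcd_eq_one.2 ⟨comm_pow hy (zy _ (cK k hk y) hn), congrArg Subtype.val hj⟩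
    rwa [((Nat.coprime_primes hr sp).2 sr.symm).pow_right j, pow_one] at this
  obtain ⟨χ, v, h1, h2⟩ := exists_wt ρ hs (hp.to_le inf_le_left : IsPGroup s Z)
    (fun a ha b hb => zc a ha b hb.1) (f := ρ ⁅k', ⁅k, y⁆⁆ - 1) (fun h => hc
      (commutatorElement_eq_one_iff_commute.1 (hρ ((sub_eq_zero.1 h).trans (map_one ρ).symm))).symm)
  have v0 : v ≠ 0 := by rintro rfl; simp at h2
  have mul : ∀ a b : Z, χ (a * b) = χ a * χ b := fun a b => smul_left_injective F v0 (by
    simp only [← h1, coe_mul, map_mul, End.mul_apply]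
    rw [h1, map_smul, h1, smul_smul, mul_comm, ← smul_smul])
  have one : χ 1 = 1 := smul_left_injective F v0 (by simp only [← h1]; simp)
  let φ : K →* (K → F) :=
    { toFun := fun a b => χ ⟨_, cZ b a⟩
      map_one' := funext fun b => (congrArg χ (Subtype.ext (by simp))).trans one
      map_mul' := fun a a' => funext fun b => by
        rw [Pi.mul_apply, ← mul]
        refine congrArg χ (Subtype.ext ?_)
        have := (c2 b b.2 a' a'.2 a a.2).eq
        simp only [coe_mul, commutatorElement_def] at this ⊢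
        calc _ = b * a * (b : G)⁻¹ * ((b * a' * (b : G)⁻¹ * (a' : G)⁻¹) * (a : G)⁻¹) := by group
          _ = b * a * (b : G)⁻¹ * ((a : G)⁻¹ * (a * (b * a' * (b : G)⁻¹ * (a' : G)⁻¹)) * (a : G)⁻¹) := by
            group
          _ = _ := by rw [← this]; group }
  have anti : ∀ a b, φ a b * φ b a = 1 := fun a b => by
    refine (mul _ _).symm.trans ((congrArg χ (Subtype.ext ?_)).trans one)
    simp [commutatorElement_def, mul_assoc]
  let c : K →* K := (MulAut.conjNormal y : MulAut K)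
  have eqv : ∀ a b, φ (c a) (c b) = φ a b := fun a b => congrArg χ (Subtype.ext (by
    have := (zy _ (cZ b a).1 (zc _ (cZ b a))).eq
    simp only [c, commutatorElement_def, MonoidHom.coe_coe, MulAut.conjNormal_apply] at this ⊢
    calc _ = y * (b * a * (b : G)⁻¹ * (a : G)⁻¹) * y⁻¹ := by group
      _ = _ := by rw [← this]; group))
  let σ : K ⧸ φ.ker →* K ⧸ φ.ker := QuotientGroup.map _ _ c fun a ha => by
    rw [mem_comap, MonoidHom.mem_ker] at *
    funext b
    obtain ⟨b, rfl⟩ := (MulAut.conjNormal y : MulAut K).surjective b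
    exact (eqv a b).trans (congrFun ha b)
  have it : ∀ (i : ℕ) (a : K), σ^[i] (a : K ⧸ φ.ker) = (MulAut.conjNormal (y ^ i) a : K) := fun i a => by
    induction i with
    | zero => simp
    | succ i ih => rw [iterate_succ_apply', ih, pow_succ', map_mul]; rfl
  let _ : Fintype (K ⧸ φ.ker) := Fintype.ofFinite _
  have md := Equiv.Perm.card_fixedPoints_modEq (f := (fun e => σ e : Function.End (K ⧸ φ.ker))) (p := r) (n := 1)
    (funext fun e => by
      obtain ⟨a, rfl⟩ := QuotientGroup.mk_surjective e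
      rw [pow_one]
      refine (it r a).trans ?_
      rw [hy, map_one]; rfl)
  obtain ⟨j, hj⟩ := (hp.to_quotient φ.ker).exists_card_eq
  obtain ⟨i, hi, hi'⟩ := (Nat.dvd_prime_pow sp).1
    (hj ▸ card_subgroup_dvd_card (σ.eqLocus (MonoidHom.id _)))
  have l1 : φ ⟨_, cK k hk y⟩ ⟨k', hk'⟩ ≠ 1 := fun h => h2 (by
    rw [LinearMap.sub_apply, h1 ⟨_, cZ ⟨k', hk'⟩ ⟨_, cK k hk y⟩⟩]
    exact sub_eq_zero.2 ((congrArg (· • v) h).trans (one_smul F v)))
  refine ⟨i, j, lt_of_le_of_ne hi ?_, ?_, ?_, ?_⟩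
  · rintro rfl
    have a1 := eq_top_of_card_eq _ (hi'.trans hj.symm)
    have a2 : σ (((⟨k, hk⟩ : K)⁻¹ : K) : K ⧸ φ.ker) = ((⟨k, hk⟩ : K)⁻¹ : K) :=
      (a1.ge (mem_top _) : _ ∈ σ.eqLocus (MonoidHom.id _))
    have a3 := QuotientGroup.eq.1 (a2.symm.trans (QuotientGroup.map_mk _ _ _ _ _))
    rw [inv_inv, MonoidHom.mem_ker] at a3
    refine l1 (Eq.trans (congrFun (congrArg φ (Subtype.ext ?_)) _) (congrFun a3 ⟨k', hk'⟩))
    simp [c, commutatorElement_def, mul_assoc]
  · by_contra h
    have : IsCyclic (K ⧸ φ.ker) := isCyclic_of_card_dvd_prime (p := s)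
      (hj ▸ (pow_dvd_pow s (by omega)).trans (pow_one s).dvd)
    obtain ⟨e, he⟩ := IsCyclic.exists_monoid_generator (α := K ⧸ φ.ker)
    obtain ⟨a, rfl⟩ := QuotientGroup.mk_surjective e
    have gen : ∀ b : K, ∃ m : ℕ, φ b = φ (a ^ m) := fun b => by
      obtain ⟨m, hm⟩ := he (b : K ⧸ φ.ker)
      exact ⟨m, ((φ.eq_iff).2 (by simpa using (QuotientGroup.eq.1 hm)))⟩
    obtain ⟨m, hm⟩ := gen ⟨_, cK k hk y⟩
    obtain ⟨n, hn⟩ := gen ⟨k', hk'⟩
    have a1 := anti (a ^ m) ⟨k', hk'⟩
    have a2 : φ (a ^ n) (a ^ m) = 1 := (congrArg χ (Subtype.ext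
      (commutatorElement_eq_one_iff_commute.2 (Commute.pow_pow_self (a : G) m n)))).trans one
    rw [hn, a2, mul_one, ← hm] at a1
    exact l1 a1
  · let M : Submodule F V := ⨅ z : Z, End.eigenspace (ρ z) (χ z)
    have mM : ∀ {w}, w ∈ M ↔ ∀ z : Z, ρ z w = χ z • w := by
      simp [M]
    let T := Representation.subrepresentation (ρ.comp K.subtype) M fun a w hw => mM.2 fun z => by
      have := (zc z z.2 a a.2).eq
      simp only [MonoidHom.comp_apply, coe_subtype]
      rw [← End.mul_apply, ← map_mul, this, map_mul, End.mul_apply, mM.1 hw, map_smul]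
    have a1 := (indep (V := End F M)
      (fun b : K => (LinearMap.mulLeft F (T b)).comp (LinearMap.mulRight F (T b⁻¹)))
      (fun e : K ⧸ φ.ker => φ e.out) (fun e e' h => by
        rw [← QuotientGroup.out_eq' e, ← QuotientGroup.out_eq' e', QuotientGroup.eq]
        simpa using (φ.eq_iff).1 h.symm) (fun e => T e.out) (fun e h => by
        have := congrArg (fun t => (T e.out⁻¹ * t) ⟨v, mM.2 h1⟩) h
        simp only [← map_mul, inv_mul_cancel, map_one, mul_zero] at this
        exact v0 (congrArg Subtype.val this)) (fun e b => by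
        ext w
        have e1 : (b : G) * (e.out * b⁻¹) = ⁅(b : G), (e.out : G)⁆ * e.out := by
          simp [commutatorElement_def, mul_assoc]
        have e2 := mM.1 (T e.out w).2 ⟨_, cZ b e.out⟩
        simp only [LinearMap.comp_apply, LinearMap.mulRight_apply, LinearMap.mulLeft_apply,
          ← map_mul]
        refine Eq.trans ?_ e2
        show ρ (b * (e.out * b⁻¹)) w = ρ _ (ρ _ w)
        rw [e1, map_mul]
        rfl)).fintype_card_le_finrank
    rw [← hj, Nat.card_eq_fintype_card]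
    refine a1.trans ?_
    rw [finrank_linearMap, sq]
    exact Nat.mul_le_mul M.finrank_le M.finrank_le
  · rw [← hj, ← hi', Nat.card_eq_fintype_card]
    exact md.trans (by rw [← Nat.card_eq_fintype_card]; rfl)

/-- elements of order five in dimension at most eight and characteristic two -/
theorem cen_five [Finite G] [Group.IsSolvable G] (hρ : Injective ρ) (h2 : (2 : F) = 0)
    (B : V →ₗ[F] V →ₗ[F] F) (hB : ∀ v, B v = 0 → v = 0) (hi : ∀ g v w, B (ρ g v) (ρ g w) = B v w)
    (hn : finrank F V ≤ 8) (hO : ∀ P : Subgroup G, P.Normal → IsPGroup 2 P → P = ⊥) {y : G}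
    (hy : y ^ 5 = 1) (hy1 : y ≠ 1) : ∃ A, Cen 5 y A := by
  rcases dichotomy hy hy1 with h | ⟨s, sp, K, hK, hp, hk, h⟩
  · exact h
  exfalso
  have s2 : s ≠ 2 := by
    rintro rfl
    obtain ⟨k, h1, h3⟩ := hk
    rw [hO K hK hp, mem_bot] at h1
    exact h3 (h1 ▸ Commute.one_left y)
  have so := sp.odd_of_ne_two s2
  have hs : (s : F) ≠ 0 := by
    obtain ⟨t, rfl⟩ := so
    simp [h2]
  rcases h with h | ⟨h1, h3, h4⟩
  · have := ab_bound ρ hρ B hB hi hs so Nat.prime_five (by decide) hp h hy hk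
    omega
  · obtain ⟨i, j, a1, a2, a3, a4⟩ := nab_bound ρ hρ hs sp Nat.prime_five h1 hp h3 hy h4 hk
    have a5 : s ^ j ≤ 64 := a3.trans (Nat.pow_le_pow_left hn 2)
    have a6 : s ≤ 8 := by
      have := (Nat.pow_le_pow_right sp.pos a2).trans a5
      nlinarith
    have a7 : j < 4 := by
      by_contra h
      have s3 : 3 ≤ s := by have := sp.two_le; omega
      have := ((Nat.pow_le_pow_left s3 4).trans (Nat.pow_le_pow_right sp.pos (not_lt.1 h))).trans a5
      omega
    have s3 := sp.two_le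
    interval_cases s <;> interval_cases j <;> interval_cases i <;> simp_all (decide := true)

end Pool.Agent.Lib.MP_d787f3_al.Ex
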