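import Pool.Agent.Lib.MP_d787f3_al.Defs

namespace Pool.Agent.Lib.MP_d787f3_al
open Subgroup

/-- two non central elements without a non central common soluble neighbour -/
def Far (G : Type*) [Group G] : Prop :=
  ∃ x x' : G, x ∉ Subgroup.center G ∧ x' ∉ Subgroup.center G ∧ ∀ z : G,
    Group.IsSolvable (Subgroup.closure {x, z}) → Group.IsSolvable (Subgroup.closure {x', z}) →
      z ∈ Subgroup.center G

theorem sol_map {G G' : Type*} [Group G] [Group G'] (f : G →* G') {x z : G}
    (h : Group.IsSolvable (closure {x, z})) : Group.IsSolvable (closure {f x, f z}) := by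
  have e : closure {f x, f z} = (closure {x, z}).map f := by
    rw [MonoidHom.map_closure, Set.image_pair]
  rw [e]
  exact Group.isSolvable_of_surjective (f.subgroupMap_surjective _)

theorem sol_of_inj {G G' : Type*} [Group G] [Group G'] (f : G →* G') (hf : Function.Injective f)
    {x z : G} (h : Group.IsSolvable (closure {f x, f z})) : Group.IsSolvable (closure {x, z}) := by
  have e : closure {f x, f z} = (closure {x, z}).map f := by
    rw [MonoidHom.map_closure, Set.image_pair]
  rw [e] at h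
  exact Group.isSolvable_of_surjective (f := ((closure {x, z}).equivMapOfInjective f hf).symm.toMonoidHom)
    (MulEquiv.surjective _)

theorem center_equiv {G G' : Type*} [Group G] [Group G'] (e : G ≃* G') {x : G} :
    e x ∈ center G' ↔ x ∈ center G := by
  simp only [mem_center_iff]
  exact ⟨fun h g => e.injective (by simpa using h (e g)), fun h g => by
    obtain ⟨g, rfl⟩ := e.surjective g
    rw [← map_mul, h, map_mul]⟩

theorem Far.of_equiv {G G' : Type*} [Group G] [Group G'] (e : G ≃* G') (h : Far G) : Far G' := by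
  obtain ⟨x, x', h1, h2, h⟩ := h
  refine ⟨e x, e x', mt (center_equiv e).1 h1, mt (center_equiv e).1 h2, fun z a b => ?_⟩
  obtain ⟨z, rfl⟩ := e.surjective z
  exact (center_equiv e).2 (h z (sol_of_inj e.toMonoidHom e.injective a)
    (sol_of_inj e.toMonoidHom e.injective b))

/-- a group with a soluble normal subgroup containing `x` -/
theorem sol_of_normal {G : Type*} [Group G] (N : Subgroup G) [N.Normal] {x z : G}
    (hN : Group.IsSolvable N)
    (h : Group.IsSolvable (closure {(x : G ⧸ N), (z : G ⧸ N)})) :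
    Group.IsSolvable (closure {x, z}) := by
  have e : closure {(x : G ⧸ N), (z : G ⧸ N)} = (closure {x, z}).map (QuotientGroup.mk' N) := by
    rw [MonoidHom.map_closure, Set.image_pair]; rfl
  rw [e] at h
  have : Group.IsSolvable (N.subgroupOf (closure {x, z})) :=
    Group.isSolvable_of_isSolvable_injective (f := ((closure {x, z}).subtype.comp
      (N.subgroupOf (closure {x, z})).subtype).codRestrict N fun a => a.2)
      fun a b h => Subtype.ext (Subtype.ext (congrArg (fun t : N => (t : G)) h))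
  exact Group.isSolvable_of_ker_le_range (N.subgroupOf (closure {x, z})).subtype
    ((QuotientGroup.mk' N).subgroupMap _) fun a ha => ⟨⟨a, (QuotientGroup.eq_one_iff (a : G)).1
      (congrArg Subtype.val ha)⟩, rfl⟩

theorem sol_comm {G : Type*} [Group G] {x z : G} (h : Commute x z) :
    Group.IsSolvable (closure {x, z}) :=
  Group.isSolvable_of_comm fun a b => Subtype.ext (by
    have : closure {x, z} ≤ centralizer (closure ({x, z} : Set G)) := by
      rw [closure_le, centralizer_closure]
      rintro c (rfl | rfl) d (rfl | rfl) <;> first | rfl | exact h.eq | exact h.eq.symm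
    exact this b.2 a a.2)

theorem Far.ediam {G : Type*} [Group G] (h : Far G) : 3 ≤ (solGraph (G ⧸ center G)).ediam := by
  obtain ⟨x, x', h1, h2, h⟩ := h
  have hc : Group.IsSolvable (center G) := Group.isSolvable_of_comm fun a b =>
    Subtype.ext (mem_center_iff.1 b.2 a)
  have key : ∀ z : G, Group.IsSolvable (closure {(x : G ⧸ center G), (z : G ⧸ center G)}) →
      Group.IsSolvable (closure {(x' : G ⧸ center G), (z : G ⧸ center G)}) → z ∈ center G :=
    fun z a b => h z (sol_of_normal _ hc a) (sol_of_normal _ hc b)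
  have rad : ∀ a b : G ⧸ center G, (∃ N : Subgroup (G ⧸ center G), N.Normal ∧
      Group.IsSolvable N ∧ a ∈ N) → Group.IsSolvable (closure {a, b}) := by
    rintro a b ⟨N, _, hN, ha⟩
    refine sol_of_normal N hN (sol_comm ?_)
    rw [(QuotientGroup.eq_one_iff a).2 ha]
    exact Commute.one_left _
  have v1 := fun r => h2 (key x' (rad _ _ r) (sol_comm (Commute.refl _)))
  have v2 := fun r => h1 (key x (sol_comm (Commute.refl _)) (rad _ _ r))
  refine le_trans ?_ (SimpleGraph.edist_le_ediam (u := ⟨x, v1⟩) (v := ⟨x', v2⟩))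
  by_contra hlt
  obtain ⟨p, hp⟩ := SimpleGraph.exists_walk_of_edist_ne_top (G := solGraph (G ⧸ center G))
    (u := ⟨x, v1⟩) (v := ⟨x', v2⟩) (fun e => hlt (e ▸ le_top))
  rw [← hp, not_le] at hlt
  have hl : p.length < 3 := by exact_mod_cast hlt
  have adj : ¬ Group.IsSolvable (closure {(x : G ⧸ center G), (x' : G ⧸ center G)}) :=
    fun a => h2 (key x' a (sol_comm (Commute.refl _)))
  have gen : ∀ (u v : {g : G ⧸ center G // _}) (p : (solGraph (G ⧸ center G)).Walk u v),
      p.length < 3 → (x : G ⧸ center G) = u.1 → (x' : G ⧸ center G) = v.1 → False := by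
    intro u v p hl eu ev
    cases p with
    | nil => exact adj (sol_comm (by rw [eu, ev]))
    | @cons _ w _ a p =>
      cases p with
      | nil => exact adj (by rw [eu, ev]; exact a.2)
      | cons b p =>
        cases p with
        | nil =>
          obtain ⟨z, hz⟩ := QuotientGroup.mk_surjective w.1
          have := key z (by rw [eu, hz]; exact a.2) (by rw [ev, hz]; exact b.symm.2)
          exact w.2 ⟨⊥, inferInstance, inferInstance, by
            rw [← hz, (QuotientGroup.eq_one_iff z).2 this]; exact one_mem _⟩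
        | cons => simp at hl; omega
  exact gen _ _ p hl rfl rfl

variable {F V V' : Type*} [Field F] [AddCommGroup V] [Module F V] [AddCommGroup V'] [Module F V']

/-- conjugation by a linear equivalence -/
def cj (e : V ≃ₗ[F] V') : (V ≃ₗ[F] V) ≃* (V' ≃ₗ[F] V') where
  toFun g := (e.symm.trans g).trans e
  invFun g := (e.trans g).trans e.symm
  left_inv g := by ext; simp
  right_inv g := by ext; simp
  map_mul' g h := by ext; simp

@[simp] theorem cj_apply (e : V ≃ₗ[F] V') (g : V ≃ₗ[F] V) (v : V') :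
    cj e g v = e (g (e.symm v)) := rfl

theorem far_of_map (e : V ≃ₗ[F] V') {G : Subgroup (V ≃ₗ[F] V)} {G' : Subgroup (V' ≃ₗ[F] V')}
    (he : G.map (cj e).toMonoidHom = G') (h : Far G') : Far G :=
  Far.of_equiv (G.equivMapOfInjective (cj e).toMonoidHom (cj e).injective).symm (he ▸ h)

theorem map_cj {G : Subgroup (V ≃ₗ[F] V)} {G' : Subgroup (V' ≃ₗ[F] V')} (e : V ≃ₗ[F] V')
    (h : ∀ g, g ∈ G ↔ cj e g ∈ G') : G.map (cj e).toMonoidHom = G' := by
  ext g
  obtain ⟨g, rfl⟩ := (cj e).surjective g
  rw [← h]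
  exact mem_map_iff_mem (f := (cj e).toMonoidHom) (cj e).injective

theorem far_orth_of_equiv (Q : QuadraticForm F V) (Q' : QuadraticForm F V') (c : F) (hc : c ≠ 0)
    (e : V ≃ₗ[F] V') (he : ∀ v, Q' (e v) = c * Q v)
    (h : Far (⁅orth Q', orth Q'⁆ : Subgroup (V' ≃ₗ[F] V'))) :
    Far (⁅orth Q, orth Q⁆ : Subgroup (V ≃ₗ[F] V)) := by
  refine far_of_map e ?_ h
  rw [map_commutator, map_cj e (G := orth Q) (G' := orth Q') fun g => ⟨fun h v => ?_, fun h v => ?_⟩]
  · obtain ⟨v, rfl⟩ := e.surjective v
    rw [cj_apply, e.symm_apply_apply, he, he, h]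
  · have := h (e v)
    rw [cj_apply, e.symm_apply_apply, he, he] at this
    exact mul_left_cancel₀ hc this

theorem isom_cj {σ : F →+* F} (B : V →ₛₗ[σ] V →ₗ[F] F) (B' : V' →ₛₗ[σ] V' →ₗ[F] F)
    (e : V ≃ₗ[F] V') (he : ∀ u v, B' (e u) (e v) = B u v) (g : V ≃ₗ[F] V) :
    g ∈ isom B ↔ cj e g ∈ isom B' := by
  refine ⟨fun h u v => ?_, fun h u v => ?_⟩
  · obtain ⟨u, rfl⟩ := e.surjective u
    obtain ⟨v, rfl⟩ := e.surjective v
    rw [cj_apply, cj_apply, e.symm_apply_apply, e.symm_apply_apply, he, he, h]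
  · have := h (e u) (e v)
    rwa [cj_apply, cj_apply, e.symm_apply_apply, e.symm_apply_apply, he, he] at this

theorem far_isom_of_equiv {σ : F →+* F} (B : V →ₛₗ[σ] V →ₗ[F] F) (B' : V' →ₛₗ[σ] V' →ₗ[F] F)
    (e : V ≃ₗ[F] V') (he : ∀ u v, B' (e u) (e v) = B u v) (h : Far (isom B')) : Far (isom B) :=
  far_of_map e (map_cj e (isom_cj B B' e he)) h

theorem far_su_of_equiv {σ : F →+* F} (B : V →ₛₗ[σ] V →ₗ[F] F) (B' : V' →ₛₗ[σ] V' →ₗ[F] F)
    (e : V ≃ₗ[F] V') (he : ∀ u v, B' (e u) (e v) = B u v)
    (h : Far (isom B' ⊓ LinearEquiv.det.ker : Subgroup (V' ≃ₗ[F] V'))) :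
    Far (isom B ⊓ LinearEquiv.det.ker : Subgroup (V ≃ₗ[F] V)) :=
  far_of_map e (map_cj e fun g => by
    rw [mem_inf, mem_inf, isom_cj B B' e he, MonoidHom.mem_ker, MonoidHom.mem_ker,
      ← LinearEquiv.det_conj g e]
    rfl) h

end Pool.Agent.Lib.MP_d787f3_al
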