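import Pool.Agent.Lib.MP_d787f3_al.FormsA

/-! Classification of quadratic forms over finite fields. -/

namespace Pool.Agent.Lib.MP_d787f3_al
open Module QuadraticMap Finset

universe u v

/-- minus type: fewer zeros than the average -/
def Minus {F V : Type*} [Field F] [AddCommGroup V] [Module F V] (Q : QuadraticForm F V) : Prop :=
  Nat.card F * Nat.card {v // Q v = 0} < Nat.card V

namespace Fm

variable {F : Type*} [Field F]

theorem ternary [Finite F] (a b c d e f : F) : ∃ x y z : F, ¬ (x = 0 ∧ y = 0 ∧ z = 0) ∧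
    a * (x * x) + b * (y * y) + c * (z * z) + d * (x * y) + e * (x * z) + f * (y * z) = 0 := by
  classical
  let _ := Fintype.ofFinite F
  have h : ∀ (r : F) (i j : Fin 3), (MvPolynomial.C r * (MvPolynomial.X i * MvPolynomial.X j) :
      MvPolynomial (Fin 3) F).IsHomogeneous 2 := fun r i j =>
    ((MvPolynomial.isHomogeneous_X F i).mul (MvPolynomial.isHomogeneous_X F j)).C_mul r
  have h1 := char_dvd_card_solutions (ringChar F) (((((((h a 0 0).add (h b 1 1)).add (h c 2 2)).add
    (h d 0 1)).add (h e 0 2)).add (h f 1 2)).totalDegree_le.trans_lt (by simp))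
  by_contra hn
  push Not at hn
  rw [Fintype.card_eq_one_iff.2 ⟨⟨0, by simp⟩, fun x => Subtype.ext ?_⟩] at h1
  · exact CharP.ringChar_ne_one (Nat.dvd_one.1 h1)
  · by_contra h0
    refine hn (x.1 0) (x.1 1) (x.1 2) (fun a b c => h0 (funext fun i => ?_)) (by simpa using x.2)
    fin_cases i <;> assumption

theorem rootless [Finite F] {b c β γ : F} (h : ∀ x, x * x + b * x + c ≠ 0)
    (h' : ∀ x, x * x + β * x + γ ≠ 0) :
    ∃ s t, 2 * s + t * b = β ∧ s * s + s * t * b + t * t * c = γ := by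
  classical
  let _ := Fintype.ofFinite F
  by_cases h2 : (2 : F) = 0
  · let ℘ : F →+ F :=
      { toFun := fun x => x * x + x
        map_zero' := by simp
        map_add' := fun x y => by linear_combination x * y * h2 }
    have hi : ℘.range.index = 2 := by
      rw [AddSubgroup.index_range, ← SetLike.coe_sort_coe, Nat.card_coe_set_eq,
        show (℘.ker : Set F) = {0, 1} from ?_, Set.ncard_pair zero_ne_one]
      ext x
      simp only [SetLike.mem_coe, AddMonoidHom.mem_ker, Set.mem_insert_iff, Set.mem_singleton_iff]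
      refine ⟨fun hx : x * x + x = 0 => (mul_eq_zero.1 (show x * (x - 1) = 0 by
        linear_combination hx - x * h2)).imp id sub_eq_zero.1, ?_⟩
      rintro (rfl | rfl)
      · simp
      · show (1 : F) * 1 + 1 = 0
        linear_combination h2
    have key : ∀ b c : F, (∀ x, x * x + b * x + c ≠ 0) → b ≠ 0 ∧ c / (b * b) ∉ ℘.range := by
      intro b c h
      have hb : b ≠ 0 := by
        rintro rfl
        obtain ⟨r, rfl⟩ := FiniteField.isSquare_of_char_two (F := F)
          (CharP.ringChar_of_prime_eq_zero Nat.prime_two h2) c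
        exact h r (by linear_combination r * r * h2)
      refine ⟨hb, fun ⟨x, hx⟩ => h (b * x) ?_⟩
      have : (x * x + x) * (b * b) = c := (eq_div_iff (mul_ne_zero hb hb)).1 hx
      linear_combination this + c * h2
    obtain ⟨a1, a2⟩ := key b c h
    obtain ⟨b1, b2⟩ := key β γ h'
    obtain ⟨x, hx⟩ := (AddSubgroup.add_mem_iff_of_index_two hi).2 (iff_of_false a2 b2)
    refine ⟨β * x, β / b, by rw [h2]; field_simp; ring, ?_⟩
    have : x * x + x = c / (b * b) + γ / (β * β) := hx
    field_simp at this ⊢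
    linear_combination this + β ^ 2 * c * h2
  · have key : ∀ b c : F, (∀ x, x * x + b * x + c ≠ 0) → quadraticChar F (b * b - 4 * c) = -1 := by
      intro b c h
      rw [quadraticChar_neg_one_iff_not_isSquare]
      rintro ⟨r, hr⟩
      refine h ((r - b) / 2) ?_
      field_simp
      linear_combination -hr
    have a1 := key b c h
    have a2 := key β γ h'
    have a0 : b * b - 4 * c ≠ 0 := fun h0 => by simp [h0] at a1
    have a3 : β * β - 4 * γ ≠ 0 := fun h0 => by simp [h0] at a2
    obtain ⟨r, hr⟩ := (quadraticChar_one_iff_isSquare (mul_ne_zero a0 a3)).1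
      (by rw [map_mul, a1, a2]; norm_num)
    obtain ⟨t, ht⟩ : ∃ t, t * t * (b * b - 4 * c) = β * β - 4 * γ :=
      ⟨r / (b * b - 4 * c), by
        generalize b * b - 4 * c = D at *
        field_simp
        linear_combination -hr⟩
    refine ⟨(β - t * b) / 2, t, by field_simp; ring, ?_⟩
    field_simp
    linear_combination -ht

variable {V : Type*} [AddCommGroup V] [Module F V] (Q : QuadraticForm F V)

theorem q2 (x y : F) (u v : V) :
    Q (x • u + y • v) = x * x * Q u + y * y * Q v + x * y * polar Q u v := by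
  rw [QuadraticMap.map_add Q, Q.map_smul, Q.map_smul, polar_smul_left, polar_smul_right]
  simp only [smul_eq_mul]
  ring

variable [FiniteDimensional F V]

omit [FiniteDimensional F V] in
theorem isotropic [Finite F] (h : 3 ≤ finrank F V) : ∃ v, v ≠ 0 ∧ Q v = 0 := by
  obtain ⟨f, hf⟩ := exists_linearIndependent_of_le_finrank h
  obtain ⟨x, y, z, h1, h2⟩ := ternary (Q (f 0)) (Q (f 1)) (Q (f 2)) (polar Q (f 0) (f 1))
    (polar Q (f 0) (f 2)) (polar Q (f 1) (f 2))
  refine ⟨x • f 0 + y • f 1 + z • f 2, fun h0 => h1 ?_, ?_⟩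
  · have := Fintype.linearIndependent_iff.1 hf ![x, y, z] (by simpa [Fin.sum_univ_three] using h0)
    exact ⟨this 0, this 1, this 2⟩
  · rw [QuadraticMap.map_add Q, q2, Q.map_smul, polar_add_left, polar_smul_left, polar_smul_left,
      polar_smul_right, polar_smul_right]
    simp only [smul_eq_mul]
    linear_combination h2

theorem qsplit (nQ : Q.polarBilin.Nondegenerate) {e : V} (he : e ≠ 0) (h0 : Q e = 0) :
    ∃ (W : Submodule F V) (φ : ((F × F) × W) ≃ₗ[F] V),
      (∀ p, Q (φ p) = p.1.1 * p.1.2 + Q.comp W.subtype p.2) ∧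
      (Q.comp W.subtype).polarBilin.Nondegenerate ∧ finrank F V = finrank F W + 2 := by
  obtain ⟨u, hu⟩ : ∃ u, polar Q e u ≠ 0 := by
    by_contra hn
    push Not at hn
    exact he (nQ.1 e hn)
  have h1 : polar Q e ((polar Q e u)⁻¹ • u) = 1 := by simp [hu]
  generalize (polar Q e u)⁻¹ • u = w at h1
  have hee : polar Q e e = 0 := by rw [polar_self, h0, smul_zero]
  have hf : Q ((-Q w) • e + (1 : F) • w) = 0 := by rw [q2, h0, h1]; ring
  have hef : polar Q e ((-Q w) • e + (1 : F) • w) = 1 := by simp [h0, h1]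
  generalize (-Q w) • e + (1 : F) • w = f at hf hef
  obtain ⟨W, φ, a1, a2, a3, a4⟩ := split Q.polarBilin (fun x y h => (polar_comm Q y x).trans h) nQ
    hee (by rw [polarBilin_apply_apply, polar_self, hf, smul_zero]) hef
  refine ⟨W, φ, fun p => ?_, ?_, a4⟩
  · have b1 : polar Q e p.2 = 0 := (a2 p.2).1
    have b2 : polar Q f p.2 = 0 := (a2 p.2).2.1
    rw [a1, QuadraticMap.map_add Q, q2, h0, hf, hef, polar_add_left, polar_smul_left,
      polar_smul_left, b1, b2]
    simp
  · exact ⟨fun x h => a3.1 x fun y => h y, fun y h => a3.2 y fun x => h x⟩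

omit [FiniteDimensional F V] in
theorem card_split [Finite F] {W : Type*} [Finite W] (f : W → F) :
    Nat.card {p : (F × F) × W // p.1.1 * p.1.2 + f p.2 = 0} + Nat.card W =
      Nat.card F * Nat.card W + Nat.card F * Nat.card {w // f w = 0} := by
  classical
  let _ := Fintype.ofFinite F
  let _ := Fintype.ofFinite W
  have h : ∀ c : F, (∑ a : F, ∑ b : F, if a * b + c = 0 then 1 else 0) + 1 =
      Fintype.card F + Fintype.card F * if c = 0 then 1 else 0 := fun c => by
    have h1 : ∀ a ∈ univ.erase (0 : F), (∑ b : F, if a * b + c = 0 then 1 else 0) = 1 := by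
      intro a ha
      have ha := ne_of_mem_erase ha
      rw [sum_eq_single (-c / a), if_pos (by field_simp; ring)]
      · exact fun b _ hb => if_neg fun h => hb (by field_simp; linear_combination h)
      · simp
    rw [← add_sum_erase _ _ (mem_univ 0), sum_congr rfl h1, sum_const, card_erase_of_mem (mem_univ _)]
    have := Fintype.card_pos (α := F)
    simp only [zero_mul, zero_add, sum_const, card_univ, smul_eq_mul, mul_one]
    omega
  simp only [Nat.card_eq_fintype_card, Fintype.card_subtype, card_filter]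
  rw [Fintype.sum_prod_type, sum_comm, mul_sum]
  simp only [Fintype.sum_prod_type]
  have := sum_congr (rfl : (univ : Finset W) = univ) fun w _ => h (f w)
  simpa [sum_add_distrib, mul_comm] using this

omit [FiniteDimensional F V] in
theorem minus_split [Finite F] {W : Type*} [AddCommGroup W] [Module F W] [FiniteDimensional F W]
    (R : QuadraticForm F W) (φ : ((F × F) × W) ≃ₗ[F] V) (h : ∀ p, Q (φ p) = p.1.1 * p.1.2 + R p.2) :
    Minus Q ↔ Minus R := by
  have := Module.finite_of_finite F (M := W)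
  have h1 := card_split R
  have h2 : Nat.card {p : (F × F) × W // p.1.1 * p.1.2 + R p.2 = 0} = Nat.card {v // Q v = 0} :=
    Nat.card_congr (φ.toEquiv.subtypeEquiv fun p => by simp [h])
  have h3 : Nat.card V = Nat.card F * Nat.card F * Nat.card W := by
    rw [← Nat.card_congr φ.toEquiv]; simp
  have h4 : 0 < Nat.card F := Nat.card_pos
  rw [Minus, Minus, h3, ← h2, mul_assoc, Nat.mul_lt_mul_left h4]
  omega

theorem minus_aniso [Finite F] (h : finrank F V = 2) (ha : ∀ v, Q v = 0 → v = 0) : Minus Q := by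
  have h1 : Nat.card {v // Q v = 0} = 1 := Nat.card_eq_one_iff_exists.2
    ⟨⟨0, map_zero Q⟩, fun x => Subtype.ext (ha _ x.2)⟩
  have h2 : 1 < Nat.card F := Finite.one_lt_card
  rw [Minus, h1, natCard_eq_pow_finrank (K := F) (V := V), h]
  nlinarith

theorem not_minus_zero [Finite F] (h : finrank F V = 0) : ¬ Minus Q := by
  have := finrank_zero_iff.1 h
  have h1 : Nat.card {v // Q v = 0} = 1 := Nat.card_eq_one_iff_exists.2
    ⟨⟨0, map_zero Q⟩, fun x => Subsingleton.elim _ _⟩
  have h2 : 0 < Nat.card F := Nat.card_pos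
  rw [Minus, h1, natCard_eq_pow_finrank (K := F) (V := V), h, pow_zero]
  omega

omit [FiniteDimensional F V] in
theorem aniso_rep [Finite F] (h : finrank F V = 2) (ha : ∀ v, Q v = 0 → v = 0) :
    ∃ e f, Q e = 1 ∧ ∀ x, x * x + polar Q e f * x + Q f ≠ 0 := by
  obtain ⟨g, hg⟩ := exists_linearIndependent_of_le_finrank h.ge
  have ind : ∀ x y : F, x • g 0 + y • g 1 = 0 → x = 0 ∧ y = 0 := fun x y h0 => by
    have := Fintype.linearIndependent_iff.1 hg ![x, y] (by simpa [Fin.sum_univ_two] using h0)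
    exact ⟨this 0, this 1⟩
  obtain ⟨x, y, z, h1, h2⟩ := ternary (Q (g 0)) (Q (g 1)) (-1) (polar Q (g 0) (g 1)) 0 0
  have hz : z ≠ 0 := by
    rintro rfl
    have := ind x y (ha _ (by rw [q2]; linear_combination h2))
    exact h1 ⟨this.1, this.2, rfl⟩
  have he : Q ((x / z) • g 0 + (y / z) • g 1) = 1 := by
    rw [q2]; field_simp; linear_combination h2
  obtain ⟨f, hf⟩ : ∃ f, ∀ t : F, t • ((x / z) • g 0 + (y / z) • g 1) + (1 : F) • f ≠ 0 := by
    by_cases hy : y = 0
    · exact ⟨g 1, fun t h0 => one_ne_zero (ind (t * (x / z)) 1 (by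
        rw [← h0, hy]; module)).2⟩
    · refine ⟨g 0, fun t h0 => ?_⟩
      obtain ⟨b1, b2⟩ := ind (t * (x / z) + 1) (t * (y / z)) (by rw [← h0]; module)
      obtain rfl := (mul_eq_zero.1 b2).resolve_right (div_ne_zero hy hz)
      simp at b1
  exact ⟨_, f, he, fun t h0 => hf t (ha _ (by rw [q2, he]; linear_combination h0))⟩

theorem plane (h : finrank F V = 2) {e f : V} {β γ : F} (he : Q e = 1) (hβ : polar Q e f = β)
    (hγ : Q f = γ) (hr : ∀ x, x * x + β * x + γ ≠ 0) :
    ∃ φ : (F × F) ≃ₗ[F] V, ∀ p, Q (φ p) = p.1 * p.1 + p.2 * p.2 * γ + p.1 * p.2 * β := by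
  let g : (F × F) →ₗ[F] V := (LinearMap.toSpanSingleton F V e).coprod (LinearMap.toSpanSingleton F V f)
  have hg : ∀ p, Q (g p) = p.1 * p.1 + p.2 * p.2 * γ + p.1 * p.2 * β := fun p =>
    (q2 Q p.1 p.2 e f).trans (by rw [he, hβ, hγ, mul_one])
  refine ⟨g.linearEquivOfInjective ((injective_iff_map_eq_zero g).2 fun ⟨a, b⟩ h0 => ?_)
    (by simp [h]), hg⟩
  have h1 := hg (a, b)
  rw [h0, map_zero] at h1
  by_cases hb : b = 0
  · simpa [hb] using h1
  · exact absurd (by field_simp; linear_combination -h1) (hr (a / b))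

omit [FiniteDimensional F V] in
theorem nondeg_smul (nQ : Q.polarBilin.Nondegenerate) {c : F} (hc : c ≠ 0) :
    (c • Q).polarBilin.Nondegenerate := by
  have : ∀ x y, (c • Q).polarBilin x y = c * Q.polarBilin x y := fun x y => by
    simp [polar, mul_sub]
  exact ⟨fun x h => nQ.1 x fun y => (mul_eq_zero.1 ((this x y).symm.trans (h y))).resolve_left hc,
    fun y h => nQ.2 y fun x => (mul_eq_zero.1 ((this x y).symm.trans (h x))).resolve_left hc⟩

theorem quad_aux [Finite F] (n : ℕ) : ∀ (V : Type u) (V' : Type v) [AddCommGroup V] [Module F V]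
    [FiniteDimensional F V] [AddCommGroup V'] [Module F V'] [FiniteDimensional F V']
    (Q : QuadraticForm F V) (Q' : QuadraticForm F V'), Q.polarBilin.Nondegenerate →
    Q'.polarBilin.Nondegenerate → finrank F V = n → finrank F V' = n →
    (Even n → (Minus Q ↔ Minus Q')) →
    ∃ (c : F) (e : V ≃ₗ[F] V'), c ≠ 0 ∧ (Even n → c = 1) ∧ ∀ v, Q' (e v) = c * Q v := by
  induction n using Nat.strong_induction_on with
  | _ n ih =>
    intro V V' _ _ _ _ _ _ Q Q' nQ nQ' h h' hm
    by_cases hi : (∃ v, v ≠ 0 ∧ Q v = 0) ∧ ∃ v, v ≠ 0 ∧ Q' v = 0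
    · obtain ⟨⟨v, v0, hv⟩, v', v0', hv'⟩ := hi
      obtain ⟨W, φ, a1, a2, a3⟩ := qsplit Q nQ v0 hv
      obtain ⟨W', φ', b1, b2, b3⟩ := qsplit Q' nQ' v0' hv'
      have ev : Even (finrank F W) ↔ Even n := by rw [← h, a3]; simp [Nat.even_add]
      obtain ⟨c, e, c0, c1, c2⟩ := ih (finrank F W) (by omega) W W' _ _ a2 b2 rfl (by omega)
        fun he => by rw [← minus_split Q _ φ a1, ← minus_split Q' _ φ' b1]; exact hm (ev.1 he)
      refine ⟨c, φ.symm ≪≫ₗ ((((LinearEquiv.smulOfNeZero F F c c0).prodCongr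
        (LinearEquiv.refl F F)).prodCongr e) ≪≫ₗ φ'), c0, fun he => c1 (ev.2 he), fun u => ?_⟩
      obtain ⟨p, rfl⟩ := φ.surjective u
      simp only [LinearEquiv.trans_apply, LinearEquiv.symm_apply_apply, a1, b1,
        LinearEquiv.prodCongr_apply, LinearEquiv.refl_apply, c2, LinearEquiv.smulOfNeZero_apply,
        smul_eq_mul]
      ring
    have h3 : n < 3 := by
      by_contra h3
      exact hi ⟨isotropic Q (by omega), isotropic Q' (by omega)⟩
    interval_cases n
    · have := finrank_zero_iff.1 h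
      exact ⟨1, .ofFinrankEq _ _ (h.trans h'.symm), one_ne_zero, fun _ => rfl, fun u => by
        simp [Subsingleton.elim u 0]⟩
    · obtain ⟨v, v0, hv⟩ := finrank_eq_one_iff'.1 h
      let e := LinearEquiv.ofFinrankEq V V' (h.trans h'.symm)
      have a1 : Q v ≠ 0 := fun h0 => v0 (nQ.1 v fun w => by
        obtain ⟨c, rfl⟩ := hv w
        simp [h0])
      have a2 : Q' (e v) ≠ 0 := fun h0 => v0 (e.map_eq_zero_iff.1 (nQ'.1 _ fun w => by
        obtain ⟨w, rfl⟩ := e.surjective w
        obtain ⟨c, rfl⟩ := hv w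
        simp [h0]))
      refine ⟨Q' (e v) / Q v, e, div_ne_zero a2 a1, fun h => absurd h (by decide), fun w => ?_⟩
      obtain ⟨c, rfl⟩ := hv w
      simp only [map_smul, QuadraticMap.map_smul, smul_eq_mul]
      field_simp
    · have iso : ∀ v, v ≠ 0 → Q v = 0 → ¬ Minus Q := fun v v0 hv => by
        obtain ⟨W, φ, a1, -, a3⟩ := qsplit Q nQ v0 hv
        rw [minus_split Q _ φ a1]
        exact not_minus_zero _ (by omega)
      have iso' : ∀ v, v ≠ 0 → Q' v = 0 → ¬ Minus Q' := fun v v0 hv => by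
        obtain ⟨W, φ, a1, -, a3⟩ := qsplit Q' nQ' v0 hv
        rw [minus_split Q' _ φ a1]
        exact not_minus_zero _ (by omega)
      have ha : ∀ v, Q v = 0 → v = 0 := fun v hv => by
        by_contra v0
        refine iso v v0 hv ((hm even_two).2 (minus_aniso Q' h' fun w hw => ?_))
        by_contra w0
        exact hi ⟨⟨v, v0, hv⟩, w, w0, hw⟩
      have ha' : ∀ v, Q' v = 0 → v = 0 := fun v hv => by
        by_contra v0
        exact iso' v v0 hv ((hm even_two).1 (minus_aniso Q h ha))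
      obtain ⟨e, f, a1, a2⟩ := aniso_rep Q h ha
      obtain ⟨e', f', b1, b2⟩ := aniso_rep Q' h' ha'
      obtain ⟨s, t, c1, c2⟩ := rootless b2 a2
      obtain ⟨φ, hφ⟩ := plane Q h a1 rfl rfl a2
      obtain ⟨φ', hφ'⟩ := plane Q' h' (f := s • e' + t • f') b1
        (by simp [b1, ← c1, mul_comm]) (by rw [q2, b1, ← c2]; ring) a2
      refine ⟨1, φ.symm ≪≫ₗ φ', one_ne_zero, fun _ => rfl, fun u => ?_⟩
      obtain ⟨p, rfl⟩ := φ.surjective u
      simp [hφ, hφ']

end Fm

variable {F V V' : Type*} [Field F] [AddCommGroup V] [Module F V] [FiniteDimensional F V]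
  [AddCommGroup V'] [Module F V'] [FiniteDimensional F V']

theorem quad_odd [Finite F] (Q : QuadraticForm F V) (Q' : QuadraticForm F V')
    (nQ : Q.polarBilin.Nondegenerate) (nQ' : Q'.polarBilin.Nondegenerate)
    (h : finrank F V = finrank F V') (ho : Odd (finrank F V)) :
    (2 : F) ≠ 0 ∧ ∃ (c : F) (e : V ≃ₗ[F] V'), c ≠ 0 ∧ ∀ v, Q' (e v) = c * Q v := by
  have he := Nat.not_even_iff_odd.2 ho
  obtain ⟨c, e, h1, -, h2⟩ := Fm.quad_aux _ V V' Q Q' nQ nQ' rfl h.symm fun h => absurd h he
  refine ⟨fun h0 => he (alt_even Q.polarBilin (fun x => ?_) nQ), c, e, h1, h2⟩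
  simp [h0]

theorem quad_even [Finite F] (Q : QuadraticForm F V) (Q' : QuadraticForm F V')
    (nQ : Q.polarBilin.Nondegenerate) (nQ' : Q'.polarBilin.Nondegenerate)
    (h : finrank F V = finrank F V') (he : Even (finrank F V)) (hm : Minus Q ↔ Minus Q') :
    ∃ e : V ≃ₗ[F] V', ∀ v, Q' (e v) = Q v := by
  obtain ⟨c, e, -, h1, h2⟩ := Fm.quad_aux _ V V' Q Q' nQ nQ' rfl h.symm fun _ => hm
  exact ⟨e, by simpa [h1 he] using h2⟩

theorem Fm.card_level [Finite F] (Q : QuadraticForm F V) (nQ : Q.polarBilin.Nondegenerate)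
    (he : Even (finrank F V)) {c : F} (hc : c ≠ 0) :
    Nat.card {v // Q v = c} = Nat.card {v // Q v = 1} := by
  obtain ⟨e, h⟩ := quad_even (c • Q) Q (Fm.nondeg_smul Q nQ hc) nQ rfl he (by simp [Minus, hc])
  exact (Nat.card_congr (e.toEquiv.subtypeEquiv fun v => by simp [h, hc])).symm

theorem minus_prod [Finite F] (Q : QuadraticForm F V) (Q' : QuadraticForm F V')
    (nQ : Q.polarBilin.Nondegenerate) (nQ' : Q'.polarBilin.Nondegenerate)
    (he : Even (finrank F V)) (he' : Even (finrank F V')) (hm : Minus Q) (hm' : Minus Q') :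
    ¬ Minus (Q.prod Q') := by
  classical
  let _ := Fintype.ofFinite F
  have := Module.finite_of_finite F (M := V)
  have := Module.finite_of_finite F (M := V')
  have sm : ∀ g : F → ℕ, ∀ a, (∀ c ≠ 0, g c = a) → ∑ c, g c = g 0 + (Nat.card F - 1) * a :=
    fun g a h => by
      rw [← add_sum_erase _ _ (mem_univ 0), sum_congr rfl fun c hc => h c (ne_of_mem_erase hc),
        sum_const, card_erase_of_mem (mem_univ _), card_univ, Nat.card_eq_fintype_card, smul_eq_mul]
  have a1 : Nat.card V = _ := ((Nat.card_congr (Equiv.sigmaFiberEquiv Q)).symm.trans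
    Nat.card_sigma).trans (sm _ _ fun c hc => Fm.card_level Q nQ he hc)
  have a2 : Nat.card V' = _ := ((Nat.card_congr (Equiv.sigmaFiberEquiv Q')).symm.trans
    Nat.card_sigma).trans (sm _ _ fun c hc => Fm.card_level Q' nQ' he' hc)
  have a3 : Nat.card {p // Q.prod Q' p = 0} =
      Nat.card (Σ c : F, {v // Q v = c} × {v // Q' v = -c}) := Nat.card_congr
    { toFun := fun p => ⟨Q p.1.1, ⟨p.1.1, rfl⟩, ⟨p.1.2, eq_neg_of_add_eq_zero_right p.2⟩⟩
      invFun := fun p => ⟨(p.2.1, p.2.2), by simp [p.2.1.2, p.2.2.2]⟩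
      left_inv := fun p => rfl
      right_inv := fun ⟨c, ⟨v, h⟩, ⟨w, h'⟩⟩ => by subst h; rfl }
  rw [Nat.card_sigma, sm _ _ fun c hc => by
    rw [Nat.card_prod, Fm.card_level Q nQ he hc, Fm.card_level Q' nQ' he' (neg_ne_zero.2 hc)],
    Nat.card_prod, neg_zero] at a3
  rw [Minus, a1] at hm
  rw [Minus, a2] at hm'
  rw [Minus, a3, Nat.card_prod, a1, a2, not_lt]
  obtain ⟨k, hk⟩ := Nat.exists_eq_succ_of_ne_zero (Nat.card_pos (α := F)).ne'
  simp only [hk, Nat.succ_eq_add_one, Nat.add_sub_cancel] at hm hm' ⊢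
  generalize Nat.card {v // Q v = 0} = a, Nat.card {v // Q v = 1} = b,
    Nat.card {v // Q' v = 0} = c, Nat.card {v // Q' v = 1} = d at *
  obtain ⟨x, rfl⟩ := Nat.exists_eq_add_of_le (show a ≤ b by
    by_contra h; nlinarith [Nat.mul_le_mul_left k (not_le.1 h).le])
  obtain ⟨y, rfl⟩ := Nat.exists_eq_add_of_le (show c ≤ d by
    by_contra h; nlinarith [Nat.mul_le_mul_left k (not_le.1 h).le])
  nlinarith [Nat.zero_le (k * x * y)]

/-- the torus model -/
theorem minus_model [Finite F] {K : Type*} [Field K] [Algebra F K] [FiniteDimensional F K]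
    (bar : K ≃ₐ[F] K) (h1 : bar ≠ 1) (h2 : ∀ u, bar (bar u) = u) (η β : K) (hη : η + bar η = 1)
    (hβ : bar β = β) (β0 : β ≠ 0) (Q : QuadraticForm F K)
    (hQ : ∀ u, Q u = Algebra.trace F K (η * β * (bar u * u))) :
    Q.polarBilin.Nondegenerate ∧ Minus Q := by
  classical
  have := Module.finite_of_finite F (M := K)
  have tr : ∀ x, Algebra.trace F K (η * (x + bar x)) = Algebra.trace F K x := fun x => by
    rw [mul_add, map_add, ← Algebra.trace_eq_of_algEquiv bar (η * bar x), map_mul bar, h2, ← map_add,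
      ← add_mul, hη, one_mul]
  have pol : ∀ u v, polar Q u v = Algebra.trace F K (β * bar u * v) := fun u v => by
    rw [← tr, polar, hQ, hQ, hQ, ← map_sub, ← map_sub]
    simp only [map_add, map_mul, h2, hβ]
    congr 1
    ring
  have nd : Q.polarBilin.SeparatingLeft := fun u hu => by
    have := (traceForm_nondegenerate F K).1 (β * bar u) fun v => (pol u v).symm.trans (hu v)
    simpa [β0] using this
  refine ⟨⟨nd, fun v hv => nd v fun u => (polar_comm Q v u).trans (hv u)⟩, ?_⟩
  obtain ⟨cd, fr, -⟩ := Fm.inv_facts (bar : K →+* K)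
    (fun h => h1 (AlgEquiv.ext fun x => DFunLike.congr_fun h x)) h2
  set K0 := (bar : K →+* K).eqLocusField (RingHom.id K)
  let l : K0 →+ F := (Algebra.trace F K).toAddMonoidHom.comp
    ((AddMonoidHom.mulLeft (η * β)).comp K0.subtype.toAddMonoidHom)
  have ls : Function.Surjective l := fun c => by
    obtain ⟨x, rfl⟩ := Algebra.trace_surjective F K c
    refine ⟨⟨β⁻¹ * (x + bar x), show bar _ = _ by simp [hβ, h2, add_comm]⟩, ?_⟩
    rw [← tr]
    show Algebra.trace F K (η * β * (β⁻¹ * (x + bar x))) = _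
    congr 1
    field_simp
  have a1 : Nat.card l.ker * Nat.card F = Nat.card K0 := by
    rw [← l.ker.card_mul_index, AddSubgroup.index_ker, AddMonoidHom.range_eq_top.2 ls,
      AddSubgroup.card_top]
  let _ := Fintype.ofFinite K
  let _ := Fintype.ofFinite l.ker
  have a2 : Nat.card {v // Q v = 0} ≤ 1 + (Nat.card l.ker - 1) * (Nat.card K0 + 1) := by
    rw [Nat.card_eq_fintype_card, Fintype.card_subtype]
    refine (card_le_card (t := {0} ∪ (univ.erase (0 : l.ker)).biUnion fun a =>
      Polynomial.nthRootsFinset (Nat.card K0 + 1) ((a : K0) : K)) fun v hv => ?_).trans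
      ((card_union_le _ _).trans (add_le_add le_rfl ((card_biUnion_le_card_mul _ _ _ fun a _ =>
        (Multiset.toFinset_card_le _).trans (Polynomial.card_nthRoots _ _)).trans_eq ?_)))
    · rcases eq_or_ne v 0 with rfl | v0
      · simp
      refine mem_union_right _ (mem_biUnion.2 ⟨⟨⟨bar v * v, show bar _ = _ by
        simp [h2, mul_comm]⟩, (hQ v).symm.trans (mem_filter.1 hv).2⟩, mem_erase.2 ⟨fun h => ?_,
        mem_univ _⟩, (Polynomial.mem_nthRootsFinset (Nat.succ_pos _) _).2 ?_⟩)
      · simpa [v0] using congrArg (fun a : l.ker => ((a : K0) : K)) h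
      · rw [pow_succ, ← fr]; rfl
    · rw [card_erase_of_mem (mem_univ _), card_univ, Nat.card_eq_fintype_card (α := l.ker)]
  have a3 : 1 < Nat.card F := Finite.one_lt_card
  obtain ⟨z, hz⟩ := Nat.exists_eq_succ_of_ne_zero (Nat.card_pos (α := l.ker)).ne'
  rw [Minus, cd]
  refine (Nat.mul_le_mul_left _ a2).trans_lt ?_
  rw [← a1, hz, Nat.succ_sub_one, Nat.succ_eq_add_one]
  generalize Nat.card F = q at *
  obtain ⟨k, rfl⟩ := Nat.exists_eq_add_of_lt a3
  nlinarith [Nat.zero_le (z * k), Nat.zero_le (z * k * k), Nat.zero_le (k * k)]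

end Pool.Agent.Lib.MP_d787f3_al
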