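import Pool.Agent.Lib.MP_d787f3_al.O8C

/-! One quarter of the linear systems. -/

namespace Pool.Agent.Lib.MP_d787f3_al.Ex

theorem run1 : run 64 = true := by decide +kernel

end Pool.Agent.Lib.MP_d787f3_al.Ex
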