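import Pool.Agent.Lib.MP_d787f3_al.O8E
import Pool.Agent.Lib.MP_d787f3_al.O8R0
import Pool.Agent.Lib.MP_d787f3_al.O8R1
import Pool.Agent.Lib.MP_d787f3_al.O8R2
import Pool.Agent.Lib.MP_d787f3_al.O8R3
import Pool.Agent.Lib.MP_d787f3_al.Far
import Pool.Agent.Lib.MP_d787f3_al.FormsB

/-! The soluble graph of the orthogonal group of plus type in dimension eight over the field of
order two. -/

namespace Pool.Agent.Lib.MP_d787f3_al

open Matrix Subgroup Module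
open scoped commutatorElement

namespace Ex

def B8 : ℕ := 9241405135719501858

def df (m : ℕ) : ℕ := mm 8 (mm 8 (trm 8 m) E8) m ^^^ E8

def up (m : ℕ) : ℕ := df m &&& 36240869367020798

theorem half_of {m : ℕ} (h : df m = up m ^^^ trm 8 (up m)) :
    (bm 8 m)ᵀ * bm 8 E8 * bm 8 m + bm 8 E8 = bm 8 (up m) + (bm 8 (up m))ᵀ := by
  rw [← bm_tr, ← bm_tr, ← bm_mm, ← bm_mm, ← bm_xor, ← bm_xor, ← h, df]

theorem iso_of {m : ℕ} (h : df m = up m ^^^ trm 8 (up m)) : Iso (bm 8 m) := fun v => by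
  have := congrArg (fun M => v ⬝ᵥ M *ᵥ v) (half_of h)
  simp only [add_mulVec, dotProduct_add, ← mulVec_mulVec] at this
  rw [dotProduct_mulVec, vecMul_transpose, mulVec_transpose, dotProduct_comm v (_ ᵥ* _),
    ← dotProduct_mulVec, CharTwo.add_self_eq_zero] at this
  exact CharTwo.add_eq_zero.1 this

theorem c9 : ∀ m ∈ cands, m = idm 8 ∨ (df m = up m ^^^ trm 8 (up m) ∧
    trace (bm 8 J8 * bm 8 (up m)) = 1) ∨
      ∃ v < 256, dt 8 (mv 8 m v) (mv 8 E8 (mv 8 m v)) ≠ dt 8 v (mv 8 E8 v) := by decide +kernel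

theorem far_abs {Γ : Type*} [Group Γ] (O : Subgroup Γ) (ρ : Γ →* Mt 8)
    (hρ : Function.Injective ρ) (hO : ∀ g, g ∈ O ↔ Iso (ρ g))
    (hs : ∀ a b : Mt 8, a * b = 1 → ∃ g, ρ g = a) : Far (⁅O, O⁆ : Subgroup Γ) := by
  have := Finite.of_injective ρ hρ
  obtain ⟨x, hx⟩ := hs (bm 8 X8) (bm 8 (mp 8 X8 14))
    ((bm_mm _ _).symm.trans ((bm_eq (by decide +kernel)).trans bm_id))
  obtain ⟨b, hb⟩ := hs (bm 8 B8) (bm 8 B8)
    ((bm_mm _ _).symm.trans ((bm_eq (by decide +kernel)).trans bm_id))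
  obtain ⟨g, hg⟩ := hs _ _ GH
  have hg' : ρ g⁻¹ = bm 8 H8 := by
    rw [← mul_one (ρ g⁻¹), ← GH, ← hg, ← mul_assoc, ← map_mul, inv_mul_cancel, map_one, one_mul]
  have xO : x ∈ O := (hO x).2 (hx ▸ iso_of (by decide +kernel))
  have bO : b ∈ O := (hO b).2 (hb ▸ iso_of (by decide +kernel))
  have gO : g ∈ O := (hO g).2 (hg ▸ iso_of (by decide +kernel))
  have x1 : x ∈ ⁅O, O⁆ := by
    have : x * b * x ^ 8 = x ^ 8 * b := hρ (by
      simp only [map_mul, map_pow, hx, hb, ← bm_mp, ← bm_mm]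
      exact bm_eq (by decide +kernel))
    have e : ⁅x ^ 8, b⁆ = x := by
      rw [commutatorElement_def, ← this]
      group
    exact e ▸ commutator_mem_commutator (O.pow_mem xO 8) bO
  have x2 : g * x * g⁻¹ ∈ ⁅O, O⁆ := by
    simpa [commutatorElement_def] using mul_mem (commutator_mem_commutator gO xO) x1
  have nc : x * (g * x * g⁻¹) ≠ g * x * g⁻¹ * x := fun h => by
    have := congrArg ρ h
    simp only [map_mul, hx, hg, hg', ← bm_mm] at this
    exact absurd (bm_inj this) (by decide +kernel)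
  have hK : bm 8 J8 * (bm 8 E8 + (bm 8 E8)ᵀ) = 1 := by rw [EJ, JJ]
  have d1 : ∀ a ∈ O, ∀ b ∈ O, Dk.dk (bm 8 E8) (bm 8 J8) (ρ (a * b)) =
      Dk.dk (bm 8 E8) (bm 8 J8) (ρ a) + Dk.dk (bm 8 E8) (bm 8 J8) (ρ b) := fun a ha b hb => by
    obtain ⟨M, hM⟩ := ((hO a).1 ha).half
    obtain ⟨N, hN⟩ := ((hO b).1 hb).half
    rw [map_mul, Dk.dk_mul rfl hK hM hN]
  have d0 : Dk.dk (bm 8 E8) (bm 8 J8) (ρ 1) = 0 := by simpa using d1 1 O.one_mem 1 O.one_mem
  have d2 : ∀ a ∈ O, Dk.dk (bm 8 E8) (bm 8 J8) (ρ a⁻¹) = -Dk.dk (bm 8 E8) (bm 8 J8) (ρ a) :=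
    fun a ha => eq_neg_of_add_eq_zero_left (by rw [← d1 _ (O.inv_mem ha) a ha, inv_mul_cancel, d0])
  let D : Subgroup Γ :=
    { carrier := {a | a ∈ O ∧ Dk.dk (bm 8 E8) (bm 8 J8) (ρ a) = 0}
      one_mem' := ⟨O.one_mem, d0⟩
      mul_mem' := fun ha hb => ⟨O.mul_mem ha.1 hb.1, by rw [d1 _ ha.1 _ hb.1, ha.2, hb.2, add_zero]⟩
      inv_mem' := fun ha => ⟨O.inv_mem ha.1, by rw [d2 _ ha.1, ha.2, neg_zero]⟩ }
  have hD : ⁅O, O⁆ ≤ D := commutator_le.2 fun a ha b hb => by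
    have h1 := O.mul_mem ha hb
    have h2 := O.mul_mem h1 (O.inv_mem ha)
    refine ⟨O.mul_mem h2 (O.inv_mem hb), ?_⟩
    rw [commutatorElement_def, d1 _ h2 _ (O.inv_mem hb), d1 _ h1 _ (O.inv_mem ha), d1 _ ha _ hb,
      d2 a ha, d2 b hb]
    ring
  have key : ∀ c ∈ O, ∀ w z : (⁅O, O⁆ : Subgroup Γ), c⁻¹ * w * c = x →
      Group.IsSolvable (closure {w, z}) → Ty (ρ (c⁻¹ * z * c)) := fun c hc w z hw _ =>
    st8 (ρ.comp ((MulAut.conj c).symm.toMonoidHom.comp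
      ((⁅O, O⁆ : Subgroup Γ).subtype.comp (closure {w, z}).subtype)))
      (hρ.comp ((MulAut.conj c).symm.injective.comp
        (Subtype.val_injective.comp Subtype.val_injective)))
      (fun h => (hO _).1 (O.mul_mem (O.mul_mem (O.inv_mem hc) (hD h.1.2).1) hc))
      (x := ⟨w, subset_closure (by simp)⟩) ((congrArg ρ hw).trans hx) ⟨z, subset_closure (by simp)⟩
  refine ⟨⟨x, x1⟩, ⟨_, x2⟩, fun h => nc (congrArg Subtype.val (mem_center_iff.1 h ⟨_, x2⟩)).symm,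
    fun h => nc (congrArg Subtype.val (mem_center_iff.1 h ⟨_, x1⟩)), fun z h1 h2 => ?_⟩
  have k1 := key 1 O.one_mem _ z (by simp) h1
  have k2 := key g gO _ z (by simp [mul_assoc]) h2
  rw [inv_one, one_mul, mul_one] at k1
  rw [map_mul, map_mul, hg, hg'] at k2
  obtain ⟨m, m1, m2⟩ := lin8 (by simp [run0, run1, run2, run3]) k1 k2
  obtain rfl | ⟨h3, h4⟩ | ⟨v, -, h3⟩ := c9 m m1
  · rw [show z = 1 from Subtype.ext (hρ (by rw [m2, bm_id, OneMemClass.coe_one, map_one]))]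
    exact one_mem _
  · have := (hD z.2).2
    rw [m2, Dk.dk_eq rfl hK (half_of h3), h4] at this
    exact absurd this (by decide)
  · have := (hO _).1 (hD z.2).1 (bv 8 v)
    rw [m2, ← bv_mv, ← bv_mv, ← bv_mv, bv_dt, bv_dt] at this
    exact absurd ((by decide : ∀ a b : Bool, (if a then (1 : ZMod 2) else 0) =
      (if b then 1 else 0) → a = b) _ _ this) h3

theorem c10 : Fintype.card {m : Fin 256 // dt 8 m (mv 8 E8 m) = false} = 136 := by decide +kernel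

end Ex

open Ex

theorem far_O8 {F V : Type*} [Field F] [AddCommGroup V] [Module F V] [FiniteDimensional F V]
    (hF : Nat.card F = 2) (Q : QuadraticForm F V) (nQ : Q.polarBilin.Nondegenerate)
    (h8 : finrank F V = 8) (hp : ¬ Minus Q) :
    Far (⁅orth Q, orth Q⁆ : Subgroup (V ≃ₗ[F] V)) := by
  have := Nat.finite_of_card_ne_zero (hF ▸ two_ne_zero)
  let _ := Fintype.ofFinite F
  let ε := (ZMod.ringEquivOfPrime F Nat.prime_two (Nat.card_eq_fintype_card.symm.trans hF)).symm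
  have sj : ∀ w : Fin 8 → ZMod 2, ∃ v, ε ∘ v = w := fun w => ⟨ε.symm ∘ w, funext fun i => by simp⟩
  have ij : ∀ {u v : Fin 8 → F}, ε ∘ u = ε ∘ v → u = v := fun h =>
    funext fun i => ε.injective (congrFun h i)
  have mv1 : ∀ (M : Matrix (Fin 8) (Fin 8) F) v, M.map ε *ᵥ (ε ∘ v) = ε ∘ (M *ᵥ v) := fun M v =>
    funext fun i => (RingHom.map_mulVec ε.toRingHom M v i).symm
  have mv2 : ∀ (M : Mt 8) v, M *ᵥ (ε ∘ v) = ε ∘ (M.map ε.symm *ᵥ v) := fun M v => by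
    rw [← mv1]
    congr 1
    ext
    simp
  let Q0 : QuadraticForm F (Fin 8 → F) := ((bm 8 E8).map ε.symm).toQuadraticForm'
  have q1 : ∀ v, ε (Q0 v) = (ε ∘ v) ⬝ᵥ bm 8 E8 *ᵥ (ε ∘ v) := fun v => by
    rw [mv2]
    exact (congrArg ε (toLinearMap₂'_apply' _ v v)).trans (RingHom.map_dotProduct ε.toRingHom _ _)
  have q2 : ∀ u v, ε (QuadraticMap.polar Q0 u v) = (ε ∘ u) ⬝ᵥ bm 8 J8 *ᵥ (ε ∘ v) := fun u v => by
    have : ε ∘ (u + v) = ε ∘ u + ε ∘ v := funext fun i => map_add ε _ _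
    rw [QuadraticMap.polar, map_sub, map_sub, q1, q1, q1, this, ← EJ, add_mulVec, dotProduct_add,
      mulVec_transpose, dotProduct_comm _ (_ ᵥ* _), ← dotProduct_mulVec]
    simp only [mulVec_add, add_dotProduct, dotProduct_add]
    ring
  have q3 : ∀ u, (∀ v, QuadraticMap.polar Q0 u v = 0) → u = 0 := fun u h => ij (funext fun i => by
    obtain ⟨v, hv⟩ := sj (bm 8 J8 *ᵥ Pi.single i 1)
    have := q2 u v
    rw [h, hv, mulVec_mulVec, JJ, one_mulVec, dotProduct_single_one] at this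
    exact this.symm)
  obtain ⟨e, he⟩ := quad_even Q Q0 nQ ⟨q3, fun u h => q3 u fun v => by
    rw [QuadraticMap.polar_comm]; exact h v⟩ (by simp [h8]) (h8 ▸ by decide) (iff_of_false hp (by
      have := Nat.card_le_card_of_injective (α := {m : Fin 256 // dt 8 m (mv 8 E8 m) = false})
        (β := {v // Q0 v = 0}) (fun m => ⟨ε.symm ∘ bv 8 m.1, ε.injective (by
          rw [q1, show ε ∘ ε.symm ∘ bv 8 m.1 = bv 8 m.1 from funext fun i => by simp, ← bv_mv,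
            bv_dt, m.2, map_zero, if_neg (by decide)])⟩) fun a b h => Subtype.ext (Fin.ext
              (bv_inj (n := 8) a.1.2 b.1.2 (funext fun i =>
                ε.symm.injective (congrFun (congrArg Subtype.val h) i))))
      rw [Nat.card_eq_fintype_card, c10] at this
      rw [Minus, Nat.card_fun, hF, Nat.card_fin]
      omega))
  let ρ : ((Fin 8 → F) ≃ₗ[F] (Fin 8 → F)) →* Mt 8 := ε.mapMatrix.toMonoidHom.comp
    (LinearMap.toMatrixAlgEquiv'.toMonoidHom.comp LinearEquiv.automorphismGroup.toLinearMapMonoidHom)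
  have r1 : ∀ g v, ρ g *ᵥ (ε ∘ v) = ε ∘ g v := fun g v =>
    (mv1 _ v).trans (congrArg (ε ∘ ·) (LinearMap.toMatrix'_mulVec g.toLinearMap v))
  refine far_orth_of_equiv Q Q0 1 one_ne_zero e (by simpa using he) (far_abs _ ρ
    (fun g h e => LinearEquiv.ext fun v => ij (by rw [← r1, ← r1, e])) (fun g => ⟨fun h w => ?_,
      fun h v => ε.injective (by rw [q1, q1, ← r1, h])⟩) fun a b h => ?_)
  · obtain ⟨v, rfl⟩ := sj w
    rw [r1, ← q1, ← q1, h]
  · have h1 : a.map ε.symm * b.map ε.symm = 1 :=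
      (map_mul ε.symm.mapMatrix a b).symm.trans (h ▸ map_one _)
    refine ⟨toLin'OfInv (mul_eq_one_comm.1 h1) h1, ext_iff_mulVec.2 fun w => ?_⟩
    obtain ⟨v, rfl⟩ := sj w
    rw [r1, mv2]
    rfl

end Pool.Agent.Lib.MP_d787f3_al
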