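import Pool.Agent.Lib.MP_d787f3_al.FamS
import Pool.Agent.Lib.MP_d787f3_al.O8F

/-! Orthogonal groups. -/

namespace Pool.Agent.Lib.MP_d787f3_al
open Module Function QuadraticMap
open scoped commutatorElement

variable {F V W : Type*} [Field F] [Finite F] [AddCommGroup V] [Module F V] [FiniteDimensional F V]
  [AddCommGroup W] [Module F W] [FiniteDimensional F W]

omit [Finite F] [FiniteDimensional F V] [FiniteDimensional F W] in
theorem nd_prod {Q : QuadraticForm F V} {N : QuadraticForm F W} (nQ : Q.polarBilin.Nondegenerate)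
    (nN : N.polarBilin.Nondegenerate) : (Q.prod N).polarBilin.Nondegenerate :=
  ⟨fun v h => Prod.ext (nQ.1 _ fun u => by simpa using h (u, 0)) (nN.1 _ fun u => by simpa using h (0, u)),
   fun v h => Prod.ext (nQ.2 _ fun u => by simpa using h (u, 0)) (nN.2 _ fun u => by simpa using h (0, u))⟩

theorem far_om {e : ℕ} (he : 3 ≤ e) (hx : ¬ (Nat.card F = 2 ∧ e = 3)) (N : QuadraticForm F W)
    (aN : N.Anisotropic) (nN : N.polarBilin.Nondegenerate) (hW : finrank F W ≤ 2)
    (h7 : 7 ≤ 2 * e + finrank F W) : ∃ (K : Type) (_ : Field K) (_ : Algebra F K)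
      (_ : FiniteDimensional F K) (Q : QuadraticForm F K) (c : F), finrank F K = 2 * e ∧ c ≠ 0 ∧
      Q.polarBilin.Nondegenerate ∧ Minus Q ∧ Far (⁅orth (Q.prod (c • N)), orth (Q.prod (c • N))⁆ :
        Subgroup ((K × W) ≃ₗ[F] (K × W))) := by
  obtain ⟨K, _, _, _, bar, η, t, hd, b1, b2, hη, t1, ht⟩ := tor F (e := e) (by omega)
  obtain ⟨r, m, hr, hm, r5, ppd⟩ := zs2 (q := Nat.card F) (e := e) Finite.one_lt_card (by omega) hx
  obtain ⟨β, c, β0, hβ, c0, base⟩ := base_o bar b1 b2 η hη N aN nN hW (by omega) (by omega)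
    fun h => hx ⟨h.1, by omega⟩
  let Q : QuadraticForm F K := LinearMap.BilinMap.toQuadraticMap ((Algebra.traceForm F K).compl₁₂
    (LinearMap.mulLeft F (η * β) ∘ₗ bar.toLinearMap) LinearMap.id)
  have hQ : ∀ u, Q u = Algebra.trace F K (η * β * (bar u * u)) := fun u => by simp [Q, mul_assoc]
  obtain ⟨nQ, mQ⟩ := minus_model bar b1 b2 η β hη hβ β0 Q hQ
  refine ⟨K, _, _, ‹_›, Q, c, hd, c0, nQ, mQ, ?_⟩
  have t0 : t ≠ 0 := by rintro rfl; simp at t1
  obtain ⟨a, ea⟩ := exX (W := W) t0 (.refl F _)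
  let b : (K × W) ≃ₗ[F] (K × W) := bar.toLinearEquiv.prodCongr (.refl F _)
  have eb : ∀ u w, b (u, w) = (bar u, w) := fun _ _ => rfl
  have ex : ∀ u w, ⁅a, b⁆ (u, w) = (t ^ 2 * u, w) := fun u w => by
    obtain ⟨⟨u', w'⟩, h⟩ := (b * a).surjective (u, w)
    rw [← h, ← LinearEquiv.mul_apply, commutatorElement_def, mul_assoc, mul_assoc, inv_mul_cancel_left,
      inv_mul_cancel, mul_one, LinearEquiv.mul_apply, eb, ea]
    rw [LinearEquiv.mul_apply, ea, eb, Prod.mk.injEq] at h
    rw [← h.1, ← h.2, map_mul, ← mul_assoc, pow_two, mul_assoc t, mul_comm t (bar t), t1, mul_one]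
  have := ordr (ht.trans hm) (by rw [← hm]; omega) (j := 2) fun h => by
    have := Nat.le_of_dvd two_pos h
    omega
  have P : Ppd F ((t ^ 2) ^ m) r := ⟨hr, this.1, this.2, hd ▸ ppd⟩
  refine far_tor (Γ := orth (Q.prod (c • N))) (Subgroup.commutator_le.2 fun g hg h hh =>
      mul_mem (mul_mem (mul_mem hg hh) (inv_mem hg)) (inv_mem hh)) (fun g hg z hz => ?_)
    (Subgroup.commutator_mem_commutator (fun ⟨u, w⟩ => ?_) fun ⟨u, w⟩ => ?_) P (by omega) (by omega) ex
    (fun g hg h => ?_) (fun h => ?_) (base _ fun u w => by simp [hQ])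
  · have : ∀ G : Subgroup ((K × W) ≃ₗ[F] (K × W)), g ∈ G → G.map (MulAut.conj g).toMonoidHom ≤ G := by
      rintro G hg _ ⟨z, hz, rfl⟩
      exact mul_mem (mul_mem hg hz) (inv_mem hg)
    have h := Subgroup.mem_map_of_mem (MulAut.conj g).toMonoidHom hz
    rw [Subgroup.map_commutator] at h
    exact Subgroup.commutator_mono (this _ hg) (this _ hg) h
  · simp only [ea, QuadraticMap.prod_apply, hQ, map_mul, mul_mul_mul_comm (bar t), t1, one_mul]
    rfl
  · simp only [eb, QuadraticMap.prod_apply, hQ, b2, mul_comm u]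
  · have h1 : ∀ u, g (u, 0) = (u, 0) := fun u => Prod.ext (h u) (aN _ (by
      have := hg (u, 0)
      simpa [h, c0] using this))
    refine ⟨h1, fun w => nQ.2 _ fun u => ?_⟩
    have : polar (Q.prod (c • N)) (g (u, 0)) (g (0, w)) = polar (Q.prod (c • N)) (u, 0) (0, w) := by
      rw [polar, polar, ← map_add, hg, hg, hg]
    rw [h1, polar_prod, polar_prod] at this
    simpa only [polar_zero_left, polar_zero_right, add_zero, polarBilin_apply_apply] using this
  · obtain ⟨k, hk⟩ := P.dvd
    have r1 : r = 2 * e + 1 := by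
      rw [hd] at hk h
      rcases k with _ | _ | k
      · omega
      · omega
      · have : 2 * e * (k + 1 + 1) = 2 * e * k + 4 * e := by ring
        omega
    rw [← pow_mul]
    refine ⟨fun h1 => ?_, fun d hc s j sp j0 h1 h2 => ?_⟩
    · rw [← orderOf_dvd_iff_pow_eq_one, ht, r1] at h1
      rcases ar Finite.one_lt_card (by omega) (h1.trans ⟨2, by ring⟩) with h | ⟨rfl, h⟩
      · omega
      · norm_num [h] at h1
    · have h3 : t ^ (4 * r) = 1 := by
        rw [show 4 * r = 2 * r + 2 * r by ring, pow_add]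
        nth_rw 1 [hc, ← bar.commutes, ← hc]
        rw [map_pow, ← mul_pow, t1, one_pow]
      rw [← orderOf_dvd_iff_pow_eq_one, ht, r1] at h3
      rcases ar Finite.one_lt_card (by omega) h3 with h | ⟨rfl, h⟩
      · omega
      · rw [hd] at h1
        have a1 := Nat.le_of_dvd (by norm_num) h1
        rcases (by decide : ∀ n ≤ 36, n ∣ 36 → n ≡ 1 [MOD 7] → n = 36 ∨ n = 1) _ a1 h1 (by rwa [r1] at h2)
          with a2 | a2
        · have a3 := (Nat.prime_dvd_prime_iff_eq Nat.prime_two sp).1
            (Nat.prime_two.dvd_of_dvd_pow (n := j) (by norm_num [a2]))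
          have a4 := (Nat.prime_dvd_prime_iff_eq Nat.prime_three sp).1
            (Nat.prime_three.dvd_of_dvd_pow (n := j) (by norm_num [a2]))
          omega
        · exact absurd (Nat.one_lt_pow j0.ne' sp.one_lt) (by omega)

theorem far_o (Q : QuadraticForm F V) (nQ : Q.polarBilin.Nondegenerate) (h7 : 7 ≤ finrank F V) :
    Far (⁅orth Q, orth Q⁆ : Subgroup (V ≃ₗ[F] V)) := by
  rcases Nat.even_or_odd (finrank F V) with ⟨e, he⟩ | ⟨e, he⟩
  · by_cases hm : Minus Q
    · obtain ⟨K, _, _, _, Q', c, hd, -, n1, m1, h⟩ := far_om (e := e) (by omega) (by omega)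
        (0 : QuadraticForm F (Fin 0 → F)) (fun _ _ => Subsingleton.elim _ _)
        ⟨fun _ _ => Subsingleton.elim _ _, fun _ _ => Subsingleton.elim _ _⟩ (by simp) (by omega)
      obtain ⟨φ, hφ⟩ := quad_even Q Q' nQ n1 (by omega) ⟨e, he⟩ (iff_of_true hm m1)
      exact far_orth_of_equiv Q _ 1 one_ne_zero (φ.trans LinearEquiv.prodUnique.symm)
        (fun v => by simp [hφ]) h
    · by_cases h8 : Nat.card F = 2 ∧ finrank F V = 8
      · exact far_O8 h8.1 Q nQ h8.2 hm
      obtain ⟨a, ha⟩ := rootless F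
      let N : QuadraticForm F (F × F) := linMulLin (.fst F F F) (.fst F F F) +
        a • linMulLin (.fst F F F) (.snd F F F) + linMulLin (.snd F F F) (.snd F F F)
      have aN : N.Anisotropic := fun v h => Prod.ext (ha _ _ h).1 (ha _ _ h).2
      have n0 : N.polarBilin.SeparatingLeft := fun v h => by
        have hN : ∀ u, N u = u.1 * u.1 + a * (u.1 * u.2) + u.2 * u.2 := fun _ => rfl
        have h1 := h (1, 0)
        have h2 := h (0, 1)
        simp only [polarBilin_apply_apply, polar, hN, Prod.fst_add, Prod.snd_add] at h1 h2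
        by_cases h : (2 : F) = 0
        · have a0 : a ≠ 0 := fun a0 => one_ne_zero (ha 1 1 (by linear_combination h + a0)).1
          exact Prod.ext (mul_left_cancel₀ a0 (show _ = a * 0 by linear_combination h2 - v.2 * h))
            (mul_left_cancel₀ a0 (show _ = a * 0 by linear_combination h1 - v.1 * h))
        · exact aN v (mul_left_cancel₀ h (by
            rw [hN]; linear_combination v.1 * h1 + v.2 * h2))
      have nN : N.polarBilin.Nondegenerate := ⟨n0, fun v h => n0 v fun u => (polar_comm N v u).trans (h u)⟩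
      obtain ⟨K, _, _, _, Q', c, hd, c0, n1, m1, h⟩ := far_om (e := e - 1) (by omega)
        (fun h => h8 ⟨h.1, by omega⟩) N aN nN (by simp) (by simp; omega)
      have n2 := Fm.nondeg_smul N nN c0
      obtain ⟨φ, hφ⟩ := quad_even Q _ nQ (nd_prod n1 n2) (by simp; omega) ⟨e, he⟩ (iff_of_false hm
        (minus_prod _ _ n1 n2 (hd ▸ even_two_mul _) (by simp) m1
          (Fm.minus_aniso _ (by simp) fun v h => aN v (by simpa [c0] using h))))
      exact far_orth_of_equiv Q _ 1 one_ne_zero φ (fun v => by rw [hφ, one_mul]) h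
  · have h2 := (quad_odd Q Q nQ nQ rfl ⟨e, he⟩).1
    have n0 : (QuadraticMap.sq : QuadraticForm F F).polarBilin.SeparatingLeft := fun v h => by
      have := h 1
      simp only [polarBilin_apply_apply, polar, sq_apply] at this
      exact (mul_eq_zero.1 (show 2 * v = 0 by linear_combination this)).resolve_left h2
    have nN : (QuadraticMap.sq : QuadraticForm F F).polarBilin.Nondegenerate :=
      ⟨n0, fun v h => n0 v fun u => (polar_comm _ v u).trans (h u)⟩
    obtain ⟨K, _, _, _, Q', c, hd, c0, n1, -, h⟩ := far_om (F := F) (e := e) (by omega) (fun h => h2 (by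
      let _ := Fintype.ofFinite F
      exact_mod_cast (Nat.card_eq_fintype_card.symm.trans h.1) ▸ Nat.cast_card_eq_zero F))
      (QuadraticMap.sq : QuadraticForm F F) (fun v h => by simpa using h) nN (by simp) (by simp; omega)
    obtain ⟨-, d, φ, d0, hφ⟩ := quad_odd Q _ nQ (nd_prod n1 (Fm.nondeg_smul _ nN c0))
      (by simp; omega) ⟨e, he⟩
    exact far_orth_of_equiv Q _ d d0 φ hφ h

end Pool.Agent.Lib.MP_d787f3_al
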