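import Mathlib

/-! A normal subgroup of order a power of the characteristic gives an invariant totally isotropic
subspace. -/

namespace Pool.Agent.Lib.MP_d787f3_al
open Module

variable {F V : Type*} [Field F] [AddCommGroup V] [Module F V] [FiniteDimensional F V]

theorem rad_of_pgroup' [Finite F] {σ : F →+* F} {H : Type*} [Group H] (ρ : H →* Module.End F V)
    (B : V →ₛₗ[σ] V →ₗ[F] F) (hB : ∀ h u v, B (ρ h u) (ρ h v) = B u v)
    (P : Subgroup H) [hn : P.Normal] {p : ℕ} (hp : p.Prime) (hpF : (p : F) = 0) (hP : IsPGroup p P)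
    (hne : ∃ a ∈ P, ρ a ≠ 1) : ∃ R : Submodule F V, R ≠ ⊥ ∧ (∀ h, ∀ v ∈ R, ρ h v ∈ R) ∧
      ∀ u ∈ R, ∀ v ∈ R, B u v = 0 := by
  have := Fact.mk hp
  have := Module.finite_of_finite F (M := V)
  let C : Submodule F V := ⨅ a : P, LinearMap.ker (ρ a - 1)
  have mC : ∀ {v}, v ∈ C ↔ ∀ a ∈ P, ρ a v = v := by simp [C, sub_eq_zero]
  have iC : ∀ h, ∀ v ∈ C, ρ h v ∈ C := fun h v hv => mC.2 fun a ha => by
    conv_rhs => rw [← mC.1 hv _ (hn.conj_mem' a ha h)]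
    rw [← End.mul_apply, ← End.mul_apply, ← map_mul, ← map_mul]
    congr 2
    group
  let T : Submodule F V := ⨅ c : C, LinearMap.ker (B c)
  have mT : ∀ {v}, v ∈ T ↔ ∀ c ∈ C, B c v = 0 := by simp [T]
  have iT : ∀ h, ∀ v ∈ T, ρ h v ∈ T := fun h v hv => mT.2 fun c hc => by
    rw [← mT.1 hv _ (iC h⁻¹ c hc), ← hB h (ρ h⁻¹ c), ← End.mul_apply, ← map_mul, mul_inv_cancel,
      map_one, End.one_apply]
  obtain ⟨a, ha, h1⟩ := hne
  obtain ⟨v, hv⟩ : ∃ v, ρ a v - v ≠ 0 := by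
    by_contra h
    push Not at h
    exact h1 (LinearMap.ext fun v => sub_eq_zero.1 (h v))
  have hT : ρ a v - v ∈ T := mT.2 fun c hc => by
    rw [map_sub, ← hB a c v, mC.1 hc a ha, sub_self]
  let _ : MulAction P T :=
    { smul := fun g t => ⟨ρ g t, iT g t t.2⟩
      one_smul := fun t => Subtype.ext (show ρ (1 : H) t = t by simp)
      mul_smul := fun g h t => Subtype.ext (show ρ (g * h : H) t = ρ g (ρ h t) by simp) }
  have hd : p ∣ Nat.card T := by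
    rw [← addOrderOf_eq_prime (x := (⟨_, hT⟩ : T)) (p := p)
      (by rw [← Nat.cast_smul_eq_nsmul F, hpF, zero_smul]) (by simpa using hv)]
    exact addOrderOf_dvd_natCard _
  obtain ⟨t, t1, t2⟩ := hP.exists_fixed_point_of_prime_dvd_card_of_fixed_point T hd (a := 0)
    fun g => Subtype.ext (map_zero (ρ g))
  refine ⟨C ⊓ T, fun h => t2 (Subtype.ext ?_), fun h v hv => ⟨iC h v hv.1, iT h v hv.2⟩,
    fun u hu v hv => mT.1 hv.2 u hu.1⟩
  have : t.1 ∈ C ⊓ T := ⟨mC.2 fun a ha => congrArg Subtype.val (t1 ⟨a, ha⟩), t.2⟩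
  rw [h] at this
  exact (Submodule.mem_bot F).1 this |>.symm

theorem rad_of_pgroup [Finite F] {H : Type*} [Group H] (ρ : H →* Module.End F V)
    (B : V →ₗ[F] V →ₗ[F] F) (_ : B.Nondegenerate) (hB : ∀ h u v, B (ρ h u) (ρ h v) = B u v)
    (P : Subgroup H) [P.Normal] {p : ℕ} (hp : p.Prime) (hpF : (p : F) = 0) (hP : IsPGroup p P)
    (hne : ∃ a ∈ P, ρ a ≠ 1) : ∃ R : Submodule F V, R ≠ ⊥ ∧ (∀ h, ∀ v ∈ R, ρ h v ∈ R) ∧
      ∀ u ∈ R, ∀ v ∈ R, B u v = 0 := rad_of_pgroup' ρ B hB P hp hpF hP hne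

end Pool.Agent.Lib.MP_d787f3_al
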