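import Pool.Agent.Lib.MP_d787f3_al.Tor
import Pool.Agent.Lib.MP_d787f3_al.Rad

/-! Symplectic and unitary groups. -/

namespace Pool.Agent.Lib.MP_d787f3_al
open Module Function

theorem ar {q e : ℕ} (hq : 2 ≤ q) (he : 2 ≤ e) (h : q ^ e + 1 ∣ 4 * (2 * e + 1)) :
    (e = 2 ∧ q ≤ 3) ∨ (e = 3 ∧ q = 3) := by
  have h1 := Nat.le_of_dvd (by omega) h
  have h2 : e < 6 := by
    by_contra h
    have : ∀ n, 6 ≤ n → 8 * n + 4 ≤ 2 ^ n := fun n hn => by
      induction n, hn using Nat.le_induction with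
      | base => norm_num
      | succ n _ ih => omega
    have := (this e (by omega)).trans (Nat.pow_le_pow_left hq e)
    omega
  have h3 : q < 7 := by
    by_contra h
    have := (Nat.pow_le_pow_left (not_lt.1 h) 2).trans (Nat.pow_le_pow_right (by omega) he)
    omega
  interval_cases e <;> interval_cases q <;> simp_all

section
variable {F K W : Type*} [Field F] [Finite F] [Field K] [Algebra F K] [FiniteDimensional F K]
  [AddCommGroup W] [Module F W] [FiniteDimensional F W]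

theorem far_tor {G Γ : Subgroup ((K × W) ≃ₗ[F] (K × W))} (hG : G ≤ Γ)
    (hn : ∀ g ∈ Γ, ∀ a ∈ G, g * a * g⁻¹ ∈ G) {x : (K × W) ≃ₗ[F] (K × W)} (xG : x ∈ G) {t : K}
    {m r : ℕ} (P : Ppd F (t ^ m) r) (hW : finrank F W < finrank F K) (hd : 1 < finrank F K)
    (ex : ∀ u w, x (u, w) = (t * u, w))
    (hP : ∀ g ∈ Γ, (∀ u, (g (u, 0)).1 = u) → (∀ u, g (u, 0) = (u, 0)) ∧ ∀ w, (g (0, w)).1 = 0)
    (hA : r ≤ finrank F K + finrank F W + 1 → t ^ r ≠ 1 ∧ ∀ c : F, t ^ r = algebraMap F K c →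
      ∀ s k : ℕ, s.Prime → 0 < k → s ^ k ∣ finrank F K ^ 2 → ¬ s ^ k ≡ 1 [MOD r])
    (base : ∃ g ∈ Γ, ∀ z ∈ Γ, NT z → NT (g⁻¹ * z * g) → ∃ c : F, ∀ v, z v = c • v) : Far G :=
  far_of hG hn xG (P.nsc hd (by simp [ex])) (fun H h1 h2 _ z hz =>
    P.core (x := ⟨x, h2⟩) (y := (⟨x, h2⟩ : H) ^ m) hW ex (pw ex m) (fun S _ _ hp h3 h4 _ ha =>
      P.ppart (pw ex m) (fun g => hP g (h1 g.2)) S hp h3 h4 ha) hA ⟨z, hz⟩) base

omit [Finite F] [FiniteDimensional F K] in
theorem altB {bar : K ≃ₐ[F] K} (h2 : ∀ u, bar (bar u) = u) {η β : K} (hη : η + bar η = 1)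
    (hβ : bar β = -β) (u : K) : Algebra.trace F K (β * (bar u * u)) = 0 := by
  have := Algebra.trace_eq_of_algEquiv bar (η * (β * (bar u * u)))
  rw [← sub_eq_zero, ← map_sub] at this
  rw [← neg_eq_zero, ← map_neg, ← this]
  simp only [map_mul, hβ, h2]
  congr 1
  linear_combination (β * (bar u * u)) * hη

end

variable {F V : Type*} [Field F] [Finite F] [AddCommGroup V] [Module F V] [FiniteDimensional F V]

theorem far_sp6 (B : V →ₗ[F] V →ₗ[F] F) (hB : B.IsAlt) (nB : B.Nondegenerate) (h2 : (2 : F) = 0)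
    (h6 : finrank F V = 6) : Far (isom B) := by
  obtain ⟨K, _, _, _, bar, η, t, hd, b1, b2, hη, t1, ht⟩ := tor F (e := 2) two_ne_zero
  obtain ⟨r, m, hr, hm, r5, ppd⟩ := zs2 (q := Nat.card F) (e := 2) Finite.one_lt_card le_rfl (by omega)
  obtain ⟨c, hc⟩ := rootless F
  let BW : F × F →ₗ[F] F × F →ₗ[F] F := LinearMap.mk₂ F (fun a b => a.1 * b.2 - a.2 * b.1)
    (fun _ _ _ => by simp; ring) (fun _ _ _ => by simp; ring) (fun _ _ _ => by simp; ring)
    fun _ _ _ => by simp; ring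
  have aW : BW.IsAlt := fun a => by simp [BW, mul_comm]
  have nW : BW.Nondegenerate := ⟨fun a h => Prod.ext (by simpa [BW] using h (0, 1))
    (by simpa [BW] using h (1, 0)), fun a h => Prod.ext (by simpa [BW] using h (0, 1))
    (by simpa [BW] using h (1, 0))⟩
  obtain ⟨β, β0, hβ, base⟩ := base_sp bar b1 b2 BW aW nW (Or.inr ⟨h2, hd, by simp⟩)
  obtain ⟨B', e'⟩ := exB (σ := RingHom.id F) (bar := (bar : K →+* K)) bar.commutes β BW
  have nB' := ndB e' β0 b2 nW
  obtain ⟨φ, hφ⟩ := alt_equiv B B' hB (fun ⟨u, w⟩ => by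
    rw [e', aW, add_zero]; exact altB b2 hη hβ u) nB nB' (by simp [h6, hd])
  refine far_isom_of_equiv B B' φ hφ ?_
  let g : (F × F) ≃ₗ[F] (F × F) :=
    { toFun := fun a => (-a.2, a.1 + c * a.2), invFun := fun a => (a.2 + c * a.1, -a.1)
      map_add' := fun _ _ => by ext <;> simp <;> ring
      map_smul' := fun _ _ => by ext <;> simp; ring
      left_inv := fun _ => by simp, right_inv := fun _ => by simp }
  have t0 : t ≠ 0 := by rintro rfl; simp at t1
  obtain ⟨x, ex⟩ := exX (pow_ne_zero m t0) g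
  have := Module.finite_of_finite F (M := F × F)
  have : Finite ((F × F) ≃ₗ[F] (F × F)) := Finite.of_injective _ DFunLike.coe_injective
  have Q : ∀ j, ¬ r ∣ j → Ppd F ((t ^ m) ^ j) r := fun j hj => by
    have := ordr (ht.trans hm) (by omega) hj
    rw [← pow_mul t j m, mul_comm j, pow_mul] at this
    exact ⟨hr, this.1, this.2, hd ▸ ppd⟩
  have hj : ¬ r ∣ orderOf g := by
    rintro ⟨j, hj⟩
    have h1 := (Q 1 hr.not_dvd_one).triv (W := F × F) (by simp [hd]) (f := (g ^ j).toLinearMap) (by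
      refine (map_pow LinearEquiv.automorphismGroup.toLinearMapMonoidHom _ r).symm.trans ?_
      rw [← pow_mul, mul_comm, ← hj, pow_orderOf_eq_one]; rfl)
    have h3 := orderOf_pos g
    have := Nat.le_of_dvd (Nat.pos_of_mul_pos_left (hj ▸ h3))
      (orderOf_dvd_of_pow_eq_one (LinearEquiv.toLinearMap_injective h1 : g ^ j = 1))
    nlinarith
  have P := Q _ hj
  have px : ∀ (n : ℕ) u w, (x ^ n) (u, w) = ((t ^ m) ^ n * u, (g ^ n) w) := fun n => by
    induction n with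
    | zero => simp
    | succ n ih => intro u w; rw [pow_succ', LinearEquiv.mul_apply, ih, ex, pow_succ' _ n, mul_assoc,
        pow_succ' g]; rfl
  refine far_of le_rfl (fun g hg a ha => mul_mem (mul_mem hg ha) (inv_mem hg))
    (memB e' (t := t ^ m) (by simp [← mul_pow, t1]) (fun w w' => by simp [BW, g]; ring) ex)
    (P.nsc (by omega) (by simp [ex])) (fun H h1 hx _ z hz => ?_) (base B' e')
  have := finH H
  let y : H := (⟨x, hx⟩ : H) ^ orderOf g
  have ey : ∀ u w, y.1 (u, w) = ((t ^ m) ^ orderOf g * u, w) := fun u w => by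
    simp [y, px, pow_orderOf_eq_one]
  have hO : ∀ (S : Subgroup H) (p : ℕ), S.Normal → p.Prime → (p : F) = 0 → IsPGroup p S → S = ⊥ := by
    intro S p _ hp h3 h4
    by_contra h
    obtain ⟨R, a1, a2, a3⟩ := rad_of_pgroup' (LinearEquiv.automorphismGroup.toLinearMapMonoidHom.comp
      H.subtype) B' (fun g => h1 g.2) S hp h3 h4 (by
        obtain ⟨a, ha⟩ := Subgroup.ne_bot_iff_exists_ne_one.1 h
        exact ⟨a, a.2, fun h => ha (Subtype.ext (Subtype.ext (LinearEquiv.toLinearMap_injective h)))⟩)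
    obtain ⟨⟨u, w⟩, v1, v0⟩ := Submodule.exists_mem_ne_zero_of_ne_bot a1
    have u0 : u = 0 := by
      by_contra u0
      have := P.inv R (fun u w h => ey u w ▸ a2 y _ h) v1 u0
      exact one_ne_zero (ndL e' β0 fun u' => a3 _ (this 1) _ (this u'))
    subst u0
    have := a3 _ v1 _ (a2 ⟨x, hx⟩ _ v1)
    change B' _ (x _) = 0 at this
    rw [ex, e'] at this
    obtain ⟨k1, k2⟩ := hc w.1 w.2 (by simp [BW, g] at this; linear_combination this)
    exact v0 (Prod.ext rfl (Prod.ext k1 k2))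
  by_cases h5 : r = 5
  · subst h5
    obtain ⟨A, hA⟩ := five h2 B' nB' h1 (by simp [hd])
      (fun S h => hO S 2 h Nat.prime_two (by exact_mod_cast h2)) (y := y)
      (Subtype.ext (LinearEquiv.ext fun ⟨u, w⟩ => by simp [pw ey, P.pow]))
      fun h => P.ne (by simpa [h] using (ey 1 0).symm)
    exact P.nt_of_cen (by simp [hd]) ey hA ⟨z, hz⟩
  · refine P.core (by simp [hd]) ey ey (fun S p a1 a2 a3 a4 a ha => ?_) (fun h => ?_) ⟨z, hz⟩
    · rw [hO S p a1 a2 a3 a4, Subgroup.mem_bot] at ha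
      exact ha ▸ Commute.one_left y
    · have := P.dvd
      simp only [hd, finrank_prod, finrank_self] at h this
      omega

theorem far_sp (B : V →ₗ[F] V →ₗ[F] F) (hB : B.IsAlt) (nB : B.Nondegenerate) (h4 : 4 ≤ finrank F V)
    (hx : ¬ (finrank F V = 4 ∧ Nat.card F ≤ 3)) : Far (isom B) := by
  by_cases h6 : (2 : F) = 0 ∧ finrank F V = 6
  · exact far_sp6 B hB nB h6.1 h6.2
  obtain ⟨e, he⟩ := alt_even B hB nB
  obtain ⟨K, _, _, _, bar, η, t, hd, b1, b2, hη, t1, ht⟩ := tor F (e := e) (by omega)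
  obtain ⟨r, m, hr, hm, r5, ppd⟩ := zs2 (q := Nat.card F) (e := e) Finite.one_lt_card (by omega)
    fun h => h6 ⟨by
      let _ := Fintype.ofFinite F
      exact_mod_cast (Nat.card_eq_fintype_card.symm.trans h.1) ▸ Nat.cast_card_eq_zero F, by omega⟩
  have nW : (0 : (Fin 0 → F) →ₗ[F] (Fin 0 → F) →ₗ[F] F).Nondegenerate :=
    ⟨fun _ _ => Subsingleton.elim _ _, fun _ _ => Subsingleton.elim _ _⟩
  obtain ⟨β, β0, hβ, base⟩ := base_sp bar b1 b2 0 (fun _ => rfl) nW
    (Or.inl ⟨by simp, by omega, by rwa [hd, two_mul, ← he]⟩)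
  obtain ⟨B', e'⟩ := exB (σ := RingHom.id F) (bar := (bar : K →+* K)) bar.commutes β
    (0 : (Fin 0 → F) →ₗ[F] (Fin 0 → F) →ₗ[F] F)
  obtain ⟨φ, hφ⟩ := alt_equiv B B' hB (fun ⟨u, w⟩ => by
    rw [e']; simpa using altB b2 hη hβ u) nB (ndB e' β0 b2 nW) (by simp [he, hd, two_mul])
  obtain ⟨x, ex⟩ := exX (W := Fin 0 → F) (show t ≠ 0 by rintro rfl; simp at t1) (.refl F _)
  have := ordr (ht.trans hm) (by omega) hr.not_dvd_one
  rw [pow_one] at this
  refine far_isom_of_equiv B B' φ hφ (far_tor le_rfl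
    (fun g hg a ha => mul_mem (mul_mem hg ha) (inv_mem hg)) (memB e' t1 (fun _ _ => rfl) ex)
    ⟨hr, this.1, this.2, hd ▸ ppd⟩ (by simp; omega) (by omega) ex
    (fun g => hPB e' β0 fun _ _ => Subsingleton.elim _ _) (fun h => ?_) (base B' e'))
  have key : ∀ c : F, t ^ r ≠ algebraMap F K c := fun c hc => by
    have h1 : t ^ (2 * r) = 1 := by
      rw [two_mul, pow_add]
      nth_rw 1 [hc, ← bar.commutes, ← hc]
      rw [map_pow, ← mul_pow, t1, one_pow]
    rw [← orderOf_dvd_iff_pow_eq_one, ht, show r = 2 * e + 1 by simp [hd] at h; omega] at h1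
    rcases ar Finite.one_lt_card (by omega) (h1.trans ⟨2, by ring⟩) with h | ⟨rfl, h⟩
    · omega
    · norm_num [h] at h1
  exact ⟨fun h => key 1 (by rw [h, map_one]), fun c hc => absurd hc (key c)⟩

theorem far_u {σ : F →+* F} (hσ : σ ≠ RingHom.id F) (σ2 : ∀ c, σ (σ c) = c)
    (B : V →ₛₗ[σ] V →ₗ[F] F) (hB : B.IsSymm) (nB : B.Nondegenerate) (he : Even (finrank F V))
    (h4 : 4 ≤ finrank F V) (hx : ¬ (finrank F V = 4 ∧ Nat.card F = 4)) :
    Far (isom B ⊓ LinearEquiv.det.ker : Subgroup (V ≃ₗ[F] V)) := by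
  obtain ⟨cd, fr, -⟩ := Fm.inv_facts σ hσ σ2
  set F0 := σ.eqLocusField (RingHom.id F)
  obtain ⟨j, hj⟩ : ∃ j, finrank F V = 2 * j + 1 + 1 := by
    obtain ⟨e, he⟩ := he
    exact ⟨e - 1, by omega⟩
  obtain ⟨K, _, _, _, hd⟩ := exK F (d := 2 * j + 1) (by omega)
  have := Module.finite_of_finite F (M := K)
  have cK : Nat.card K = (Nat.card F0 ^ (2 * j + 1)) ^ 2 := by
    rw [natCard_eq_pow_finrank (K := F), hd, cd, ← pow_mul, ← pow_mul, mul_comm]
  obtain ⟨t, ht⟩ := exT cK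
  obtain ⟨bar, hb⟩ := exF F0 K (2 * j + 1)
  have b2 : ∀ u, bar (bar u) = u := fun u => by rw [hb, hb, ← pow_mul, ← sq, ← cK, pow_cd]
  have b1 : ∀ c, (bar : K →+* K) (algebraMap F K c) = algebraMap F K (σ c) := fun c => by
    have : ∀ i : ℕ, c ^ (Nat.card F0 ^ 2) ^ i = c := fun i => by
      induction i with
      | zero => simp
      | succ i ih => rw [pow_succ, pow_mul, ih, ← cd, pow_cd]
    rw [RingHom.coe_coe, hb, ← map_pow, pow_succ, pow_mul, pow_mul, this, fr]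
  obtain ⟨r, m, hr, hm, r5, ppd⟩ := zs2 (q := Nat.card F0) (e := 2 * j + 1) Finite.one_lt_card
    (by omega) fun h => hx ⟨by omega, by rw [cd, h.1]; rfl⟩
  obtain ⟨β, β0, hβ, base⟩ := base_u hσ (bar : K →+* K) b2 b1 (by omega) (hd ▸ odd_two_mul_add_one j)
  let BW : F →ₛₗ[σ] F →ₗ[F] F := LinearMap.mk₂'ₛₗ σ (RingHom.id F) (fun a b => σ a * b)
    (fun _ _ _ => by simp [add_mul]) (fun _ _ _ => by simp [mul_assoc]) (fun _ _ _ => by simp [mul_add])
    fun _ _ _ => by simp [mul_left_comm]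
  obtain ⟨B', e'⟩ := exB b1 β BW
  obtain ⟨φ, hφ⟩ := herm_equiv hσ σ2 B B' hB ⟨fun ⟨u, w⟩ ⟨u', w'⟩ => by
    rw [e', e', map_add, ← Bs.tr_bar _ b1, map_mul (bar : K →+* K), hβ]
    simp [BW, σ2, b2, mul_comm]⟩ nB (ndB e' β0 b2
      ⟨fun a h => by simpa [BW] using h 1, fun a h => by simpa [BW] using h 1⟩) (by simp [hj, hd])
  have t1 : bar t * t = 1 := by rw [hb, ← pow_succ, ← ht, pow_orderOf_eq_one]
  obtain ⟨x, ex⟩ := exX (W := F) (pow_ne_zero m (show t ≠ 0 by rintro rfl; simp at t1)) (.refl F _)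
  have := ordr (ht.trans hm) (by rw [← hm]; omega) hr.not_dvd_one
  rw [pow_one, ← pow_one (t ^ m)] at this
  have P : Ppd F ((t ^ m) ^ 1) r := ⟨hr, this.1, this.2, fun i h1 h2 => by
    rw [cd, ← pow_mul]; exact ppd _ (by omega) (by omega)⟩
  refine far_su_of_equiv B B' φ hφ (far_tor inf_le_left
    (fun g hg a ha => ⟨(isom B').mul_mem ((isom B').mul_mem hg ha.1) ((isom B').inv_mem hg),
      (MonoidHom.normal_ker _).conj_mem a ha.2 g⟩)
    ⟨memB e' (t := t ^ m) (by simp [← mul_pow, t1]) (fun _ _ => rfl) ex, ?_⟩ P (by simp; omega)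
    (by omega) ex (fun g => hPB e' β0 fun w h => by simpa [BW] using h) (fun h => ?_) (base B' e'))
  · have a1 : LinearEquiv.det x ^ r = 1 := by
      rw [← map_pow, show x ^ r = 1 from LinearEquiv.ext fun ⟨u, w⟩ => by
        rw [pw ex, ← pow_one (t ^ m), P.pow, one_mul]; rfl, map_one]
    have a2 := pow_gcd_eq_one.2 ⟨a1, pow_card_eq_one'⟩
    rwa [Nat.card_units, hr.coprime_iff_not_dvd.2 (pow_one (Nat.card F) ▸ P.ppd 1 one_pos (by omega)),
      pow_one] at a2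
  · simp [hd] at h
    omega

end Pool.Agent.Lib.MP_d787f3_al
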