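import Mathlib

namespace Pool.Agent.Lib.MP_d787f3_al
open Subgroup
open scoped commutatorElement

variable {H : Type*} [Group H] [Finite H]

/-- elements commuting with all normal subgroups of prime power order -/
def cen (H : Type*) [Group H] : Subgroup H where
  carrier := {h | ∀ (s : ℕ) (P : Subgroup H), s.Prime → P.Normal → IsPGroup s P →
    ∀ a ∈ P, Commute a h}
  mul_mem' ha hb s P hs hn hP a haP := (ha s P hs hn hP a haP).mul_right (hb s P hs hn hP a haP)
  one_mem' _ _ _ _ _ _ _ := Commute.one_right _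
  inv_mem' ha s P hs hn hP a haP := (ha s P hs hn hP a haP).inv_right

instance : (cen H).Normal := ⟨fun h hh g s P hs hn hP a ha => by
  have := hh s P hs hn hP (g⁻¹ * a * g) (by simpa using hn.conj_mem a ha g⁻¹)
  have e : a = g * (g⁻¹ * a * g) * g⁻¹ := by group
  rw [e]
  exact this.conj g⟩

lemma nilp_le (D : Subgroup H) [D.Normal] [Group.IsNilpotent D] {h : H} (hh : h ∈ cen H) :
    ∀ d ∈ D, Commute d h := by
  intro d hd
  have key : ∀ (s : ℕ) (a : D), s.Prime → (∃ k, a ^ s ^ k = 1) → Commute (a : H) h := by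
    intro s a hs ⟨k, hk⟩
    have := Fact.mk hs
    have hp : IsPGroup s (zpowers a) := by
      rintro ⟨b, i, rfl⟩
      exact ⟨k, Subtype.ext (by
        change (a ^ i) ^ s ^ k = 1
        rw [← zpow_natCast, ← zpow_mul, mul_comm, zpow_mul, zpow_natCast, hk, one_zpow])⟩
    obtain ⟨S, hS⟩ := hp.exists_le_sylow
    have hn : (S : Subgroup D).Normal := inferInstance
    have hc : (S : Subgroup D).Characteristic := S.characteristic_of_normal hn
    exact hh s ((S : Subgroup D).map D.subtype) hs inferInstance (S.isPGroup'.map _) a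
      ⟨a, hS (mem_zpowers a), rfl⟩
  have : ∀ (n : ℕ) (a : D), orderOf a = n → Commute (a : H) h := by
    intro n
    induction n using Nat.recOnPosPrimePosCoprime with
    | prime_pow p k hp _ => exact fun a ha => key p a hp ⟨k, by rw [← ha, pow_orderOf_eq_one]⟩
    | zero => exact fun a ha => absurd ha (orderOf_pos a).ne'
    | one => exact fun a ha => by rw [orderOf_eq_one_iff.1 ha]; exact Commute.one_left _
    | coprime m n hm hn hmn ihm ihn =>
      intro a ha
      have h1 := ihn (a ^ m) (by rw [orderOf_pow, ha]; simp [show 0 < m by omega])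
      have h2 := ihm (a ^ n) (by rw [orderOf_pow, ha]; simp [show 0 < n by omega])
      have e : a = (a ^ m) ^ Nat.gcdA m n * (a ^ n) ^ Nat.gcdB m n := by
        rw [← zpow_natCast, ← zpow_natCast, ← zpow_mul, ← zpow_mul, ← zpow_add,
          ← Nat.gcd_eq_gcd_ab, hmn.gcd_eq_one]
        simp
      rw [e]
      push_cast at h1 h2 ⊢
      exact (h1.zpow_left _).mul_left (h2.zpow_left _)
  exact this _ ⟨d, hd⟩ rfl

/-- the theorem of Fitting -/
theorem cen_comm [Group.IsSolvable H] {a b : H} (ha : a ∈ cen H) (hb : b ∈ cen H) : Commute a b := by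
  obtain ⟨n, hn⟩ := Group.IsSolvable.solvable (G := H)
  have key : ∀ k, k ≤ n → ∀ d ∈ derivedSeries H (n - k) ⊓ cen H, ∀ h ∈ cen H, Commute d h := by
    intro k
    induction k with
    | zero =>
      intro _ d hd h _
      have : d = 1 := by simpa [hn] using hd.1
      rw [this]; exact Commute.one_left _
    | succ k ih =>
      intro hk d hd h hh
      set D := derivedSeries H (n - (k + 1)) ⊓ cen H with hD
      have hle : commutator D ≤ center D := by
        rw [commutator_def, commutator_le]
        rintro x - y -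
        rw [mem_center_iff]
        intro z
        refine Subtype.ext (ih (by omega) (⁅x, y⁆ : D) ⟨?_, (⁅x, y⁆ : D).2.2⟩ z z.2.2).eq.symm
        rw [show n - k = n - (k + 1) + 1 by omega, derivedSeries_succ]
        exact commutator_mem_commutator x.2.1 y.2.1
      have : Group.IsNilpotent D :=
        Subgroup.isNilpotent_of_ker_le_center (Abelianization.of (G := D))
          (by rwa [Abelianization.ker_of])
      exact nilp_le D hh d hd
  exact key n le_rfl a ⟨by simp, ha⟩ b hb

/-- normalising criterion -/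
theorem norm_of [Group.IsSolvable H] {x y : H} {r : ℕ} (hr : r.Prime) (hy : y ^ r = 1)
    (hxy : Commute x y)
    (ha : ∀ (s : ℕ) (P : Subgroup H), s.Prime → s ≠ r → P.Normal → IsPGroup s P →
      ∀ a ∈ P, Commute a y)
    (hb : ∀ A : Subgroup H, (∀ a ∈ A, a ^ r = 1 ∧ Commute a y ∧ x * a * x⁻¹ ∈ A) →
      (∀ a ∈ A, ∀ b ∈ A, Commute a b) → A ≤ zpowers y) (h : H) : h * y * h⁻¹ ∈ zpowers y := by
  have := Fact.mk hr
  have hyc : y ∈ cen H := by
    intro s P hs hn hP
    by_cases e : s ≠ r
    · exact ha s P hs e hn hP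
    push Not at e
    subst e
    have hp : IsPGroup s (zpowers y) := by
      rintro ⟨b, i, rfl⟩
      exact ⟨1, Subtype.ext (by
        change (y ^ i) ^ s ^ 1 = 1
        rw [pow_one, ← zpow_natCast, ← zpow_mul, mul_comm, zpow_mul, zpow_natCast, hy, one_zpow])⟩
    have hR := hP.to_sup_of_normal_left hp
    set R := P ⊔ zpowers y with hRd
    have hx : ∀ a ∈ R, ∀ z, Commute z y → z * a * z⁻¹ ∈ R := fun a ha z hz => by
      have : R ≤ R.comap (MulAut.conj z).toMonoidHom := sup_le
        (fun b hb => mem_sup_left (hn.conj_mem b hb z)) (by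
          rw [zpowers_le]
          exact mem_sup_right (by simp [hz.eq]))
      exact this ha
    by_cases y1 : y = 1
    · intro a _; rw [y1]; exact Commute.one_right _
    have : Nontrivial R := ⟨⟨⟨y, mem_sup_right (mem_zpowers y)⟩, 1, by simpa using y1⟩⟩
    have := hR.center_nontrivial
    obtain ⟨c, c1⟩ := exists_ne (1 : center R)
    · let A : Subgroup H :=
        { carrier := {a | a ∈ R ∧ a ^ s = 1 ∧ ∀ b ∈ R, Commute a b}
          mul_mem' := fun {a b} ha hb => ⟨mul_mem ha.1 hb.1, by
            rw [(ha.2.2 b hb.1).mul_pow, ha.2.1, hb.2.1, mul_one],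
            fun c hc => (ha.2.2 c hc).mul_left (hb.2.2 c hc)⟩
          one_mem' := ⟨one_mem _, one_pow _, fun _ _ => Commute.one_left _⟩
          inv_mem' := fun {a} ha => ⟨inv_mem ha.1, by rw [inv_pow, ha.2.1, inv_one],
            fun c hc => (ha.2.2 c hc).inv_left⟩ }
      have hA := hb A (fun a ha => ⟨ha.2.1, ha.2.2 y (mem_sup_right (mem_zpowers y)),
        hx a ha.1 x hxy, by rw [conj_pow, ha.2.1]; simp, fun b hb => by
          have := (ha.2.2 _ (hx b hb x⁻¹ hxy.inv_left)).conj x
          simpa [mul_assoc] using this⟩) fun a ha b hb => ha.2.2 b hb.1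
      obtain ⟨k, hk⟩ := (hR.to_subgroup (center R)).exists_orderOf_eq_pow c
      obtain ⟨k, rfl⟩ : ∃ k', k = k' + 1 := ⟨k - 1, by
        have : k ≠ 0 := by rintro rfl; exact c1 (by simpa using hk)
        omega⟩
      have o : orderOf (((c ^ s ^ k : center R) : R) : H) = s := by
        rw [orderOf_coe, orderOf_coe, orderOf_pow, hk, pow_succ]
        simp [hs.pos]
      have m : (((c ^ s ^ k : center R) : R) : H) ∈ A := ⟨SetLike.coe_mem _,
        orderOf_dvd_iff_pow_eq_one.1 o.dvd, fun b hb => congrArg Subtype.val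
          (mem_center_iff.1 (c ^ s ^ k).2 ⟨b, hb⟩).symm⟩
      have e : zpowers (((c ^ s ^ k : center R) : R) : H) = zpowers y :=
        eq_of_le_of_card_ge (zpowers_le.2 (hA m)) (by
          rw [Nat.card_zpowers, Nat.card_zpowers, o, orderOf_eq_prime hy y1])
      intro a haP
      have : y ∈ A := (zpowers_le.2 m) (e ▸ mem_zpowers y)
      exact (this.2.2 a (mem_sup_left haP)).symm
  let A : Subgroup H :=
    { carrier := {a | a ∈ cen H ∧ a ^ r = 1}
      mul_mem' := fun {a b} ha hb => ⟨mul_mem ha.1 hb.1, by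
        rw [(cen_comm ha.1 hb.1).mul_pow, ha.2, hb.2, mul_one]⟩
      one_mem' := ⟨one_mem _, one_pow _⟩
      inv_mem' := fun {a} ha => ⟨inv_mem ha.1, by rw [inv_pow, ha.2, inv_one]⟩ }
  have cj : ∀ a ∈ A, ∀ z, z * a * z⁻¹ ∈ A := fun a ha z =>
    ⟨Normal.conj_mem inferInstance a ha.1 z, by rw [conj_pow, ha.2]; simp⟩
  exact hb A (fun a ha => ⟨ha.2, cen_comm ha.1 hyc, cj a ha x⟩)
    (fun a ha b hb => cen_comm ha.1 hb.1) (cj y ⟨hyc, hy⟩ h)

end Pool.Agent.Lib.MP_d787f3_al
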