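import Pool.Agent.Lib.MP_d787f3_al.Defs

/-! Classification of alternating forms and of hermitian forms over finite fields. -/

namespace Pool.Agent.Lib.MP_d787f3_al
open Module

universe u v

namespace Fm

variable {F : Type*} [Field F]

/-- splitting off a hyperbolic pair -/
theorem split {V : Type*} [AddCommGroup V] [Module F V] [FiniteDimensional F V]
    (B : V →ₗ[F] V →ₗ[F] F) (hr : B.IsRefl) (nB : B.Nondegenerate) {e f : V}
    (hee : B e e = 0) (hff : B f f = 0) (hef : B e f = 1) :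
    ∃ (W : Submodule F V) (φ : ((F × F) × W) ≃ₗ[F] V), (∀ p, φ p = p.1.1 • e + p.1.2 • f + p.2) ∧
      (∀ w : W, B e w = 0 ∧ B f w = 0 ∧ B w e = 0 ∧ B w f = 0) ∧
      (B.domRestrict₁₂ W W).Nondegenerate ∧ finrank F V = finrank F W + 2 := by
  have hfe : B f e ≠ 0 := fun h => one_ne_zero (hef.symm.trans (hr _ _ h))
  let W := LinearMap.ker (B e) ⊓ LinearMap.ker (B f)
  have hW : ∀ w : W, B e w = 0 ∧ B f w = 0 ∧ B w e = 0 ∧ B w f = 0 := fun w =>
    ⟨w.2.1, w.2.2, hr _ _ w.2.1, hr _ _ w.2.2⟩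
  let g : ((F × F) × W) →ₗ[F] V :=
    ((LinearMap.toSpanSingleton F V e).coprod (LinearMap.toSpanSingleton F V f)).coprod W.subtype
  have hg : ∀ p, g p = p.1.1 • e + p.1.2 • f + p.2 := fun p => rfl
  have bij : Function.Bijective g := by
    refine ⟨(injective_iff_map_eq_zero g).2 fun ⟨⟨a, b⟩, w⟩ h => ?_, fun v => ?_⟩
    · rw [hg] at h
      have h1 := congrArg (B e) h
      have h2 := congrArg (B f) h
      simp only [map_add, map_smul, hee, hef, hff, (hW w).1, (hW w).2.1, smul_eq_mul, mul_zero,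
        mul_one, zero_add, add_zero, map_zero, mul_eq_zero, hfe, or_false] at h1 h2
      simp only [h1, h2, zero_smul, zero_add, ZeroMemClass.coe_eq_zero] at h
      simp [h1, h2, h]
    · refine ⟨((B f v / B f e, B e v), ⟨v - (B f v / B f e) • e - B e v • f, ?_, ?_⟩), ?_⟩
      · simp [hee, hef]
      · simp [hff, hfe]
      · simp [hg]
  refine ⟨W, LinearEquiv.ofBijective g bij, hg, hW, ?_, ?_⟩
  · rw [(hr.domRestrict W).nondegenerate_iff_separatingLeft]
    intro w hw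
    refine Subtype.ext (nB.1 w fun v => ?_)
    obtain ⟨p, rfl⟩ := bij.2 v
    have := hw p.2
    rw [LinearMap.domRestrict₁₂_apply] at this
    simp [hg, (hW w).2.2.1, (hW w).2.2.2, this]
  · rw [← (LinearEquiv.ofBijective g bij).finrank_eq]
    simp [add_comm]

theorem alt_split {V : Type*} [AddCommGroup V] [Module F V] [FiniteDimensional F V]
    (B : V →ₗ[F] V →ₗ[F] F) (hB : B.IsAlt) (nB : B.Nondegenerate) (h : finrank F V ≠ 0) :
    ∃ (W : Submodule F V) (φ : ((F × F) × W) ≃ₗ[F] V),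
      (∀ p q, B (φ p) (φ q) = p.1.1 * q.1.2 - p.1.2 * q.1.1 + B.domRestrict₁₂ W W p.2 q.2) ∧
      (B.domRestrict₁₂ W W).Nondegenerate ∧ finrank F V = finrank F W + 2 := by
  have := finrank_pos_iff.1 (Nat.pos_of_ne_zero h)
  obtain ⟨e, he⟩ := exists_ne (0 : V)
  obtain ⟨u, hu⟩ : ∃ u, B e u ≠ 0 := by
    by_contra hn
    push Not at hn
    exact he (nB.1 e hn)
  have hef : B e ((B e u)⁻¹ • u) = 1 := by simp [hu]
  generalize (B e u)⁻¹ • u = f at hef
  obtain ⟨W, φ, h1, h2, h3, h4⟩ := split B hB.isRefl nB (hB e) (hB f) hef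
  refine ⟨W, φ, fun p q => ?_, h3, h4⟩
  have hfe : B f e = -1 := by rw [← hB.neg, hef]
  simp only [h1, map_add, map_smul, LinearMap.add_apply, LinearMap.smul_apply, hB e, hB f, hef, hfe,
    h2 p.2, h2 q.2, smul_eq_mul, LinearMap.domRestrict₁₂_apply]
  ring

theorem alt_equiv_aux (n : ℕ) : ∀ (V : Type u) (V' : Type v) [AddCommGroup V] [Module F V]
    [FiniteDimensional F V] [AddCommGroup V'] [Module F V'] [FiniteDimensional F V']
    (B : V →ₗ[F] V →ₗ[F] F) (B' : V' →ₗ[F] V' →ₗ[F] F), B.IsAlt → B'.IsAlt → B.Nondegenerate →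
    B'.Nondegenerate → finrank F V = n → finrank F V' = n →
    Even n ∧ ∃ e : V ≃ₗ[F] V', ∀ u v, B' (e u) (e v) = B u v := by
  induction n using Nat.strong_induction_on with
  | _ n ih =>
    intro V V' _ _ _ _ _ _ B B' hB hB' nB nB' h h'
    rcases eq_or_ne n 0 with rfl | h0
    · have := finrank_zero_iff.1 h
      exact ⟨Even.zero, .ofFinrankEq _ _ (h.trans h'.symm), fun u v => by
        simp [Subsingleton.elim u 0]⟩
    obtain ⟨W, φ, a1, a2, a3⟩ := alt_split B hB nB (h ▸ h0)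
    obtain ⟨W', φ', b1, b2, b3⟩ := alt_split B' hB' nB' (h' ▸ h0)
    obtain ⟨c1, e, c2⟩ := ih (finrank F W) (by omega) W W' _ _ (fun w => hB w) (fun w => hB' w) a2 b2
      rfl (by omega)
    refine ⟨by rw [← h, a3]; exact c1.add even_two,
      φ.symm ≪≫ₗ ((LinearEquiv.refl F _).prodCongr e ≪≫ₗ φ'), fun u v => ?_⟩
    obtain ⟨p, rfl⟩ := φ.surjective u
    obtain ⟨q, rfl⟩ := φ.surjective v
    simp only [LinearEquiv.trans_apply, LinearEquiv.symm_apply_apply, a1, b1,
      LinearEquiv.prodCongr_apply, LinearEquiv.refl_apply, c2]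

/-- an involution of a finite field is the Frobenius map over its fixed field -/
theorem inv_facts {K : Type*} [Field K] [Finite K] (σ : K →+* K) (h1 : σ ≠ RingHom.id K)
    (h2 : ∀ c, σ (σ c) = c) :
    Nat.card K = Nat.card (σ.eqLocusField (RingHom.id K)) ^ 2 ∧
      (∀ x, σ x = x ^ Nat.card (σ.eqLocusField (RingHom.id K))) ∧
      ∀ a, σ a = a → ∃ c, σ c * c = a := by
  set K0 := σ.eqLocusField (RingHom.id K)
  obtain ⟨c, hc⟩ : ∃ c, c - σ c ≠ 0 := by
    by_contra hn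
    push Not at hn
    exact h1 (RingHom.ext fun c => (sub_eq_zero.1 (hn c)).symm)
  have mem : ∀ {x}, x ∈ K0 ↔ σ x = x := Iff.rfl
  let g : (K0 × K0) →ₗ[K0] K :=
    (LinearMap.toSpanSingleton K0 K 1).coprod (LinearMap.toSpanSingleton K0 K c)
  have hg : ∀ p, g p = p.1 + p.2 * c := fun p => by simp [g, Subfield.smul_def]
  have hc' : σ c - c ≠ 0 := by rw [← neg_sub]; exact neg_ne_zero.2 hc
  have bij : Function.Bijective g := by
    refine ⟨(injective_iff_map_eq_zero g).2 fun ⟨a, b⟩ h => ?_, fun x => ?_⟩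
    · rw [hg] at h
      have h3 := congrArg σ h
      rw [map_add, map_mul, mem.1 a.2, mem.1 b.2, map_zero] at h3
      have hb : (b : K) = 0 := (mul_eq_zero.1 (show b * (c - σ c) = 0 by
        linear_combination h - h3)).resolve_right hc
      simp only [hb, zero_mul, add_zero, ZeroMemClass.coe_eq_zero] at h
      simp [h, ZeroMemClass.coe_eq_zero.1 hb]
    · have hb : σ ((x - σ x) / (c - σ c)) = (x - σ x) / (c - σ c) := by
        rw [map_div₀, map_sub, map_sub, h2, h2, ← neg_sub x, ← neg_sub c, neg_div_neg_eq]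
      refine ⟨(⟨x - (x - σ x) / (c - σ c) * c, mem.2 ?_⟩, ⟨_, mem.2 hb⟩), by simp [hg]⟩
      rw [map_sub, map_mul, hb]
      field_simp
      ring
  have rk : finrank K0 K = 2 := by
    rw [← (LinearEquiv.ofBijective g bij).finrank_eq]; simp
  have cd : Nat.card K = Nat.card K0 ^ 2 := by rw [natCard_eq_pow_finrank (K := K0), rk]
  have fr : ∀ x, σ x = x ^ Nat.card K0 := by
    let _ := Fintype.ofFinite K0
    let τ : K →ₐ[K0] K := { σ with commutes' := fun a => mem.1 a.2 }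
    obtain ⟨⟨i, hi⟩, h⟩ := (FiniteField.bijective_frobeniusAlgHom_pow K0 K).2 τ
    rw [rk] at hi
    intro x
    interval_cases i
    · exact absurd (RingHom.ext fun y => (DFunLike.congr_fun h y).symm) h1
    · rw [Nat.card_eq_fintype_card]
      exact (DFunLike.congr_fun ((pow_one _).symm.trans h) x).symm
  refine ⟨cd, fr, fun a ha => ?_⟩
  obtain ⟨x, hx⟩ := FiniteField.norm_surjective K0 K ⟨a, mem.2 ha⟩
  have h3 := FiniteField.algebraMap_norm_eq_pow (K := K0) (x := x)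
  have h4 : 1 < Nat.card K0 := Finite.one_lt_card
  rw [hx, cd, ← one_pow 2, Nat.sq_sub_sq, one_pow, Nat.mul_div_cancel _ (by omega), pow_succ,
    ← fr] at h3
  exact ⟨x, h3.symm⟩

theorem herm_split [Finite F] {σ : F →+* F} (hσ : σ ≠ RingHom.id F) (h2 : ∀ c, σ (σ c) = c)
    {V : Type*} [AddCommGroup V] [Module F V] [FiniteDimensional F V] (B : V →ₛₗ[σ] V →ₗ[F] F)
    (hB : B.IsSymm) (nB : B.Nondegenerate) (h : finrank F V ≠ 0) :
    ∃ (W : Submodule F V) (φ : (F × W) ≃ₗ[F] V),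
      (∀ p q, B (φ p) (φ q) = σ p.1 * q.1 + B.domRestrict₁₂ W W p.2 q.2) ∧
      (B.domRestrict₁₂ W W).Nondegenerate ∧ finrank F V = finrank F W + 1 := by
  have := finrank_pos_iff.1 (Nat.pos_of_ne_zero h)
  obtain ⟨u, hu⟩ : ∃ u, B u u ≠ 0 := by
    by_contra hn
    push Not at hn
    obtain ⟨x, hx⟩ := exists_ne (0 : V)
    refine hx (nB.1 x fun y => ?_)
    have k : ∀ y, B x y + σ (B x y) = 0 := fun y => by
      have := hn (x + y)
      simp only [map_add, LinearMap.add_apply, hn] at this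
      rw [hB.eq]
      linear_combination this
    by_contra h0
    refine hσ (RingHom.ext fun c => mul_right_cancel₀ h0 ?_)
    have a1 := k (c • y)
    rw [map_smul, smul_eq_mul, map_mul] at a1
    rw [RingHom.id_apply]
    linear_combination σ c * k y - a1
  obtain ⟨c, hc⟩ := (inv_facts σ hσ h2).2.2 (B u u)⁻¹ (by rw [map_inv₀, hB.eq])
  have hee : B (c • u) (c • u) = 1 := by
    rw [map_smul, map_smulₛₗ, LinearMap.smul_apply, smul_smul, mul_comm, hc, smul_eq_mul,
      inv_mul_cancel₀ hu]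
  generalize c • u = e at hee
  let W := LinearMap.ker (B e)
  have hW : ∀ w : W, B e w = 0 ∧ B w e = 0 := fun w => ⟨w.2, hB.isRefl _ _ w.2⟩
  let g : (F × W) →ₗ[F] V := (LinearMap.toSpanSingleton F V e).coprod W.subtype
  have hg : ∀ p, g p = p.1 • e + p.2 := fun p => rfl
  have bij : Function.Bijective g := by
    refine ⟨(injective_iff_map_eq_zero g).2 fun ⟨a, w⟩ h => ?_, fun v => ?_⟩
    · rw [hg] at h
      have h1 := congrArg (B e) h
      simp only [map_add, map_smul, hee, (hW w).1, smul_eq_mul, mul_one, add_zero, map_zero] at h1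
      simp only [h1, zero_smul, zero_add, ZeroMemClass.coe_eq_zero] at h
      simp [h1, h]
    · exact ⟨(B e v, ⟨v - B e v • e, by simp [W, hee]⟩), by simp [hg]⟩
  have key : ∀ p q, B (g p) (g q) = σ p.1 * q.1 + B.domRestrict₁₂ W W p.2 q.2 := fun p q => by
    simp only [hg, map_add, map_smul, map_smulₛₗ, LinearMap.add_apply, LinearMap.smul_apply, hee,
      hW p.2, hW q.2, smul_eq_mul, LinearMap.domRestrict₁₂_apply]
    ring
  refine ⟨W, LinearEquiv.ofBijective g bij, key, ⟨fun w hw => ?_, fun w hw => ?_⟩, ?_⟩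
  · refine Subtype.ext (nB.1 w fun v => ?_)
    obtain ⟨p, rfl⟩ := bij.2 v
    simpa [hg, hw p.2] using key (0, w) p
  · refine Subtype.ext (nB.2 w fun v => ?_)
    obtain ⟨p, rfl⟩ := bij.2 v
    simpa [hg, hw p.2] using key p (0, w)
  · rw [← (LinearEquiv.ofBijective g bij).finrank_eq]
    simp [add_comm]

theorem herm_equiv_aux [Finite F] {σ : F →+* F} (hσ : σ ≠ RingHom.id F) (h2 : ∀ c, σ (σ c) = c)
    (n : ℕ) : ∀ (V : Type u) (V' : Type v) [AddCommGroup V] [Module F V]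
    [FiniteDimensional F V] [AddCommGroup V'] [Module F V'] [FiniteDimensional F V']
    (B : V →ₛₗ[σ] V →ₗ[F] F) (B' : V' →ₛₗ[σ] V' →ₗ[F] F), B.IsSymm → B'.IsSymm → B.Nondegenerate →
    B'.Nondegenerate → finrank F V = n → finrank F V' = n →
    ∃ e : V ≃ₗ[F] V', ∀ u v, B' (e u) (e v) = B u v := by
  induction n with
  | zero =>
    intro V V' _ _ _ _ _ _ B B' hB hB' nB nB' h h'
    have := finrank_zero_iff.1 h
    exact ⟨.ofFinrankEq _ _ (h.trans h'.symm), fun u v => by simp [Subsingleton.elim u 0]⟩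
  | succ n ih =>
    intro V V' _ _ _ _ _ _ B B' hB hB' nB nB' h h'
    obtain ⟨W, φ, a1, a2, a3⟩ := herm_split hσ h2 B hB nB (by omega)
    obtain ⟨W', φ', b1, b2, b3⟩ := herm_split hσ h2 B' hB' nB' (by omega)
    obtain ⟨e, c2⟩ := ih W W' _ _ ⟨fun x y => hB.eq x y⟩ ⟨fun x y => hB'.eq x y⟩ a2 b2
      (by omega) (by omega)
    refine ⟨φ.symm ≪≫ₗ ((LinearEquiv.refl F _).prodCongr e ≪≫ₗ φ'), fun u v => ?_⟩
    obtain ⟨p, rfl⟩ := φ.surjective u
    obtain ⟨q, rfl⟩ := φ.surjective v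
    simp only [LinearEquiv.trans_apply, LinearEquiv.symm_apply_apply, a1, b1,
      LinearEquiv.prodCongr_apply, LinearEquiv.refl_apply, c2]

end Fm

variable {F V V' : Type*} [Field F] [AddCommGroup V] [Module F V] [FiniteDimensional F V]
  [AddCommGroup V'] [Module F V'] [FiniteDimensional F V']

theorem alt_even (B : V →ₗ[F] V →ₗ[F] F) (hB : B.IsAlt) (nB : B.Nondegenerate) :
    Even (finrank F V) := (Fm.alt_equiv_aux _ V V B B hB hB nB nB rfl rfl).1

theorem alt_equiv (B : V →ₗ[F] V →ₗ[F] F) (B' : V' →ₗ[F] V' →ₗ[F] F) (hB : B.IsAlt)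
    (hB' : B'.IsAlt) (nB : B.Nondegenerate) (nB' : B'.Nondegenerate)
    (h : finrank F V = finrank F V') : ∃ e : V ≃ₗ[F] V', ∀ u v, B' (e u) (e v) = B u v :=
  (Fm.alt_equiv_aux _ V V' B B' hB hB' nB nB' h rfl).2

theorem herm_equiv [Finite F] {σ : F →+* F} (hσ : σ ≠ RingHom.id F) (h2 : ∀ c, σ (σ c) = c)
    (B : V →ₛₗ[σ] V →ₗ[F] F) (B' : V' →ₛₗ[σ] V' →ₗ[F] F) (hB : B.IsSymm)
    (hB' : B'.IsSymm) (nB : B.Nondegenerate) (nB' : B'.Nondegenerate)
    (h : finrank F V = finrank F V') : ∃ e : V ≃ₗ[F] V', ∀ u v, B' (e u) (e v) = B u v :=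
  Fm.herm_equiv_aux hσ h2 _ V V' B B' hB hB' nB nB' h rfl

end Pool.Agent.Lib.MP_d787f3_al
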