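import Pool.Agent.Lib.MP_d787f3_al.ExcWt

/-! Weights moved by an element of prime order. -/

namespace Pool.Agent.Lib.MP_d787f3_al.HH

open Subgroup Module Function Ex
open scoped commutatorElement

variable {L V : Type*} [Field L] [AddCommGroup V] [Module L V]

theorem wzero {ι X : Type*} [Fintype X] (f : ι → V →ₗ[L] V) (χ : X → ι → L) (hχ : Injective χ)
    (v : X → V) (hv : ∀ x i, f i (v x) = χ x i • v x) (h : ∑ x, v x = 0) (x : X) : v x = 0 := by
  classical
  by_contra h0
  have := Fintype.linearIndependent_iff.1 (indep f (fun x : {x // v x ≠ 0} => χ x)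
    (hχ.comp Subtype.val_injective) (fun x => v x) (fun x => x.2) fun x => hv x) (fun _ => 1) (by
      simp only [one_smul]
      refine Eq.trans ?_ ((Finset.sum_filter_ne_zero Finset.univ (f := v)).trans h)
      exact (Finset.sum_subtype _ (by simp) v).symm) ⟨x, h0⟩
  exact one_ne_zero this

/-- joint eigenvectors of commuting operators of coprime order span -/
theorem ewt [IsAlgClosed L] [FiniteDimensional L V] {ι : Type*} (f : ι → End L V)
    (h0 : ∀ i, ∃ N : ℕ, (N : L) ≠ 0 ∧ f i ^ N = 1) (hc : ∀ i j, Commute (f i) (f j))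
    {W : Type*} [AddCommGroup W] [Module L W] {g : V →ₗ[L] W} (hg : g ≠ 0) :
    ∃ (χ : ι → L) (v : V), (∀ i, f i v = χ i • v) ∧ g v ≠ 0 := by
  have h1 : ∀ i, (f i).IsFinitelySemisimple := fun i => by
    obtain ⟨N, hN, hk⟩ := h0 i
    refine (End.isSemisimple_of_squarefree_aeval_eq_zero
      (p := Polynomial.X ^ N - 1) (Polynomial.X_pow_sub_one_separable_iff.2 hN).squarefree
      ?_).isFinitelySemisimple
    rw [map_sub, map_pow, Polynomial.aeval_X, map_one, hk, sub_self]
  have h2 := End.iSup_iInf_maxGenEigenspace_eq_top_of_iSup_maxGenEigenspace_eq_top_of_commute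
    f (fun a b _ => hc a b) fun a => End.iSup_maxGenEigenspace_eq_top _
  by_contra hn
  push Not at hn
  refine hg (LinearMap.ker_eq_top.1 (top_le_iff.1 (h2 ▸ iSup_le fun χ v hv => hn χ v fun a => ?_)))
  have := (Submodule.mem_iInf _).1 hv a
  rwa [(h1 a).maxGenEigenspace_eq_eigenspace, End.mem_eigenspace_iff] at this

/-- representatives of the orbits of a map of prime order with one fixed point -/
theorem transversal {E : Type*} [Finite E] (σ : E → E) {r : ℕ} (hr : r.Prime)
    (per : ∀ e, σ^[r] e = e) (o : E) (fix : ∀ e, σ e = e ↔ e = o) :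
    ∃ T : Set E, Nat.card E = r * Nat.card T + 1 ∧ ∀ e ≠ o, ∃ t ∈ T, ∃ j, σ^[j] e = t := by
  classical
  have := Fact.mk hr
  let _ := LinearOrder.lift' _ (Finite.equivFin E).injective
  have back : ∀ e j, ∃ i < r, σ^[i] (σ^[j] e) = e := fun e j => by
    refine ⟨(r - 1) * j % r, Nat.mod_lt _ hr.pos, ?_⟩
    rw [IsPeriodicPt.iterate_mod_apply (per _), ← iterate_add_apply,
      show (r - 1) * j + j = r * j by
        obtain ⟨k, rfl⟩ : ∃ k, r = k + 1 := ⟨r - 1, by have := hr.pos; omega⟩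
        simp; ring]
    exact IsPeriodicPt.mul_const (per e) j
  have no : ∀ e j, σ^[j] e = o → e = o := fun e j h => by
    obtain ⟨i, -, hi⟩ := back e j
    rw [← hi, h]
    exact iterate_fixed ((fix o).2 rfl) i
  let T : Set E := {e | e ≠ o ∧ ∀ j, e ≤ σ^[j] e}
  have ex : ∀ e ≠ o, ∃ t ∈ T, ∃ j, σ^[j] e = t := fun e he => by
    obtain ⟨_, ⟨j, rfl⟩, h⟩ := Set.exists_min_image (Set.range fun j => σ^[j] e) id (Set.toFinite _)
      (Set.range_nonempty _)
    exact ⟨_, ⟨mt (no e j) he, fun i => h _ ⟨i + j, iterate_add_apply _ _ _ _⟩⟩, j, rfl⟩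
  refine ⟨T, ?_, ex⟩
  have b : Bijective fun p : Fin r × T => (⟨σ^[p.1] p.2, mt (no _ _) p.2.2.1⟩ : {e // e ≠ o}) := by
    constructor
    · rintro ⟨i, t⟩ ⟨j, u⟩ h
      have h : σ^[i] t = σ^[j] u := congrArg Subtype.val h
      have le : ∀ {i j : ℕ} {t u : T}, σ^[i] t = σ^[j] u → (u : E) ≤ t := fun {i j t u} h => by
        obtain ⟨k, -, hk⟩ := back t i
        rw [← hk, h, ← iterate_add_apply]
        exact u.2.2 _
      obtain rfl : t = u := Subtype.ext (le_antisymm (le h.symm) (le h))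
      have mp : minimalPeriod σ t = r := minimalPeriod_eq_prime (per _) (mt (fix _).1 t.2.1)
      rw [Fin.ext (iterate_injOn_Iio_minimalPeriod (mp ▸ i.2) (mp ▸ j.2) h)]
    · rintro ⟨e, he⟩
      obtain ⟨t, ht, j, rfl⟩ := ex e he
      obtain ⟨i, h1, h2⟩ := back e j
      exact ⟨(⟨i, h1⟩, ⟨_, ht⟩), Subtype.ext h2⟩
  have := Nat.card_eq_of_bijective _ b
  rw [Nat.card_prod, Nat.card_eq_fintype_card, Fintype.card_fin] at this
  rw [this, ← Nat.card_congr (Equiv.optionSubtypeNe o), Finite.card_option]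

variable {G : Type*} [Group G] (ρ : G →* End L V)

theorem nz (g : G) {v : V} (h : v ≠ 0) : ρ g v ≠ 0 := fun h1 => h (by
  have := congrArg (ρ g⁻¹) h1
  rwa [← End.mul_apply, ← map_mul, inv_mul_cancel, map_one, End.one_apply, map_zero] at this)

/-- a weight moved by `y` -/
theorem lemA [FiniteDimensional L V] (Z : Subgroup G) [hZ : Z.Normal] {r : ℕ} (hr : r.Prime)
    {x y : G} (hy : y ^ r = 1) (hxy : Commute x y) (fix : ∀ w, ρ y w = w → ρ x w = w)
    {χ : Z → L} {v : V} (v0 : v ≠ 0) (hv : ∀ a : Z, ρ a v = χ a • v)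
    (mv : ¬ ∀ a : Z, χ ⟨y⁻¹ * a * y, hZ.conj_mem' a a.2 y⟩ = χ a) :
    r ≤ finrank L V ∧ ρ y v ≠ v ∧ ρ (x ^ r) v = v := by
  have := Fact.mk hr
  let sh : G → (Z → L) → Z → L := fun g χ a => χ ⟨g⁻¹ * a * g, hZ.conj_mem' a a.2 g⟩
  have mul : ∀ g h χ, sh (g * h) χ = sh g (sh h χ) := fun g h χ => funext fun a =>
    congrArg χ (Subtype.ext (by simp [mul_assoc]))
  have one : ∀ χ, sh 1 χ = χ := fun χ => funext fun a => congrArg χ (Subtype.ext (by simp))
  have it : ∀ (i : ℕ) χ, sh (y ^ i) χ = (sh y)^[i] χ := fun i χ => by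
    induction i with
    | zero => simp [one]
    | succ i ih => rw [pow_succ', mul, ih, iterate_succ_apply']
  have wt : ∀ g {χ : Z → L} {v : V}, (∀ a : Z, ρ a v = χ a • v) →
      ∀ a : Z, ρ a (ρ g v) = sh g χ a • ρ g v := fun g χ v hv a => by
    rw [← map_smul, ← hv, ← End.mul_apply, ← End.mul_apply (ρ g), ← map_mul, ← map_mul]
    simp [mul_assoc]
  have inj : ∀ χ, sh y χ ≠ χ → Injective fun i : Fin r => sh (y ^ i.1) χ := fun χ h i j e => by
    have mp : minimalPeriod (sh y) χ = r :=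
      minimalPeriod_eq_prime (by rw [IsPeriodicPt, IsFixedPt, ← it, hy, one]) h
    simp only [it] at e
    exact Fin.ext (iterate_injOn_Iio_minimalPeriod (mp ▸ i.2) (mp ▸ j.2) e)
  have m1 : sh y χ ≠ χ := fun h => mv (congrFun h)
  have m2 : ∀ g, Commute g y → sh y (sh g χ) ≠ sh g χ := fun g hg h => m1 (by
    have := congrArg (sh g⁻¹) h
    rwa [← mul, ← mul, ← mul, ← hg.eq, inv_mul_cancel_left, inv_mul_cancel, one] at this)
  let N : End L V := ∑ i : Fin r, ρ (y ^ i.1)
  have Ny : Commute N (ρ y) ∧ N * ρ y = N := by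
    have : N = ∑ i ∈ Finset.range r, ρ y ^ i := by
      simp only [N, map_pow]; exact Fin.sum_univ_eq_sum_range _ r
    have h2 := geom_sum_mul (ρ y) r
    rw [← map_pow, hy, map_one, sub_self, mul_sub, mul_one, sub_eq_zero, ← this] at h2
    exact ⟨this ▸ Commute.sum_left _ _ _ fun i _ => Commute.pow_self _ _, h2⟩
  have Nx : N (ρ x v) = N v := by
    have : Commute N (ρ x) := Commute.sum_left _ _ _ fun i _ => (hxy.symm.pow_left _).map ρ
    rw [← End.mul_apply, this.eq, End.mul_apply, fix _ (by rw [← End.mul_apply, ← Ny.1.eq, Ny.2])]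
  have Nj : ∀ j : ℕ, N (ρ (y ^ j) v) = N v := fun j => by
    induction j with
    | zero => simp
    | succ j ih => rw [pow_succ', map_mul, End.mul_apply, ← End.mul_apply N, Ny.2, ih]
  refine ⟨?_, fun h => m1 (funext fun a => smul_left_injective L v0 ?_), ?_⟩
  · simpa using (indep (fun a : Z => ρ a) _ (inj χ m1) (fun i => ρ (y ^ i.1) v) (fun i => nz ρ _ v0)
      fun i => wt _ hv).fintype_card_le_finrank
  · have := wt y hv a
    rw [h, hv] at this
    exact this.symm
  have key : ∃ j : ℕ, ρ x v = ρ (y ^ j) v := by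
    by_cases h : ∃ i j : ℕ, sh (y ^ i) (sh x χ) = sh (y ^ j) χ
    · obtain ⟨i, j, h⟩ := h
      obtain ⟨k, h⟩ : ∃ k : ℕ, sh x χ = sh (y ^ k) χ := ⟨(r - 1) * i + j, by
        rw [pow_add, mul, ← h, ← mul (y ^ ((r - 1) * i)) (y ^ i) (sh x χ), ← pow_add, show (r - 1) * i + i = r * i by
          obtain ⟨k, rfl⟩ : ∃ k, r = k + 1 := ⟨r - 1, by have := hr.pos; omega⟩
          simp; ring, pow_mul, hy, one_pow, one]⟩
      refine ⟨k, sub_eq_zero.1 ?_⟩
      have hw : ∀ a : Z, ρ a (ρ x v - ρ (y ^ k) v) = sh x χ a • (ρ x v - ρ (y ^ k) v) := fun a => by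
        rw [map_sub, wt x hv, wt (y ^ k) hv, h, smul_sub]
      simpa using wzero (fun a : Z => ρ a) _ (inj _ (m2 x hxy))
        (fun i => ρ (y ^ i.1) (ρ x v - ρ (y ^ k) v)) (fun i => wt _ hw) (by
          rw [← LinearMap.sum_apply]
          show N _ = 0
          rw [map_sub, Nx, Nj, sub_self]) ⟨0, hr.pos⟩
    · push Not at h
      refine absurd ?_ (nz ρ x v0)
      simpa using wzero (fun a : Z => ρ a) _ ((inj _ (m2 x hxy)).sumElim (inj _ m1) fun i j => h i j)
        (Sum.elim (fun i => ρ (y ^ i.1) (ρ x v)) fun i => ρ (y ^ i.1) (-v))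
        (by
          rintro (i | i)
          · exact wt _ (wt x hv)
          · exact wt _ fun a => by rw [map_neg, hv, smul_neg]) (by
          rw [Fintype.sum_sum_type]
          simp only [Sum.elim_inl, Sum.elim_inr, ← LinearMap.sum_apply]
          show N _ + N _ = 0
          rw [Nx, map_neg, add_neg_cancel]) (Sum.inl ⟨0, hr.pos⟩)
  obtain ⟨j, hj⟩ := key
  have : ∀ i : ℕ, ρ (x ^ i) v = ρ ((y ^ j) ^ i) v := fun i => by
    induction i with
    | zero => simp
    | succ i ih =>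
      rw [pow_succ', map_mul, End.mul_apply, ih, ← End.mul_apply, ← map_mul,
        ((hxy.pow_right j).pow_right i).eq, map_mul, End.mul_apply, hj, pow_succ, map_mul,
        End.mul_apply]
  rw [this, ← pow_mul, mul_comm, pow_mul, hy, one_pow, map_one, End.one_apply]

end Pool.Agent.Lib.MP_d787f3_al.HH
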