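import Pool.Agent.Lib.MP_d787f3_al.HHA

/-! A count of Hall-Higman type for an irreducible module. -/

namespace Pool.Agent.Lib.MP_d787f3_al.HH

open Subgroup Module Function Ex
open scoped commutatorElement

variable {L M : Type*} [Field L] [AddCommGroup M] [Module L M] [IsAlgClosed L]
  [FiniteDimensional L M]

/-- the commutant of an operator of coprime order is large -/
theorem diag (f : End L M) {N : ℕ} (hN : (N : L) ≠ 0) (hf : f ^ N = 1) :
    ∃ D : Submodule L (End L M), finrank L D = finrank L M ∧ ∀ A ∈ D, Commute A f := by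
  have sp : ⊤ ≤ Submodule.span L {v : M | ∃ c : L, f v = c • v} := by
    rw [top_le_iff, ← Submodule.ker_mkQ (Submodule.span L _), LinearMap.ker_eq_top]
    by_contra h
    obtain ⟨χ, v, h1, h2⟩ := ewt (fun _ : Unit => f) (fun _ => ⟨N, hN, hf⟩)
      (fun _ _ => Commute.refl _) h
    exact h2 ((Submodule.Quotient.mk_eq_zero _).2 (Submodule.subset_span ⟨_, h1 ()⟩))
  let b := Basis.ofSpan sp
  have hb : ∀ i, ∃ c : L, f (b i) = c • b i := fun i => Basis.ofSpan_subset sp ⟨i, rfl⟩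
  have := Module.Finite.finite_basis b
  let _ := Fintype.ofFinite
    ((linearIndepOn_empty L id).extend (Set.empty_subset {v : M | ∃ c : L, f v = c • v}))
  let D : (_ → L) →ₗ[L] End L M := (b.constr L).toLinearMap ∘ₗ
    LinearMap.pi fun i => (LinearMap.toSpanSingleton L M (b i)) ∘ₗ LinearMap.proj i
  have hD : ∀ d i, D d (b i) = d i • b i := fun d i =>
    b.constr_basis L (fun i => d i • b i) i
  refine ⟨LinearMap.range D, ?_, ?_⟩
  · rw [LinearMap.finrank_range_of_inj, finrank_eq_card_basis b, finrank_fintype_fun_eq_card]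
    intro d e h
    funext i
    exact smul_left_injective L (b.ne_zero i) ((hD d i).symm.trans (h ▸ hD e i))
  · rintro _ ⟨d, rfl⟩
    refine b.ext fun i => ?_
    obtain ⟨c, hc⟩ := hb i
    simp only [End.mul_apply, hD, hc, map_smul, smul_comm c]

variable {G : Type*} [Group G] [Finite G] (T : G →* End L M)

theorem core (K : Subgroup G) [hK : K.Normal] {s r : ℕ} (hs : (s : L) ≠ 0) (sp : s.Prime)
    (hr : r.Prime) (hrL : (r : L) ≠ 0) (hp : IsPGroup s K) {x y : G} (hy : y ^ r = 1)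
    (hxy : Commute x y) (fix : ∀ w, T y w = w → T x w = w)
    (fix' : ∀ A, Commute A (T y) → Commute A (T x))
    (gen : K ≤ closure {g | ∃ k ∈ K, ⁅k, y⁆ = g})
    (c2 : ∀ a ∈ K, ∀ b ∈ K, ∀ c ∈ K, Commute ⁅a, b⁆ c)
    (irr : ∀ N : Submodule L M, N ≠ ⊥ → (∀ a ∈ K, ∀ v ∈ N, T a v ∈ N) → (∀ v ∈ N, T y v ∈ N) → N = ⊤)
    (nt : ∃ a ∈ K, T a ≠ 1) :
    (r ≤ finrank L M ∧ ∃ v, T y v ≠ v ∧ T (x ^ r) v = v) ∨
    (r ≤ finrank L M + 1 ∧ T y ≠ 1 ∧ (∃ c : L, T (x ^ r) = c • 1) ∧
      ∃ k, 0 < k ∧ s ^ k ∣ finrank L M ^ 2 ∧ s ^ k ≡ 1 [MOD r]) := by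
  classical
  have := Fact.mk sp
  have n1 : (1 : End L M) ≠ 0 := fun h => by
    obtain ⟨a, -, ha⟩ := nt
    exact ha (by rw [← mul_one (T a), h, mul_zero])
  have : Nontrivial M := by
    by_contra h
    rw [not_nontrivial_iff_subsingleton] at h
    exact n1 (Subsingleton.elim _ _)
  have schur : ∀ A : End L M, (∀ a ∈ K, Commute A (T a)) → Commute A (T y) → ∃ c : L, A = c • 1 :=
    fun A h1 h2 => by
      obtain ⟨c, hc⟩ := A.exists_eigenvalue
      have i : ∀ B, Commute A B → ∀ v ∈ A.eigenspace c, B v ∈ A.eigenspace c := fun B h v hv => by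
        rw [End.mem_eigenspace_iff] at *
        rw [← End.mul_apply, h.eq, End.mul_apply, hv, map_smul]
      exact ⟨c, LinearMap.ext fun v => End.mem_eigenspace_iff.1
        ((irr _ hc (fun a ha => i _ (h1 a ha)) (i _ h2)).ge (Submodule.mem_top))⟩
  have ny : ¬ ∀ a ∈ K, Commute (T a) (T y) := fun h => by
    obtain ⟨a, ha, h1⟩ := nt
    refine h1 ((closure_le T.toHomUnits.ker).2 ?_ (gen ha) |> congrArg Units.val)
    rintro _ ⟨k, hk, rfl⟩
    rw [SetLike.mem_coe, MonoidHom.mem_ker, map_commutatorElement,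
      commutatorElement_eq_one_iff_commute]
    exact Units.ext (h k hk)
  obtain ⟨Z, mZ⟩ : ∃ Z : Subgroup G, ∀ {a}, a ∈ Z ↔ a ∈ K ∧ ∀ b ∈ K, Commute (T a) (T b) := by
    refine ⟨K ⊓ (centralizer (K.map T.toHomUnits : Set _)).comap T.toHomUnits, fun {a} => ?_⟩
    simp only [mem_inf, mem_comap, mem_centralizer_iff, SetLike.mem_coe, mem_map]
    refine and_congr_right fun _ => ⟨fun h b hb => (congrArg Units.val (h _ ⟨b, hb, rfl⟩)).symm, ?_⟩
    rintro h _ ⟨b, hb, rfl⟩
    exact Units.ext (h b hb).symm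
  have hZ : Z.Normal := ⟨fun a ha g => mZ.2 ⟨hK.conj_mem a (mZ.1 ha).1 g, fun b hb => by
    have := congrArg (fun t => T g * t * T g⁻¹) ((mZ.1 ha).2 _ (hK.conj_mem' b hb g)).eq
    simp only [← map_mul] at this
    rw [Commute, SemiconjBy, ← map_mul, ← map_mul]
    convert this using 2 <;> group⟩⟩
  have ord : ∀ {X : Type _} [Monoid X] (ρ : G →* X) (a : K), ∃ N : ℕ, (N : L) ≠ 0 ∧ ρ a ^ N = 1 :=
    fun ρ a => by
      obtain ⟨k, hk⟩ := hp a
      exact ⟨s ^ k, by simp [hs], by rw [← map_pow, ← coe_pow, hk, coe_one, map_one]⟩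
  by_cases zy : ∀ a ∈ Z, Commute (T a) (T y)
  swap
  · push Not at zy
    obtain ⟨a, ha, h⟩ := zy
    obtain ⟨χ, v, h1, h2⟩ := ewt (fun a : Z => T a) (fun a => ord T ⟨a, (mZ.1 a.2).1⟩)
      (fun a b => (mZ.1 a.2).2 b (mZ.1 b.2).1) (g := T (y⁻¹ * a * y) - T a) (fun e => h (by
        rw [Commute, SemiconjBy]
        conv_rhs => rw [← sub_eq_zero.1 e]
        rw [← map_mul, ← map_mul]
        congr 1
        group))
    have := lemA T Z hr hy hxy fix (by rintro rfl; simp at h2) h1 fun e => h2 (by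
      rw [LinearMap.sub_apply, h1 ⟨_, hZ.conj_mem' a ha y⟩, h1 ⟨a, ha⟩, e ⟨a, ha⟩, sub_self])
    exact Or.inl ⟨this.1, v, this.2⟩
  right
  have zs : ∀ a ∈ Z, ∃ c : L, T a = c • 1 := fun a ha => schur _ (mZ.1 ha).2 (zy a ha)
  obtain ⟨τ, hτ⟩ : ∃ τ : G →* End L (End L M), ∀ g A, τ g A = T g * A * T g⁻¹ :=
    ⟨Representation.linHom T T, fun _ _ => rfl⟩
  have τm : ∀ g A B, τ g (A * B) = τ g A * τ g B := fun g A B => by
    simp only [hτ, mul_assoc]
    rw [← mul_assoc (T g⁻¹), ← map_mul, inv_mul_cancel, map_one, one_mul]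
  have τT : ∀ g a, τ g (T a) = T (g * a * g⁻¹) := fun g a => by simp only [hτ, map_mul]
  have τc : ∀ g A, τ g A = A ↔ Commute A (T g) := fun g A => by
    rw [hτ]
    refine ⟨fun h => ?_, fun h => by rw [← h.eq, mul_assoc, ← map_mul, mul_inv_cancel, map_one, mul_one]⟩
    rw [Commute, SemiconjBy]
    conv_lhs => rw [← h, mul_assoc, ← map_mul, inv_mul_cancel, map_one, mul_one]
  have T0 : ∀ a, T a ≠ 0 := fun a h => n1 (by rw [← map_one T, ← mul_inv_cancel a, map_mul, h, zero_mul])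
  have ex : ∀ a b : K, ∃ c : L, τ b (T a) = c • T a := fun a b => by
    obtain ⟨c, hc⟩ := zs ⁅(b : G), (a : G)⁆ (mZ.2 ⟨commutator_le_left _ ⊤
      (commutator_mem_commutator b.2 (mem_top _)), fun c hc => (c2 b b.2 a a.2 c hc).map T⟩)
    exact ⟨c, by rw [τT, ← smul_one_mul, ← hc, ← map_mul, commutatorElement_def, inv_mul_cancel_right]⟩
  choose f hf using ex
  have un : ∀ (a : K) {c c' : L}, c • T a = c' • T a → c = c' := fun a _ _ h =>
    smul_left_injective L (T0 a) h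
  obtain ⟨φ, hφ⟩ : ∃ φ : K →* K →* L, ∀ a b : K, τ b (T a) = φ a b • T a := ⟨
    { toFun := fun a =>
        { toFun := f a
          map_one' := un a (by rw [← hf]; simp)
          map_mul' := fun b c => un a (by
            rw [← hf, coe_mul, map_mul, End.mul_apply, hf, map_smul, hf, smul_smul, mul_comm]) }
      map_one' := MonoidHom.ext fun b => un 1 (by
        simp only [MonoidHom.coe_mk, OneHom.coe_mk, ← hf, τT]; simp)
      map_mul' := fun a a' => MonoidHom.ext fun b => un (a * a') (by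
        simp only [MonoidHom.coe_mk, OneHom.coe_mk, MonoidHom.mul_apply]
        rw [← hf, coe_mul, map_mul, τm, hf, hf, smul_mul_smul]) }, hf⟩
  have kφ : ∀ {a : K}, φ a = 1 ↔ (a : G) ∈ Z := by
    intro a
    rw [mZ]
    exact ⟨fun h => ⟨a.2, fun b hb => (τc _ _).1 (by rw [hφ a ⟨b, hb⟩, h]; simp)⟩,
      fun h => MonoidHom.ext fun b => un a (by rw [← hφ, (τc _ _).2 (h.2 b b.2)]; simp)⟩
  have mv : ∀ a : K, (∀ b : K, φ a ⟨y⁻¹ * b * y, hK.conj_mem' b b.2 y⟩ = φ a b) → φ a = 1 :=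
    fun a h => by
      have : closure {g | ∃ k ∈ K, ⁅k, y⁆ = g} ≤ (φ a).toHomUnits.ker.map K.subtype := by
        rw [closure_le]
        rintro _ ⟨k, hk, rfl⟩
        let b : K := ⟨y * k⁻¹ * y⁻¹, hK.conj_mem _ (inv_mem hk) y⟩
        refine ⟨⟨k, hk⟩ * b, Units.ext ?_, by simp [b, commutatorElement_def, mul_assoc]⟩
        show φ a _ = 1
        rw [map_mul, ← h b, ← map_mul, ← map_one (φ a)]
        congr 1
        ext
        simp [b, mul_assoc]
      ext b
      obtain ⟨c, h1, h2⟩ := this (gen b.2)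
      obtain rfl : c = b := Subtype.ext h2
      exact congrArg Units.val h1
  obtain ⟨C, mC⟩ : ∃ C : Submodule L (End L M), ∀ {A}, A ∈ C ↔ ∀ b : K, τ b A = A :=
    ⟨⨅ b : K, LinearMap.ker (τ b - 1), by simp [sub_eq_zero]⟩
  have iC : ∀ g, ∀ A ∈ C, τ g A ∈ C := fun g A hA => mC.2 fun b => by
    conv_rhs => rw [← mC.1 hA ⟨_, hK.conj_mem' b b.2 g⟩]
    rw [← End.mul_apply, ← End.mul_apply, ← map_mul, ← map_mul]
    congr 2
    group
  let _ : Fintype (K ⧸ φ.ker) := Fintype.ofFinite _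
  let _ : Fintype K := Fintype.ofFinite _
  have rep : ∀ A ∈ C, ∀ a : K, ∃ B ∈ C, A * T a = B * T ((a : K ⧸ φ.ker).out : K) := fun A hA a => by
    obtain ⟨c, hc⟩ := zs _ (kφ.1 (QuotientGroup.eq.1 (QuotientGroup.out_eq' (a : K ⧸ φ.ker))))
    refine ⟨c • A, C.smul_mem _ hA, ?_⟩
    rw [smul_mul_assoc, ← mul_smul_comm, ← mul_smul_one, ← hc, ← map_mul]
    simp
  obtain ⟨Ψ, hΨ⟩ : ∃ Ψ : ∀ S : Set (K ⧸ φ.ker), (S → C) →ₗ[L] End L M,
      ∀ S g, Ψ S g = ∑ e : S, (g e : End L M) * T (e.1.out : K) := ⟨fun S =>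
    ∑ e : S, (LinearMap.mulRight L (T (e.1.out : K))) ∘ₗ C.subtype ∘ₗ LinearMap.proj e,
      fun S g => by simp⟩
  have sΨ : ∀ (S : Set (K ⧸ φ.ker)) (e : S), ∀ A ∈ C, A * T (e.1.out : K) ∈ LinearMap.range (Ψ S) := fun S e A hA =>
    ⟨Pi.single e ⟨A, hA⟩, by
      rw [hΨ, Finset.sum_eq_single e (fun b _ h => by simp [h]) (by simp)]; simp⟩
  obtain ⟨ψ, hψ, iψ⟩ : ∃ ψ : K ⧸ φ.ker →* K →* L, (∀ a : K, ψ a = φ a) ∧ Injective ψ :=
    ⟨QuotientGroup.lift _ φ le_rfl, fun _ => rfl, (QuotientGroup.injective_lift_iff _ φ le_rfl).2 rfl⟩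
  have lift : ∀ e : K ⧸ φ.ker, ψ e = φ e.out := fun e => by rw [← hψ, QuotientGroup.out_eq']
  have inj : Injective (Ψ Set.univ) := (injective_iff_map_eq_zero _).2 fun g hg => funext fun e => by
    have := wzero (fun b : K => τ b) (fun (e : Set.univ) => ⇑(ψ e.1))
      (fun e e' h => Subtype.ext (iψ (DFunLike.coe_injective h)))
      (fun e => (g e : End L M) * T (e.1.out : K)) (fun e b => by
        rw [τm, mC.1 (g e).2, hφ, lift, mul_smul_comm]) (Eq.trans (Finset.sum_congr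
          (Finset.ext fun _ => by simp) fun _ _ => rfl) ((hΨ _ g).symm.trans hg)) e
    have := congrArg (· * T (e.1.out : K)⁻¹) this
    simp only [mul_assoc, ← map_mul, mul_inv_cancel, map_one, mul_one, zero_mul] at this
    exact Subtype.ext this
  have sur : Surjective (Ψ Set.univ) := fun A => by
    have h1 : ∀ a : K, ∑ b : K, φ a b • τ b A ∈ LinearMap.range (Ψ Set.univ) := fun a => by
      obtain ⟨B, hB, h⟩ := rep ((∑ b : K, φ a b • τ b A) * T a) (mC.2 fun c => by
        rw [τm, hφ, mul_smul_comm, ← smul_mul_assoc, map_sum, Finset.smul_sum,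
          ← Equiv.sum_comp (Equiv.mulLeft c) fun b => φ a b • τ b A]
        simp only [map_smul, smul_smul, Equiv.coe_mulLeft, map_mul, coe_mul, End.mul_apply]) a⁻¹
      rw [mul_assoc, ← map_mul, coe_inv, mul_inv_cancel, map_one, mul_one] at h
      exact h ▸ sΨ Set.univ ⟨_, trivial⟩ B hB
    have h2 : ∑ e : K ⧸ φ.ker, ∑ b : K, φ e.out b • τ b A = (Fintype.card K : L) • A := by
      have a1 : ∀ b : K, ∑ e : K ⧸ φ.ker, φ e.out b • τ b A = ∑ e : K ⧸ φ.ker, φ e.out b • A := by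
        intro b
        rw [← Finset.sum_smul, ← Finset.sum_smul]
        by_cases h : ψ.flip b = 1
        · obtain ⟨c, hc⟩ := zs b (mZ.2 ⟨b.2, fun a ha => ((τc _ _).1 (by
            rw [hφ ⟨a, ha⟩ b, ← hψ, show ψ _ b = 1 from DFunLike.congr_fun h _,
              one_smul])).symm⟩)
          rw [(τc _ _).2 (hc ▸ (Commute.one_right A).smul_right c)]
        · have := sum_hom_units_eq_zero _ h
          simp only [MonoidHom.flip_apply, lift] at this
          rw [this, zero_smul, zero_smul]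
      rw [Finset.sum_comm, Finset.sum_congr rfl fun b _ => a1 b, Finset.sum_comm,
        Finset.sum_eq_single 1 (fun e _ h => ?_) (by simp)]
      · simp [← lift, ← Nat.cast_smul_eq_nsmul L]
      · rw [← Finset.sum_smul, sum_hom_units_eq_zero, zero_smul]
        exact fun h1 => h (iψ (by rw [lift, h1, map_one]))
    have h3 : (Fintype.card K : L) ≠ 0 := by
      obtain ⟨n, hn⟩ := hp.exists_card_eq
      rw [← Nat.card_eq_fintype_card, hn]
      simp [hs]
    exact (Submodule.smul_mem_iff _ h3).1 (h2 ▸ Submodule.sum_mem _ fun e _ => h1 _)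
  obtain ⟨σ, hσ⟩ : ∃ σ : K ⧸ φ.ker → K ⧸ φ.ker, ∀ a : K, σ a = (MulAut.conjNormal y a : K) :=
    ⟨QuotientGroup.map φ.ker φ.ker (MulAut.conjNormal y : MulAut K) fun a ha =>
      (kφ (a := MulAut.conjNormal y a)).2 (hZ.conj_mem _ (kφ.1 ha) y), fun a => rfl⟩
  have it : ∀ (i : ℕ) (a : K), σ^[i] a = (MulAut.conjNormal (y ^ i) a : K) := fun i a => by
    induction i with
    | zero => simp
    | succ i ih => rw [iterate_succ_apply', ih, hσ, pow_succ', map_mul]; rfl
  obtain ⟨S, hS, tr⟩ := transversal σ hr (fun e => by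
    obtain ⟨a, rfl⟩ := QuotientGroup.mk_surjective e
    rw [it, hy, map_one]; rfl) 1 fun e => by
      obtain ⟨a, rfl⟩ := QuotientGroup.mk_surjective e
      refine ⟨fun h => (QuotientGroup.eq_one_iff a).2 (mv a fun b => un a ?_), fun h => ?_⟩
      · have e : φ (MulAut.conjNormal y a) = φ a := by
          rw [← hψ, ← hσ, h, hψ]
        have := congrArg (τ y⁻¹) (hφ (MulAut.conjNormal y a) b)
        rw [e, map_smul, τT, τT, τT] at this
        rw [← hφ, τT]
        simpa [mul_assoc] using this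
      · rw [h, ← QuotientGroup.mk_one, hσ, map_one]
  have dim : finrank L M ^ 2 = Nat.card (K ⧸ φ.ker) * finrank L C := by
    have := (LinearEquiv.ofBijective _ ⟨inj, sur⟩).finrank_eq
    rw [finrank_linearMap, finrank_pi_fintype] at this
    simpa [sq] using this.symm
  obtain ⟨k, hk⟩ := (hp.to_quotient φ.ker).exists_card_eq
  have e1 : 1 < Nat.card (K ⧸ φ.ker) := by
    rw [Finite.one_lt_card_iff_nontrivial, QuotientGroup.nontrivial_iff]
    exact fun h => ny fun a ha => zy a (kφ.1 (h.ge (mem_top (⟨a, ha⟩ : K))))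
  refine ⟨?_, fun h => ny fun a _ => h ▸ Commute.one_right _, schur _ (fun a ha => ?_)
    ((hxy.pow_left r).map T), k, ?_, hk ▸ dim ▸ dvd_mul_right _ _, ?_⟩
  · let N : End L (End L M) := ∑ i ∈ Finset.range r, τ y ^ i
    have N1 : N * τ y = N := by
      have h2 := geom_sum_mul (τ y) r
      rwa [← map_pow, hy, map_one, sub_self, mul_sub, mul_one, sub_eq_zero] at h2
    have N2 : τ y * N = N := by
      have h2 := mul_geom_sum (τ y) r
      rwa [← map_pow, hy, map_one, sub_self, sub_mul, one_mul, sub_eq_zero] at h2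
    have Nj : ∀ (j : ℕ) A, N (τ (y ^ j) A) = N A := fun j A => by
      induction j with
      | zero => simp
      | succ j ih => rw [pow_succ', map_mul, End.mul_apply, ← End.mul_apply N, N1, ih]
    let Θ := (LinearMap.toSpanSingleton L (End L M) 1).coprod (N ∘ₗ Ψ S)
    have all : ∀ A, N A ∈ LinearMap.range Θ := fun A => by
      obtain ⟨g, rfl⟩ := sur A
      rw [hΨ, map_sum]
      refine Submodule.sum_mem _ fun e _ => ?_
      by_cases h : e.1 = 1
      · obtain ⟨c, hc⟩ := zs _ ((kφ (a := e.1.out)).1 (by rw [← lift, h, map_one]))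
        have a1 : N ((g e : End L M) * T (e.1.out : K)) ∈ C := by
          rw [hc, mul_smul_one, LinearMap.sum_apply]
          exact C.sum_mem fun i _ => map_pow τ y i ▸ iC _ _ (C.smul_mem _ (g e).2)
        obtain ⟨c, hc⟩ := schur _ (fun a ha => (τc _ _).1 (mC.1 a1 ⟨a, ha⟩))
          ((τc _ _).1 (by rw [← End.mul_apply, N2]))
        exact ⟨(c, 0), by simp [Θ, hc]⟩
      · obtain ⟨t, ht, j, hj⟩ := tr _ h
        obtain ⟨B, hB, h1⟩ := rep _ (iC (y ^ j) _ (g e).2) (MulAut.conjNormal (y ^ j) e.1.out)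
        rw [← it, QuotientGroup.out_eq', hj, MulAut.conjNormal_apply, ← τT, ← τm] at h1
        obtain ⟨u, hu⟩ := sΨ S ⟨t, ht⟩ B hB
        exact ⟨(0, u), by rw [← Nj j, h1, ← hu]; simp [Θ]⟩
    obtain ⟨D, d1, d2⟩ := diag (T y) hrL (by rw [← map_pow, hy, map_one])
    have le : D ≤ LinearMap.range Θ := fun A hA => by
      refine (Submodule.smul_mem_iff _ hrL).1 ?_
      convert all A
      rw [LinearMap.sum_apply, Finset.sum_congr rfl fun i _ => show (τ y ^ i) A = A from
        map_pow τ y i ▸ (τc _ _).2 (map_pow T y i ▸ (d2 A hA).pow_right i)]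
      simp [← Nat.cast_smul_eq_nsmul L]
    have a1 := (Submodule.finrank_mono le).trans Θ.finrank_range_le
    rw [d1, finrank_prod, finrank_self, finrank_pi_fintype] at a1
    simp only [Finset.sum_const, Finset.card_univ, smul_eq_mul, ← Nat.card_eq_fintype_card] at a1
    have a2 : 0 < finrank L M := finrank_pos
    generalize finrank L M = m at *
    generalize finrank L C = μ at *
    rw [hS] at dim e1
    obtain ⟨m, rfl⟩ : ∃ n, m = n + 1 := ⟨m - 1, by omega⟩
    have a3 : 0 < μ := Nat.pos_of_ne_zero fun h => by simp [h] at dim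
    have a4 : 0 < m := Nat.pos_of_ne_zero fun h => by subst h; nlinarith
    exact Nat.le_of_mul_le_mul_right (c := m) (by nlinarith) a4
  · by_cases h : φ ⟨a, ha⟩ = 1
    · obtain ⟨c, hc⟩ := zs a (kφ.1 h)
      exact hc ▸ (Commute.one_right _).smul_right c
    · exact ((τc _ _).1 (lemA τ K hr hy hxy (fun A h => (τc _ _).2 (fix' A ((τc _ _).1 h))) (T0 a)
        (hφ ⟨a, ha⟩) (mt (mv _) h)).2.2).symm
  · exact Nat.pos_of_ne_zero fun h => by rw [hk, h] at e1; simp at e1
  · rw [← hk, hS]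
    simp [Nat.ModEq]

end Pool.Agent.Lib.MP_d787f3_al.HH
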