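import Pool.Agent.Lib.MP_d787f3_al.HHB

/-! Reduction to the irreducible case. -/

namespace Pool.Agent.Lib.MP_d787f3_al.HH

open Subgroup Module Function Ex
open scoped commutatorElement

variable {L V : Type*} [Field L] [AddCommGroup V] [Module L V] [IsAlgClosed L]
  [FiniteDimensional L V] {G : Type*} [Group G] [Finite G]

theorem inv_of (p : G → Prop) (h1 : p 1) (h2 : ∀ a b, p a → p b → p (a * b)) {a : G}
    (ha : p a) : p a⁻¹ := by
  have : ∀ n : ℕ, p (a ^ n) := fun n => by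
    induction n with
    | zero => simpa
    | succ n ih => exact pow_succ a n ▸ h2 _ _ ih ha
  have e : a⁻¹ = a ^ (orderOf a - 1) := by
    rw [inv_eq_iff_mul_eq_one, ← pow_succ', Nat.sub_add_cancel (orderOf_pos a), pow_orderOf_eq_one]
  exact e ▸ this _

theorem hh (ρ : G →* End L V) (hρ : Injective ρ) (K : Subgroup G) [hK : K.Normal] {s r : ℕ}
    (hs : (s : L) ≠ 0) (sp : s.Prime) (hr : r.Prime) (hrL : (r : L) ≠ 0) (hp : IsPGroup s K)
    {x y : G} (hy : y ^ r = 1) (hxy : Commute x y) {n : ℕ} {c : ℕ → L}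
    (hx : ρ x = ∑ i ∈ Finset.range n, c i • ρ (y ^ i)) (hc : ∑ i ∈ Finset.range n, c i = 1)
    (hk : ∃ k ∈ K, ¬ Commute k y) (h : (∀ a ∈ K, ∀ b ∈ K, Commute a b) ∨
      (s ≠ r ∧ ∀ a ∈ K, ∀ b ∈ K, ∀ c ∈ K, Commute ⁅a, b⁆ c)) :
    (r ≤ finrank L V ∧ ∃ v, ρ y v ≠ v ∧ ρ (x ^ r) v = v) ∨
    ∃ (M : Submodule L V) (c : L) (k : ℕ), r ≤ finrank L M + 1 ∧ (∃ v ∈ M, ρ y v ≠ v) ∧
      (∀ v ∈ M, ρ (x ^ r) v = c • v) ∧ 0 < k ∧ s ^ k ∣ finrank L M ^ 2 ∧ s ^ k ≡ 1 [MOD r] := by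
  classical
  have fix : ∀ w, ρ y w = w → ρ x w = w := fun w h => by
    rw [hx, LinearMap.sum_apply, Finset.sum_congr rfl fun i _ => show (c i • ρ (y ^ i)) w = c i • w by
      rw [LinearMap.smul_apply, map_pow, End.pow_apply, iterate_fixed h], ← Finset.sum_smul, hc,
      one_smul]
  rcases h with h | ⟨sr, c2⟩
  · obtain ⟨k, hk, hky⟩ := hk
    obtain ⟨χ, v, h1, h2⟩ := exists_wt ρ hs hp h (f := ρ (y⁻¹ * k * y) - ρ k) (fun e => hky (by
      rw [Commute, SemiconjBy]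
      conv_rhs => rw [← hρ (sub_eq_zero.1 e)]
      group))
    have := lemA ρ K hr hy hxy fix (by rintro rfl; simp at h2) h1 fun e => h2 (by
      rw [LinearMap.sub_apply, h1 ⟨_, hK.conj_mem' k hk y⟩, h1 ⟨k, hk⟩, e ⟨k, hk⟩, sub_self])
    exact Or.inl ⟨this.1, v, this.2⟩
  obtain ⟨J, ⟨j1, j2, k, hk, hky⟩, jm⟩ := exists_minimal_of_wellFoundedLT
    (fun J : Subgroup G => J ≤ K ∧ (∀ g, g = x ∨ g = y → ∀ a ∈ J, g * a * g⁻¹ ∈ J) ∧
      ∃ k ∈ J, ¬ Commute k y) ⟨K, le_rfl, fun g _ a ha => hK.conj_mem a ha g, hk⟩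
  have gen : J ≤ closure {g | ∃ k ∈ J, ⁅k, y⁆ = g} := by
    have le : closure {g | ∃ k ∈ J, ⁅k, y⁆ = g} ≤ J := (closure_le _).2 (by
      rintro _ ⟨k, hk, rfl⟩
      simpa [commutatorElement_def, mul_assoc] using mul_mem hk (j2 y (Or.inr rfl) _ (inv_mem hk)))
    refine jm ⟨le.trans j1, fun g hg a ha => (closure_le (comap (MulAut.conj g).toMonoidHom
      (closure _))).2 ?_ ha, _, subset_closure ⟨k, hk, rfl⟩, fun h => hky ?_⟩ le
    · rintro _ ⟨a, ha, rfl⟩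
      refine subset_closure ⟨_, j2 g hg a ha, ?_⟩
      have : g * y * g⁻¹ = y := by
        rcases hg with rfl | rfl
        · rw [hxy.eq, mul_inv_cancel_right]
        · simp
      rw [map_commutatorElement]
      exact congrArg _ this.symm
    · obtain ⟨j, hj⟩ := hp ⟨_, j1 (le (subset_closure ⟨k, hk, rfl⟩))⟩
      have := pow_gcd_eq_one.2 ⟨comm_pow hy h, congrArg Subtype.val hj⟩
      rwa [((Nat.coprime_primes hr sp).2 sr.symm).pow_right j, pow_one,
        commutatorElement_eq_one_iff_commute] at this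
  let _ : Fintype J := Fintype.ofFinite _
  let S : End L V := ∑ a : J, ρ a
  have Sa : ∀ a ∈ J, S * ρ a = S := fun a ha => by
    rw [Finset.sum_mul]
    exact Fintype.sum_equiv (Equiv.mulRight (⟨a, ha⟩ : J)) _ _ fun b => (map_mul ρ _ _).symm
  have Sy : S * ρ y = ρ y * S := by
    rw [Finset.sum_mul, Finset.mul_sum]
    refine (Fintype.sum_bijective (fun a : J => (⟨_, j2 y (Or.inr rfl) a a.2⟩ : J))
      (Finite.injective_iff_bijective.1 fun a b h => ?_) _ _ fun a => ?_).symm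
    · simpa using h
    · simp [← map_mul]
  obtain ⟨M, ⟨m0, m1, m2, m3⟩, mm⟩ := exists_minimal_of_wellFoundedLT
    (fun M : Submodule L V => M ≠ ⊥ ∧ M ≤ LinearMap.ker S ∧ (∀ a ∈ J, ∀ v ∈ M, ρ a v ∈ M) ∧
      ∀ v ∈ M, ρ y v ∈ M) ⟨LinearMap.ker S, fun h => hky (by
        have : ρ k = 1 := LinearMap.ext fun v => sub_eq_zero.1 ((Submodule.mem_bot L).1 (h.le (by
          rw [LinearMap.mem_ker, map_sub, ← End.mul_apply, Sa k hk, End.one_apply, sub_self])))
        rw [hρ (this.trans (map_one ρ).symm)]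
        exact Commute.one_left _), le_rfl, fun a ha v hv => by
          rwa [LinearMap.mem_ker, ← End.mul_apply, Sa a ha], fun v hv => by
          rw [LinearMap.mem_ker, ← End.mul_apply, Sy, End.mul_apply, hv, map_zero]⟩
  let p : G → Prop := fun g => (∀ a ∈ J, g * a * g⁻¹ ∈ J) ∧ ∀ v ∈ M, ρ g v ∈ M
  have p1 : p 1 := ⟨by simp, by simp⟩
  have p2 : ∀ a b, p a → p b → p (a * b) := fun a b ha hb => ⟨fun c hc => by
    simpa [mul_assoc] using ha.1 _ (hb.1 c hc), fun v hv => by simpa using ha.2 _ (hb.2 v hv)⟩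
  let H : Subgroup G := ⟨⟨⟨p, p2 _ _⟩, p1⟩, inv_of p p1 p2⟩
  have JH : J ≤ H := fun a ha => ⟨fun b hb => mul_mem (mul_mem ha hb) (inv_mem ha), m2 a ha⟩
  have yH : y ∈ H := ⟨j2 y (Or.inr rfl), m3⟩
  have xH : x ∈ H := ⟨j2 x (Or.inl rfl), fun v hv => by
    rw [hx, LinearMap.sum_apply]
    exact M.sum_mem fun i _ => M.smul_mem _ ((H.pow_mem yH i).2 v hv)⟩
  let T : H →* End L M := Representation.subrepresentation (ρ.comp H.subtype) M fun g => g.2.2
  have hT : ∀ g v, (T g v : V) = ρ g v := fun _ _ => rfl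
  have Tx : T ⟨x, xH⟩ = ∑ i ∈ Finset.range n, c i • T ⟨y, yH⟩ ^ i := by
    ext v
    simp [hT, hx, ← map_pow]
  have : (J.subgroupOf H).Normal := ⟨fun a ha g => g.2.1 a ha⟩
  have := core T (J.subgroupOf H) hs sp hr hrL ((hp.to_le j1).comap_subtype) (x := ⟨x, xH⟩)
    (y := ⟨y, yH⟩) (Subtype.ext hy) (Subtype.ext hxy)
    (fun w h => Subtype.ext (fix w (congrArg Subtype.val h)))
    (fun A h => Tx ▸ Commute.sum_right _ _ _ fun i _ => (h.pow_right i).smul_right _)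
    (fun a ha => by
      have : J ≤ (closure {g | ∃ k ∈ J.subgroupOf H, ⁅k, (⟨y, yH⟩ : H)⁆ = g}).map H.subtype := by
        refine gen.trans ((closure_le _).2 ?_)
        rintro _ ⟨b, hb, rfl⟩
        exact ⟨_, subset_closure ⟨⟨b, JH hb⟩, hb, rfl⟩, rfl⟩
      obtain ⟨b, h1, h2⟩ := this ha
      exact Subtype.ext h2 ▸ h1)
    (fun a ha b hb c hc => Subtype.ext (c2 a (j1 ha) b (j1 hb) c (j1 hc)))
    (fun N n0 n1 n2 => by
      have le := M.map_subtype_le N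
      refine top_le_iff.1 fun v _ => ?_
      obtain ⟨w, h1, h2⟩ := mm ⟨fun h => n0 (Submodule.map_injective_of_injective
        M.injective_subtype (h.trans (Submodule.map_bot _).symm)), le.trans m1, by
        rintro a ha _ ⟨w, hw, rfl⟩
        exact ⟨_, n1 ⟨a, JH ha⟩ ha w hw, rfl⟩, by
        rintro _ ⟨w, hw, rfl⟩
        exact ⟨_, n2 w hw, rfl⟩⟩ le v.2
      exact Subtype.ext h2 ▸ h1)
    (by
      by_contra h
      push Not at h
      obtain ⟨v, v1, v0⟩ := Submodule.exists_mem_ne_zero_of_ne_bot m0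
      have := m1 v1
      rw [LinearMap.mem_ker, LinearMap.sum_apply, Finset.sum_congr rfl fun (a : J) _ => show ρ a v = v from
        congrArg Subtype.val (LinearMap.congr_fun (h ⟨a, JH a.2⟩ a.2) ⟨v, v1⟩), Finset.sum_const,
        ← Nat.cast_smul_eq_nsmul L, smul_eq_zero, Finset.card_univ, ← Nat.card_eq_fintype_card] at this
      have _ := Fact.mk sp
      obtain ⟨i, hi⟩ := (hp.to_le j1).exists_card_eq
      rw [hi] at this
      simp [hs, v0] at this)
  rcases this with ⟨h1, v, h2, h3⟩ | ⟨h1, h2, ⟨e, h3⟩, k, h4⟩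
  · exact Or.inl ⟨h1.trans M.finrank_le, v, fun e => h2 (Subtype.ext e), congrArg Subtype.val h3⟩
  · refine Or.inr ⟨M, e, k, h1, ?_, fun v hv => congrArg Subtype.val (LinearMap.congr_fun h3 ⟨v, hv⟩), h4⟩
    by_contra h
    push Not at h
    exact h2 (LinearMap.ext fun v => Subtype.ext (h v v.2))

end Pool.Agent.Lib.MP_d787f3_al.HH
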