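import Pool.Agent.Lib.MP_d787f3_al.Far

namespace Pool.Agent.Lib.MP_d787f3_al

/-- maps preserving both factors and semilinear on the first one -/
def NT {F K W : Type*} [Field F] [Field K] [Algebra F K] [AddCommGroup W] [Module F W]
    (z : (K × W) ≃ₗ[F] (K × W)) : Prop :=
  ∃ (a : K) (θ : K ≃ₐ[F] K), (∀ u, z (u, 0) = (a * θ u, 0)) ∧ ∀ w, (z (0, w)).1 = 0

end Pool.Agent.Lib.MP_d787f3_al
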