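import Mathlib

/-! Zsigmondy's theorem for `q ^ e - 1`. -/

namespace Pool.Agent.Lib.MP_d787f3_al

open Polynomial Finset

namespace Zs

/-- a prime divisor of the cyclotomic value determines the order of `q` -/
theorem root {q e r : ℕ} (he : e ≠ 0) (hr : r.Prime) (h : (r : ℤ) ∣ (cyclotomic e ℤ).eval (q : ℤ)) :
    ∃ k m, e = r ^ k * m ∧ ¬ r ∣ m ∧ orderOf (q : ZMod r) = m ∧ m ∣ r - 1 := by
  have := Fact.mk hr
  obtain ⟨k, m, hm, rfl⟩ := Nat.exists_eq_pow_mul_and_not_dvd he r hr.ne_one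
  have : NeZero (m : ZMod r) := ⟨fun h0 => hm ((ZMod.natCast_eq_zero_iff _ _).1 h0)⟩
  have h1 : (cyclotomic (r ^ k * m) (ZMod r)).IsRoot (q : ZMod r) := by
    have := cyclotomic.eval_apply (q : ℤ) (r ^ k * m) (Int.castRingHom (ZMod r))
    simp only [eq_intCast, Int.cast_natCast] at this
    rw [IsRoot.def, this]
    exact (ZMod.intCast_zmod_eq_zero_iff_dvd _ _).2 h
  have h2 := isRoot_cyclotomic_prime_pow_mul_iff_of_charP.1 h1
  have m0 : m ≠ 0 := by rintro rfl; simp at hm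
  refine ⟨k, m, rfl, hm, h2.eq_orderOf.symm, ?_⟩
  rw [h2.eq_orderOf]
  exact ZMod.orderOf_dvd_card_sub_one (h2.ne_zero m0)

theorem dvd_iff {q r i : ℕ} (hq : 1 ≤ q) : r ∣ q ^ i - 1 ↔ orderOf (q : ZMod r) ∣ i := by
  rw [orderOf_dvd_iff_pow_eq_one, ← ZMod.natCast_eq_zero_iff, Nat.cast_sub (Nat.one_le_pow _ _ hq),
    sub_eq_zero]
  push_cast
  rfl

/-- a prime which is not primitive divides the cyclotomic value only once -/
theorem not_sq {q d r : ℕ} (hq : 2 ≤ q) (hr : r.Prime) (he : 3 ≤ d * r)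
    (h1 : orderOf (q : ZMod r) ∣ d) (h2 : r = 2 → 2 ∣ d) :
    ¬ (r : ℤ) ^ 2 ∣ (cyclotomic (d * r) ℤ).eval (q : ℤ) := by
  intro h
  have d0 : 0 < d := Nat.pos_of_ne_zero (by rintro rfl; simp at he)
  have a1 := eval_dvd (x := (q : ℤ)) (X_pow_sub_one_mul_cyclotomic_dvd_X_pow_sub_one_of_dvd ℤ
    (d := d) (n := d * r) (Nat.mem_properDivisors.2 ⟨dvd_mul_right _ _,
      lt_mul_of_one_lt_right d0 hr.one_lt⟩))
  simp only [eval_mul, eval_sub, eval_pow, eval_X, eval_one] at a1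
  have a2 : (1 : ℤ) < (q : ℤ) ^ d := one_lt_pow₀ (by exact_mod_cast hq) d0.ne'
  rw [pow_mul, ← mul_geom_sum ((q : ℤ) ^ d) r, mul_dvd_mul_iff_left (by omega)] at a1
  have a3 := h.trans a1
  obtain ⟨b, hb⟩ : (r : ℤ) ∣ (q : ℤ) ^ d - 1 := by
    have := Int.natCast_dvd_natCast.2 ((dvd_iff (by omega)).2 h1)
    rwa [Nat.cast_sub (Nat.one_le_pow _ _ (by omega)), Nat.cast_pow, Nat.cast_one] at this
  rcases hr.eq_two_or_odd' with rfl | ho
  · obtain ⟨c, rfl⟩ := h2 rfl
    rw [pow_mul'] at a3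
    simp only [sum_range_succ, range_zero, sum_empty, pow_zero, pow_one] at a3
    generalize (q : ℤ) ^ c = y at a3
    obtain ⟨z, hz⟩ := a3
    rcases Int.even_or_odd' y with ⟨w, rfl | rfl⟩
    · have : (4 : ℤ) * (z - w ^ 2) = 1 := by push_cast at hz; linarith
      omega
    · have : (4 : ℤ) * (z - w ^ 2 - w) = 2 := by push_cast at hz; linarith
      omega
  · have a4 := odd_sq_dvd_geom_sum₂_sub (R := ℤ) (a := 1) (b := b) ho
    simp only [one_pow, mul_one] at a4
    rw [show (1 : ℤ) + r * b = (q : ℤ) ^ d by linarith] at a4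
    have a5 := (dvd_sub a3 a4)
    rw [sub_sub_cancel] at a5
    have a6 := Int.le_of_dvd (by exact_mod_cast hr.pos) a5
    have : (2 : ℤ) ≤ r := by exact_mod_cast hr.two_le
    nlinarith

theorem small {q r : ℕ} (hq : 2 ≤ q) (hr : 3 ≤ r) (h : q ^ r ≤ r * (q + 1) + 1) :
    q = 2 ∧ r = 3 := by
  have k1 : ∀ s : ℕ, 3 * (s + 4) + 1 < 2 ^ (s + 4) := fun s => by
    induction s with
    | zero => norm_num
    | succ s ih => rw [add_right_comm, pow_succ]; omega
  have k2 : ∀ s : ℕ, 2 * (s + 3) < 3 ^ (s + 2) := fun s => by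
    induction s with
    | zero => norm_num
    | succ s ih => rw [add_right_comm s 1 2, pow_succ]; omega
  rcases hq.eq_or_lt with rfl | hq3
  · refine ⟨rfl, ?_⟩
    by_contra h4
    obtain ⟨s, rfl⟩ := Nat.exists_eq_add_of_le' (show 4 ≤ r by omega)
    have := k1 s
    omega
  · exfalso
    obtain ⟨s, rfl⟩ := Nat.exists_eq_add_of_le' hr
    have h1 := k2 s
    have h2 : 3 ^ (s + 2) ≤ q ^ (s + 2) := Nat.pow_le_pow_left hq3 _
    rw [pow_succ] at h
    nlinarith

end Zs

open Zs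

/-- **Zsigmondy's theorem**: primitive prime divisors of `q ^ e - 1` -/
theorem zsigmondy (q e : ℕ) (hq : 2 ≤ q) (he : 3 ≤ e) (hx : ¬ (q = 2 ∧ e = 6)) :
    ∃ r, r.Prime ∧ r ∣ q ^ e - 1 ∧ ∀ i, 0 < i → i < e → ¬ r ∣ q ^ i - 1 := by
  by_contra hn
  have key : ∀ r, r.Prime → r ∣ ((cyclotomic e ℤ).eval (q : ℤ)).natAbs →
      ∃ k m, e = r ^ (k + 1) * m ∧ ¬ r ∣ m ∧ orderOf (q : ZMod r) = m ∧ m ∣ r - 1 := by
    intro r hr h
    obtain ⟨k, m, h1, h2, h3, h4⟩ := root (by omega) hr (Int.natCast_dvd.2 h)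
    rcases k with _ | k
    · refine absurd ⟨r, hr, ?_, fun i h0 hi h => ?_⟩ hn
      · rw [dvd_iff (by omega), h3, h1]; simp
      · rw [dvd_iff (by omega), h3] at h
        have := Nat.le_of_dvd h0 h
        simp at h1
        omega
    · exact ⟨k, m, h1, h2, h3, h4⟩
  have big := sub_one_lt_natAbs_cyclotomic_eval (n := e) (q := q) (by omega) (by omega)
  obtain ⟨r, hr, hd⟩ := Nat.exists_prime_and_dvd
    (show ((cyclotomic e ℤ).eval (q : ℤ)).natAbs ≠ 1 by omega)
  obtain ⟨k, m, h1, h2, h3, h4⟩ := key r hr hd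
  have r2 := hr.two_le
  have lt : ∀ {a b j c : ℕ}, a.Prime → b.Prime → a ≠ b → a ∣ b ^ j * c → c ∣ b - 1 → a < b := by
    intro a b j c ha hb hab g1 g2
    rcases (Nat.Prime.dvd_mul ha).1 g1 with g | g
    · exact absurd ((Nat.prime_dvd_prime_iff_eq ha hb).1 (ha.dvd_of_dvd_pow g)) hab
    · have := Nat.le_of_dvd (by have := hb.two_le; omega) (g.trans g2)
      have := hb.two_le
      omega
  have uniq : ∀ s, s.Prime → s ∣ ((cyclotomic e ℤ).eval (q : ℤ)).natAbs → s = r := by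
    intro s hs h
    by_contra hne
    obtain ⟨k', m', g1, -, -, g4⟩ := key s hs h
    have a1 : s < r := lt hs hr hne (h1 ▸ g1 ▸ (dvd_pow_self s k'.succ_ne_zero).mul_right _) h4
    have a2 : r < s := lt hr hs (Ne.symm hne)
      (g1 ▸ h1 ▸ (dvd_pow_self r k.succ_ne_zero).mul_right _) g4
    omega
  have he' : e = r ^ k * m * r := by rw [h1]; ring
  have m0 : 0 < m := Nat.pos_of_ne_zero (by rintro rfl; simp at h2)
  have nsq : ¬ (r : ℤ) ^ 2 ∣ (cyclotomic e ℤ).eval (q : ℤ) := by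
    rw [he']
    refine not_sq hq hr (he' ▸ he) (h3 ▸ dvd_mul_left _ _) ?_
    rintro rfl
    obtain rfl : m = 1 := by simpa using h4
    rcases k with _ | k
    · omega
    · exact (dvd_pow_self 2 k.succ_ne_zero).mul_right _
  have val : ((cyclotomic e ℤ).eval (q : ℤ)).natAbs = r := by
    obtain ⟨c, hc⟩ := hd
    rcases eq_or_ne c 1 with rfl | c1
    · simpa using hc
    · obtain ⟨s, hs, hsc⟩ := Nat.exists_prime_and_dvd c1
      obtain rfl := uniq s hs (hc ▸ hsc.mul_left _)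
      refine absurd ?_ nsq
      rw [← Nat.cast_pow, Int.natCast_dvd, hc, sq]
      exact Nat.mul_dvd_mul_left _ hsc
  have pw : r < q ^ r := Nat.lt_pow_self (by omega)
  rcases k with _ | k
  · have e1 : e = m * r := by simpa using he'
    have r3 : 3 ≤ r := by
      by_contra h
      obtain rfl : r = 2 := by omega
      obtain rfl : m = 1 := by simpa using h4
      omega
    have q1 : (1 : ℝ) < q := by exact_mod_cast hq
    have a0 : (cyclotomic e ℝ).eval (q : ℝ) ≤ r := by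
      have := cyclotomic.eval_apply (q : ℤ) e (Int.castRingHom ℝ)
      simp only [eq_intCast, Int.cast_natCast] at this
      rw [this, ← val, Nat.cast_natAbs]
      exact_mod_cast le_abs_self _
    have a1 := congrArg (eval (q : ℝ)) (cyclotomic_expand_eq_cyclotomic_mul hr h2 ℝ)
    rw [expand_eval, eval_mul, ← e1] at a1
    have a2 := sub_one_pow_totient_le_cyclotomic_eval (one_lt_pow₀ q1 hr.ne_zero) m
    have a3 := cyclotomic_eval_le_add_one_pow_totient q1 m
    have a4 : ((q : ℝ) ^ r - 1) ^ m.totient ≤ r * (q + 1) ^ m.totient := by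
      rw [a1] at a2
      exact a2.trans (mul_le_mul a0 a3 (cyclotomic_nonneg m q1.le) (by positivity))
    have a5 : (q : ℝ) ^ r - 1 ≤ r * (q + 1) := by
      obtain ⟨t, ht⟩ := Nat.exists_eq_succ_of_ne_zero (Nat.totient_pos.2 m0).ne'
      refine le_of_pow_le_pow_left₀ (n := m.totient) (by omega) (by positivity) (a4.trans ?_)
      rw [mul_pow]
      gcongr
      exact le_self_pow₀ (by exact_mod_cast hr.one_le) (by omega)
    obtain ⟨rfl, rfl⟩ := small hq r3 (by exact_mod_cast (sub_le_iff_le_add.1 a5))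
    rcases (Nat.dvd_prime Nat.prime_two).1 h4 with rfl | rfl
    · have := orderOf_eq_one_iff.1 h3
      revert this
      decide
    · exact hx ⟨rfl, e1⟩
  · have a1 := congrArg (eval (q : ℤ)) (cyclotomic_expand_eq_cyclotomic hr
      ((dvd_pow_self r k.succ_ne_zero).mul_right m) ℤ)
    rw [expand_eval, ← he'] at a1
    have a2 := sub_one_lt_natAbs_cyclotomic_eval (n := r ^ (k + 1) * m) (q := q ^ r)
      (lt_of_lt_of_le (one_lt_pow₀ hr.one_lt k.succ_ne_zero) (Nat.le_mul_of_pos_right _ m0))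
      (by omega)
    rw [Nat.cast_pow, a1, val] at a2
    have : r + 1 < q ^ r := by
      have k1 : ∀ s : ℕ, s + 2 + 1 < 2 ^ (s + 2) := fun s => by
        induction s with
        | zero => norm_num
        | succ s ih => rw [add_right_comm s 1 2, pow_succ]; omega
      obtain ⟨s, rfl⟩ := Nat.exists_eq_add_of_le' r2
      exact (k1 s).trans_le (Nat.pow_le_pow_left hq _)
    omega

end Pool.Agent.Lib.MP_d787f3_al
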