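import Pool.Agent.Lib.MP_d787f3_al.NT
import Pool.Agent.Lib.MP_d787f3_al.Zsig
import Pool.Agent.Lib.MP_d787f3_al.ExcGrp

/-! Elements of primitive prime order acting on `K × W`. -/

namespace Pool.Agent.Lib.MP_d787f3_al
open Module Function

/-- `ω` has prime order `r`, a primitive prime divisor -/
structure Ppd (F : Type*) {K : Type*} [Field F] [Field K] [Algebra F K] (ω : K) (r : ℕ) : Prop where
  pr : r.Prime
  pow : ω ^ r = 1
  ne : ω ≠ 1
  ppd : ∀ i, 0 < i → i < finrank F K → ¬ r ∣ Nat.card F ^ i - 1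

variable {F K W : Type*} [Field F] [Finite F] [Field K] [Algebra F K] [FiniteDimensional F K]
  [AddCommGroup W] [Module F W] [FiniteDimensional F W] {ω : K} {r : ℕ}

namespace Ppd

omit [Finite F] [FiniteDimensional F K] in
theorem cast (P : Ppd F ω r) : (r : F) ≠ 0 := fun h => by
  have := Fact.mk P.pr
  have : CharP K r := (CharP.charP_iff_prime_eq_zero P.pr).2
    (by rw [← map_natCast (algebraMap F K), h, map_zero])
  have e := sub_pow_char (p := r) ω 1
  rw [P.pow, one_pow, sub_self] at e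
  exact P.ne (sub_eq_zero.1 (pow_eq_zero_iff P.pr.ne_zero |>.1 e))

omit [FiniteDimensional F K] in
theorem card (P : Ppd F ω r) : (Nat.card F : ZMod r) ≠ 0 := fun h => by
  have := Fact.mk P.pr
  let _ := Fintype.ofFinite F
  rw [ZMod.natCast_eq_zero_iff, Nat.card_eq_fintype_card, ← prime_dvd_char_iff_dvd_card,
    Nat.prime_dvd_prime_iff_eq P.pr (CharP.char_is_prime F _)] at h
  exact P.cast (h ▸ ringChar.Nat.cast_ringChar)

theorem dvd (P : Ppd F ω r) : finrank F K ∣ r - 1 := by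
  have := Fact.mk P.pr
  have := Module.finite_of_finite F (M := K)
  have q1 : 1 ≤ Nat.card F := Nat.card_pos
  have h1 := ZMod.orderOf_dvd_card_sub_one P.card
  have h2 : r ∣ Nat.card F ^ finrank F K - 1 := by
    let _ := Fintype.ofFinite K
    rw [← orderOf_eq_prime P.pow P.ne, ← natCard_eq_pow_finrank, orderOf_dvd_iff_pow_eq_one,
      Nat.card_eq_fintype_card]
    exact FiniteField.pow_card_sub_one_eq_one _ (fun h => by
      have := P.pow
      rw [h, zero_pow P.pr.ne_zero] at this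
      exact zero_ne_one this)
  rw [Zs.dvd_iff q1] at h2
  have h3 : 0 < orderOf (Nat.card F : ZMod r) := Nat.pos_of_dvd_of_pos h2 finrank_pos
  rwa [le_antisymm (Nat.le_of_dvd finrank_pos h2) (not_lt.1 fun h =>
    P.ppd _ h3 h ((Zs.dvd_iff q1).2 dvd_rfl))] at h1

theorem le (P : Ppd F ω r) : finrank F K + 1 ≤ r := by
  have := P.pr.two_le
  have := Nat.le_of_dvd (by omega) P.dvd
  omega

omit [FiniteDimensional F K] in
theorem triv (P : Ppd F ω r) (hW : finrank F W < finrank F K) {f : End F W} (hf : f ^ r = 1) :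
    f = 1 := by
  classical
  have := Fact.mk P.pr
  have := Module.finite_of_finite F (M := W)
  let _ := Fintype.ofFinite W
  have md := Equiv.Perm.card_fixedPoints_modEq (f := (fun v => f v : Function.End W)) (p := r)
    (n := 1) (funext fun v => by
      rw [pow_one]
      refine (congrFun (hom_coe_pow (fun g : Function.End W ↦ g) rfl (fun g h ↦ rfl) (⇑f) r)
        v).trans ?_
      rw [← End.pow_apply, hf]; rfl)
  rw [← Nat.card_eq_fintype_card, ← Nat.card_eq_fintype_card, Nat.card_congr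
    (Equiv.subtypeEquivRight (q := (· ∈ LinearMap.ker (f - 1))) fun v => by
      simp [sub_eq_zero, IsFixedPt]), natCard_eq_pow_finrank (K := F),
    natCard_eq_pow_finrank (K := F) (V := LinearMap.ker (f - 1))] at md
  obtain ⟨k, hk⟩ := Nat.exists_eq_add_of_le (LinearMap.ker (f - 1)).finrank_le
  rw [← ZMod.natCast_eq_natCast_iff, hk, pow_add] at md
  push_cast at md
  rw [mul_eq_left₀ (pow_ne_zero _ P.card)] at md
  have k0 : k = 0 := by
    by_contra h
    exact P.ppd k (by omega) (by omega) ((Zs.dvd_iff Nat.card_pos).2 (orderOf_dvd_of_pow_eq_one md))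
  exact sub_eq_zero.1 (LinearMap.ker_eq_top.1 (Submodule.eq_top_of_finrank_eq (by omega)))

theorem irr (P : Ppd F ω r) (X : Submodule F K) (h : ∀ u ∈ X, ω * u ∈ X) {u : K} (hu : u ∈ X)
    (u0 : u ≠ 0) (v : K) : v ∈ X := by
  by_contra hv
  have := P.triv (Submodule.finrank_lt (s := X) fun e => hv (e.ge trivial))
    (f := (LinearMap.mulLeft F ω).restrict h) (by
      rw [End.pow_restrict]
      ext w
      simp [LinearMap.pow_mulLeft, P.pow])
  exact P.ne (by simpa [u0] using congrArg Subtype.val (LinearMap.congr_fun this ⟨u, hu⟩))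

theorem poly (P : Ppd F ω r) (t : K) : ∃ (n : ℕ) (c : ℕ → F),
    ∑ i ∈ Finset.range n, c i • ω ^ i = t ∧ ∑ i ∈ Finset.range n, c i = 1 := by
  obtain ⟨g, hg⟩ := P.irr (LinearMap.range (Polynomial.aeval (R := F) ω).toLinearMap) (by
    rintro _ ⟨g, rfl⟩
    exact ⟨Polynomial.X * g, by simp⟩) ⟨1, rfl⟩ (by simp) ((t - 1) / (ω - 1))
  refine ⟨_, (1 + g * (Polynomial.X - 1)).coeff, (Polynomial.aeval_eq_sum_range ω).symm.trans ?_, ?_⟩
  · have := sub_ne_zero.2 P.ne
    rw [AlgHom.toLinearMap_apply] at hg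
    simp [hg, this]
  · have := Polynomial.eval_eq_sum_range (p := 1 + g * (Polynomial.X - 1)) 1
    simp only [one_pow, mul_one] at this
    rw [← this]
    simp

omit [Finite F] [FiniteDimensional F K] [FiniteDimensional F W] in
theorem shape (P : Ppd F ω r) (z : (K × W) ≃ₗ[F] (K × W)) {c : K} (hc : c ≠ 1)
    (h : ∀ u w, z (ω * u, w) = (c * (z (u, w)).1, (z (u, w)).2)) :
    (∀ u, (z (u, 0)).2 = 0) ∧ ∀ w, (z (0, w)).1 = 0 := by
  refine ⟨fun u => ?_, fun w => ?_⟩
  · have := sub_ne_zero.2 P.ne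
    rw [show ((u, 0) : K × W) = (ω * (u / (ω - 1)), 0) - (u / (ω - 1), 0) by
      ext <;> simp; field_simp, map_sub, h]
    simp
  · have := congrArg Prod.fst (h 0 w)
    rw [mul_zero] at this
    by_contra e
    exact hc ((mul_eq_right₀ e).1 this.symm)

omit [FiniteDimensional F W] in
theorem nt (P : Ppd F ω r) (z : (K × W) ≃ₗ[F] (K × W)) {c : K} (hc : c ≠ 1)
    (h : ∀ u w, z (ω * u, w) = (c * (z (u, w)).1, (z (u, w)).2)) : NT z := by
  obtain ⟨h1, h2⟩ := P.shape z hc h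
  let f : K →ₗ[F] K := LinearMap.fst F K W ∘ₗ z.toLinearMap ∘ₗ LinearMap.inl F K W
  have hf : ∀ u, z (u, 0) = (f u, 0) := fun u => Prod.ext rfl (h1 u)
  have fω : ∀ u, f (ω * u) = c * f u := fun u => congrArg Prod.fst (h u 0)
  have f0 : f 1 ≠ 0 := fun e => by simpa [e] using (z.map_eq_zero_iff (x := (1, 0))).1 (by rw [hf, e]; rfl)
  let θ : K →ₐ[F] K := AlgHom.ofLinearMap (LinearMap.mulLeft F (f 1)⁻¹ ∘ₗ f) (by simp [f0])
    fun v u => by
      have := P.irr (LinearMap.ker (LinearMap.mulLeft F (f 1) ∘ₗ f ∘ₗ LinearMap.mulRight F u -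
        LinearMap.mulRight F (f u) ∘ₗ f)) (fun v hv => by
          simp only [LinearMap.mem_ker, LinearMap.sub_apply, LinearMap.comp_apply,
            LinearMap.mulLeft_apply, LinearMap.mulRight_apply, mul_assoc, fω] at hv ⊢
          linear_combination c * hv) (u := 1) (by simp) one_ne_zero v
      simp only [LinearMap.mem_ker, LinearMap.sub_apply, LinearMap.comp_apply,
            LinearMap.mulLeft_apply, LinearMap.mulRight_apply] at this ⊢
      field_simp
      linear_combination this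
  exact ⟨f 1, AlgEquiv.ofBijective θ θ.bijective, fun u => by simp [hf, θ, f0], h2⟩

theorem cen (P : Ppd F ω r) (hW : finrank F W < finrank F K) (z : (K × W) ≃ₗ[F] (K × W))
    (hz : z ^ r = 1) (h : ∀ u w, z (ω * u, w) = (ω * (z (u, w)).1, (z (u, w)).2)) :
    ∃ α : K, α ^ r = 1 ∧ ∀ u w, z (u, w) = (α * u, w) := by
  obtain ⟨h1, h2⟩ := P.shape z P.ne h
  let f : K →ₗ[F] K := LinearMap.fst F K W ∘ₗ z.toLinearMap ∘ₗ LinearMap.inl F K W
  let g : End F W := LinearMap.snd F K W ∘ₗ z.toLinearMap ∘ₗ LinearMap.inr F K W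
  have fω : ∀ u, f (ω * u) = ω * f u := fun u => congrArg Prod.fst (h u 0)
  have hf : ∀ u, f u = f 1 * u := fun u => by
    have := P.irr (LinearMap.ker (f - LinearMap.mulLeft F (f 1))) (fun v hv => by
      simp only [LinearMap.mem_ker, LinearMap.sub_apply, LinearMap.mulLeft_apply, fω] at hv ⊢
      linear_combination ω * hv) (u := 1) (by simp) one_ne_zero u
    exact sub_eq_zero.1 this
  have e : ∀ u w, z (u, w) = (f 1 * u, g w) := fun u w => by
    rw [show (u, w) = (u, 0) + (0, w) by simp, map_add, ← hf]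
    exact Prod.ext (by rw [Prod.fst_add, h2, add_zero]; rfl) (by rw [Prod.snd_add, h1, zero_add]; rfl)
  have it : ∀ (n : ℕ) u w, (z ^ n) (u, w) = (f 1 ^ n * u, (g ^ n) w) := fun n => by
    induction n with
    | zero => simp
    | succ n ih => intro u w; rw [pow_succ, LinearEquiv.mul_apply, e, ih, pow_succ, pow_succ, mul_assoc]; rfl
  have g1 : g = 1 := P.triv hW (LinearMap.ext fun w => by
    simpa [hz] using (congrArg Prod.snd (it r 0 w)).symm)
  exact ⟨f 1, by simpa [hz] using (congrArg Prod.fst (it r 1 0)).symm, by simpa [g1] using e⟩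

variable {H : Subgroup ((K × W) ≃ₗ[F] (K × W))} {y : H}

theorem nt_of_cen (P : Ppd F ω r) (hW : finrank F W < finrank F K)
    (ey : ∀ u w, y.1 (u, w) = (ω * u, w)) {A : Subgroup H} (hA : Ex.Cen r y A) (z : H) : NT z.1 := by
  obtain ⟨h1, h2, h3, -⟩ := hA
  have sh : ∀ a ∈ A, a ≠ 1 → ∃ α : K, Ppd F α r ∧ ∀ u w, a.1 (u, w) = (α * u, w) := fun a ha a1 => by
    obtain ⟨α, e1, e2⟩ := P.cen hW a.1 (congrArg Subtype.val (h3 a ha).1) fun u w => by
      rw [← ey, ← ey]
      exact LinearEquiv.congr_fun (congrArg Subtype.val (h3 a ha).2.eq) _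
    refine ⟨α, ⟨P.pr, e1, ?_, P.ppd⟩, e2⟩
    rintro rfl
    exact a1 (Subtype.ext (LinearEquiv.ext fun ⟨u, w⟩ => by simp [e2]))
  obtain ⟨⟨a, ha⟩, a1⟩ := Subgroup.ne_bot_iff_exists_ne_one.1 h2
  have a1 : a ≠ 1 := fun h => a1 (Subtype.ext h)
  obtain ⟨α, Q, e⟩ := sh a ha a1
  obtain ⟨β, R, e'⟩ := sh _ (h1.conj_mem a ha z) (by simpa using a1)
  refine Q.nt _ R.ne fun u w => ?_
  rw [← e, ← e']
  simp

omit [FiniteDimensional F W] in
/-- invariant subspaces -/
theorem inv (P : Ppd F ω r) (X : Submodule F (K × W)) (h : ∀ u w, (u, w) ∈ X → (ω * u, w) ∈ X)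
    {v : K × W} (hv : v ∈ X) (v0 : v.1 ≠ 0) (u : K) : ((u, 0) : K × W) ∈ X :=
  P.irr (X.comap (LinearMap.inl F K W)) (fun u hu => h u 0 hu) (u := (ω - 1) * v.1)
    (by
      obtain ⟨a, b⟩ := v
      simpa [sub_mul] using X.sub_mem (h a b hv) hv) (mul_ne_zero (sub_ne_zero.2 P.ne) v0) u

theorem ppart (P : Ppd F ω r) (ey : ∀ u w, y.1 (u, w) = (ω * u, w))
    (hP : ∀ g : H, (∀ u, (g.1 (u, 0)).1 = u) → (∀ u, g.1 (u, 0) = (u, 0)) ∧ ∀ w, (g.1 (0, w)).1 = 0)
    (S : Subgroup H) [hn : S.Normal] {p : ℕ} (hp : p.Prime) (hpF : (p : F) = 0) (hS : IsPGroup p S)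
    {a : H} (ha : a ∈ S) : Commute a y := by
  have := Fact.mk hp
  obtain ⟨X, ⟨x1, x2, x3⟩, xm⟩ := exists_maximal_of_wellFoundedGT
    (fun X : Submodule F (K × W) => (∀ v ∈ X, v.1 = 0) ∧ (∀ a ∈ S, ∀ v ∈ X, a.1 v ∈ X) ∧
      ∀ v ∈ X, y.1 v ∈ X) ⟨⊥, by simp, by simp, by simp⟩
  let Y : Submodule F (K × W) := ⨅ a : S, X.comap (a.1.1.toLinearMap - 1)
  have mY : ∀ {v}, v ∈ Y ↔ ∀ a ∈ S, a.1 v - v ∈ X := by simp [Y]
  have XY : X ≤ Y := fun v hv => mY.2 fun a ha => X.sub_mem (x2 a ha v hv) hv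
  have yY : ∀ v ∈ Y, y.1 v ∈ Y := fun v hv => mY.2 fun a ha => by
    simpa using x3 _ (mY.1 hv _ (hn.conj_mem' a ha y))
  obtain ⟨v, v1, v2⟩ : ∃ v ∈ Y, v ∉ X := by
    let ρ := Representation.quotient ((LinearEquiv.automorphismGroup.toLinearMapMonoidHom.comp
      H.subtype).comp S.subtype) X fun a => x2 a a.2
    let _ : MulAction S ((K × W) ⧸ X) := MulAction.compHom _ ρ
    have := Module.finite_of_finite F (M := (K × W) ⧸ X)
    have hd : p ∣ Nat.card ((K × W) ⧸ X) := by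
      rw [← addOrderOf_eq_prime (x := X.mkQ (1, 0)) (p := p)
        (by rw [← Nat.cast_smul_eq_nsmul F, hpF, zero_smul])
        (fun h => one_ne_zero (x1 _ ((Submodule.Quotient.mk_eq_zero X).1 h)))]
      exact addOrderOf_dvd_natCard _
    obtain ⟨t, t1, t2⟩ := hS.exists_fixed_point_of_prime_dvd_card_of_fixed_point _ hd (a := 0)
      fun g => map_zero (ρ g)
    obtain ⟨v, rfl⟩ := X.mkQ_surjective t
    exact ⟨v, mY.2 fun a ha => (Submodule.Quotient.eq X).1 (t1 ⟨a, ha⟩),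
      fun h => t2 ((Submodule.Quotient.mk_eq_zero X).2 h).symm⟩
  obtain ⟨v, v1, v2⟩ : ∃ v ∈ Y, v.1 ≠ 0 := by
    by_contra h
    push Not at h
    exact v2 (xm ⟨h, fun a ha v hv => by simpa using Y.add_mem (XY (mY.1 hv a ha)) hv, yY⟩ XY v1)
  obtain ⟨h1, h2⟩ := hP a fun u => sub_eq_zero.1 (x1 _ (mY.1
    (P.inv Y (fun u w h => ey u w ▸ yY _ h) v1 v2 u) a ha))
  have e : ∀ u w, a.1 (u, w) = (u, (a.1 (0, w)).2) := fun u w => by
    rw [show (u, w) = (u, 0) + (0, w) by simp, map_add, h1]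
    exact Prod.ext (by simp [h2]) (by simp)
  refine Subtype.ext (LinearEquiv.ext fun ⟨u, w⟩ => ?_)
  show a.1 (y.1 _) = y.1 (a.1 _)
  rw [ey, e, e u, ey]

end Ppd

end Pool.Agent.Lib.MP_d787f3_al
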