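import Pool.Agent.Lib.MP_d787f3_al.NrmA
import Pool.Agent.Lib.MP_d787f3_al.HHC

/-! Soluble groups containing a torus element are semilinear. -/

namespace Pool.Agent.Lib.MP_d787f3_al
open Module Function TensorProduct

variable {F K W : Type*} [Field F] [Finite F] [Field K] [Algebra F K] [FiniteDimensional F K]
  [AddCommGroup W] [Module F W] [FiniteDimensional F W] {ω : K} {r : ℕ}

/-- extension of scalars -/
noncomputable def bc (L : Type*) [Field L] [Algebra F L] {V : Type*} [AddCommGroup V] [Module F V]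
    (H : Subgroup (V ≃ₗ[F] V)) : H →* End L (L ⊗[F] V) :=
  (End.baseChangeHom F L V).toMonoidHom.comp
    (LinearEquiv.automorphismGroup.toLinearMapMonoidHom.comp H.subtype)

omit [Finite F] in
theorem bc_inj (L : Type*) [Field L] [Algebra F L] {V : Type*} [AddCommGroup V] [Module F V]
    (H : Subgroup (V ≃ₗ[F] V)) : Injective (bc L H) := fun _ _ h =>
  Subtype.ext (LinearEquiv.toLinearMap_injective (LinearMap.baseChangeHom_injective F V L h))

variable {H : Subgroup ((K × W) ≃ₗ[F] (K × W))} {x y : H}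

omit [Finite F] [FiniteDimensional F K] [FiniteDimensional F W] in
theorem pw {g : (K × W) ≃ₗ[F] (K × W)} {t : K} (e : ∀ u w, g (u, w) = (t * u, w)) (n : ℕ) (u : K)
    (w : W) : (g ^ n) (u, w) = (t ^ n * u, w) := by
  induction n with
  | zero => simp
  | succ n ih => rw [pow_succ', LinearEquiv.mul_apply, ih, e, pow_succ', mul_assoc]

theorem finH (H : Subgroup ((K × W) ≃ₗ[F] (K × W))) : Finite H := by
  have := Module.finite_of_finite F (M := K × W)
  exact Finite.of_injective (fun g : H => ⇑g.1) (DFunLike.coe_injective.comp Subtype.val_injective)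

theorem Ppd.core (P : Ppd F ω r) [Group.IsSolvable H] (hW : finrank F W < finrank F K) {t : K}
    (ex : ∀ u w, x.1 (u, w) = (t * u, w)) (ey : ∀ u w, y.1 (u, w) = (ω * u, w))
    (hP : ∀ (S : Subgroup H) (p : ℕ), S.Normal → p.Prime → (p : F) = 0 → IsPGroup p S →
      ∀ a ∈ S, Commute a y)
    (hA : r ≤ finrank F K + finrank F W + 1 → t ^ r ≠ 1 ∧ ∀ c : F, t ^ r = algebraMap F K c →
      ∀ s k : ℕ, s.Prime → 0 < k → s ^ k ∣ finrank F K ^ 2 → ¬ s ^ k ≡ 1 [MOD r]) (z : H) :
    NT z.1 := by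
  have := finH H
  have hy : y ^ r = 1 := Subtype.ext (LinearEquiv.ext fun ⟨u, w⟩ => by simp [pw ey, P.pow])
  have y1 : y ≠ 1 := fun h => P.ne (by simpa [h] using (ey 1 0).symm)
  rcases Ex.dichotomy hy y1 with ⟨A, hA⟩ | ⟨s, sp, S, hS, hp, ⟨k, hk, hky⟩, h⟩
  · exact P.nt_of_cen hW ey hA z
  exfalso
  let L := AlgebraicClosure F
  have ca : ∀ {n : ℕ}, (n : F) ≠ 0 → (n : L) ≠ 0 := fun h e => h ((algebraMap F L).injective (by
    rw [map_natCast, e, map_zero]))
  obtain ⟨n, c, h1, h2⟩ := P.poly t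
  have := HH.hh (bc L H) (bc_inj L H) S (ca fun e => hky (hP S s hS sp e hp k hk)) sp P.pr (ca P.cast)
    hp hy (x := x) (Subtype.ext (LinearEquiv.ext fun ⟨u, w⟩ => by
      show x.1 (y.1 _) = y.1 (x.1 _)
      rw [ex, ey, ex, ey, mul_left_comm])) (n := n) (c := fun i => algebraMap F L (c i)) (by
      have : x.1.toLinearMap = ∑ i ∈ Finset.range n, c i • (y ^ i).1.toLinearMap :=
        LinearMap.ext fun ⟨u, w⟩ => by
          simp [ex, pw ey, Prod.ext_iff, Prod.fst_sum, Prod.snd_sum, ← h1, Finset.sum_mul,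
            ← Finset.sum_smul, h2]
      simp only [algebraMap_smul]
      refine (congrArg (End.baseChangeHom F L _) this).trans ?_
      rw [map_sum]
      exact Finset.sum_congr rfl fun i _ => map_smul _ _ _) (by rw [← map_sum, h2, map_one])
    ⟨k, hk, hky⟩ (h.imp_right fun h => ⟨h.1, h.2.1⟩)
  have dim : finrank L (L ⊗[F] (K × W)) = finrank F K + finrank F W := by simp
  have kk : ∀ v, bc L H y v ≠ v → bc L H (x ^ r) v = v → t ^ r = 1 := fun v h1 h2 => by
    by_contra h
    have e : ((LinearMap.mulLeft F ((ω - 1) / (t ^ r - 1))).prodMap 0 : End F (K × W)) *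
        ((x ^ r).1.toLinearMap - 1) = y.1.toLinearMap - 1 := LinearMap.ext fun ⟨u, w⟩ => by
      have := sub_ne_zero.2 h
      simp [pw ex, ey]
      field_simp
    have e := LinearMap.congr_fun (congrArg (End.baseChangeHom F L _) e) v
    rw [map_mul, map_sub, map_sub, map_one] at e
    change End.baseChangeHom F L _ _ (bc L H (x ^ r) v - v) = _ at e
    rw [h2, sub_self, map_zero] at e
    exact h1 (sub_eq_zero.1 e.symm)
  rcases this with ⟨a1, v, a2, a3⟩ | ⟨M, e, j, a1, ⟨v, v1, v2⟩, a2, a3, a4, a5⟩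
  · exact (hA (by omega)).1 (kk v a2 a3)
  have := M.finrank_le
  obtain ⟨b1, b2⟩ := hA (by omega)
  by_cases e1 : e = 1
  · exact b1 (kk v v2 (by rw [a2 v v1, e1, one_smul]))
  let π := (LinearMap.fst F K W).baseChange L
  have inj : Injective (π ∘ₗ M.subtype) := (injective_iff_map_eq_zero _).2 fun v hv => by
    have h : (x ^ r).1.toLinearMap - 1 = (LinearMap.inl F K W ∘ₗ LinearMap.mulLeft F (t ^ r - 1)) ∘ₗ
        LinearMap.fst F K W := LinearMap.ext fun ⟨u, w⟩ => by simp [pw ex, sub_mul]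
    have h := LinearMap.congr_fun (congrArg (End.baseChangeHom F L _) h) v
    rw [map_sub, map_one] at h
    change bc L H (x ^ r) v - v.1 = LinearMap.baseChange L _ _ at h
    rw [LinearMap.baseChange_comp, LinearMap.comp_apply, show π v = 0 from hv, map_zero, a2 v v.2,
      sub_eq_zero] at h
    by_contra v0
    exact e1 (smul_left_injective L (fun e => v0 (Subtype.ext e)) (h.trans (one_smul _ _).symm))
  have dK : finrank L (L ⊗[F] K) = finrank F K := by simp
  have md : finrank L M = finrank F K := by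
    have := LinearMap.finrank_le_finrank_of_injective inj
    have := P.le
    omega
  have sur : Surjective (π ∘ₗ M.subtype) :=
    (LinearMap.injective_iff_surjective_of_finrank_eq_finrank (K := L) (V := M) (V₂ := L ⊗[F] K)
      (md.trans dK.symm)).1 inj
  obtain ⟨v, hv⟩ := sur (1 ⊗ₜ 1)
  have e2 : e • (1 : L) ⊗ₜ[F] (1 : K) = 1 ⊗ₜ (t ^ r) := by
    have e : LinearMap.fst F K W ∘ₗ (x ^ r).1.toLinearMap = LinearMap.mulLeft F (t ^ r) ∘ₗ
        LinearMap.fst F K W := LinearMap.ext fun ⟨u, w⟩ => by simp [pw ex]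
    have e := LinearMap.congr_fun (congrArg (LinearMap.baseChange L) e) v
    rw [LinearMap.baseChange_comp, LinearMap.baseChange_comp] at e
    change π (bc L H (x ^ r) v) = LinearMap.baseChange L _ ((π ∘ₗ M.subtype) v) at e
    rw [a2 v v.2, map_smul, hv] at e
    rw [← hv]
    simpa using e
  have : t ^ r ∈ Submodule.span F {(1 : K)} := by
    by_contra h
    obtain ⟨φ, h1, h2⟩ := Submodule.exists_le_ker_of_notMem h
    have := congrArg (fun a => TensorProduct.rid F L ((φ.baseChange L) a)) e2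
    simp [show φ 1 = 0 from h2 (Submodule.subset_span rfl)] at this
    exact h1 ((smul_eq_zero.1 this.symm).resolve_right one_ne_zero)
  obtain ⟨c, hc⟩ := Submodule.mem_span_singleton.1 this
  exact b2 c (by rw [← hc, Algebra.algebraMap_eq_smul_one]) s j sp a3 (md ▸ a4) a5

omit [Finite F] in
theorem five {V : Type*} [AddCommGroup V] [Module F V] [FiniteDimensional F V]
    {H : Subgroup (V ≃ₗ[F] V)} [Finite H] [Group.IsSolvable H] (h2 : (2 : F) = 0)
    (B : V →ₗ[F] V →ₗ[F] F) (nB : B.Nondegenerate) (hB : H ≤ isom B) (hn : finrank F V ≤ 8)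
    (hO : ∀ P : Subgroup H, P.Normal → IsPGroup 2 P → P = ⊥) {y : H} (hy : y ^ 5 = 1)
    (y1 : y ≠ 1) : ∃ A, Ex.Cen 5 y A := by
  classical
  let L := AlgebraicClosure F
  let b := Module.finBasis F V
  refine Ex.cen_five (bc L H) (bc_inj L H) (by rw [← map_ofNat (algebraMap F L), h2, map_zero])
    (LinearMap.BilinForm.baseChange L B) (fun v hv => ?_) (fun g u v => ?_) (by simpa using hn) hO hy y1
  · have : ∀ v : L ⊗[F] V, ∑ i, LinearMap.BilinForm.baseChange L B v (1 ⊗ₜ b i) •
        (1 : L) ⊗ₜ[F] LinearMap.BilinForm.dualBasis B nB b i = v := fun v => by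
      induction v with
      | zero => simp
      | add u v hu hv => simp only [map_add, LinearMap.add_apply, add_smul, Finset.sum_add_distrib, hu, hv]
      | tmul a u =>
        conv_rhs => rw [← (LinearMap.BilinForm.dualBasis B nB b).sum_repr u]
        simp [tmul_sum, smul_tmul']
    rw [← this v]
    simp [hv]
  · induction u with
    | zero => simp
    | add u u' h h' => simp only [map_add, LinearMap.add_apply, h, h']
    | tmul a u =>
      induction v with
      | zero => simp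
      | add v v' h h' => simp only [map_add, h, h']
      | tmul c v =>
        show LinearMap.BilinForm.baseChange L B (a ⊗ₜ g.1 u) (c ⊗ₜ g.1 v) = _
        simp [hB g.2 u v]

theorem far_abs {M : Type*} [Group M] (N S : M → Prop) (hS : ∀ z, S z → ∀ a, Commute a z)
    {G Γ : Subgroup M} (hG : G ≤ Γ) (hn : ∀ g ∈ Γ, ∀ a ∈ G, g * a * g⁻¹ ∈ G) {x : M} (xG : x ∈ G)
    (x1 : ¬ S x) (hx : ∀ H ≤ Γ, x ∈ H → Group.IsSolvable H → ∀ z ∈ H, N z)
    (base : ∃ g ∈ Γ, ∀ z ∈ Γ, N z → N (g⁻¹ * z * g) → S z) : Far G := by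
  obtain ⟨g, hg, base⟩ := base
  have nt : ∀ z ∈ Γ, Group.IsSolvable (Subgroup.closure {x, z}) → N z := fun z hz h =>
    hx _ ((Subgroup.closure_le _).2 (Set.pair_subset (hG xG) hz))
      (Subgroup.subset_closure (by simp)) h z (Subgroup.subset_closure (by simp))
  obtain ⟨x', hx'⟩ : ∃ x' : G, x' = g * x * g⁻¹ := ⟨⟨_, hn g hg x xG⟩, rfl⟩
  have key : ∀ z : G, Group.IsSolvable (Subgroup.closure {(⟨x, xG⟩ : G), z}) →
      Group.IsSolvable (Subgroup.closure {x', z}) → S z := fun z h1 h2 => by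
    have a1 := sol_map G.subtype h1
    have a2 := sol_map ((MulAut.conj g⁻¹).toMonoidHom.comp G.subtype) h2
    rw [show ((MulAut.conj g⁻¹).toMonoidHom.comp G.subtype) x' = x by
      simp [mul_assoc, hx'], show ((MulAut.conj g⁻¹).toMonoidHom.comp G.subtype) z = g⁻¹ * z * g by
      simp] at a2
    exact base z (hG z.2) (nt _ (hG z.2) a1) (nt _ (mul_mem (mul_mem (inv_mem hg) (hG z.2)) hg) a2)
  refine ⟨⟨x, xG⟩, x', fun h => x1 ?_, fun h => x1 ?_, fun z h1 h2 => ?_⟩
  · exact key ⟨x, xG⟩ (sol_comm (Commute.refl _)) (sol_comm (Subgroup.mem_center_iff.1 h x'))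
  · have := key x' (sol_comm (Subgroup.mem_center_iff.1 h _)) (sol_comm (Commute.refl _))
    have e := (hS _ this g).eq
    rw [hx'] at e this
    simp only [mul_assoc, inv_mul_cancel, mul_one, mul_right_inj] at e
    simpa [mul_assoc, e] using this
  · exact Subgroup.mem_center_iff.2 fun a => Subtype.ext (hS _ (key z h1 h2) a)

omit [Finite F] [FiniteDimensional F K] [FiniteDimensional F W] in
theorem far_of {G Γ : Subgroup ((K × W) ≃ₗ[F] (K × W))} (hG : G ≤ Γ)
    (hn : ∀ g ∈ Γ, ∀ a ∈ G, g * a * g⁻¹ ∈ G) {x : (K × W) ≃ₗ[F] (K × W)} (xG : x ∈ G)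
    (x1 : ¬ ∃ c : F, ∀ v, x v = c • v)
    (hx : ∀ H ≤ Γ, x ∈ H → Group.IsSolvable H → ∀ z ∈ H, NT z)
    (base : ∃ g ∈ Γ, ∀ z ∈ Γ, NT z → NT (g⁻¹ * z * g) → ∃ c : F, ∀ v, z v = c • v) : Far G :=
  far_abs NT (fun z => ∃ c : F, ∀ v, z v = c • v)
    (fun z ⟨c, hc⟩ a => LinearEquiv.ext fun v => by simp [hc]) hG hn xG x1 hx base

end Pool.Agent.Lib.MP_d787f3_al
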