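import Pool.Agent.Lib.MP_d787f3_al.ExcLin
import Pool.Agent.Lib.MP_d787f3_al.ExcWt
import Pool.Agent.Lib.MP_d787f3_al.Rad

/-! Computing with matrices over the field with two elements; matrix form of the reduction. -/

namespace Pool.Agent.Lib.MP_d787f3_al.Ex

open Finset Matrix

abbrev Mt (n : ℕ) := Matrix (Fin n) (Fin n) (ZMod 2)

def ofF (f : ℕ → Bool) : ℕ → ℕ
  | 0 => 0
  | t + 1 => cond (f t) (ofF f t ^^^ 2 ^ t) (ofF f t)

def sumB (g : ℕ → Bool) : ℕ → Bool
  | 0 => false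
  | l + 1 => xor (g l) (sumB g l)

/-- product of encoded matrices -/
def mm (n a b : ℕ) : ℕ :=
  ofF (fun t => sumB (fun l => a.testBit (n * (t / n) + l) && b.testBit (n * l + t % n)) n) (n * n)

/-- image of an encoded vector -/
def mv (n a v : ℕ) : ℕ := ofF (fun i => sumB (fun l => a.testBit (n * i + l) && v.testBit l) n) n

theorem bt_ofF (f : ℕ → Bool) (N t : ℕ) : bt (ofF f N) t = if t < N ∧ f t then 1 else 0 := by
  induction N with
  | zero => simp [ofF, bt]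
  | succ N ih =>
    simp only [ofF]
    rcases lt_trichotomy t N with h | rfl | h
    · cases f N <;> simp [bt_xor, bt_pow, ih, h, h.ne', h.le]
    · cases hf : f t <;> simp [bt_xor, bt_pow, ih]
    · cases f N <;> simp [bt_xor, bt_pow, ih, h.ne, h.not_gt, h.not_ge]

theorem sumB_eq (a b : ℕ) (i j : ℕ → ℕ) (n : ℕ) :
    (if sumB (fun l => a.testBit (i l) && b.testBit (j l)) n then 1 else 0) =
      ∑ l : Fin n, bt a (i l) * bt b (j l) := by
  induction n with
  | zero => simp [sumB]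
  | succ n ih =>
    rw [Fin.sum_univ_castSucc]
    simp only [Fin.val_castSucc, Fin.val_last]
    rw [← ih]
    exact (by decide : ∀ x y s : Bool, (if xor (x && y) s then (1 : ZMod 2) else 0) =
      (if s then 1 else 0) + (if x then 1 else 0) * (if y then 1 else 0)) _ _ _

variable {n : ℕ}

theorem bm_mm (a b : ℕ) : bm n (mm n a b) = bm n a * bm n b := by
  ext i j
  have h : n * i + j < n * n := by nlinarith [i.2, j.2]
  simp only [bm, mm, of_apply, bt_ofF, h, true_and, mul_apply, Nat.mul_add_div i.pos,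
    Nat.div_eq_of_lt j.2, Nat.mul_add_mod, Nat.mod_eq_of_lt j.2, add_zero]
  exact sumB_eq a b (fun l => n * i + l) (fun l => n * l + j) n

theorem bv_mv (a v : ℕ) : bv n (mv n a v) = bm n a *ᵥ bv n v := by
  ext i
  simp only [bv, mv, bt_ofF, i.2, true_and]
  exact sumB_eq a v (fun l => n * i + l) id n

theorem bt_inj {a b s t : ℕ} (h : bt a s = bt b t) : a.testBit s = b.testBit t := by
  revert h
  simp only [bt]
  cases a.testBit s <;> cases b.testBit t <;> decide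

theorem bm_inj {a b : ℕ} (h : bm n a = bm n b) : a % 2 ^ (n * n) = b % 2 ^ (n * n) := by
  refine Nat.eq_of_testBit_eq fun t => ?_
  rw [Nat.testBit_mod_two_pow, Nat.testBit_mod_two_pow]
  rcases lt_or_ge t (n * n) with ht | ht
  · have n0 : 0 < n := Nat.pos_of_ne_zero (by rintro rfl; simp at ht)
    have := bt_inj (congrFun (congrFun h ⟨t / n, Nat.div_lt_of_lt_mul ht⟩) ⟨t % n, Nat.mod_lt _ n0⟩)
    rw [Nat.div_add_mod] at this
    rw [this]
  · simp [ht.not_gt]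

theorem bv_surj (v : Fin n → ZMod 2) : ∃ m < 2 ^ n, v = bv n m := by
  refine ⟨ofF (fun t => if h : t < n then v ⟨t, h⟩ = 1 else false) n % 2 ^ n,
    Nat.mod_lt _ (by positivity), funext fun i => ?_⟩
  have h := bt_ofF (fun t => if h : t < n then v ⟨t, h⟩ = 1 else false) n i
  simp only [bt, i.2, true_and, dite_true, Fin.eta, decide_eq_true_eq] at h
  simp only [bv, bt, Nat.testBit_mod_two_pow, i.2, decide_true, Bool.true_and, h]
  generalize v i = c
  revert c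
  decide

/-- constraints `z u = u'` -/
def colC (n u u' : ℕ) : List ℕ :=
  (List.finRange n).map fun i : Fin n => lin (bv n (2 ^ i.1)) (bv n u) ^^^ (bt u' i).val

/-- constraints `a z = a'` -/
def rowC (n a a' : ℕ) : List ℕ :=
  (List.finRange n).map fun j : Fin n => lin (bv n a) (bv n (2 ^ j.1)) ^^^ (bt a' j).val

/-- constraints `l z r = l' z r'` on the block of size `s` -/
def blkC (n s l r l' r' : ℕ) : List ℕ :=
  (List.finRange n).flatMap fun i => (List.finRange n).map fun j =>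
    if i.1 < s ∧ j.1 < s then lin (bm n l i) (bm n r · j) ^^^ lin (bm n l' i) (bm n r' · j) else 0

theorem bv_pow (i : Fin n) : bv n (2 ^ i.1) = Pi.single i 1 := by
  ext j
  simp [bv, bt_pow, Pi.single_apply, Fin.ext_iff, eq_comm]

variable {z : Mt n}

theorem colC_ok {u u' : ℕ} (h : z *ᵥ bv n u = bv n u') : ∀ c ∈ colC n u u', ev z c = 0 := by
  simp only [colC, List.mem_map]
  rintro _ ⟨i, -, rfl⟩
  rw [ev_xor, ev_lin, ev_val, h, bv_pow, single_one_dotProduct]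
  exact CharTwo.add_self_eq_zero _

theorem rowC_ok {a a' : ℕ} (h : bv n a ᵥ* z = bv n a') : ∀ c ∈ rowC n a a', ev z c = 0 := by
  simp only [rowC, List.mem_map]
  rintro _ ⟨i, -, rfl⟩
  rw [ev_xor, ev_lin, ev_val, dotProduct_mulVec, h, bv_pow, dotProduct_single_one]
  exact CharTwo.add_self_eq_zero _

theorem blkC_ok {s l r l' r' : ℕ} (h : ∀ i j : Fin n, i.1 < s → j.1 < s →
    (bm n l * z * bm n r) i j = (bm n l' * z * bm n r') i j) :
    ∀ c ∈ blkC n s l r l' r', ev z c = 0 := by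
  simp only [blkC, List.mem_flatMap, List.mem_map]
  rintro _ ⟨i, -, j, -, rfl⟩
  split_ifs with hs
  · have e : ∀ L R : Mt n, L i ⬝ᵥ z *ᵥ (R · j) = (L * z * R) i j := fun L R => by
      rw [Matrix.mul_assoc]; rfl
    rw [ev_xor, ev_lin, ev_lin, e, e, h i j hs.1 hs.2]
    exact CharTwo.add_self_eq_zero _
  · exact phi_zero (ev_xor z)

theorem app_ok {C C' : List ℕ} (h : ∀ c ∈ C, ev z c = 0) (h' : ∀ c ∈ C', ev z c = 0) :
    ∀ c ∈ C ++ C', ev z c = 0 := fun c hc => (List.mem_append.1 hc).elim (h c) (h' c)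

theorem pres_iff {R : Type*} [CommRing R] {M J : Matrix (Fin n) (Fin n) R} : Mᵀ * J * M = J ↔
    ∀ u v, (M *ᵥ u) ⬝ᵥ J *ᵥ (M *ᵥ v) = u ⬝ᵥ J *ᵥ v := by
  have e : ∀ u v, (M *ᵥ u) ⬝ᵥ J *ᵥ (M *ᵥ v) = u ⬝ᵥ (Mᵀ * J * M) *ᵥ v := fun u v => by
    rw [← mulVec_mulVec, ← mulVec_mulVec, dotProduct_mulVec u, vecMul_transpose]
  refine ⟨fun h u v => by rw [e, h], fun h => Matrix.ext fun i j => ?_⟩
  simpa using (e (Pi.single i 1) (Pi.single j 1)).symm.trans (h _ _)

variable {G : Type*} [Group G] (ρ : G →* Mt n) {J : Mt n}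

/-- an invariant totally isotropic set of vectors -/
theorem rad_mat (hρ : Function.Injective ρ) (hi : ∀ g, (ρ g)ᵀ * J * ρ g = J) {P : Subgroup G}
    (h1 : P.Normal) (h2 : IsPGroup 2 P) (h3 : P ≠ ⊥) :
    ∃ v, v ≠ 0 ∧ ∀ g h, (ρ g *ᵥ v) ⬝ᵥ J *ᵥ (ρ h *ᵥ v) = 0 := by
  obtain ⟨R, a1, a2, a3⟩ := rad_of_pgroup' ((toLinAlgEquiv' : Mt n ≃ₐ[ZMod 2] _).toMonoidHom.comp ρ)
    (toLinearMap₂' (ZMod 2) J) (fun g u v => by
      simpa [toLinearMap₂'_apply', toLinAlgEquiv'_apply] using pres_iff.1 (hi g) u v) P Nat.prime_two rfl h2 (by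
      obtain ⟨a, ha⟩ := Subgroup.ne_bot_iff_exists_ne_one.1 h3
      exact ⟨a, a.2, fun h => ha (Subtype.ext (hρ (toLinAlgEquiv'.injective (h.trans (by simp)))))⟩)
  obtain ⟨v, b1, b2⟩ := Submodule.exists_mem_ne_zero_of_ne_bot a1
  exact ⟨v, b2, fun g h => by
    simpa [toLinearMap₂'_apply', toLinAlgEquiv'_apply] using a3 _ (a2 g v b1) _ (a2 h v b1)⟩

theorem cen_mat [Finite G] [Group.IsSolvable G] (hρ : Function.Injective ρ) (hn : n ≤ 8)
    (hJ : J * J = 1) (hi : ∀ g, (ρ g)ᵀ * J * ρ g = J)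
    (hO : ∀ P : Subgroup G, P.Normal → IsPGroup 2 P → P = ⊥) {y : G} (hy : y ^ 5 = 1)
    (hy1 : y ≠ 1) : ∃ A, Cen 5 y A := by
  let K := AlgebraicClosure (ZMod 2)
  let ι := (algebraMap (ZMod 2) K).mapMatrix (m := Fin n)
  refine cen_five (F := K) ((toLinAlgEquiv' : Matrix (Fin n) (Fin n) K ≃ₐ[K] _).toMonoidHom.comp
    (ι.toMonoidHom.comp ρ)) (toLinAlgEquiv'.injective.comp
      ((map_injective (algebraMap (ZMod 2) K).injective).comp hρ)) CharTwo.two_eq_zero
    (toLinearMap₂' K (ι J)) (fun v hv => ?_) (fun g u v => ?_) (by simpa using hn) hO hy hy1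
  · ext i
    have := LinearMap.congr_fun hv (ι J *ᵥ Pi.single i 1)
    rwa [toLinearMap₂'_apply', mulVec_mulVec, ← map_mul, hJ, map_one, one_mulVec,
      dotProduct_single_one] at this
  · have h : (ι (ρ g))ᵀ * ι J * ι (ρ g) = ι J := by
      conv_rhs => rw [← hi g, map_mul, map_mul]
      rfl
    simpa [toLinearMap₂'_apply', toLinAlgEquiv'_apply] using pres_iff.1 h u v

theorem norm_of_cen (hρ : Function.Injective ρ) {y : G} (hy : y ^ 5 = 1) (hy1 : y ≠ 1)
    {A : Subgroup G} (hA : Cen 5 y A) (hc : ∀ a ∈ A, ∃ k < 5, ρ a = ρ y ^ k) (h : G) :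
    ∃ k, 0 < k ∧ k < 5 ∧ ρ h * ρ y = ρ y ^ k * ρ h := by
  obtain ⟨⟨a, ha⟩, a1⟩ := Subgroup.ne_bot_iff_exists_ne_one.1 hA.2.1
  obtain ⟨k, k5, hk⟩ := hc a ha
  obtain rfl := hρ (hk.trans (map_pow ρ y k).symm)
  have yA : y ∈ A := by
    have e : ∀ j m, k * j = 5 * m + 1 → y ∈ A := fun j m e => by
      have := A.pow_mem ha j
      rwa [← pow_mul, e, pow_succ, pow_mul, hy, one_pow, one_mul] at this
    interval_cases k
    exacts [absurd (Subtype.ext (pow_zero y)) a1, e 1 0 rfl, e 3 1 rfl, e 2 1 rfl, e 4 3 rfl]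
  obtain ⟨l, l5, hl⟩ := hc _ (hA.1.conj_mem y yA h)
  refine ⟨l, Nat.pos_of_ne_zero ?_, l5, by rw [← hl, ← map_mul, ← map_mul]; simp⟩
  rintro rfl
  exact hy1 (by simpa using hρ (hl.trans ((pow_zero _).trans (map_one ρ).symm)))

end Pool.Agent.Lib.MP_d787f3_al.Ex
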