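import Pool.Agent.Lib.MP_d787f3_al.O8A

/-! Fast constraints and further operations on encoded matrices. -/

namespace Pool.Agent.Lib.MP_d787f3_al.Ex

open Finset Matrix

def idm (n : ℕ) : ℕ := ofF (fun t => decide (t / n = t % n)) (n * n)

def trm (n a : ℕ) : ℕ := ofF (fun t => a.testBit (n * (t % n) + t / n)) (n * n)

def mp (n a : ℕ) : ℕ → ℕ
  | 0 => idm n
  | k + 1 => mm n (mp n a k) a

def dt (n a b : ℕ) : Bool := sumB (fun l => a.testBit l && b.testBit l) n

/-- the functional `z ↦ a ⬝ᵥ z *ᵥ v` -/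
def lm (n a v : ℕ) : ℕ → ℕ
  | 0 => 0
  | i + 1 => cond (a.testBit i) (lm n a v i ^^^ v % 2 ^ n * 2 ^ (n * i + 1)) (lm n a v i)

def colF (n u u' : ℕ) : List ℕ :=
  (List.range n).map fun i => lm n (2 ^ i) u n ^^^ cond (u'.testBit i) 1 0

def rowF (n a a' : ℕ) : List ℕ :=
  (List.range n).map fun j => lm n a (2 ^ j) n ^^^ cond (a'.testBit j) 1 0

/-- constraints `l z rᵀ = l' z r'ᵀ` on the block of size `s` -/
def blkF (n s l r l' r' : ℕ) : List ℕ :=
  (List.range s).flatMap fun i => (List.range s).map fun j =>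
    lm n (l / 2 ^ (n * i)) (r / 2 ^ (n * j)) n ^^^ lm n (l' / 2 ^ (n * i)) (r' / 2 ^ (n * j)) n

variable {n : ℕ}

theorem bm_ofF (f : ℕ → Bool) (i j : Fin n) :
    bm n (ofF f (n * n)) i j = if f (n * i + j) then 1 else 0 := by
  have h : n * i + j < n * n := by nlinarith [i.2, j.2]
  simp only [bm, of_apply, bt_ofF, h, true_and]

theorem bm_id : bm n (idm n) = 1 := by
  ext i j
  simp [idm, bm_ofF, Nat.mul_add_div i.pos, Nat.div_eq_of_lt j.2, Nat.mod_eq_of_lt j.2, one_apply,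
    Fin.ext_iff]

theorem bm_tr (a : ℕ) : bm n (trm n a) = (bm n a)ᵀ := by
  ext i j
  simp only [trm, bm_ofF, Nat.mul_add_div i.pos, Nat.div_eq_of_lt j.2, Nat.mul_add_mod,
    Nat.mod_eq_of_lt j.2, add_zero]
  rfl

theorem bm_mp (a k : ℕ) : bm n (mp n a k) = bm n a ^ k := by
  induction k with
  | zero => exact bm_id
  | succ k ih => rw [mp, bm_mm, ih, pow_succ]

theorem bm_xor (a b : ℕ) : bm n (a ^^^ b) = bm n a + bm n b := by
  ext i j
  exact bt_xor _ _ _

theorem bv_zero : bv n 0 = 0 := by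
  ext i
  simp [bv, bt]

theorem bv_dt (a b : ℕ) : bv n a ⬝ᵥ bv n b = if dt n a b then 1 else 0 :=
  (sumB_eq a b id id n).symm

theorem bv_inj {a b : ℕ} (ha : a < 2 ^ n) (hb : b < 2 ^ n) (h : bv n a = bv n b) : a = b := by
  refine Nat.eq_of_testBit_eq fun t => ?_
  rcases lt_or_ge t n with ht | ht
  · exact bt_inj (congrFun h ⟨t, ht⟩)
  · rw [Nat.testBit_lt_two_pow (ha.trans_le (Nat.pow_le_pow_right two_pos ht)),
      Nat.testBit_lt_two_pow (hb.trans_le (Nat.pow_le_pow_right two_pos ht))]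

theorem bv_row (l : ℕ) (i : Fin n) : bv n (l / 2 ^ (n * i)) = bm n l i := by
  ext j
  simp only [bv, bm, bt, of_apply, Nat.testBit_div_two_pow, add_comm]

variable {z : Mt n}

theorem ev_sh (v : ℕ) (i : Fin n) : ev z (v % 2 ^ n * 2 ^ (n * i + 1)) = (z *ᵥ bv n v) i := by
  simp only [ev, bt, Nat.testBit_mul_two_pow, Nat.testBit_mod_two_pow]
  rw [if_neg (by simp), zero_add, sum_eq_single i]
  · refine sum_congr rfl fun j _ => ?_
    simp [show n * i + j + 1 - (n * i + 1) = j by omega, bv, bt, mul_comm]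
  · refine fun k _ hk => sum_eq_zero fun j _ => ?_
    rw [if_neg, zero_mul]
    simp only [Bool.and_eq_true, decide_eq_true_eq, not_and]
    intro h1 h2
    have := j.2
    rcases lt_or_gt_of_ne (Fin.val_ne_of_ne hk) with h | h
    · have := Nat.mul_le_mul_left n (Nat.succ_le_of_lt h)
      rw [Nat.mul_succ] at this
      omega
    · have := Nat.mul_le_mul_left n (Nat.succ_le_of_lt h)
      rw [Nat.mul_succ] at this
      omega
  · simp

theorem ev_lm (a v : ℕ) : ev z (lm n a v n) = bv n a ⬝ᵥ z *ᵥ bv n v := by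
  have : ∀ k (hk : k ≤ n), ev z (lm n a v k) =
      ∑ i : Fin k, bt a i * (z *ᵥ bv n v) (Fin.castLE hk i) := by
    intro k
    induction k with
    | zero => exact fun _ => phi_zero (ev_xor z)
    | succ k ih =>
      intro hk
      rw [Fin.sum_univ_castSucc]
      have := ih (Nat.le_of_succ_le hk)
      simp only [lm, Fin.val_castSucc, Fin.val_last]
      rcases Bool.eq_false_or_eq_true (a.testBit k) with h | h
      · rw [h, cond_true, ev_xor, this, ev_sh v ⟨k, hk⟩, bt, h, if_pos rfl, one_mul]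
        rfl
      · rw [h, cond_false, this, bt, h, if_neg (by decide), zero_mul, add_zero]
        rfl
  exact this n le_rfl

theorem ev_cond (u i : ℕ) : ev z (cond (u.testBit i) 1 0) = bt u i := by
  rw [bt]
  cases u.testBit i
  exacts [phi_zero (ev_xor z), ev_one z]

theorem colF_ok {u u' : ℕ} (h : z *ᵥ bv n u = bv n u') : ∀ c ∈ colF n u u', ev z c = 0 := by
  simp only [colF, List.mem_map, List.mem_range]
  rintro _ ⟨i, hi, rfl⟩
  rw [ev_xor, ev_lm, ev_cond, h, bv_pow ⟨i, hi⟩, single_one_dotProduct]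
  exact CharTwo.add_self_eq_zero _

theorem rowF_ok {a a' : ℕ} (h : bv n a ᵥ* z = bv n a') : ∀ c ∈ rowF n a a', ev z c = 0 := by
  simp only [rowF, List.mem_map, List.mem_range]
  rintro _ ⟨i, hi, rfl⟩
  rw [ev_xor, ev_lm, ev_cond, dotProduct_mulVec, h, bv_pow ⟨i, hi⟩, dotProduct_single_one]
  exact CharTwo.add_self_eq_zero _

theorem blkF_ok {s l r l' r' : ℕ} (hs : s ≤ n) (h : ∀ i j : Fin n, i.1 < s → j.1 < s →
    (bm n l * z * (bm n r)ᵀ) i j = (bm n l' * z * (bm n r')ᵀ) i j) :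
    ∀ c ∈ blkF n s l r l' r', ev z c = 0 := by
  simp only [blkF, List.mem_flatMap, List.mem_map, List.mem_range]
  rintro _ ⟨i, hi, j, hj, rfl⟩
  have e : ∀ L R : Mt n, ∀ i j, L i ⬝ᵥ z *ᵥ R j = (L * z * Rᵀ) i j := fun L R i j => by
    rw [Matrix.mul_assoc]; rfl
  rw [ev_xor, ev_lm, ev_lm, bv_row l ⟨i, hi.trans_le hs⟩, bv_row r ⟨j, hj.trans_le hs⟩,
    bv_row l' ⟨i, hi.trans_le hs⟩, bv_row r' ⟨j, hj.trans_le hs⟩, e, e, h _ _ hi hj]
  exact CharTwo.add_self_eq_zero _

/-- constraints for commuting with a matrix -/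
def comF (n y : ℕ) : List ℕ := blkF n n (idm n) (trm n y) y (idm n)

theorem comF_ok {y : ℕ} (h : z * bm n y = bm n y * z) : ∀ c ∈ comF n y, ev z c = 0 :=
  blkF_ok le_rfl fun i j _ _ => by simp [bm_id, bm_tr, h]

/-- all sums of members of a list -/
def spn : List ℕ → List ℕ
  | [] => [0]
  | b :: B => spn B ++ (spn B).map (· ^^^ b)

theorem ofF_lt (f : ℕ → Bool) (N : ℕ) : ofF f N < 2 ^ N := by
  induction N with
  | zero => simp [ofF]
  | succ N ih =>
    have h := ih.trans (Nat.pow_lt_pow_succ (by decide : 1 < 2))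
    simp only [ofF]
    cases f N
    exacts [h, Nat.xor_lt_two_pow h (Nat.pow_lt_pow_succ (by decide))]

def m5 (n m v : ℕ) : ℕ := mv n m (mv n m (mv n m (mv n m (mv n m v))))

theorem pow_five {y m u v : ℕ} (h : bm n m ^ 5 = 1) (hu : u < 2 ^ n) (hv : v < 2 ^ n)
    (hm : m5 n m u = u → m5 n m v = v → ∃ k < 5, m = mp n y k) :
    ∃ k < 5, bm n m = bm n y ^ k := by
  have e : ∀ v < 2 ^ n, m5 n m v = v := fun v hv => bv_inj (ofF_lt _ _) hv (by
    simp only [pow_succ, pow_zero, mul_assoc, one_mul] at h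
    simp only [m5, bv_mv, mulVec_mulVec, h, one_mulVec])
  obtain ⟨k, k5, rfl⟩ := hm (e u hu) (e v hv)
  exact ⟨k, k5, bm_mp _ _⟩

end Pool.Agent.Lib.MP_d787f3_al.Ex
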