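import Pool.Agent.Lib.MP_d787f3_al.O8B

/-! The data for the orthogonal group of plus type in dimension eight over the field of order two,
and the linear systems describing common soluble neighbours. -/

namespace Pool.Agent.Lib.MP_d787f3_al.Ex

open Matrix

def X8 : ℕ := 9241388707473134630
def Y8 : ℕ := 9241438246579145222
def J8 : ℕ := 4647732545138983170
def E8 : ℕ := 36028934458441730
def G8 : ℕ := 17794257910307780394
def H8 : ℕ := 17428030965634471283

def sz (p : ℕ) : ℕ := cond (p.beq 0) 8 6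

/-- the linear conditions of type `(k, p)` -/
def Tp (k p : ℕ) (z : Mt 8) : Prop :=
  z *ᵥ bv 8 p = bv 8 p ∧ (bv 8 p ᵥ* bm 8 J8) ᵥ* z = bv 8 p ᵥ* bm 8 J8 ∧
    ∀ i j : Fin 8, i.1 < sz p → j.1 < sz p → (z * bm 8 Y8) i j = (bm 8 Y8 ^ k * z) i j

def Ty (z : Mt 8) : Prop := ∃ k ∈ [1, 2, 3, 4], ∃ p ∈ [0, 64, 128, 192], Tp k p z

def cons (a b k p : ℕ) : List ℕ :=
  colF 8 (mv 8 b p) (mv 8 b p) ++
    (rowF 8 (mv 8 (trm 8 (mm 8 J8 a)) p) (mv 8 (trm 8 (mm 8 J8 a)) p) ++
      blkF 8 (sz p) a (trm 8 (mm 8 b Y8)) (mm 8 (mp 8 Y8 k) a) (trm 8 b))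

theorem cons_ok {a b k p : ℕ} {z : Mt 8} (hab : bm 8 b * bm 8 a = 1)
    (h : Tp k p (bm 8 a * z * bm 8 b)) : ∀ c ∈ cons a b k p, ev z c = 0 := by
  obtain ⟨h1, h2, h3⟩ := h
  refine app_ok (colF_ok ?_) (app_ok (rowF_ok ?_) (blkF_ok ?_ fun i j hi hj => ?_))
  · have := congrArg (bm 8 b *ᵥ ·) h1
    simp only [mulVec_mulVec, ← Matrix.mul_assoc, hab, Matrix.one_mul] at this
    rw [bv_mv, mulVec_mulVec, this]
  · have := congrArg (· ᵥ* bm 8 a) h2
    simp only [vecMul_vecMul, Matrix.mul_assoc, hab, Matrix.mul_one] at this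
    rw [bv_mv, bm_tr, bm_mm, mulVec_transpose, vecMul_vecMul, Matrix.mul_assoc, this]
  · rw [sz]
    cases p.beq 0 <;> decide
  · simpa only [bm_tr, bm_mm, bm_mp, transpose_transpose, Matrix.mul_assoc] using h3 i j hi hj

def cands : List ℕ :=
  [9241421688590303745, 0, 4647961178138739201, 4647961999538700801, 5081771378647237317,
  6673244001082278401, 8192364450389688833, 9241421964546163201, 9241422240502022657,
  9241422516457882113, 9249408474356383744, 9254088062542283265, 9254088614454002177,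
  9255319996467281920, 9293934004057019544, 11259069438248353792, 11267126730466525697,
  12484013420297060865, 12484013696252920321, 12496679794249040385, 12496680622116618753,
  12772279186844827648, 12786248001173897729, 16375140455769068632]

def run (p : ℕ) : Bool :=
  [1, 2, 3, 4].all fun k => [1, 2, 3, 4].all fun k' => [0, 64, 128, 192].all fun p' =>
    chk (8 * 8) cands 4 (elim (elim [] (cons (idm 8) (idm 8) k p)) (cons H8 G8 k' p'))

theorem GH : bm 8 G8 * bm 8 H8 = 1 :=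
  (bm_mm _ _).symm.trans ((congrArg (bm 8) (by decide +kernel)).trans bm_id)

theorem solve2 {n : ℕ} {z : Mt n} {C C' cands : List ℕ} {f : ℕ}
    (hC : ∀ c ∈ C, ev z c = 0) (hC' : ∀ c ∈ C', ev z c = 0)
    (h : chk (n * n) cands f (elim (elim [] C) C') = true) : ∃ m ∈ cands, z = bm n m := by
  obtain ⟨m, a1, a2⟩ := chk_sound (ev_xor z) (ev_one z) _ _ _ _
    (elim_sound (ev_xor z) (elim_sound (ev_xor z) (by simp) hC) hC') h
  refine ⟨m, a1, Matrix.ext fun i j => ?_⟩
  rw [← ev_pow z i j, a2 _ (by nlinarith [i.2, j.2])]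
  rfl

theorem lin8 (r : ∀ p ∈ [0, 64, 128, 192], run p = true) {z : Mt 8} (h : Ty z)
    (h' : Ty (bm 8 H8 * z * bm 8 G8)) : ∃ m ∈ cands, z = bm 8 m := by
  obtain ⟨k, hk, p, hp, h⟩ := h
  obtain ⟨k', hk', p', hp', h'⟩ := h'
  simp only [run, List.all_eq_true] at r
  exact solve2 (cons_ok (by rw [bm_id, one_mul]) (by rwa [bm_id, one_mul, mul_one]))
    (cons_ok GH h') (r p hp k hk k' hk' p' hp')

end Pool.Agent.Lib.MP_d787f3_al.Ex
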