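import Pool.Agent.Lib.MP_d787f3_al.O8B

/-! Soluble subgroups of the symplectic group of dimension six over the field of order two
containing a given element of order fifteen. -/

namespace Pool.Agent.Lib.MP_d787f3_al.Ex

open Matrix

def X6 : ℕ := 2434000166
def Y6 : ℕ := 51002012294
def J6 : ℕ := 17717821506

theorem bm_eq {n a b : ℕ} (h : a = b) : bm n a = bm n b := congrArg (bm n) h

variable {n : ℕ} {G : Type*} [Group G] (ρ : G →* Mt n)

/-- the test for a vector orthogonal to its first images -/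
def iso3 (n J X m : ℕ) : Bool := [1, 2, 3].all fun i => !dt n m (mv n J (mv n (mp n X i) m))

theorem iso3_of {J X m : ℕ} {x : G} (hx : ρ x = bm n X) {v : Fin n → ZMod 2}
    (hv : ∀ g h, (ρ g *ᵥ v) ⬝ᵥ bm n J *ᵥ (ρ h *ᵥ v) = 0) {g : G} (hm : ρ g *ᵥ v = bv n m) :
    iso3 n J X m = true := List.all_eq_true.2 fun i _ => by
  have := hv g (x ^ i * g)
  rw [map_mul, map_pow, hx, ← mulVec_mulVec, hm, ← bm_mp, ← bv_mv, ← bv_mv, bv_dt] at this
  revert this
  cases dt n m (mv n J (mv n (mp n X i) m)) <;> decide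

theorem cube (hρ : Function.Injective ρ) {X Y : ℕ} {x : G} (hx : ρ x = bm n X) (h1 : mp n X 3 = Y)
    (h2 : mp n Y 5 = idm n) (h3 : Y % 2 ^ (n * n) ≠ idm n % 2 ^ (n * n)) :
    ρ (x ^ 3) = bm n Y ∧ (x ^ 3) ^ 5 = 1 ∧ x ^ 3 ≠ 1 := by
  have e : ρ (x ^ 3) = bm n Y := by rw [map_pow, hx, ← bm_mp, h1]
  refine ⟨e, hρ (by rw [map_pow, e, ← bm_mp, h2, bm_id, map_one]), fun h => h3 (bm_inj ?_)⟩
  rw [← e, h, map_one, bm_id]

def B6 : List ℕ := [318768339, 587204835, 1093905732, 2182341109, 4376469434, 8727257356,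
  17232316514, 34412184658]

theorem c6a : chk (6 * 6) (spn B6) 9 (elim [] (comF 6 Y6)) = true := by decide +kernel

theorem c6b : ∀ m ∈ spn B6, m5 6 m 1 = 1 → m5 6 m 16 = 16 → ∃ k < 5, m = mp 6 Y6 k := by
  decide +kernel

theorem c6c : ∀ m < 64, iso3 6 J6 X6 m = true → m = 0 := by decide +kernel

theorem L6' [Finite G] [Group.IsSolvable G] (ρ : G →* Mt 6) (hρ : Function.Injective ρ)
    (hi : ∀ g, (ρ g)ᵀ * bm 6 J6 * ρ g = bm 6 J6) {x : G} (hx : ρ x = bm 6 X6) (h : G) :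
    ∃ k, 0 < k ∧ k < 5 ∧ ρ h * bm 6 Y6 = bm 6 Y6 ^ k * ρ h := by
  obtain ⟨e, y5, y1⟩ := cube ρ hρ (Y := Y6) hx (by decide +kernel) (by decide +kernel)
    (by decide +kernel)
  obtain ⟨A, hA⟩ := cen_mat ρ hρ (by decide) ((bm_mm _ _).symm.trans
    ((bm_eq (by decide +kernel)).trans bm_id)) hi (fun P h1 h2 => by
      by_contra h3
      obtain ⟨v, v0, hv⟩ := rad_mat ρ hρ hi h1 h2 h3
      obtain ⟨m, m1, rfl⟩ := bv_surj v
      obtain rfl := c6c m m1 (iso3_of ρ hx hv (g := 1) (by simp))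
      exact v0 bv_zero) y5 y1
  rw [← e]
  refine norm_of_cen ρ hρ y5 y1 hA (fun a ha => ?_) h
  obtain ⟨a1, a2⟩ := hA.2.2.1 a ha
  obtain ⟨m, m1, m2⟩ := solve (comF_ok (z := ρ a) (y := Y6) (by
    rw [← e, ← map_mul, a2.eq, map_mul])) c6a
  rw [e, m2]
  exact pow_five (by rw [← m2, ← map_pow, a1, map_one]) (by decide) (by decide) (c6b m m1)

theorem L6 [Finite G] [Group.IsSolvable G] (ρ : G →* Mt 6)
    (hi : ∀ g, (ρ g)ᵀ * bm 6 J6 * ρ g = bm 6 J6) {x : G} (hx : ρ x = bm 6 X6) (h : G) :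
    ∃ k, 0 < k ∧ k < 5 ∧ ρ h * bm 6 Y6 = bm 6 Y6 ^ k * ρ h := by
  have := Group.isSolvable_of_surjective ρ.toHomUnits.rangeRestrict_surjective
  exact L6' ((Units.coeHom _).comp ρ.toHomUnits.range.subtype)
    (Units.val_injective.comp Subtype.val_injective) (by rintro ⟨_, g, rfl⟩; exact hi g)
    (x := ρ.toHomUnits.rangeRestrict x) hx (ρ.toHomUnits.rangeRestrict h)

end Pool.Agent.Lib.MP_d787f3_al.Ex
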