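import Pool.Agent.Lib.MP_d787f3_al.O8C
import Pool.Agent.Lib.MP_d787f3_al.O8D
import Pool.Agent.Lib.MP_d787f3_al.Dick

/-! Soluble subgroups of the orthogonal group of plus type in dimension eight over the field of
order two containing a given element of order fifteen. -/

namespace Pool.Agent.Lib.MP_d787f3_al.Ex

open Matrix

/-- isometries of the standard quadratic form -/
def Iso (z : Mt 8) : Prop := ∀ v, (z *ᵥ v) ⬝ᵥ bm 8 E8 *ᵥ (z *ᵥ v) = v ⬝ᵥ bm 8 E8 *ᵥ v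

theorem EJ : bm 8 E8 + (bm 8 E8)ᵀ = bm 8 J8 := by
  rw [← bm_tr, ← bm_xor]
  exact bm_eq (by decide +kernel)

theorem JJ : bm 8 J8 * bm 8 J8 = 1 :=
  (bm_mm _ _).symm.trans ((bm_eq (by decide +kernel)).trans bm_id)

theorem Iso.half {z : Mt 8} (h : Iso z) : ∃ M : Mt 8, zᵀ * bm 8 E8 * z + bm 8 E8 = M + Mᵀ :=
  Dk.exists_half rfl fun v => by
    rw [add_mulVec, dotProduct_add, ← mulVec_mulVec, ← mulVec_mulVec, dotProduct_mulVec,
      vecMul_transpose, h]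
    exact CharTwo.add_self_eq_zero _

theorem Iso.pres {z : Mt 8} (h : Iso z) : zᵀ * bm 8 J8 * z = bm 8 J8 := by
  obtain ⟨M, hM⟩ := h.half
  have b1 := congrArg transpose hM
  rw [← EJ]
  simp only [Matrix.mul_add, Matrix.add_mul, transpose_add, transpose_mul, transpose_transpose,
    Matrix.mul_assoc] at b1 hM ⊢
  linear_combination (norm := abel1) b1 + hM + Dk.self_add rfl M + Dk.self_add rfl Mᵀ -
    Dk.self_add rfl (bm 8 E8) - Dk.self_add rfl (bm 8 E8)ᵀ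

def cs (i : Fin 6) : Fin 8 := i.castAdd 2

/-- the upper left block -/
def T (M : Mt 8) : Mt 6 := M.submatrix cs cs

theorem T_mul (M N : Mt 8) (i j : Fin 6) : T (M * N) i j =
    (T M * T N) i j + (M (cs i) 6 * N 6 (cs j) + M (cs i) 7 * N 7 (cs j)) := by
  simp only [T, submatrix_apply, mul_apply, Fin.sum_univ_eight, Fin.sum_univ_six, ← add_assoc]
  rfl

theorem pj : ∀ p ∈ [64, 128, 192], ∃ α β : ZMod 2, (α ≠ 0 ∨ β ≠ 0) ∧
    bv 8 p = Pi.single 6 α + Pi.single 7 β ∧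
    bv 8 p ᵥ* bm 8 J8 = Pi.single 6 β + Pi.single 7 α := by decide +kernel

theorem tj : T (bm 8 J8) = bm 6 J6 ∧ T (bm 8 X8) = bm 6 X6 ∧ T (bm 8 Y8) = bm 6 Y6 ∧
    (∀ i, bm 8 J8 (cs i) 6 = 0 ∧ bm 8 J8 (cs i) 7 = 0 ∧ cs i ≠ 6 ∧ cs i ≠ 7) ∧
    bm 8 J8 6 = Pi.single 7 1 ∧ bm 8 J8 7 = Pi.single 6 1 ∧ T 1 = 1 := by decide +kernel

variable {G : Type*} [Group G] [Finite G] [Group.IsSolvable G] (ρ : G →* Mt 8)

omit [Finite G] [Group.IsSolvable G] in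
theorem cube8 (hρ : Function.Injective ρ) {x : G} (hx : ρ x = bm 8 X8) :
    ρ (x ^ 3) = bm 8 Y8 ∧ (x ^ 3) ^ 5 = 1 ∧ x ^ 3 ≠ 1 :=
  cube ρ hρ hx (by decide +kernel) (by decide +kernel) (by decide +kernel)

/-- the case of a fixed vector -/
theorem st_fix (hi : ∀ g, (ρ g)ᵀ * bm 8 J8 * ρ g = bm 8 J8) {x : G} (hx : ρ x = bm 8 X8)
    (e : ρ (x ^ 3) = bm 8 Y8) {p : ℕ}
    (hp : p ∈ [64, 128, 192]) (hf : ∀ g, ρ g *ᵥ bv 8 p = bv 8 p) (h : G) : Ty (ρ h) := by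
  have hf' : ∀ g, (bv 8 p ᵥ* bm 8 J8) ᵥ* ρ g = bv 8 p ᵥ* bm 8 J8 := fun g => by
    conv_lhs => rw [← hf g, ← vecMul_transpose, vecMul_vecMul, vecMul_vecMul, ← Matrix.mul_assoc,
      hi]
  obtain ⟨α, β, p0, p1, p2⟩ := pj p hp
  obtain ⟨t1, t2, t3, t4, t5, t6, t7⟩ := tj
  have a1 : ∀ g i, α * ρ g (cs i) 6 + β * ρ g (cs i) 7 = 0 := fun g i => by
    simpa [p1, mulVec_add, mulVec_single, (t4 i).2.2.1, (t4 i).2.2.2] using congrFun (hf g) (cs i)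
  have a2 : ∀ g i, β * ρ g 6 (cs i) + α * ρ g 7 (cs i) = 0 := fun g i => by
    simpa [p2, add_vecMul, single_vecMul, (t4 i).2.2.1, (t4 i).2.2.2] using
      congrFun (hf' g) (cs i)
  let τ : G →* Mt 6 :=
    { toFun := fun g => T (ρ g)
      map_one' := by rw [map_one, t7]
      map_mul' := fun g h => Matrix.ext fun i j => by
        rw [map_mul, T_mul, (by decide : ∀ α β a b c d : ZMod 2, α ≠ 0 ∨ β ≠ 0 →
          α * a + β * b = 0 → β * c + α * d = 0 → a * c + b * d = 0) _ _ _ _ _ _ p0 (a1 g i)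
          (a2 h j), add_zero] }
  obtain ⟨k, k0, k5, hk⟩ := L6 τ (fun g => Matrix.ext fun i j => by
    have b1 : T (bm 8 J8 * ρ g) = bm 6 J6 * τ g := Matrix.ext fun i j => by
      rw [T_mul, (t4 i).1, (t4 i).2.1, t1, zero_mul, zero_mul, add_zero, add_zero]
      rfl
    have b2 := T_mul (ρ g)ᵀ (bm 8 J8 * ρ g) i j
    rw [← Matrix.mul_assoc, hi, t1, b1, mul_apply' (M := bm 8 J8), mul_apply' (M := bm 8 J8), t5, t6,
      single_one_dotProduct, single_one_dotProduct, transpose_apply, transpose_apply,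
      (by decide : ∀ α β a b c d : ZMod 2, α ≠ 0 ∨ β ≠ 0 → β * a + α * b = 0 →
        β * c + α * d = 0 → a * d + b * c = 0) _ _ _ _ _ _ p0 (a2 g i) (a2 g j), add_zero] at b2
    rw [b2, Matrix.mul_assoc]
    rfl) (x := x) (hx ▸ t2 :) h
  have e6 : τ (x ^ 3) = bm 6 Y6 := (congrArg T e).trans t3
  rw [← e6, ← map_pow, ← map_mul, ← map_mul] at hk
  refine ⟨k, by interval_cases k <;> simp, p, List.mem_cons_of_mem _ hp, hf h, hf' h,
    fun i j hi hj => ?_⟩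
  have s6 : sz p = 6 := (by decide : ∀ p ∈ [64, 128, 192], sz p = 6) p hp
  rw [← e, ← map_pow, ← map_mul, ← map_mul]
  exact congrFun (congrFun hk ⟨i, s6 ▸ hi⟩) ⟨j, s6 ▸ hj⟩

def s5 : Fin 5 → ℕ := ![64, 128, 211, 227, 240]

def t5 : Fin 5 → Fin 5 := ![0, 1, 3, 4, 2]

theorem c8a : ∀ m < 256, iso3 8 J8 X8 m = true → m = 0 ∨ m ∈ [64, 128, 192] := by decide +kernel

theorem c8b : ∀ m ∈ [64, 128, 192], ∀ m' ∈ [64, 128, 192], dt 8 m (mv 8 J8 m') = false →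
    m' = m := by decide +kernel

theorem c8c : ∀ m < 256, mv 8 Y8 m = m → dt 8 m (mv 8 E8 m) = false →
    m = 0 ∨ ∃ j, m = s5 j := by decide +kernel

theorem c8d : ∀ i, s5 i < 256 ∧ s5 i ≠ 0 ∧ mv 8 Y8 (s5 i) = s5 i ∧ mv 8 X8 (s5 i) = s5 (t5 i) ∧
    dt 8 (s5 i) (mv 8 E8 (s5 i)) = false ∧ t5 (t5 (t5 i)) = i ∧ ∀ j, s5 i = s5 j → i = j := by
  decide +kernel

theorem c8e : ∀ a b c d e : Fin 5, (fun f : Fin 5 → Fin 5 => (∀ i, f (f (f (f (f i)))) = i) →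
    (∀ i, f (t5 (f (t5 (t5 i)))) = t5 (f (t5 (t5 (f i))))) → ∀ i, f i = i) ![a, b, c, d, e] := by
  decide +kernel

def C8 : List ℕ := [9241405268867036933, 9241406372807574836, 9241409684861552959,
  9241410788802116366, 9241414099500806921, 9241415203173433656, 9241418515434507571,
  9241419619107159810, 9241421688590303745, 9241424999875620912, 9241426104726404155,
  9241429416011697674, 9241430518962193933, 9241433830516470844, 9241434935024891959,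
  9241438246579145222]

theorem c8f : chk (8 * 8) C8 5 (elim [] (colF 8 64 64 ++ (colF 8 128 128 ++ (colF 8 211 211 ++
    (colF 8 227 227 ++ comF 8 Y8))))) = true := by decide +kernel

theorem c8g : ∀ m ∈ C8, m5 8 m 1 = 1 → m5 8 m 1 = 1 → ∃ k < 5, m = mp 8 Y8 k := by decide +kernel

omit [Finite G] [Group.IsSolvable G] in
theorem vec_inj (g : G) {v : Fin 8 → ZMod 2} (h : ρ g *ᵥ v = 0) : v = 0 := by
  rw [← one_mulVec v, ← map_one ρ, ← inv_mul_cancel g, map_mul, ← mulVec_mulVec, h, mulVec_zero]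

omit [Finite G] [Group.IsSolvable G] in
theorem st_cen (hi : ∀ g, Iso (ρ g)) {x : G} (hx : ρ x = bm 8 X8) (e : ρ (x ^ 3) = bm 8 Y8)
    {A : Subgroup G} (hA : Cen 5 (x ^ 3) A) {a : G} (ha : a ∈ A) :
    ∃ k < 5, ρ a = ρ (x ^ 3) ^ k := by
  obtain ⟨a1, a2⟩ := hA.2.2.1 a ha
  have a3 : ρ a * bm 8 Y8 = bm 8 Y8 * ρ a := by rw [← e, ← map_mul, a2.eq, map_mul]
  have a4 : ∀ i, ∃ j, ρ a *ᵥ bv 8 (s5 i) = bv 8 (s5 j) := fun i => by
    obtain ⟨d1, d2, d3, -, d4, -⟩ := c8d i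
    obtain ⟨m, m1, m2⟩ := bv_surj (ρ a *ᵥ bv 8 (s5 i))
    have b1 := hi a (bv 8 (s5 i))
    rw [m2, ← bv_mv, ← bv_mv, bv_dt, bv_dt, d4] at b1
    obtain rfl | ⟨j, rfl⟩ := c8c m m1 (bv_inj (ofF_lt _ _) m1 (by
      rw [bv_mv, ← m2, mulVec_mulVec, ← a3, ← mulVec_mulVec, ← bv_mv, d3])) (by
        revert b1
        cases dt 8 m (mv 8 E8 m) <;> decide)
    · exact absurd (bv_inj d1 (by decide) ((vec_inj ρ a (m2.trans bv_zero)).trans bv_zero.symm)) d2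
    · exact ⟨j, m2⟩
  choose f hf using a4
  have inj : ∀ {i j}, bv 8 (s5 i) = bv 8 (s5 j) → i = j := fun {i j} h =>
    (c8d i).2.2.2.2.2.2 j (bv_inj (c8d i).1 (c8d j).1 h)
  have x1 : ∀ i, ρ x *ᵥ bv 8 (s5 i) = bv 8 (s5 (t5 i)) := fun i => by
    rw [hx, ← bv_mv, (c8d i).2.2.2.1]
  have x2 : ∀ i, ρ x⁻¹ *ᵥ bv 8 (s5 i) = bv 8 (s5 (t5 (t5 i))) := fun i => by
    conv_lhs => rw [← (c8d i).2.2.2.2.2.1, ← x1, mulVec_mulVec, ← map_mul, inv_mul_cancel, map_one,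
      one_mulVec]
  have f1 : ∀ i, f i = i := by
    have ef : ![f 0, f 1, f 2, f 3, f 4] = f := by
      ext i
      fin_cases i <;> rfl
    have := c8e (f 0) (f 1) (f 2) (f 3) (f 4)
    rw [ef] at this
    refine this (fun i => inj ?_) fun i => inj ?_
    · have := congrArg (ρ · *ᵥ bv 8 (s5 i)) a1
      simpa only [pow_succ, pow_zero, one_mul, map_mul, ← mulVec_mulVec, hf, map_one,
        one_mulVec] using this
    · have := congrArg (ρ · *ᵥ bv 8 (s5 i)) (hA.2.2.2 a ha _ (hA.1.conj_mem a ha x)).eq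
      simpa only [map_mul, ← mulVec_mulVec, hf, x1, x2] using this
  simp only [f1] at hf
  obtain ⟨m, m1, m2⟩ := solve (app_ok (colF_ok (hf 0)) (app_ok (colF_ok (hf 1))
    (app_ok (colF_ok (hf 2)) (app_ok (colF_ok (hf 3)) (comF_ok a3))))) c8f
  rw [e, m2]
  exact pow_five (by rw [← m2, ← map_pow, a1, map_one]) (by decide) (by decide) (c8g m m1)

theorem st8 (hρ : Function.Injective ρ) (hi : ∀ g, Iso (ρ g)) {x : G} (hx : ρ x = bm 8 X8)
    (h : G) : Ty (ρ h) := by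
  obtain ⟨e, y5, y1⟩ := cube8 ρ hρ hx
  have hj := fun g => (hi g).pres
  by_cases hO : ∀ P : Subgroup G, P.Normal → IsPGroup 2 P → P = ⊥
  · obtain ⟨A, hA⟩ := cen_mat ρ hρ le_rfl JJ hj hO y5 y1
    obtain ⟨k, k0, k5, hk⟩ := norm_of_cen ρ hρ y5 y1 hA (fun a ha => st_cen ρ hi hx e hA ha) h
    refine ⟨k, by interval_cases k <;> simp, 0, List.mem_cons_self, ?_, ?_, fun i j _ _ => ?_⟩
    · rw [bv_zero, mulVec_zero]
    · rw [bv_zero, zero_vecMul, zero_vecMul]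
    · rw [← e, hk]
  · push Not at hO
    obtain ⟨P, h1, h2, h3⟩ := hO
    obtain ⟨v, v0, hv⟩ := rad_mat ρ hρ hj h1 h2 h3
    have key : ∀ g, ∃ m ∈ [64, 128, 192], ρ g *ᵥ v = bv 8 m := fun g => by
      obtain ⟨m, m1, m2⟩ := bv_surj (ρ g *ᵥ v)
      obtain rfl | m3 := c8a m m1 (iso3_of ρ hx hv m2)
      exacts [absurd (vec_inj ρ g (m2.trans bv_zero)) v0, ⟨m, m3, m2⟩]
    obtain ⟨p, p1, p2⟩ := key 1
    refine st_fix ρ hj hx e p1 (fun g => ?_) h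
    obtain ⟨m, m1, m2⟩ := key g
    have := hv 1 g
    rw [p2, m2, ← bv_mv, bv_dt] at this
    obtain rfl := c8b p p1 m m1 (by
      revert this
      cases dt 8 p (mv 8 J8 m) <;> decide)
    rw [map_one, one_mulVec] at p2
    exact p2 ▸ m2

end Pool.Agent.Lib.MP_d787f3_al.Ex
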