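import Pool.Agent.Lib.MP_d787f3_al.NrmB
import Pool.Agent.Lib.MP_d787f3_al.Base
import Pool.Agent.Lib.MP_d787f3_al.FormsB

/-! Tori and model forms. -/

namespace Pool.Agent.Lib.MP_d787f3_al
open Module Function

theorem zs2 {q e : ℕ} (hq : 2 ≤ q) (he : 2 ≤ e) (hx : ¬ (q = 2 ∧ e = 3)) : ∃ r m, r.Prime ∧
    q ^ e + 1 = r * m ∧ 2 * e + 1 ≤ r ∧ ∀ i, 0 < i → i < 2 * e → ¬ r ∣ q ^ i - 1 := by
  obtain ⟨r, h1, h2, h3⟩ := zsigmondy q (2 * e) hq (by omega) (by omega)
  have := Fact.mk h1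
  rw [mul_comm, pow_mul, ← one_pow 2, Nat.sq_sub_sq, h1.dvd_mul] at h2
  have h4 := h2.resolve_right (h3 e (by omega) (by omega))
  obtain ⟨m, hm⟩ := h4
  refine ⟨r, m, h1, hm, ?_, h3⟩
  have := h1.two_le
  by_contra h
  refine h3 (r - 1) (by omega) (by omega) ((Zs.dvd_iff (by omega)).2
    (ZMod.orderOf_dvd_card_sub_one fun h => ?_))
  simpa [h, show e ≠ 0 by omega] using congrArg (Nat.cast : ℕ → ZMod r) hm

theorem ordr {K : Type*} [Monoid K] {t : K} {r m j : ℕ} (ht : orderOf t = r * m) (hm : 0 < r * m)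
    (hj : ¬ r ∣ j) : ((t ^ j) ^ m) ^ r = 1 ∧ (t ^ j) ^ m ≠ 1 := by
  simp only [← pow_mul, Ne, ← orderOf_dvd_iff_pow_eq_one, ht]
  exact ⟨⟨j, by ring⟩, fun h => hj (Nat.dvd_of_mul_dvd_mul_right (Nat.pos_of_mul_pos_left hm) h)⟩

theorem exK (F : Type*) [Field F] [Finite F] {d : ℕ} (hd : d ≠ 0) : ∃ (K : Type) (_ : Field K)
    (_ : Algebra F K) (_ : FiniteDimensional F K), finrank F K = d := by
  have := Fact.mk (CharP.char_is_prime F (ringChar F))
  have := NeZero.mk hd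
  exact ⟨FiniteField.Extension F (ringChar F) d, _, _, inferInstance,
    FiniteField.finrank_extension _ _ _⟩

theorem exT {K : Type*} [Field K] [Finite K] {Q : ℕ} (hQ : Nat.card K = Q ^ 2) :
    ∃ t : K, orderOf t = Q + 1 := by
  obtain ⟨g, hg⟩ := IsCyclic.exists_ofOrder_eq_natCard (α := Kˣ)
  have h1 : 1 < Nat.card K := Finite.one_lt_card
  have h2 : 0 < Q - 1 := by
    rw [hQ, Nat.one_lt_pow_iff two_ne_zero] at h1
    omega
  rw [Nat.card_units, hQ, ← one_pow 2, Nat.sq_sub_sq] at hg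
  exact ⟨(g ^ (Q - 1) : Kˣ), by
    rw [orderOf_units, orderOf_pow, hg, Nat.gcd_mul_left_left, Nat.mul_div_cancel _ h2]⟩

theorem exF (F K : Type*) [Field F] [Finite F] [Field K] [Algebra F K] (e : ℕ) :
    ∃ φ : K →ₐ[F] K, ∀ u, φ u = u ^ Nat.card F ^ e := by
  let _ := Fintype.ofFinite F
  induction e with
  | zero => exact ⟨1, by simp⟩
  | succ e ih =>
    obtain ⟨φ, h⟩ := ih
    exact ⟨FiniteField.frobeniusAlgHom F K * φ, fun u => by simp [h, pow_succ, pow_mul]⟩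

theorem pow_cd {K : Type*} [Field K] [Finite K] (u : K) : u ^ Nat.card K = u := by
  let _ := Fintype.ofFinite K
  rw [Nat.card_eq_fintype_card, FiniteField.pow_card]

theorem tor (F : Type*) [Field F] [Finite F] {e : ℕ} (he : e ≠ 0) : ∃ (K : Type) (_ : Field K)
    (_ : Algebra F K) (_ : FiniteDimensional F K) (bar : K ≃ₐ[F] K) (η t : K),
    finrank F K = 2 * e ∧ bar ≠ 1 ∧ (∀ u, bar (bar u) = u) ∧ η + bar η = 1 ∧ bar t * t = 1 ∧
      orderOf t = Nat.card F ^ e + 1 := by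
  obtain ⟨K, _, _, _, hd⟩ := exK F (d := 2 * e) (by omega)
  have := Module.finite_of_finite F (M := K)
  have cd : Nat.card K = (Nat.card F ^ e) ^ 2 := by
    rw [natCard_eq_pow_finrank (K := F), hd, ← pow_mul, mul_comm]
  obtain ⟨t, ht⟩ := exT cd
  obtain ⟨φ, hφ⟩ := exF F K e
  have h1 : φ t * t = 1 := by rw [hφ, ← pow_succ, ← ht, pow_orderOf_eq_one]
  have h2 : ∀ u, φ (φ u) = u := fun u => by rw [hφ, hφ, ← pow_mul, ← sq, ← cd, pow_cd]
  have h3 : AlgEquiv.ofBijective φ φ.bijective ≠ 1 := fun h => by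
    rw [show φ t = t from AlgEquiv.congr_fun h t, ← sq, ← orderOf_dvd_iff_pow_eq_one, ht] at h1
    have := Nat.le_of_dvd two_pos h1
    have := Nat.one_lt_pow he (Finite.one_lt_card (α := F))
    omega
  obtain ⟨c, hc⟩ : ∃ c, c + φ c ≠ 0 := by
    by_contra h
    push Not at h
    exact h3 (AlgEquiv.ext fun u => show φ u = u by
      have := h 1
      rw [map_one] at this
      linear_combination h u - u * this)
  refine ⟨K, _, _, ‹_›, _, c / (c + φ c), t, hd, h3, h2, ?_, h1, ht⟩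
  simp only [AlgEquiv.coe_ofBijective, map_div₀, map_add, h2, add_comm (φ c)]
  rw [← add_div, div_self hc]

theorem rootless (F : Type*) [Field F] [Finite F] :
    ∃ c : F, ∀ a b : F, a * a + c * (a * b) + b * b = 0 → a = 0 ∧ b = 0 := by
  have : ¬ Surjective fun z : Fˣ => -((z : F) + (z : F)⁻¹) := fun h => by
    have := Nat.card_le_card_of_surjective _ h
    have : 0 < Nat.card F := Nat.card_pos
    rw [Nat.card_units] at *
    omega
  simp only [Surjective, not_forall, not_exists] at this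
  obtain ⟨c, hc⟩ := this
  refine ⟨c, fun a b h => ?_⟩
  by_contra h0
  have ha : a ≠ 0 := by rintro rfl; simp_all
  have hb : b ≠ 0 := by rintro rfl; simp_all
  exact hc (Units.mk0 (a / b) (div_ne_zero ha hb)) (by
    simp only [Units.val_mk0]; field_simp; linear_combination -h)

variable {F K W : Type*} [Field F] [Finite F] [Field K] [Algebra F K] [FiniteDimensional F K]
  [AddCommGroup W] [Module F W]

omit [Finite F] [FiniteDimensional F K] in
theorem exX {t : K} (t0 : t ≠ 0) (g : W ≃ₗ[F] W) :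
    ∃ x : (K × W) ≃ₗ[F] (K × W), ∀ u w, x (u, w) = (t * u, g w) :=
  ⟨((LinearEquiv.smulOfNeZero K K t t0).restrictScalars F).prodCongr g, fun _ _ => rfl⟩

omit [FiniteDimensional F K] in
theorem Ppd.nsc {t : K} {m r : ℕ} (P : Ppd F (t ^ m) r) (hd : 1 < finrank F K)
    {x : (K × W) ≃ₗ[F] (K × W)} (hx : (x (1, 0)).1 = t) : ¬ ∃ c : F, ∀ v, x v = c • v := by
  rintro ⟨c, hc⟩
  have := Fact.mk P.pr
  refine P.ppd 1 one_pos hd ?_
  have e : t = algebraMap F K c := by rw [← hx, hc, Algebra.algebraMap_eq_smul_one]; rfl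
  have h : c ^ m ≠ 0 := fun h => by
    have := P.pow
    rw [e, ← map_pow, h, map_zero, zero_pow P.pr.ne_zero] at this
    exact zero_ne_one this
  let _ := Fintype.ofFinite F
  rw [← orderOf_eq_prime P.pow P.ne, orderOf_dvd_iff_pow_eq_one, e, ← map_pow, ← map_pow, pow_one,
    Nat.card_eq_fintype_card, FiniteField.pow_card_sub_one_eq_one _ h, map_one]

variable {σ : F →+* F} {bar : K →+* K} {β : K} {BW : W →ₛₗ[σ] W →ₗ[F] F}
  {B : K × W →ₛₗ[σ] K × W →ₗ[F] F}

omit [Finite F] [FiniteDimensional F K] in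
theorem exB (hb : ∀ c, bar (algebraMap F K c) = algebraMap F K (σ c)) (β : K)
    (BW : W →ₛₗ[σ] W →ₗ[F] F) : ∃ B : K × W →ₛₗ[σ] K × W →ₗ[F] F,
      ∀ u w u' w', B (u, w) (u', w') = Algebra.trace F K (β * (bar u * u')) + BW w w' :=
  ⟨LinearMap.mk₂'ₛₗ σ (RingHom.id F)
    (fun v v' => Algebra.trace F K (β * (bar v.1 * v'.1)) + BW v.2 v'.2)
    (fun _ _ _ => by simp [mul_add, add_mul]; ring) (fun c v v' => by
      rw [Prod.smul_fst, Algebra.smul_def, map_mul bar, hb, ← Algebra.smul_def]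
      simp [mul_add]) (fun _ _ _ => by simp [mul_add]; ring) (fun _ _ _ => by simp [mul_add]),
    fun _ _ _ _ => rfl⟩

variable (hB : ∀ u w u' w', B (u, w) (u', w') = Algebra.trace F K (β * (bar u * u')) + BW w w')
  (β0 : β ≠ 0)
include hB β0

theorem ndL {u : K} {w : W} (h : ∀ u', B (u, w) (u', 0) = 0) : u = 0 := by
  simpa [β0] using Bs.tr_nondeg (F := F) (x := β * bar u) fun u' => by simpa [hB, mul_assoc] using h u'

theorem ndR (h2 : ∀ u, bar (bar u) = u) {u : K} {w : W} (h : ∀ u', B (u', 0) (u, w) = 0) : u = 0 := by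
  simpa [β0] using Bs.tr_nondeg (F := F) (x := β * u) fun u' => by
    simpa [hB, h2, mul_assoc, mul_comm u'] using h (bar u')

theorem ndB (h2 : ∀ u, bar (bar u) = u) (nW : BW.Nondegenerate) : B.Nondegenerate :=
  ⟨fun ⟨u, w⟩ h => Prod.ext (ndL hB β0 fun _ => h _) (nW.1 w fun w' => by simpa [hB] using h (0, w')),
   fun ⟨u, w⟩ h => Prod.ext (ndR hB β0 h2 fun _ => h _)
    (nW.2 w fun w' => by simpa [hB] using h (0, w'))⟩

theorem hPB (aW : ∀ w, BW w w = 0 → w = 0) {g : (K × W) ≃ₗ[F] (K × W)} (hg : g ∈ isom B)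
    (h : ∀ u, (g (u, 0)).1 = u) : (∀ u, g (u, 0) = (u, 0)) ∧ ∀ w, (g (0, w)).1 = 0 := by
  have h1 : ∀ u, g (u, 0) = (u, 0) := fun u => Prod.ext (h u) (aW _ (by
    have := hg (u, 0) (u, 0)
    rw [show g (u, 0) = (u, (g (u, 0)).2) from Prod.ext (h u) rfl, hB, hB] at this
    simpa using this))
  refine ⟨h1, fun w => ndL hB β0 (w := (g (0, w)).2) fun u => ?_⟩
  rw [← h1, Prod.mk.eta, hg]
  simp [hB]

omit β0 [Finite F] [FiniteDimensional F K] in
theorem memB {t : K} (ht : bar t * t = 1) {g : W → W} (hg : ∀ w w', BW (g w) (g w') = BW w w')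
    {x : (K × W) ≃ₗ[F] (K × W)} (ex : ∀ u w, x (u, w) = (t * u, g w)) : x ∈ isom B :=
  fun ⟨u, w⟩ ⟨u', w'⟩ => by
    rw [ex, ex, hB, hB, hg, map_mul bar, mul_mul_mul_comm, ht, one_mul]

end Pool.Agent.Lib.MP_d787f3_al
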